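import Pool.Agent.W245.EB.CMz

set_option autoImplicit false
set_option linter.unusedVariables false
set_option linter.unusedSectionVars false
set_option linter.unusedSimpArgs false

/-!
# Complex multiplication and the function `ζ`, second part
-/

open Filter
open scoped Topology PeriodPair

noncomputable section

namespace Pool.Agent.W245.EB

open H667R3

variable {L : PeriodPair} {α : ℂ}

lemma exists_generic_mul (h2 : IsAlgebraic ℚ L.g₂) (h3 : IsAlgebraic ℚ L.g₃) (hα : α ≠ 0)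
    (hm : ∀ w ∈ L.lattice, α * w ∈ L.lattice) :
    ∃ z : ℂ, z ∈ EL L ∧ α * z ∉ L.lattice ∧ α * (2 * z) ∉ L.lattice ∧ α * z ∈ EL L := by
  set G : Submodule ℤ ℂ := Submodule.span ℤ {α⁻¹ * L.ω₁ / 2, α⁻¹ * L.ω₂ / 2} with hG
  have hfg : G.FG := Submodule.fg_span (Set.toFinite _)
  obtain ⟨e, he⟩ := exists_notMem G hfg (ω₁_ne_zero L)
  have g1 : α⁻¹ * L.ω₁ / 2 ∈ G := Submodule.subset_span (by simp)
  have g2 : α⁻¹ * L.ω₂ / 2 ∈ G := Submodule.subset_span (by simp)
  have hz2 : α * (2 * (L.ω₁ / 2 ^ e)) ∉ L.lattice := by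
    intro h
    apply he
    obtain ⟨a, a', e1⟩ := PeriodPair.mem_lattice.1 h
    have : L.ω₁ / 2 ^ e = a • (α⁻¹ * L.ω₁ / 2) + a' • (α⁻¹ * L.ω₂ / 2) := by
      rw [zsmul_eq_mul, zsmul_eq_mul]
      have h5 : L.ω₁ / 2 ^ e = α⁻¹ / 2 * (α * (2 * (L.ω₁ / 2 ^ e))) := by field_simp
      rw [h5, ← e1]
      ring
    rw [this]
    exact G.add_mem (G.smul_mem _ g1) (G.smul_mem _ g2)
  refine ⟨L.ω₁ / 2 ^ e, div_two_pow_EL h2 h3 (Or.inl L.ω₁_mem_lattice) _, ?_, hz2, ?_⟩
  · intro h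
    apply hz2
    have := add_mem h h
    convert this using 1
    ring
  · have h4 := div_two_pow_EL h2 h3 (w := α * L.ω₁) (Or.inl (hm _ L.ω₁_mem_lattice)) e
    convert h4 using 1
    ring

lemma out_mem_EL (h2 : IsAlgebraic ℚ L.g₂) (h3 : IsAlgebraic ℚ L.g₃) {hα : α ≠ 0}
    {hm : ∀ w ∈ L.lattice, α * w ∈ L.lattice} {x : Qt L} (hx : x ∈ ker hα hm) : x.out ∈ EL L := by
  obtain ⟨m, hm0, h⟩ := exists_tors hα hm
  exact torsion_EL h2 h3 hm0 (h _ (mem_ker.1 hx))

lemma sub_mem_EL (h2 : IsAlgebraic ℚ L.g₂) (h3 : IsAlgebraic ℚ L.g₃) {u v : ℂ} (hu : u ∈ EL L)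
    (hv : v ∈ EL L) : u - v ∈ EL L := by
  rw [← mem_ELg h2 h3] at *
  exact sub_mem hu hv

lemma add_mem_EL (h2 : IsAlgebraic ℚ L.g₂) (h3 : IsAlgebraic ℚ L.g₃) {u v : ℂ} (hu : u ∈ EL L)
    (hv : v ∈ EL L) : u + v ∈ EL L := by
  rw [← mem_ELg h2 h3] at *
  exact add_mem hu hv

/-- the multiplication formula for `℘` -/
lemma wp_mul_alg (h2 : IsAlgebraic ℚ L.g₂) (h3 : IsAlgebraic ℚ L.g₃) (hα : α ≠ 0)
    (hm : ∀ w ∈ L.lattice, α * w ∈ L.lattice) :
    ∃ c ∈ QB, ∀ z, α * z ∉ L.lattice →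
      α ^ 2 * ℘[L] (α * z) = ∑ x ∈ ker hα hm, ℘[L] (z - x.out) + c := by
  obtain ⟨z₀, hz₀, h1, _, h4⟩ := exists_generic_mul h2 h3 hα hm
  have hαQ : α ∈ QB := mem_QB.2 (alg_of_mul hm)
  refine ⟨α ^ 2 * ℘[L] (α * z₀) - ∑ x ∈ ker hα hm, ℘[L] (z₀ - x.out), ?_, ?_⟩
  · apply sub_mem
    · exact mul_mem (pow_mem hαQ 2) (mem_QB.2 (h4.resolve_left h1))
    · apply sum_mem
      intro x hx
      rw [mem_QB]
      exact (sub_mem_EL h2 h3 hz₀ (out_mem_EL h2 h3 hx)).resolve_left (sub_out_notMem h1 hx)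
  · intro z hz
    have := wp_mul_const hα hm z z₀ hz h1
    linear_combination this

/-- elliptic logarithms of algebraic points are stable under the multiplications -/
lemma mul_mem_EL (h2 : IsAlgebraic ℚ L.g₂) (h3 : IsAlgebraic ℚ L.g₃)
    (hm : ∀ w ∈ L.lattice, α * w ∈ L.lattice) {u : ℂ} (hu : u ∈ EL L) : α * u ∈ EL L := by
  by_cases hα : α = 0
  · rw [hα, zero_mul]
    exact Or.inl (zero_mem _)
  by_cases h : α * u ∈ L.lattice
  · exact Or.inl h
  right
  obtain ⟨c, hc, hf⟩ := wp_mul_alg h2 h3 hα hm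
  have hαQ : α ∈ QB := mem_QB.2 (alg_of_mul hm)
  have h4 := hf u h
  have h5 : α ^ 2 ≠ 0 := pow_ne_zero _ hα
  have h6 : ℘[L] (α * u) = (∑ x ∈ ker hα hm, ℘[L] (u - x.out) + c) / α ^ 2 := by
    rw [← h4]
    field_simp
  rw [← mem_QB, h6]
  apply div_mem _ (pow_mem hαQ 2)
  apply add_mem _ hc
  apply sum_mem
  intro x hx
  rw [mem_QB]
  exact (sub_mem_EL h2 h3 hu (out_mem_EL h2 h3 hx)).resolve_left (sub_out_notMem h hx)

/-- the multiplication formula for `ζ` -/
lemma zeta_mul (hα : α ≠ 0) (hm : ∀ w ∈ L.lattice, α * w ∈ L.lattice) {c : ℂ}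
    (hc : ∀ z, α * z ∉ L.lattice →
      α ^ 2 * ℘[L] (α * z) = ∑ x ∈ ker hα hm, ℘[L] (z - x.out) + c) :
    ∃ c₂ : ℂ, ∀ z, α * z ∉ L.lattice →
      α * zeta L (α * z) = ∑ x ∈ ker hα hm, zeta L (z - x.out) - c * z + c₂ := by
  set g : ℂ → ℂ := fun z => α * zeta L (α * z) - ∑ x ∈ ker hα hm, zeta L (z - x.out) + c * z with hg
  have hder : ∀ z, z ∉ (scL L α hα).lattice → HasDerivAt g 0 z := by
    intro z hz
    have hz' : α * z ∉ L.lattice := fun h => hz (mem_scL.2 h)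
    have d1 : HasDerivAt (fun z => α * zeta L (α * z)) (α * (-℘[L] (α * z) * α)) z := by
      have h0 : HasDerivAt (fun x : ℂ => α * x) α z := by
        simpa using (hasDerivAt_id z).const_mul α
      exact ((hasDerivAt_zeta L hz').comp z h0).const_mul α
    have d2 : HasDerivAt (fun z => ∑ x ∈ ker hα hm, zeta L (z - x.out))
        (∑ x ∈ ker hα hm, (-℘[L] (z - x.out))) z := by
      apply HasDerivAt.fun_sum
      intro x hx
      exact (hasDerivAt_zeta L (sub_out_notMem hz' hx)).comp_sub_const z _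
    have d3 : HasDerivAt (fun z => c * z) c z := by
      simpa using (hasDerivAt_id z).const_mul c
    refine ((d1.fun_sub d2).fun_add d3).congr_deriv ?_
    rw [Finset.sum_neg_distrib]
    have := hc z hz'
    linear_combination -this
  obtain ⟨z₀, hz₀⟩ : ∃ z₀, z₀ ∉ (scL L α hα).lattice := ⟨_, (scL L α hα).ω₁_div_two_notMem_lattice⟩
  refine ⟨g z₀, fun z hz => ?_⟩
  have h1 : g z = g z₀ :=
    (isOpen_compl (scL L α hα)).is_const_of_deriv_eq_zero (isPreconnected_compl (scL L α hα))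
      (fun x hx => (hder x hx).differentiableAt.differentiableWithinAt)
      (fun x hx => (hder x hx).deriv) (fun h => hz (mem_scL.1 h)) hz₀
  rw [← h1, hg]
  ring

lemma zt_add_QB (h2 : IsAlgebraic ℚ L.g₂) (h3 : IsAlgebraic ℚ L.g₃) {u v : ℂ} (hu : u ∈ EL L)
    (hv : v ∈ EL L) : zt L (u + v) - zt L u - zt L v ∈ QB := by
  rw [EL_eq h2 h3] at hu hv
  exact zt_add (mem_QB.2 h2) hu hv

/-- the action of the multiplications on `ζ` modulo the algebraic numbers -/
theorem zt_mul (h2 : IsAlgebraic ℚ L.g₂) (h3 : IsAlgebraic ℚ L.g₃) (hα : α ≠ 0)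
    (hm : ∀ w ∈ L.lattice, α * w ∈ L.lattice) :
    ∃ (N : ℕ) (κ : ℂ), 0 < N ∧ κ ∈ QB ∧
      ∀ u ∈ EL L, zt L (α * u) - (N / α * zt L u + κ * u) ∈ QB := by
  obtain ⟨c, hcQ, hc⟩ := wp_mul_alg h2 h3 hα hm
  obtain ⟨c₂, hc₂⟩ := zeta_mul hα hm hc
  have hαQ : α ∈ QB := mem_QB.2 (alg_of_mul hm)
  set N := (ker hα hm).card with hN
  have hNpos : 0 < N := Finset.card_pos.2 ⟨0, zero_mem_ker hα hm⟩
  set S := ∑ x ∈ ker hα hm, zt L x.out with hS
  -- away from the kernel
  have hgen : ∀ u ∈ EL L, α * u ∉ L.lattice →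
      α * zt L (α * u) - (N * zt L u - c * u) - (c₂ - S) ∈ QB := by
    intro u hu h
    have h4 := hc₂ u h
    rw [← zt_of_notMem h] at h4
    have h5 : ∑ x ∈ ker hα hm, zeta L (u - x.out) = ∑ x ∈ ker hα hm, zt L (u - x.out) := by
      apply Finset.sum_congr rfl
      intro x hx
      rw [zt_of_notMem (sub_out_notMem h hx)]
    rw [h5] at h4
    have h6 : ∑ x ∈ ker hα hm, (zt L (u - x.out) - zt L u + zt L x.out) ∈ QB := by
      apply sum_mem
      intro x hx
      have h7 := zt_add_QB h2 h3 (sub_mem_EL h2 h3 hu (out_mem_EL h2 h3 hx)) (out_mem_EL h2 h3 hx)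
      rw [sub_add_cancel] at h7
      have h8 := neg_mem h7
      convert h8 using 1
      ring
    have h7 : ∑ x ∈ ker hα hm, (zt L (u - x.out) - zt L u + zt L x.out) =
        ∑ x ∈ ker hα hm, zt L (u - x.out) - N * zt L u + S := by
      rw [Finset.sum_add_distrib, Finset.sum_sub_distrib, Finset.sum_const, nsmul_eq_mul]
    rw [h7] at h6
    convert h6 using 1
    rw [h4]
    ring
  obtain ⟨z, hz, hz1, hz2, hαz⟩ := exists_generic_mul h2 h3 hα hm
  -- the constant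
  have hconst : c₂ - S ∈ QB := by
    have h2z : 2 * z ∈ EL L := by rw [two_mul]; exact add_mem_EL h2 h3 hz hz
    have a1 := hgen z hz hz1
    have a2 := hgen (2 * z) h2z hz2
    have a3 := zt_add_QB h2 h3 hz hz
    have a4 := zt_add_QB h2 h3 hαz hαz
    rw [← two_mul] at a3
    rw [← mul_add, ← two_mul] at a4
    have h4 : (α * zt L (α * (2 * z)) - (N * zt L (2 * z) - c * (2 * z)) - (c₂ - S)) -
        (2 : ℂ) * (α * zt L (α * z) - (N * zt L z - c * z) - (c₂ - S)) -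
        α * (zt L (α * (2 * z)) - zt L (α * z) - zt L (α * z)) +
        (N : ℂ) * (zt L (2 * z) - zt L z - zt L z) ∈ QB :=
      add_mem (sub_mem (sub_mem a2 (mul_mem (ofNat_mem QB 2) a1)) (mul_mem hαQ a4))
        (mul_mem (natCast_mem _ _) a3)
    convert h4 using 1
    push_cast
    ring
  have hgen' : ∀ u ∈ EL L, α * u ∉ L.lattice →
      zt L (α * u) - (N / α * zt L u + -(c / α) * u) ∈ QB := by
    intro u hu h
    have h4 := add_mem (hgen u hu h) hconst
    have h5 := div_mem h4 hαQ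
    convert h5 using 1
    field_simp
    ring
  refine ⟨N, -(c / α), hNpos, neg_mem (div_mem hcQ hαQ), fun u hu => ?_⟩
  by_cases h : α * u ∈ L.lattice
  · have hmuz : α * (u + z) ∉ L.lattice := by
      intro h'
      apply hz1
      have := sub_mem h' h
      rwa [show α * (u + z) - α * u = α * z by ring] at this
    have a1 := hgen' (u + z) (add_mem_EL h2 h3 hu hz) hmuz
    have a2 := hgen' z hz hz1
    have a3 := zt_add_QB h2 h3 hu hz
    have a4 := zt_add_QB h2 h3 (mul_mem_EL h2 h3 hm hu) hαz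
    rw [← mul_add] at a4
    have hNα : (N : ℂ) / α ∈ QB := div_mem (natCast_mem _ _) hαQ
    have h4 := add_mem (sub_mem (sub_mem a1 a2) a4) (mul_mem hNα a3)
    convert h4 using 1
    ring
  · exact hgen' u hu h

/-- the conjugate multiplier is different from the multiplier -/
lemma ne_conj {α : ℂ} (hα : α.im ≠ 0) {N : ℕ} (hN : 0 < N) : (N : ℂ) / α ≠ α := by
  intro h
  have hα0 : α ≠ 0 := by
    rintro rfl
    exact hα (by simp)
  have h1 : α * α = N := by
    field_simp at h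
    rw [← h.symm]
    ring
  have him := congrArg Complex.im h1
  have hre := congrArg Complex.re h1
  simp only [Complex.mul_im, Complex.mul_re, Complex.natCast_im, Complex.natCast_re] at him hre
  have h2 : α.re = 0 := by
    have h3 : α.re * α.im = 0 := by linarith
    exact (mul_eq_zero.1 h3).resolve_right hα
  rw [h2] at hre
  have h3 : (0 : ℝ) < N := by exact_mod_cast hN
  nlinarith [mul_self_nonneg α.im]

end Pool.Agent.W245.EB
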