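import Pool.Agent.W245.EB.Core7

set_option autoImplicit false
set_option linter.unusedVariables false
set_option linter.unusedSectionVars false
set_option linter.unusedSimpArgs false

/-!
# The homogeneous elliptic Baker theorem (Masser, Bertrand-Masser)

Elliptic logarithms of algebraic points which are linearly independent over the field of
multiplications are linearly independent over the field of algebraic numbers.
-/

open Filter NumberField
open scoped Topology PeriodPair

noncomputable section

namespace Pool.Agent.W245.EB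

open H667R3

/-- the field of multiplications: numbers `α` such that `m α Ω ⊂ Ω` for some `m ≥ 1` -/
def kL (L : PeriodPair) : Subring ℂ where
  carrier := {α | ∃ m : ℕ, 0 < m ∧ ∀ w ∈ L.lattice, (m : ℂ) * α * w ∈ L.lattice}
  zero_mem' := ⟨1, one_pos, fun w hw => by simp⟩
  one_mem' := ⟨1, one_pos, fun w hw => by simpa using hw⟩
  add_mem' := by
    rintro a b ⟨m, hm, ha⟩ ⟨m', hm', hb⟩
    refine ⟨m * m', Nat.mul_pos hm hm', fun w hw => ?_⟩
    have h1 := nsmul_mem (ha w hw) m'
    have h2 := nsmul_mem (hb w hw) m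
    have h3 := add_mem h1 h2
    rw [nsmul_eq_mul, nsmul_eq_mul] at h3
    convert h3 using 1
    push_cast
    ring
  mul_mem' := by
    rintro a b ⟨m, hm, ha⟩ ⟨m', hm', hb⟩
    refine ⟨m * m', Nat.mul_pos hm hm', fun w hw => ?_⟩
    have h1 := ha _ (hb w hw)
    convert h1 using 1
    push_cast
    ring
  neg_mem' := by
    rintro a ⟨m, hm, ha⟩
    refine ⟨m, hm, fun w hw => ?_⟩
    have h1 := neg_mem (ha w hw)
    convert h1 using 1
    ring

lemma mem_kL {L : PeriodPair} {α : ℂ} : α ∈ kL L ↔
    ∃ m : ℕ, 0 < m ∧ ∀ w ∈ L.lattice, (m : ℂ) * α * w ∈ L.lattice := Iff.rfl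

lemma intCast_mem_kL (L : PeriodPair) (a : ℤ) : (a : ℂ) ∈ kL L := intCast_mem _ _

lemma ratCast_mem_kL (L : PeriodPair) (a : ℚ) : (a : ℂ) ∈ kL L := by
  refine ⟨a.den, a.den_pos, fun w hw => ?_⟩
  have h1 : ((a.den : ℕ) : ℂ) * (a : ℂ) = (a.num : ℂ) := by
    have := Rat.den_mul_eq_num a
    exact_mod_cast this
  rw [h1]
  have := zsmul_mem hw a.num
  rwa [zsmul_eq_mul] at this

variable {L : PeriodPair}

/-- clearing denominators of rational numbers -/
lemma exists_den_rat {α : Type*} [Fintype α] (f : α → ℚ) :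
    ∃ N : ℕ, 0 < N ∧ ∀ a, ∃ z : ℤ, (N : ℚ) * f a = z := by
  classical
  refine ⟨∏ a, (f a).den, Finset.prod_pos fun a _ => (f a).den_pos, fun a => ?_⟩
  refine ⟨(∏ b ∈ Finset.univ.erase a, (f b).den) * (f a).num, ?_⟩
  rw [← Finset.mul_prod_erase _ _ (Finset.mem_univ a)]
  have := Rat.den_mul_eq_num (f a)
  push_cast
  rw [← this]
  ring

section red

variable (K : IntermediateField ℚ ℂ) {ι : Type} [Fintype ι] [DecidableEq ι] (B : Module.Basis ι ℚ K)
  (lam : ι → ℂ)

/-- the vector attached to an element of the number field -/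
def Vx (x : K) (i : ι) : ℂ := ∑ j, ((B.repr (x * B j) i : ℚ) : ℂ) * lam j

lemma sum_Vx (σ : K →ₐ[ℚ] ℂ) (x : K) :
    ∑ i, σ (B i) * Vx K B lam x i = σ x * ∑ i, σ (B i) * lam i := by
  have h1 : ∀ j, ∑ i, σ (B i) * ((B.repr (x * B j) i : ℚ) : ℂ) = σ x * σ (B j) := by
    intro j
    rw [← map_mul]
    conv_rhs => rw [← B.sum_repr (x * B j)]
    rw [map_sum]
    apply Finset.sum_congr rfl
    intro i _
    rw [map_rat_smul, Rat.smul_def, mul_comm]
  simp only [Vx, Finset.mul_sum]
  rw [Finset.sum_comm]
  apply Finset.sum_congr rfl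
  intro j _
  rw [← mul_assoc, ← h1, Finset.sum_mul]
  apply Finset.sum_congr rfl
  intro i _
  ring

/-- the rows are independent -/
lemma rows_indep : LinearIndependent ℂ (fun (σ : K →ₐ[ℚ] ℂ) (i : ι) => σ (B i)) := by
  rw [linearIndependent_iff']
  intro s g hg
  have h1 : ∑ σ ∈ s, g σ • (AlgHom.toLinearMap σ : K →ₗ[ℚ] ℂ) = 0 := by
    apply B.ext
    intro i
    have := congrFun hg i
    simpa using this
  exact linearIndependent_iff'.1 (linearIndependent_toLinearMap ℚ K ℂ) s g h1

end red

/-- The homogeneous elliptic Baker theorem: elliptic logarithms of algebraic points which are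
linearly independent over the field of multiplications are linearly independent over the algebraic
numbers. -/
theorem elliptic_baker (h2 : IsAlgebraic ℚ L.g₂) (h3 : IsAlgebraic ℚ L.g₃) {m : ℕ} (l : Fin m → ℂ)
    (hl : ∀ r, l r ∈ EL L)
    (hind : ∀ α : Fin m → ℂ, (∀ r, α r ∈ kL L) → ∑ r, α r * l r = 0 → α = 0)
    (γ : Fin m → ℂ) (hγ : ∀ r, IsAlgebraic ℚ (γ r)) (h0 : ∑ r, γ r * l r = 0) : γ = 0 := by
  classical
  set K : IntermediateField ℚ ℂ := IntermediateField.adjoin ℚ (Set.range γ) with hK
  have hKfin : FiniteDimensional ℚ K :=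
    IntermediateField.finiteDimensional_adjoin (by
      rintro _ ⟨r, rfl⟩
      exact (hγ r).isIntegral)
  have hγK : ∀ r, γ r ∈ K := fun r => IntermediateField.subset_adjoin ℚ _ ⟨r, rfl⟩
  set δ := Module.finrank ℚ K with hδ
  set B : Module.Basis (Fin δ) ℚ K := Module.finBasis ℚ K with hB
  -- coordinates of the coefficients
  obtain ⟨D, hD, hc⟩ := exists_den_rat (fun z : Fin m × Fin δ => B.repr ⟨γ z.1, hγK z.1⟩ z.2)
  choose cc hcc using hc
  set c : Fin m → Fin δ → ℤ := fun r i => cc (r, i) with hcdef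
  have hcγ : ∀ r, ∑ i, (c r i : ℂ) * (B i : ℂ) = D * γ r := by
    intro r
    have h1 := B.sum_repr ⟨γ r, hγK r⟩
    have h2 := congrArg (fun x : K => (D : ℂ) * (x : ℂ)) h1
    simp only at h2
    rw [← h2]
    rw [show ((∑ i, (B.repr ⟨γ r, hγK r⟩ i) • B i : K) : ℂ) =
      ∑ i, ((B.repr ⟨γ r, hγK r⟩ i : ℚ) : ℂ) * (B i : ℂ) by
        rw [← K.coe_val, map_sum]
        apply Finset.sum_congr rfl
        intro i _
        rw [map_rat_smul, Rat.smul_def]]
    rw [Finset.mul_sum]
    apply Finset.sum_congr rfl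
    intro i _
    have h4 := hcc (r, i)
    have h5 : (D : ℂ) * ((B.repr ⟨γ r, hγK r⟩ i : ℚ) : ℂ) = (c r i : ℂ) := by
      rw [hcdef]
      exact_mod_cast h4
    rw [← h5]
    ring
  set lam : Fin δ → ℂ := fun i => ∑ r, (c r i : ℂ) * l r with hlam
  have hELint : ∀ (a : ℤ) (u : ℂ), u ∈ EL L → (a : ℂ) * u ∈ ELg L h2 h3 := by
    intro a u hu
    rw [← zsmul_eq_mul]
    exact zsmul_mem ((mem_ELg h2 h3).2 hu) a
  have hlamE : ∀ i, lam i ∈ EL L := by
    intro i
    rw [← mem_ELg h2 h3]
    exact sum_mem fun r _ => hELint _ _ (hl r)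
  -- the relation
  have hrel : ∑ i, (B i : ℂ) * lam i = 0 := by
    rw [hlam]
    simp only [Finset.mul_sum]
    rw [Finset.sum_comm]
    have : ∀ r, ∑ i, (B i : ℂ) * ((c r i : ℂ) * l r) = (D * γ r) * l r := by
      intro r
      rw [← hcγ, Finset.sum_mul]
      apply Finset.sum_congr rfl
      intro i _
      ring
    simp only [this]
    have h4 : ∑ r, (D : ℂ) * γ r * l r = D * ∑ r, γ r * l r := by
      rw [Finset.mul_sum]
      apply Finset.sum_congr rfl
      intro r _
      ring
    rw [h4, h0, mul_zero]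
  -- rows over the algebraic numbers
  have hσalg : ∀ (σ : K →ₐ[ℚ] ℂ) i, σ (B i) ∈ QB := by
    intro σ i
    rw [mem_QB]
    exact IsAlgebraic.algHom σ (Algebra.IsAlgebraic.isAlgebraic (R := ℚ) (B i))
  set Mq : (K →ₐ[ℚ] ℂ) → Fin δ → QB := fun σ i => ⟨σ (B i), hσalg σ i⟩ with hMq
  set Z : Set (K →ₐ[ℚ] ℂ) := {σ | ∑ i, σ (B i) * lam i = 0} with hZ
  set A : Submodule QB (Fin δ → QB) := Submodule.span QB (Mq '' Z) with hA
  set Q := (Fin δ → QB) ⧸ A with hQ
  set v : Fin δ → Q := fun i => A.mkQ (Pi.single i 1) with hv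
  have hvspan : Submodule.span QB (Set.range v) = ⊤ := by
    have h4 : Set.range v = A.mkQ '' (Set.range fun i : Fin δ => (Pi.single i 1 : Fin δ → QB)) := by
      rw [← Set.range_comp]
      rfl
    rw [h4, Submodule.span_image]
    have h5 : Submodule.span QB (Set.range fun i : Fin δ => (Pi.single i 1 : Fin δ → QB)) = ⊤ := by
      have := (Pi.basisFun QB (Fin δ)).span_eq
      convert this using 3
      ext i : 1
      rw [Pi.basisFun_apply]
    rw [h5, Submodule.map_top, Submodule.range_mkQ]
  obtain ⟨κ, a, ha, haspan, hali⟩ := exists_linearIndependent' QB v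
  have hκfin : Finite κ := Finite.of_injective a ha
  have hκf : Fintype κ := Fintype.ofFinite κ
  set Bq : Module.Basis κ QB Q := Module.Basis.mk hali (by rw [haspan, hvspan]) with hBq
  set b : Fin δ → κ → QB := fun i j => Bq.repr (v i) j with hb
  -- property (b)
  have hpb : ∀ j j', b (a j) j' = if j = j' then 1 else 0 := by
    intro j j'
    have h4 : v (a j) = Bq j := by
      rw [hBq, Module.Basis.mk_apply]
      rfl
    rw [hb]
    simp only
    rw [h4, Module.Basis.repr_self, Finsupp.single_apply]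
  -- property (c)
  have hpc : ∀ σ ∈ Z, ∀ j, ∑ i, σ (B i) * (b i j : ℂ) = 0 := by
    intro σ hσ j
    have h4 : A.mkQ (Mq σ) = 0 := by
      rw [Submodule.mkQ_apply, Submodule.Quotient.mk_eq_zero]
      exact Submodule.subset_span ⟨σ, hσ, rfl⟩
    have h5 : Mq σ = ∑ i, Mq σ i • (Pi.single i 1 : Fin δ → QB) := by
      funext i
      simp [Finset.sum_apply, Pi.single_apply]
    rw [h5, map_sum] at h4
    simp only [map_smul] at h4
    have h6 := congrArg (fun x => Bq.repr x j) h4
    simp only [map_sum, map_smul, map_zero, Finsupp.coe_zero, Pi.zero_apply, Finsupp.coe_finsetSum,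
      Finset.sum_apply, Finsupp.coe_smul, Pi.smul_apply, smul_eq_mul] at h6
    have h7 := congrArg (fun x : QB => (x : ℂ)) h6
    simp only [ZeroMemClass.coe_zero] at h7
    rw [← h7, AddSubmonoidClass.coe_finsetSum]
    apply Finset.sum_congr rfl
    intro i _
    rfl
  -- property (a)
  have hpa : ∀ z : Fin δ → ℂ, (∀ σ ∈ Z, ∑ i, σ (B i) * z i = 0) →
      ∀ i, z i = ∑ j, (b i j : ℂ) * z (a j) := by
    intro z hz i
    let F : (Fin δ → QB) →ₗ[QB] ℂ :=
      { toFun := fun w => ∑ i, (w i : ℂ) * z i
        map_add' := by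
          intro w w'
          simp [add_mul, Finset.sum_add_distrib]
        map_smul' := by
          intro r w
          simp only [Pi.smul_apply, smul_eq_mul, RingHom.id_apply, Algebra.smul_def, Finset.mul_sum]
          apply Finset.sum_congr rfl
          intro i _
          show ((r * w i : QB) : ℂ) * z i = (r : ℂ) * ((w i : ℂ) * z i)
          rw [MulMemClass.coe_mul]
          ring }
    have hFA : A ≤ LinearMap.ker F := by
      rw [hA, Submodule.span_le]
      rintro _ ⟨σ, hσ, rfl⟩
      exact hz σ hσ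
    have h4 : Pi.single i 1 - ∑ j, b i j • (Pi.single (a j) 1 : Fin δ → QB) ∈ A := by
      rw [← Submodule.ker_mkQ A, LinearMap.mem_ker, map_sub, map_sum]
      simp only [map_smul]
      rw [sub_eq_zero]
      have h5 := Bq.sum_repr (v i)
      rw [← hv] at *
      rw [show A.mkQ (Pi.single i 1) = v i from rfl, ← h5]
      apply Finset.sum_congr rfl
      intro j _
      have h6 : Bq j = A.mkQ (Pi.single (a j) 1) := by
        rw [hBq, Module.Basis.mk_apply]
        rfl
      rw [h6]
    have h5 := hFA h4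
    rw [LinearMap.mem_ker, map_sub, map_sum] at h5
    have h6 : ∀ k : Fin δ, F (Pi.single k 1) = z k := by
      intro k
      show ∑ i, ((Pi.single k 1 : Fin δ → QB) i : ℂ) * z i = z k
      rw [Finset.sum_eq_single k]
      · simp
      · intro i _ hi
        simp [hi]
      · intro h
        exact absurd (Finset.mem_univ _) h
    rw [h6, sub_eq_zero] at h5
    rw [h5]
    apply Finset.sum_congr rfl
    intro j _
    rw [map_smul, h6]
    rfl
  -- the vectors
  have hVZ : ∀ x : K, ∀ σ ∈ Z, ∑ i, σ (B i) * Vx K B lam x i = 0 := by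
    intro x σ hσ
    rw [sum_Vx]
    have : ∑ i, σ (B i) * lam i = 0 := hσ
    rw [this, mul_zero]
  -- the projections span
  have hspan : Submodule.span ℂ (Set.range fun (x : K) (j : κ) => Vx K B lam x (a j)) = ⊤ := by
    by_contra hcon
    obtain ⟨f, hf0, hf⟩ := Submodule.exists_le_ker_of_lt_top _ (lt_top_iff_ne_top.2 hcon)
    apply hf0
    set ah : κ → ℂ := fun j => f (Pi.single j 1) with hah
    have hfz : ∀ z : κ → ℂ, f z = ∑ j, ah j * z j := by
      intro z
      have h4 : z = ∑ j, z j • (Pi.single j 1 : κ → ℂ) := by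
        funext i
        simp [Finset.sum_apply, Pi.single_apply]
      conv_lhs => rw [h4]
      rw [map_sum]
      apply Finset.sum_congr rfl
      intro j _
      rw [map_smul, smul_eq_mul, mul_comm]
    have hfV : ∀ x : K, ∑ j, ah j * Vx K B lam x (a j) = 0 := by
      intro x
      rw [← hfz]
      exact hf (Submodule.subset_span ⟨x, rfl⟩)
    -- extension by zero
    set a' : Fin δ → ℂ := ∑ j, ah j • (Pi.single (a j) 1 : Fin δ → ℂ) with ha'
    have ha'z : ∀ z : Fin δ → ℂ, ∑ i, a' i * z i = ∑ j, ah j * z (a j) := by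
      intro z
      rw [ha']
      simp only [Finset.sum_apply, Pi.smul_apply, smul_eq_mul, Finset.sum_mul]
      rw [Finset.sum_comm]
      apply Finset.sum_congr rfl
      intro j _
      rw [Finset.sum_eq_single (a j)]
      · simp
      · intro i _ hi
        simp [hi]
      · intro h
        exact absurd (Finset.mem_univ _) h
    have hrows : Submodule.span ℂ (Set.range fun (σ : K →ₐ[ℚ] ℂ) (i : Fin δ) => σ (B i)) = ⊤ := by
      apply (rows_indep K B).span_eq_top_of_card_eq_finrank'
      rw [AlgHom.card]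
      simp [hδ]
    have ha'mem : a' ∈ Submodule.span ℂ (Set.range fun (σ : K →ₐ[ℚ] ℂ) (i : Fin δ) => σ (B i)) := by
      rw [hrows]; trivial
    rw [Submodule.mem_span_range_iff_exists_fun] at ha'mem
    obtain ⟨y, hy⟩ := ha'mem
    have hy' : ∀ z : Fin δ → ℂ, ∑ i, a' i * z i = ∑ σ, y σ * ∑ i, σ (B i) * z i := by
      intro z
      rw [← hy]
      simp only [Finset.sum_apply, Pi.smul_apply, smul_eq_mul, Finset.sum_mul, Finset.mul_sum]
      rw [Finset.sum_comm]
      apply Finset.sum_congr rfl
      intro σ _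
      apply Finset.sum_congr rfl
      intro i _
      ring
    have hy0 : ∀ σ, y σ * ∑ i, σ (B i) * lam i = 0 := by
      have h4 : ∑ σ : K →ₐ[ℚ] ℂ, (y σ * ∑ i, σ (B i) * lam i) • (AlgHom.toLinearMap σ : K →ₗ[ℚ] ℂ) = 0 := by
        apply LinearMap.ext
        intro x
        have h5 := hfV x
        rw [← ha'z, hy'] at h5
        simp only [sum_Vx] at h5
        rw [LinearMap.zero_apply, ← h5, LinearMap.sum_apply]
        apply Finset.sum_congr rfl
        intro σ _
        rw [LinearMap.smul_apply, smul_eq_mul]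
        show y σ * (∑ i, σ (B i) * lam i) * σ x = y σ * (σ x * ∑ i, σ (B i) * lam i)
        ring
      intro σ
      exact linearIndependent_iff'.1 (linearIndependent_toLinearMap ℚ K ℂ) Finset.univ _ h4 σ
        (Finset.mem_univ _)
    have hah0 : ∀ j', ah j' = 0 := by
      intro j'
      have h4 : ∑ i, a' i * (b i j' : ℂ) = ah j' := by
        rw [ha'z (fun i => (b i j' : ℂ))]
        simp only [hpb]
        rw [Finset.sum_eq_single j']
        · simp
        · intro j _ hj
          simp [hj]
        · intro h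
          exact absurd (Finset.mem_univ _) h
      rw [← h4, hy' (fun i => (b i j' : ℂ))]
      apply Finset.sum_eq_zero
      intro σ _
      by_cases hσ : σ ∈ Z
      · rw [hpc σ hσ j', mul_zero]
      · rcases mul_eq_zero.1 (hy0 σ) with h5 | h5
        · rw [h5, zero_mul]
        · exact absurd h5 hσ
    apply LinearMap.ext
    intro z
    rw [hfz]
    simp [hah0]
  -- all the coefficients `b i j` belong to the field of multiplications
  have hbk : ∀ i j, (b i j : ℂ) ∈ kL L := by
    intro i j0
    by_contra hbad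
    obtain ⟨κ', xs, hxs, hxspan, hxli⟩ := exists_linearIndependent' ℂ
      (fun (x : K) (j : κ) => Vx K B lam x (a j))
    rw [hspan] at hxspan
    have hκ'fin : Finite κ' := by
      have := hxli.finite
      exact this
    have hκ'f : Fintype κ' := Fintype.ofFinite κ'
    have hcard : Fintype.card κ' = Fintype.card κ := by
      have h4 := (Module.Basis.mk hxli (by rw [hxspan])).mk_eq_rank''
      have h5 := Module.finrank_eq_card_basis (Module.Basis.mk hxli (by rw [hxspan]))
      rw [Module.finrank_fintype_fun_eq_card] at h5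
      exact h5.symm
    set n := Fintype.card κ with hn
    set ε : Fin n ≃ κ := (Fintype.equivFin κ).symm with hε
    set ε' : Fin n ≃ κ' := (Fintype.equivFinOfCardEq hcard).symm with hε'
    have hnpos : 0 < n := Fintype.card_pos_iff.2 ⟨j0⟩
    -- denominators
    have hden : ∀ k : Fin n, ∃ N : ℕ, 0 < N ∧ ∀ i' j', ∃ z : ℤ,
        (N : ℚ) * B.repr (xs (ε' k) * B j') i' = z := by
      intro k
      obtain ⟨N, hN, hz⟩ := exists_den_rat
        (fun z : Fin δ × Fin δ => B.repr (xs (ε' k) * B z.2) z.1)
      exact ⟨N, hN, fun i' j' => hz (i', j')⟩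
    choose N hN hNz using hden
    have hNE : ∀ k i', (N k : ℂ) * Vx K B lam (xs (ε' k)) i' ∈ EL L := by
      intro k i'
      choose zz hzz using fun j' => hNz k i' j'
      have h4 : (N k : ℂ) * Vx K B lam (xs (ε' k)) i' = ∑ j', (zz j' : ℂ) * lam j' := by
        rw [Vx, Finset.mul_sum]
        apply Finset.sum_congr rfl
        intro j' _
        have h5 := hzz j'
        have h6 : (N k : ℂ) * ((B.repr (xs (ε' k) * B j') i' : ℚ) : ℂ) = (zz j' : ℂ) := by
          exact_mod_cast h5
        rw [← h6]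
        ring
      rw [h4, ← mem_ELg h2 h3]
      exact sum_mem fun j' _ => hELint _ _ (hlamE j')
    refine core h2 h3 hnpos (fun j => (b i (ε j) : ℂ)) (fun j => mem_QB.1 (b i (ε j)).2) (ε.symm j0) ?_
      (fun k j => (N k : ℂ) * Vx K B lam (xs (ε' k)) (a (ε j))) ?_ (fun k j => hNE k _) ?_
    · intro m' hm'
      by_contra hcon
      push Not at hcon
      apply hbad
      refine ⟨m', hm', fun w hw => ?_⟩
      have := hcon w hw
      simpa using this
    · -- linear independence
      have h4 : LinearIndependent ℂ (fun (k : Fin n) (j : κ) => Vx K B lam (xs (ε' k)) (a j)) :=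
        hxli.comp ε' ε'.injective
      have h5 : LinearIndependent ℂ (fun (k : Fin n) (j : Fin n) => Vx K B lam (xs (ε' k)) (a (ε j))) := by
        have h6 := h4.map' (LinearMap.funLeft ℂ ℂ ε) (by
          rw [LinearMap.ker_eq_bot]
          exact LinearMap.funLeft_injective_of_surjective ℂ ℂ ε ε.surjective)
        exact h6
      have h6 := h5.units_smul (fun k => Units.mk0 (N k : ℂ) (by exact_mod_cast (hN k).ne'))
      exact h6
    · intro k
      have h4 := hpa (fun i' => Vx K B lam (xs (ε' k)) i') (hVZ _) i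
      have h5 : ∑ j, (b i (ε j) : ℂ) * ((N k : ℂ) * Vx K B lam (xs (ε' k)) (a (ε j))) =
          (N k : ℂ) * Vx K B lam (xs (ε' k)) i := by
        rw [h4, Finset.mul_sum, ← Equiv.sum_comp ε]
        apply Finset.sum_congr rfl
        intro j _
        ring
      rw [h5]
      exact hNE k i
  -- the end
  have hlamZ := hpa lam (fun σ hσ => hσ)
  have hcz : ∀ i, (fun r => ((c r i : ℂ) - ∑ j, (b i j : ℂ) * (c r (a j) : ℂ))) = 0 := by
    intro i
    apply hind
    · intro r
      apply sub_mem (intCast_mem_kL L _)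
      exact sum_mem fun j _ => mul_mem (hbk i j) (intCast_mem_kL L _)
    · have h4 := hlamZ i
      have h5 : ∑ r, ((c r i : ℂ) - ∑ j, (b i j : ℂ) * (c r (a j) : ℂ)) * l r =
          lam i - ∑ j, (b i j : ℂ) * lam (a j) := by
        rw [hlam]
        simp only [sub_mul, Finset.sum_sub_distrib, Finset.mul_sum, Finset.sum_mul]
        congr 1
        rw [Finset.sum_comm]
        apply Finset.sum_congr rfl
        intro j _
        apply Finset.sum_congr rfl
        intro r _
        ring
      rw [h5, ← h4, sub_self]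
  have hidZ : K.val ∈ Z := hrel
  funext r
  have h4 := hcγ r
  have h5 : ∑ i, (c r i : ℂ) * (B i : ℂ) = 0 := by
    have h6 : ∀ i, (c r i : ℂ) = ∑ j, (b i j : ℂ) * (c r (a j) : ℂ) := by
      intro i
      have := congrFun (hcz i) r
      simp only [Pi.zero_apply] at this
      linear_combination this
    have h7 : ∑ i, (c r i : ℂ) * (B i : ℂ) = ∑ j, (c r (a j) : ℂ) * ∑ i, K.val (B i) * (b i j : ℂ) := by
      simp only [Finset.mul_sum]
      rw [Finset.sum_comm]
      apply Finset.sum_congr rfl
      intro i _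
      conv_lhs => rw [h6 i, Finset.sum_mul]
      apply Finset.sum_congr rfl
      intro j _
      show (b i j : ℂ) * (c r (a j) : ℂ) * (B i : ℂ) = (c r (a j) : ℂ) * ((B i : ℂ) * (b i j : ℂ))
      ring
    rw [h7]
    apply Finset.sum_eq_zero
    intro j _
    exact mul_eq_zero_of_right _ (hpc K.val hidZ j)
  rw [h5] at h4
  have hD0 : (D : ℂ) ≠ 0 := by exact_mod_cast hD.ne'
  exact (mul_eq_zero.1 h4.symm).resolve_left hD0

end Pool.Agent.W245.EB
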