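import Pool.Agent.W245.EB.CoreZ
import Pool.Agent.W245.EB.Red

set_option autoImplicit false
set_option linter.unusedVariables false
set_option linter.unusedSectionVars false
set_option linter.unusedSimpArgs false

/-!
# The inhomogeneous elliptic Baker theorem for a differential of the second kind

If `l 1, ..., l m` are elliptic logarithms of algebraic points, linearly independent over the field of
multiplications, and `s`, `ρ` are algebraic numbers, not both zero, then `1` and the numbers
`s ζ(l r) + ρ l r` are linearly independent over the algebraic numbers.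
-/

open Filter NumberField
open scoped Topology PeriodPair

noncomputable section

namespace Pool.Agent.W245.EB

open H667R3

variable {L : PeriodPair}

theorem second_kind (h2 : IsAlgebraic ℚ L.g₂) (h3 : IsAlgebraic ℚ L.g₃) {m : ℕ} (l : Fin m → ℂ)
    (hl : ∀ r, l r ∈ EL L)
    (hind : ∀ α : Fin m → ℂ, (∀ r, α r ∈ kL L) → ∑ r, α r * l r = 0 → α = 0)
    (s ρ : ℂ) (hs : IsAlgebraic ℚ s) (hρ : IsAlgebraic ℚ ρ) (hsρ : s ≠ 0 ∨ ρ ≠ 0)
    (γ : Fin m → ℂ) (hγ : ∀ r, IsAlgebraic ℚ (γ r))
    (h0 : IsAlgebraic ℚ (∑ r, γ r * (s * zt L (l r) + ρ * l r))) : γ = 0 := by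
  classical
  by_contra hγ0
  set K : IntermediateField ℚ ℂ := IntermediateField.adjoin ℚ (Set.range γ) with hK
  have hKfin : FiniteDimensional ℚ K :=
    IntermediateField.finiteDimensional_adjoin (by
      rintro _ ⟨r, rfl⟩
      exact (hγ r).isIntegral)
  have hγK : ∀ r, γ r ∈ K := fun r => IntermediateField.subset_adjoin ℚ _ ⟨r, rfl⟩
  set δ := Module.finrank ℚ K with hδ
  have hδpos : 0 < δ := Module.finrank_pos
  set B : Module.Basis (Fin δ) ℚ K := Module.finBasis ℚ K with hB
  -- coordinates of the coefficients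
  obtain ⟨D, hD, hc⟩ := exists_den_rat (fun z : Fin m × Fin δ => B.repr ⟨γ z.1, hγK z.1⟩ z.2)
  choose cc hcc using hc
  set c : Fin m → Fin δ → ℤ := fun r i => cc (r, i) with hcdef
  have hDC : (D : ℂ) ≠ 0 := by exact_mod_cast hD.ne'
  have hcK : ∀ r, ∑ i, (c r i : K) * B i = (D : K) * ⟨γ r, hγK r⟩ := by
    intro r
    have h1 := B.sum_repr ⟨γ r, hγK r⟩
    conv_rhs => rw [← h1]
    rw [Finset.mul_sum]
    apply Finset.sum_congr rfl
    intro i _
    have h4 := hcc (r, i)
    have h5 : ((D : ℕ) : K) * ((B.repr ⟨γ r, hγK r⟩ i : ℚ) : K) = (c r i : K) := by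
      rw [hcdef]
      exact_mod_cast h4
    rw [← h5, Rat.smul_def]
    ring
  have hcγ : ∀ r, ∑ i, (c r i : ℂ) * (B i : ℂ) = D * γ r := by
    intro r
    have h1 := congrArg (fun x : K => (x : ℂ)) (hcK r)
    push_cast at h1
    rw [← h1]
  set lam : Fin δ → ℂ := fun i => ∑ r, (c r i : ℂ) * l r with hlam
  have hELint : ∀ (a : ℤ) (u : ℂ), u ∈ EL L → (a : ℂ) * u ∈ ELg L h2 h3 := by
    intro a u hu
    rw [← zsmul_eq_mul]
    exact zsmul_mem ((mem_ELg h2 h3).2 hu) a
  have hlamE : ∀ i, lam i ∈ EL L := by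
    intro i
    rw [← mem_ELg h2 h3]
    exact sum_mem fun r _ => hELint _ _ (hl r)
  have hGK : ∀ {u : ℂ}, u ∈ EL L → u ∈ GK L QB := by
    intro u hu
    rwa [← EL_eq h2 h3]
  have hg2 : L.g₂ ∈ QB := mem_QB.2 h2
  have hh : HalfMem L QB := half_mem_QB h2 h3
  -- nonvanishing of the conjugate combinations
  have hP : ∀ σ : K →ₐ[ℚ] ℂ, ∑ i, σ (B i) * lam i ≠ 0 := by
    intro σ hσ
    apply hγ0
    have h4 : ∑ i, σ (B i) * lam i = ∑ r, ((D : ℂ) * σ ⟨γ r, hγK r⟩) * l r := by
      rw [hlam]
      simp only [Finset.mul_sum]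
      rw [Finset.sum_comm]
      apply Finset.sum_congr rfl
      intro r _
      have h5 := congrArg σ (hcK r)
      rw [map_sum, map_mul, map_natCast] at h5
      rw [← h5, Finset.sum_mul]
      apply Finset.sum_congr rfl
      intro i _
      rw [map_mul, map_intCast]
      ring
    rw [h4] at hσ
    have h5 := elliptic_baker h2 h3 l hl hind (fun r => (D : ℂ) * σ ⟨γ r, hγK r⟩) (by
      intro r
      have h6 : IsAlgebraic ℚ (σ ⟨γ r, hγK r⟩) :=
        IsAlgebraic.algHom σ (Algebra.IsAlgebraic.isAlgebraic (R := ℚ) (⟨γ r, hγK r⟩ : K))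
      exact (isAlgebraic_natCast D).mul h6) hσ
    funext r
    have h6 := congrFun h5 r
    simp only [Pi.zero_apply] at h6
    have h7 : σ ⟨γ r, hγK r⟩ = 0 := (mul_eq_zero.1 h6).resolve_left hDC
    have h8 : (⟨γ r, hγK r⟩ : K) = 0 := by
      apply σ.toRingHom.injective
      rw [map_zero]
      exact h7
    exact congrArg (fun x : K => (x : ℂ)) h8
  -- the vectors
  obtain ⟨N, hN, hNz⟩ := exists_den_rat
    (fun z : Fin δ × Fin δ × Fin δ => B.repr (B z.1 * B z.2.2) z.2.1)
  choose zz' hzz' using hNz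
  set zz : Fin δ → Fin δ → Fin δ → ℤ := fun k i j => zz' (k, i, j) with hzzdef
  have hzz : ∀ k i j, (N : ℚ) * B.repr (B k * B j) i = zz k i j := fun k i j => hzz' (k, i, j)
  have hNC : (N : ℂ) ≠ 0 := by exact_mod_cast hN.ne'
  set U : Fin δ → Fin δ → ℂ := fun k i => ∑ j, (zz k i j : ℂ) * lam j with hUdef
  have hUV : ∀ k i, U k i = N * Vx K B lam (B k) i := by
    intro k i
    rw [hUdef, Vx, Finset.mul_sum]
    simp only
    apply Finset.sum_congr rfl
    intro j _
    have h5 := hzz k i j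
    have h6 : (N : ℂ) * ((B.repr (B k * B j) i : ℚ) : ℂ) = (zz k i j : ℂ) := by
      exact_mod_cast h5
    rw [← h6]
    ring
  have hUE : ∀ k i, U k i ∈ EL L := by
    intro k i
    rw [← mem_ELg h2 h3, hUdef]
    exact sum_mem fun j _ => hELint _ _ (hlamE j)
  -- linear independence
  have hrows : Submodule.span ℂ (Set.range fun (σ : K →ₐ[ℚ] ℂ) (i : Fin δ) => σ (B i)) = ⊤ := by
    apply (rows_indep K B).span_eq_top_of_card_eq_finrank'
    rw [AlgHom.card]
    simp [hδ]
  have hUli : LinearIndependent ℂ U := by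
    rw [Fintype.linearIndependent_iff]
    intro a ha
    have h4 : ∀ σ : K →ₐ[ℚ] ℂ, ∑ k, σ (B k) * a k = 0 := by
      intro σ
      have h5 : ∑ k, a k * (∑ i, σ (B i) * U k i) = 0 := by
        have h6 : ∑ k, a k * (∑ i, σ (B i) * U k i) = ∑ i, σ (B i) * (∑ k, a k • U k) i := by
          simp only [Finset.mul_sum, Finset.sum_apply, Pi.smul_apply, smul_eq_mul]
          rw [Finset.sum_comm]
          apply Finset.sum_congr rfl
          intro i _
          apply Finset.sum_congr rfl
          intro k _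
          ring
        rw [h6, ha]
        simp
      have h6 : ∀ k, ∑ i, σ (B i) * U k i = N * (σ (B k) * ∑ i, σ (B i) * lam i) := by
        intro k
        rw [← sum_Vx, Finset.mul_sum]
        apply Finset.sum_congr rfl
        intro i _
        rw [hUV]
        ring
      simp only [h6] at h5
      have h7 : (N * ∑ i, σ (B i) * lam i) * ∑ k, σ (B k) * a k = 0 := by
        rw [← h5, Finset.mul_sum]
        apply Finset.sum_congr rfl
        intro k _
        ring
      exact (mul_eq_zero.1 h7).resolve_left (mul_ne_zero hNC (hP σ))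
    intro i
    have h5 : (Pi.single i 1 : Fin δ → ℂ) ∈
        Submodule.span ℂ (Set.range fun (σ : K →ₐ[ℚ] ℂ) (i : Fin δ) => σ (B i)) := by
      rw [hrows]; trivial
    rw [Submodule.mem_span_range_iff_exists_fun] at h5
    obtain ⟨y, hy⟩ := h5
    have h6 : a i = ∑ k, (Pi.single i 1 : Fin δ → ℂ) k * a k := by
      rw [Finset.sum_eq_single i]
      · simp
      · intro k _ hk
        simp [hk]
      · intro h
        exact absurd (Finset.mem_univ _) h
    rw [h6, ← hy]
    simp only [Finset.sum_apply, Pi.smul_apply, smul_eq_mul, Finset.sum_mul]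
    rw [Finset.sum_comm]
    apply Finset.sum_eq_zero
    intro σ _
    have h7 := h4 σ
    have h8 : ∑ k, y σ * σ (B k) * a k = y σ * ∑ k, σ (B k) * a k := by
      rw [Finset.mul_sum]
      apply Finset.sum_congr rfl
      intro k _
      ring
    rw [h8, h7, mul_zero]
  -- algebraicity
  have hBQ : ∀ i, (B i : ℂ) ∈ QB := by
    intro i
    rw [mem_QB]
    have := Algebra.IsAlgebraic.isAlgebraic (R := ℚ) (B i)
    exact this.algHom K.val
  have hsQ : s ∈ QB := mem_QB.2 hs
  have hR : ∑ j, (B j : ℂ) * (s * zt L (lam j) + ρ * lam j) ∈ QB := by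
    have h4 : ∀ j, zt L (lam j) - ∑ r, (c r j : ℂ) * zt L (l r) ∈ QB := fun j =>
      zt_sum hg2 hh Finset.univ (fun r => c r j) l (fun r _ => hGK (hl r))
    have h5 : ∑ j, (B j : ℂ) * (s * zt L (lam j) + ρ * lam j) =
        ∑ j, (B j : ℂ) * s * (zt L (lam j) - ∑ r, (c r j : ℂ) * zt L (l r)) +
        (D : ℂ) * ∑ r, γ r * (s * zt L (l r) + ρ * l r) := by
      have h6 : (D : ℂ) * ∑ r, γ r * (s * zt L (l r) + ρ * l r) =
          ∑ j, (B j : ℂ) * (s * (∑ r, (c r j : ℂ) * zt L (l r)) + ρ * lam j) := by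
        rw [Finset.mul_sum]
        have h7 : ∀ r, (D : ℂ) * (γ r * (s * zt L (l r) + ρ * l r)) =
            ∑ j, (c r j : ℂ) * (B j : ℂ) * (s * zt L (l r) + ρ * l r) := by
          intro r
          rw [← Finset.sum_mul, hcγ]
          ring
        simp only [h7]
        rw [Finset.sum_comm]
        apply Finset.sum_congr rfl
        intro j _
        rw [hlam]
        simp only [Finset.mul_sum, ← Finset.sum_add_distrib]
        apply Finset.sum_congr rfl
        intro r _
        ring
      rw [h6, ← Finset.sum_add_distrib]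
      apply Finset.sum_congr rfl
      intro j _
      ring
    rw [h5]
    apply add_mem
    · exact sum_mem fun j _ => mul_mem (mul_mem (hBQ j) hsQ) (h4 j)
    · exact mul_mem (natCast_mem _ _) (mem_QB.2 h0)
  have hUf : ∀ k, IsAlgebraic ℚ (∑ i, (B i : ℂ) * (s * zt L (U k i) + ρ * U k i)) := by
    intro k
    rw [← mem_QB]
    have h4 : ∀ i, zt L (U k i) - ∑ j, (zz k i j : ℂ) * zt L (lam j) ∈ QB := fun i =>
      zt_sum hg2 hh Finset.univ (fun j => zz k i j) lam (fun j _ => hGK (hlamE j))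
    have hBz : ∀ j, ∑ i, (B i : ℂ) * (zz k i j : ℂ) = N * ((B k : ℂ) * (B j : ℂ)) := by
      intro j
      have h5 := B.sum_repr (B k * B j)
      have h6 := congrArg (fun x : K => (N : ℂ) * (x : ℂ)) h5
      rw [show ((B k * B j : K) : ℂ) = (B k : ℂ) * (B j : ℂ) by push_cast; rfl] at h6
      rw [← h6]
      rw [show ((∑ i, (B.repr (B k * B j) i) • B i : K) : ℂ) =
        ∑ i, ((B.repr (B k * B j) i : ℚ) : ℂ) * (B i : ℂ) by
          rw [← K.coe_val, map_sum]
          apply Finset.sum_congr rfl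
          intro i _
          rw [map_rat_smul, Rat.smul_def]]
      rw [Finset.mul_sum]
      apply Finset.sum_congr rfl
      intro i _
      have h7 : (N : ℂ) * ((B.repr (B k * B j) i : ℚ) : ℂ) = (zz k i j : ℂ) := by
        exact_mod_cast hzz k i j
      rw [← h7]
      ring
    have h5 : ∑ i, (B i : ℂ) * (s * zt L (U k i) + ρ * U k i) =
        ∑ i, (B i : ℂ) * s * (zt L (U k i) - ∑ j, (zz k i j : ℂ) * zt L (lam j)) +
        ((N : ℂ) * (B k : ℂ)) * ∑ j, (B j : ℂ) * (s * zt L (lam j) + ρ * lam j) := by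
      have h6 : ((N : ℂ) * (B k : ℂ)) * ∑ j, (B j : ℂ) * (s * zt L (lam j) + ρ * lam j) =
          ∑ i, (B i : ℂ) * (s * (∑ j, (zz k i j : ℂ) * zt L (lam j)) + ρ * U k i) := by
        rw [Finset.mul_sum]
        have h7 : ∀ j, (N : ℂ) * (B k : ℂ) * ((B j : ℂ) * (s * zt L (lam j) + ρ * lam j)) =
            ∑ i, (B i : ℂ) * (zz k i j : ℂ) * (s * zt L (lam j) + ρ * lam j) := by
          intro j
          rw [← Finset.sum_mul, hBz]
          ring
        simp only [h7]
        rw [Finset.sum_comm]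
        apply Finset.sum_congr rfl
        intro i _
        rw [hUdef]
        simp only [Finset.mul_sum, ← Finset.sum_add_distrib]
        apply Finset.sum_congr rfl
        intro j _
        ring
      rw [h6, ← Finset.sum_add_distrib]
      apply Finset.sum_congr rfl
      intro i _
      ring
    rw [h5]
    apply add_mem
    · exact sum_mem fun i _ => mul_mem (mul_mem (hBQ i) hsQ) (h4 i)
    · exact mul_mem (mul_mem (natCast_mem _ _) (hBQ k)) hR
  refine coreZ h2 h3 hδpos (fun i => (B i : ℂ)) (fun i => mem_QB.1 (hBQ i)) ⟨0, hδpos⟩ ?_ s ρ hs hρ hsρ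
    U hUli hUE hUf
  intro h
  have h4 : B ⟨0, hδpos⟩ = 0 := Subtype.ext h
  exact B.ne_zero _ h4

end Pool.Agent.W245.EB
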