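import Pool.Agent.W245.EB.Box
import Pool.Agent.W245.EB.Red
import Pool.Agent.H297R2.BakerThm

set_option autoImplicit false
set_option linter.unusedVariables false
set_option linter.unusedSectionVars false
set_option linter.unusedSimpArgs false

/-!
# Families of logarithms and of elliptic logarithms
-/

open Module
open scoped PeriodPair

noncomputable section

namespace Pool.Agent.W245.EB

open Pool.Agent.H297R2 Pool.Agent.W245 Pool.Agent.W245.PB

/-- logarithms of algebraic numbers, linearly independent over `ℚ` -/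
def LogFam {J : Type} (w : J → ℂ) : Prop :=
  (∀ j, IsAlgebraic ℚ (Complex.exp (w j))) ∧ LinearIndependent ℚ w

/-- elliptic logarithms of algebraic points, linearly independent over the field of
multiplications of the lattice -/
def EllFam (L : PeriodPair) {J : Type} [Fintype J] (w : J → ℂ) : Prop :=
  (∀ j, w j ∈ EL L) ∧
    ∀ α : J → ℂ, (∀ j, α j ∈ kL L) → ∑ j, α j * w j = 0 → α = 0

lemma linInd_of_rel {J : Type} [Fintype J] (w : J → ℂ)
    (h : ∀ c : J → ℂ, (∀ j, IsAlgebraic ℚ (c j)) → ∑ j, c j * w j = 0 → c = 0) :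
    LinearIndependent (algebraicClosure ℚ ℂ) w := by
  rw [Fintype.linearIndependent_iff]
  intro g hg j
  have h1 := h (fun j => (g j : ℂ)) (fun j => mem_algebraicClosure_iff.1 (g j).2) (by
    rw [← hg]
    apply Finset.sum_congr rfl
    intro j _
    rfl)
  have h2 := congrFun h1 j
  simp only [Pi.zero_apply] at h2
  exact_mod_cast h2

lemma LogFam.indep {J : Type} [Fintype J] {w : J → ℂ} (h : LogFam w) :
    LinearIndependent (algebraicClosure ℚ ℂ) w := by
  apply linInd_of_rel
  intro c hc h0
  funext j
  exact baker w h.1 h.2 c hc h0 j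

lemma EllFam.indep {L : PeriodPair} (h2 : IsAlgebraic ℚ L.g₂) (h3 : IsAlgebraic ℚ L.g₃) {J : Type}
    [Fintype J] {w : J → ℂ} (h : EllFam L w) : LinearIndependent (algebraicClosure ℚ ℂ) w := by
  classical
  apply linInd_of_rel
  intro c hc h0
  let e := Fintype.equivFin J
  have h4 := elliptic_baker h2 h3 (fun r => w (e.symm r)) (fun r => h.1 _) (by
    intro α hα hsum
    have h5 := h.2 (fun j => α (e j)) (fun j => hα _) (by
      rw [← hsum, ← e.symm.sum_comp]
      simp)
    funext r
    have := congrFun h5 (e.symm r)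
    simpa using this) (fun r => c (e.symm r)) (fun r => hc _) (by
      rw [← h0, ← e.symm.sum_comp])
  funext j
  have := congrFun h4 (e j)
  simpa using this

/-- **Generic combinations**, for an arbitrary space of coefficients of bounded dimension. -/
theorem box_over {κ C : Type*} [Field κ] [IsAlgClosed κ] [Field C] [Algebra κ C] (N : ℕ) {k : ℕ}
    (D : Fin k → ℕ) (W : Submodule κ C) (hWf : Module.Finite κ W) (hWN : finrank κ W ≤ N)
    {J : Type*} [Fintype J] (hJ : N * ∏ i, (D i + 1) ≤ Fintype.card J) (v : Fin k → C)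
    (w : Fin k → J → C) (hw : ∀ i, LinearIndependent κ (w i)) :
    ∃ F : MvPolynomial (Fin k × J) κ, F ≠ 0 ∧
      F.totalDegree ≤ (N * ∏ i, (D i + 1)) * ∑ i, D i ∧
      ∀ m : Fin k → J → κ, MvPolynomial.eval (fun p => m p.1 p.2) F ≠ 0 →
        NoRelP W D (fun i => v i + ∑ j, m i j • w i j) := by
  classical
  let b : Basis (Fin (finrank κ W)) κ W := Module.finBasis κ W
  have hb : LinearIndependent κ (fun i => (b i : C)) :=
    b.linearIndependent.map' W.subtype (Submodule.ker_subtype W)
  have hspan : Submodule.span κ (Set.range (fun i => (b i : C))) = W := by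
    have h1 : Set.range (fun i => (b i : C)) = W.subtype '' Set.range b := by
      rw [← Set.range_comp]
      rfl
    rw [h1, Submodule.span_image, b.span_eq, Submodule.map_subtype_top]
  have hle : finrank κ W * ∏ i, (D i + 1) ≤ N * ∏ i, (D i + 1) := Nat.mul_le_mul_right _ hWN
  obtain ⟨F, h0, h1, h2⟩ := box_basis D (fun i => (b i : C)) hb (J := J)
    (by rw [Fintype.card_fin]; exact hle.trans hJ) v w hw
  rw [hspan] at h2
  refine ⟨F, h0, h1.trans ?_, h2⟩
  rw [Fintype.card_fin]
  exact Nat.mul_le_mul_right _ hle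

end Pool.Agent.W245.EB
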