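import Mathlib
import Pool.Agent.W245.EB.Fam

set_option autoImplicit false
set_option linter.unusedVariables false
set_option linter.unusedSectionVars false
set_option linter.unusedSimpArgs false

/-!
# Relations of bounded total degree, and linear substitutions
-/

open Module MvPolynomial

noncomputable section

namespace Pool.Agent.W245.EB

open Pool.Agent.H297R2 Pool.Agent.W245 Pool.Agent.W245.PB

section

variable {κ C : Type*} [Field κ] [Field C] [Algebra κ C]

/-- no relation of degree at most `D` in each variable -/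
def NoRelS {σ : Type*} (W : Submodule κ C) (D : ℕ) (x : σ → C) : Prop :=
  ∀ Q : MvPolynomial σ C, (∀ i, Q.degreeOf i ≤ D) → (∀ s, Q.coeff s ∈ W) →
    MvPolynomial.eval x Q = 0 → Q = 0

/-- no relation of total degree at most `D` -/
def NoRelTot {σ : Type*} (W : Submodule κ C) (D : ℕ) (x : σ → C) : Prop :=
  ∀ Q : MvPolynomial σ C, Q.totalDegree ≤ D → (∀ s, Q.coeff s ∈ W) →
    MvPolynomial.eval x Q = 0 → Q = 0

lemma NoRelS.tot {σ : Type*} {W : Submodule κ C} {D : ℕ} {x : σ → C} (h : NoRelS W D x) :
    NoRelTot W D x := fun Q h1 h2 h3 =>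
  h Q (fun i => (degreeOf_le_totalDegree Q i).trans h1) h2 h3

lemma totalDegree_bind_le {R : Type*} [CommSemiring R] {σ τ : Type*} (g : σ → MvPolynomial τ R)
    (hg : ∀ s, (g s).totalDegree ≤ 1) (Q : MvPolynomial σ R) :
    (bind₁ g Q).totalDegree ≤ Q.totalDegree := by
  classical
  have h1 : bind₁ g Q = ∑ d ∈ Q.support, C (Q.coeff d) * ∏ i ∈ d.support, g i ^ d i := by
    show aeval g Q = _
    rw [aeval_def, eval₂_eq]
    rfl
  rw [h1]
  apply totalDegree_finsetSum_le
  intro d hd
  refine (totalDegree_mul _ _).trans ?_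
  rw [totalDegree_C, zero_add]
  refine (totalDegree_finsetProd _ _).trans ?_
  refine le_trans ?_ (le_totalDegree hd)
  rw [Finsupp.sum]
  apply Finset.sum_le_sum
  intro i _
  refine (totalDegree_pow _ _).trans ?_
  calc d i * (g i).totalDegree ≤ d i * 1 := Nat.mul_le_mul_left _ (hg i)
    _ = d i := mul_one _

lemma tdmap {τ : Type*} (g : MvPolynomial τ κ) :
    (MvPolynomial.map (algebraMap κ C) g).totalDegree ≤ g.totalDegree := by
  classical
  unfold totalDegree
  exact Finset.sup_mono (support_map_subset _ _)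

lemma coeff_bind_mem {σ τ : Type*} (W : Submodule κ C) (g : σ → MvPolynomial τ κ)
    (Q : MvPolynomial σ C) (hQ : ∀ s, Q.coeff s ∈ W) (s : τ →₀ ℕ) :
    (bind₁ (fun i => MvPolynomial.map (algebraMap κ C) (g i)) Q).coeff s ∈ W := by
  classical
  have h1 : bind₁ (fun i => MvPolynomial.map (algebraMap κ C) (g i)) Q =
      ∑ d ∈ Q.support, MvPolynomial.C (Q.coeff d) *
        ∏ i ∈ d.support, (MvPolynomial.map (algebraMap κ C) (g i)) ^ d i := by
    show aeval _ Q = _
    rw [aeval_def, eval₂_eq]
    rfl
  rw [h1, coeff_sum]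
  apply Submodule.sum_mem
  intro d _
  have h2 : ∏ i ∈ d.support, (MvPolynomial.map (algebraMap κ C) (g i)) ^ d i =
      MvPolynomial.map (algebraMap κ C) (∏ i ∈ d.support, g i ^ d i) := by
    rw [map_prod]
    apply Finset.prod_congr rfl
    intro i _
    rw [map_pow]
  rw [h2, coeff_C_mul, coeff_map, mul_comm, ← Algebra.smul_def]
  exact W.smul_mem _ (hQ d)

lemma NoRelTot.subst {σ : Type*} {W : Submodule κ C} {D : ℕ} {x : σ → C} (h : NoRelTot W D x)
    (g g' : σ → MvPolynomial σ κ) (hg : ∀ s, (g s).totalDegree ≤ 1)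
    (hgg' : ∀ s, bind₁ g' (g s) = MvPolynomial.X s) :
    NoRelTot W D (fun s => aeval x (g s)) := by
  intro Q h1 h2 h3
  set G : σ → MvPolynomial σ C := fun i => MvPolynomial.map (algebraMap κ C) (g i) with hG
  set G' : σ → MvPolynomial σ C := fun i => MvPolynomial.map (algebraMap κ C) (g' i) with hG'
  have hev : ∀ s, MvPolynomial.eval x (G s) = aeval x (g s) := by
    intro s
    rw [hG]
    simp only
    rw [MvPolynomial.eval_map, aeval_def]
  have hz : bind₁ G Q = 0 := by
    apply h
    · refine (totalDegree_bind_le G (fun s => ?_) Q).trans h1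
      exact (tdmap _).trans (hg s)
    · exact coeff_bind_mem W g Q h2
    · rw [← h3]
      have h4 : MvPolynomial.eval x (bind₁ G Q) = MvPolynomial.eval (fun s => MvPolynomial.eval x (G s)) Q := by
        rw [← MvPolynomial.coe_aeval_eq_eval, ← MvPolynomial.coe_aeval_eq_eval]
        show aeval x (bind₁ G Q) = aeval _ Q
        rw [aeval_bind₁]
        rfl
      rw [h4]
      congr 2
      funext s
      exact hev s
  have h4 : bind₁ G' (bind₁ G Q) = Q := by
    rw [bind₁_bind₁]
    have h5 : (fun i => (bind₁ G') (G i)) = MvPolynomial.X := by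
      funext i
      rw [hG, hG']
      simp only
      rw [← map_bind₁, hgg', map_X]
    rw [h5]
    exact aeval_X_left_apply Q
  rw [← h4, hz, map_zero]

end

section

variable {κ C : Type*} [Field κ] [IsAlgClosed κ] [Field C] [Algebra κ C]

/-- Generic combinations, arbitrary finite index type. -/
theorem box_sigma (N D : ℕ) (W : Submodule κ C) (hWf : Module.Finite κ W) (hWN : finrank κ W ≤ N)
    {σ : Type*} [Fintype σ] {J : Type*} [Fintype J]
    (hJ : N * (D + 1) ^ (Fintype.card σ) ≤ Fintype.card J) (v : σ → C)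
    (w : σ → J → C) (hw : ∀ i, LinearIndependent κ (w i)) :
    ∃ F : MvPolynomial (σ × J) κ, F ≠ 0 ∧
      F.totalDegree ≤ (N * (D + 1) ^ (Fintype.card σ)) * (Fintype.card σ * D) ∧
      ∀ m : σ → J → κ, MvPolynomial.eval (fun p => m p.1 p.2) F ≠ 0 →
        NoRelS W D (fun i => v i + ∑ j, m i j • w i j) := by
  classical
  set k := Fintype.card σ with hk
  let e : σ ≃ Fin k := Fintype.equivFin σ
  obtain ⟨F, hF0, hFd, hF⟩ := box_over N (k := k) (fun _ => D) W hWf hWN (J := J)
    (by simpa using hJ) (fun i => v (e.symm i)) (fun i => w (e.symm i)) (fun i => hw _)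
  set f : Fin k × J → σ × J := fun p => (e.symm p.1, p.2) with hf
  have hfinj : Function.Injective f := by
    rintro ⟨a, b⟩ ⟨a', b'⟩ h
    simp only [hf, Prod.mk.injEq, EmbeddingLike.apply_eq_iff_eq] at h
    exact Prod.ext h.1 h.2
  refine ⟨rename f F, ?_, ?_, ?_⟩
  · intro h
    apply hF0
    apply rename_injective f hfinj
    rw [h, map_zero]
  · refine (totalDegree_rename_le _ _).trans (hFd.trans (le_of_eq ?_))
    simp
  · intro m hm
    have h1 := hF (fun i j => m (e.symm i) j) (by
      intro h
      apply hm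
      rw [MvPolynomial.eval_rename]
      exact h)
    intro Q hQ1 hQ2 hQ3
    have h2 : rename e Q = 0 := by
      apply h1
      · intro i
        have := degreeOf_rename_of_injective (p := Q) e.injective (e.symm i)
        rw [Equiv.apply_symm_apply] at this
        rw [this]
        exact hQ1 _
      · intro s
        have h3 := coeff_rename_mapDomain e e.injective Q (s.mapDomain e.symm)
        rw [← Finsupp.mapDomain_comp, Equiv.self_comp_symm, Finsupp.mapDomain_id] at h3
        rw [h3]
        exact hQ2 _
      · rw [MvPolynomial.eval_rename, ← hQ3]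
        congr 2
        funext i
        simp
    apply rename_injective e e.injective
    rw [h2, map_zero]

end

end Pool.Agent.W245.EB
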