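import Mathlib
import Pool.Agent.W245.EB.Sub
import Pool.Agent.W245.EB.RedZ
import Pool.Agent.W245.EB.CMz2

set_option autoImplicit false
set_option linter.unusedVariables false
set_option linter.unusedSectionVars false
set_option linter.unusedSimpArgs false

/-!
# Logarithms, integrals of the second kind and complex multiplication
-/

open Module MvPolynomial
open scoped PeriodPair

noncomputable section

namespace Pool.Agent.W245.EB

open H667R3

/-- the field of algebraic numbers -/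
abbrev Qb : IntermediateField ℚ ℂ := algebraicClosure ℚ ℂ

lemma mem_Qb_iff {x : ℂ} : x ∈ Qb ↔ x ∈ QB := Iff.rfl

lemma second_indep {L : PeriodPair} (h2 : IsAlgebraic ℚ L.g₂) (h3 : IsAlgebraic ℚ L.g₃) {J : Type}
    [Fintype J] {u : J → ℂ} (h : EllFam L u) {s ρ : ℂ} (hs : IsAlgebraic ℚ s) (hρ : IsAlgebraic ℚ ρ)
    (hsρ : s ≠ 0 ∨ ρ ≠ 0) : LinearIndependent Qb (fun j => s * zt L (u j) + ρ * u j) := by
  classical
  apply linInd_of_rel
  intro c hc h0
  let e := Fintype.equivFin J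
  have h4 := second_kind h2 h3 (fun r => u (e.symm r)) (fun r => h.1 _) (by
    intro α hα hsum
    have h5 := h.2 (fun j => α (e j)) (fun j => hα _) (by
      rw [← hsum, ← e.symm.sum_comp]
      simp)
    funext r
    have := congrFun h5 (e.symm r)
    simpa using this) s ρ hs hρ hsρ (fun r => c (e.symm r)) (fun r => hc _) (by
      have h6 : ∑ r, c (e.symm r) * (s * zt L (u (e.symm r)) + ρ * u (e.symm r)) = 0 := by
        rw [← h0, ← e.symm.sum_comp]
      rw [h6]
      exact isAlgebraic_zero)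
  funext j
  have := congrFun h4 (e j)
  simpa using this

/-- integral combinations of elliptic logarithms -/
lemma zt_comb {L : PeriodPair} (h2 : IsAlgebraic ℚ L.g₂) (h3 : IsAlgebraic ℚ L.g₃) {J : Type}
    [Fintype J] {u : J → ℂ} (hu : ∀ j, u j ∈ EL L) (m : J → ℤ) :
    zt L (∑ j, (m j : ℂ) * u j) - ∑ j, (m j : ℂ) * zt L (u j) ∈ QB :=
  zt_sum (mem_QB.2 h2) (half_mem_QB h2 h3) Finset.univ m u
    (fun j _ => by rw [← EL_eq h2 h3]; exact hu j)

lemma comb_mem_EL {L : PeriodPair} (h2 : IsAlgebraic ℚ L.g₂) (h3 : IsAlgebraic ℚ L.g₃) {J : Type}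
    [Fintype J] {u : J → ℂ} (hu : ∀ j, u j ∈ EL L) (m : J → ℤ) :
    ∑ j, (m j : ℂ) * u j ∈ EL L := by
  rw [← mem_ELg h2 h3]
  apply sum_mem
  intro j _
  rw [← zsmul_eq_mul]
  exact zsmul_mem ((mem_ELg h2 h3).2 (hu j)) _

/-- combinations with complex multiplication -/
lemma zt_comb_CM {L : PeriodPair} (h2 : IsAlgebraic ℚ L.g₂) (h3 : IsAlgebraic ℚ L.g₃) {α : ℂ}
    (hm : ∀ w ∈ L.lattice, α * w ∈ L.lattice) {N : ℕ} {κ' : ℂ}
    (hrel : ∀ u ∈ EL L, zt L (α * u) - (N / α * zt L u + κ' * u) ∈ QB) {J : Type}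
    [Fintype J] {u : J → ℂ} (hu : ∀ j, u j ∈ EL L) (m m' : J → ℤ) :
    zt L (∑ j, ((m j : ℂ) + m' j * α) * u j) -
      (∑ j, ((m j : ℂ) + m' j * (N / α)) * zt L (u j) + κ' * ∑ j, (m' j : ℂ) * u j) ∈ QB := by
  have hαu : ∀ j, α * u j ∈ EL L := fun j => mul_mem_EL h2 h3 hm (hu j)
  have h4 := zt_comb h2 h3 hu m
  have h5 := zt_comb h2 h3 hαu m'
  have h6 := zt_add_QB h2 h3 (comb_mem_EL h2 h3 hu m) (comb_mem_EL h2 h3 hαu m')
  have h7 : ∑ j, (m' j : ℂ) * (zt L (α * u j) - (N / α * zt L (u j) + κ' * u j)) ∈ QB :=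
    sum_mem fun j _ => mul_mem (intCast_mem _ _) (hrel _ (hu j))
  have h8 := add_mem (add_mem (add_mem h4 h5) h6) h7
  have e1 : ∑ j, ((m j : ℂ) + m' j * α) * u j = ∑ j, (m j : ℂ) * u j + ∑ j, (m' j : ℂ) * (α * u j) := by
    rw [← Finset.sum_add_distrib]
    apply Finset.sum_congr rfl
    intro j _
    ring
  have e2 : ∑ j, ((m j : ℂ) + m' j * (N / α)) * zt L (u j) + κ' * ∑ j, (m' j : ℂ) * u j =
      ∑ j, (m j : ℂ) * zt L (u j) + ∑ j, (m' j : ℂ) * (N / α * zt L (u j) + κ' * u j) := by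
    rw [Finset.mul_sum, ← Finset.sum_add_distrib, ← Finset.sum_add_distrib]
    apply Finset.sum_congr rfl
    intro j _
    ring
  have e3 : ∑ j, (m' j : ℂ) * (zt L (α * u j) - (N / α * zt L (u j) + κ' * u j)) =
      ∑ j, (m' j : ℂ) * zt L (α * u j) - ∑ j, (m' j : ℂ) * (N / α * zt L (u j) + κ' * u j) := by
    rw [← Finset.sum_sub_distrib]
    apply Finset.sum_congr rfl
    intro j _
    ring
  rw [e3] at h8
  rw [e1, e2]
  convert h8 using 1
  ring

lemma comb_CM_mem_EL {L : PeriodPair} (h2 : IsAlgebraic ℚ L.g₂) (h3 : IsAlgebraic ℚ L.g₃) {α : ℂ}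
    (hm : ∀ w ∈ L.lattice, α * w ∈ L.lattice) {J : Type}
    [Fintype J] {u : J → ℂ} (hu : ∀ j, u j ∈ EL L) (m m' : J → ℤ) :
    ∑ j, ((m j : ℂ) + m' j * α) * u j ∈ EL L := by
  have hαu : ∀ j, α * u j ∈ EL L := fun j => mul_mem_EL h2 h3 hm (hu j)
  have e1 : ∑ j, ((m j : ℂ) + m' j * α) * u j = ∑ j, (m j : ℂ) * u j + ∑ j, (m' j : ℂ) * (α * u j) := by
    rw [← Finset.sum_add_distrib]
    apply Finset.sum_congr rfl
    intro j _
    ring
  rw [e1]
  exact add_mem_EL h2 h3 (comb_mem_EL h2 h3 hu m) (comb_mem_EL h2 h3 hαu m')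

/-- data of the three kinds -/
structure Data (A B C J : Type) [Fintype J] where
  wA : A → J → ℂ
  hA : ∀ a, LogFam (wA a)
  LB : B → PeriodPair
  g2B : ∀ b, IsAlgebraic ℚ (LB b).g₂
  g3B : ∀ b, IsAlgebraic ℚ (LB b).g₃
  uB : B → J → ℂ
  hB : ∀ b, EllFam (LB b) (uB b)
  s : B → ℂ
  ρ : B → ℂ
  hs : ∀ b, IsAlgebraic ℚ (s b)
  hρ : ∀ b, IsAlgebraic ℚ (ρ b)
  hsρ : ∀ b, s b ≠ 0 ∨ ρ b ≠ 0
  LC : C → PeriodPair
  g2C : ∀ c, IsAlgebraic ℚ (LC c).g₂
  g3C : ∀ c, IsAlgebraic ℚ (LC c).g₃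
  uC : C → J → ℂ
  hC : ∀ c, EllFam (LC c) (uC c)
  α : C → ℂ
  hα : ∀ c, (α c).im ≠ 0
  hmul : ∀ c, ∀ w ∈ (LC c).lattice, α c * w ∈ (LC c).lattice

namespace Data

variable {A B C J : Type} [Fintype J] (d : Data A B C J)

/-- the index set of the coordinates -/
abbrev Ind (A B C : Type) : Type := A ⊕ (B ⊕ (C ⊕ C))

/-- the logarithms -/
def tA (m : Ind A B C → J → ℤ) (a : A) : ℂ := ∑ j, (m (Sum.inl a) j : ℂ) * d.wA a j

/-- the points of the second kind -/
def pB (m : Ind A B C → J → ℤ) (b : B) : ℂ := ∑ j, (m (Sum.inr (Sum.inl b)) j : ℂ) * d.uB b j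

/-- the points with complex multiplication -/
def pC (m : Ind A B C → J → ℤ) (c : C) : ℂ :=
  ∑ j, ((m (Sum.inr (Sum.inr (Sum.inl c))) j : ℂ) + m (Sum.inr (Sum.inr (Sum.inr c))) j * d.α c) *
    d.uC c j

/-- the numbers -/
def num (m : Ind A B C → J → ℤ) : Ind A B C → ℂ :=
  Sum.elim (d.tA m) (Sum.elim (fun b => d.s b * zt (d.LB b) (d.pB m b) + d.ρ b * d.pB m b)
    (Sum.elim (d.pC m) (fun c => zt (d.LC c) (d.pC m c))))

lemma pB_mem (m : Ind A B C → J → ℤ) (b : B) : d.pB m b ∈ EL (d.LB b) :=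
  comb_mem_EL (d.g2B b) (d.g3B b) (d.hB b).1 _

lemma pC_mem (m : Ind A B C → J → ℤ) (c : C) : d.pC m c ∈ EL (d.LC c) :=
  comb_CM_mem_EL (d.g2C c) (d.g3C c) (d.hmul c) (d.hC c).1 _ _

variable [Fintype A] [Fintype B] [Fintype C]

theorem main (N D : ℕ) (W : Submodule Qb ℂ) (hWf : Module.Finite Qb W)
    (hWN : finrank Qb W ≤ N)
    (hJ : N * (D + 1) ^ (Fintype.card A + (Fintype.card B + (Fintype.card C + Fintype.card C))) ≤
      Fintype.card J) :
    ∃ F : MvPolynomial (Ind A B C × J) Qb, F ≠ 0 ∧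
      F.totalDegree ≤
        (N * (D + 1) ^ (Fintype.card A + (Fintype.card B + (Fintype.card C + Fintype.card C)))) *
        ((Fintype.card A + (Fintype.card B + (Fintype.card C + Fintype.card C))) * D) ∧
      ∀ m : Ind A B C → J → ℤ, MvPolynomial.eval (fun p => ((m p.1 p.2 : ℤ) : Qb)) F ≠ 0 →
        NoRelTot W D (d.num m) := by
  classical
  have hac : IsAlgClosed Qb := (algebraicClosure.isAlgClosure ℚ ℂ).isAlgClosed
  have hα0 : ∀ c, d.α c ≠ 0 := by
    intro c h
    exact d.hα c (by rw [h]; simp)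
  choose Nc κ' hNc hκ' hrel using fun c => zt_mul (d.g2C c) (d.g3C c) (hα0 c) (d.hmul c)
  have hαQ : ∀ c, d.α c ∈ QB := fun c => mem_QB.2 (alg_of_mul (d.hmul c))
  set αs : C → ℂ := fun c => (Nc c : ℂ) / d.α c with hαs
  have hαsQ : ∀ c, αs c ∈ QB := fun c => div_mem (natCast_mem _ _) (hαQ c)
  have hne : ∀ c, d.α c - αs c ≠ 0 := fun c => sub_ne_zero.2 (ne_conj (d.hα c) (hNc c)).symm
  set a₀ : C → ℂ := fun c => κ' c / (d.α c - αs c) with ha₀
  have ha₀Q : ∀ c, a₀ c ∈ QB := fun c => div_mem (hκ' c) (sub_mem (hαQ c) (hαsQ c))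
  -- the families
  set w : Ind A B C → J → ℂ := Sum.elim d.wA (Sum.elim
    (fun b j => d.s b * zt (d.LB b) (d.uB b j) + d.ρ b * d.uB b j)
    (Sum.elim (fun c j => 0 * zt (d.LC c) (d.uC c j) + 1 * d.uC c j)
      (fun c j => 1 * zt (d.LC c) (d.uC c j) + (-a₀ c) * d.uC c j))) with hw
  have hwi : ∀ i, LinearIndependent Qb (w i) := by
    intro i
    rcases i with a | b | c | c
    · exact (d.hA a).indep
    · exact second_indep (d.g2B b) (d.g3B b) (d.hB b) (d.hs b) (d.hρ b) (d.hsρ b)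
    · exact second_indep (d.g2C c) (d.g3C c) (d.hC c) isAlgebraic_zero isAlgebraic_one
        (Or.inr one_ne_zero)
    · exact second_indep (d.g2C c) (d.g3C c) (d.hC c) isAlgebraic_one
        (mem_QB.1 (neg_mem (ha₀Q c))) (Or.inl one_ne_zero)
  have hcard : Fintype.card (Ind A B C) =
      Fintype.card A + (Fintype.card B + (Fintype.card C + Fintype.card C)) := by
    simp [Ind]
  obtain ⟨F₀, hF0, hFd, hF⟩ := box_sigma N D W hWf hWN (σ := Ind A B C) (J := J)
    (by rw [hcard]; exact hJ) (fun _ => 0) w hwi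
  rw [hcard] at hFd
  -- the substitution
  let αq : C → Qb := fun c => ⟨d.α c, hαQ c⟩
  let αsq : C → Qb := fun c => ⟨αs c, hαsQ c⟩
  have hneq : ∀ c, αq c - αsq c ≠ 0 := by
    intro c h
    apply hne c
    have := congrArg (fun x : Qb => (x : ℂ)) h
    exact this
  let lin : Ind A B C × J → MvPolynomial (Ind A B C × J) Qb := fun p =>
    match p with
    | (Sum.inl a, j) => MvPolynomial.X (Sum.inl a, j)
    | (Sum.inr (Sum.inl b), j) => MvPolynomial.X (Sum.inr (Sum.inl b), j)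
    | (Sum.inr (Sum.inr (Sum.inl c)), j) => MvPolynomial.X (Sum.inr (Sum.inr (Sum.inl c)), j) +
        MvPolynomial.C (αq c) * MvPolynomial.X (Sum.inr (Sum.inr (Sum.inr c)), j)
    | (Sum.inr (Sum.inr (Sum.inr c)), j) => MvPolynomial.X (Sum.inr (Sum.inr (Sum.inl c)), j) +
        MvPolynomial.C (αsq c) * MvPolynomial.X (Sum.inr (Sum.inr (Sum.inr c)), j)
  let lin' : Ind A B C × J → MvPolynomial (Ind A B C × J) Qb := fun p =>
    match p with
    | (Sum.inl a, j) => MvPolynomial.X (Sum.inl a, j)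
    | (Sum.inr (Sum.inl b), j) => MvPolynomial.X (Sum.inr (Sum.inl b), j)
    | (Sum.inr (Sum.inr (Sum.inl c)), j) => MvPolynomial.C ((αq c - αsq c)⁻¹) *
        (MvPolynomial.C (αq c) * MvPolynomial.X (Sum.inr (Sum.inr (Sum.inr c)), j) -
          MvPolynomial.C (αsq c) * MvPolynomial.X (Sum.inr (Sum.inr (Sum.inl c)), j))
    | (Sum.inr (Sum.inr (Sum.inr c)), j) => MvPolynomial.C ((αq c - αsq c)⁻¹) *
        (MvPolynomial.X (Sum.inr (Sum.inr (Sum.inl c)), j) -
          MvPolynomial.X (Sum.inr (Sum.inr (Sum.inr c)), j))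
  have hCinv : ∀ c, (MvPolynomial.C ((αq c - αsq c)⁻¹) : MvPolynomial (Ind A B C × J) Qb) *
      (MvPolynomial.C (αq c) - MvPolynomial.C (αsq c)) = 1 := by
    intro c
    rw [← MvPolynomial.C_sub, ← MvPolynomial.C_mul, inv_mul_cancel₀ (hneq c), MvPolynomial.C_1]
  have hlin' : ∀ p, bind₁ lin' (lin p) = MvPolynomial.X p := by
    rintro ⟨a | b | c | c, j⟩
    · simp only [lin, lin', bind₁_X_right]
    · simp only [lin, lin', bind₁_X_right]
    · simp only [lin, map_add, map_mul, bind₁_X_right, bind₁_C_right]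
      simp only [lin']
      linear_combination (MvPolynomial.X (Sum.inr (Sum.inr (Sum.inl c)), j) :
        MvPolynomial (Ind A B C × J) Qb) * hCinv c
    · simp only [lin, map_add, map_mul, bind₁_X_right, bind₁_C_right]
      simp only [lin']
      linear_combination (MvPolynomial.X (Sum.inr (Sum.inr (Sum.inr c)), j) :
        MvPolynomial (Ind A B C × J) Qb) * hCinv c
  have hlind : ∀ p, (lin p).totalDegree ≤ 1 := by
    rintro ⟨a | b | c | c, j⟩
    · simp only [lin]
      rw [totalDegree_X]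
    · simp only [lin]
      rw [totalDegree_X]
    · simp only [lin]
      refine (totalDegree_add _ _).trans (max_le ?_ ?_)
      · rw [totalDegree_X]
      · refine (totalDegree_mul _ _).trans ?_
        rw [totalDegree_C, totalDegree_X]
    · simp only [lin]
      refine (totalDegree_add _ _).trans (max_le ?_ ?_)
      · rw [totalDegree_X]
      · refine (totalDegree_mul _ _).trans ?_
        rw [totalDegree_C, totalDegree_X]
  refine ⟨bind₁ lin F₀, ?_, (totalDegree_bind_le lin hlind F₀).trans hFd, ?_⟩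
  · intro h
    apply hF0
    have h4 : bind₁ lin' (bind₁ lin F₀) = F₀ := by
      rw [bind₁_bind₁]
      have h5 : (fun i => (bind₁ lin') (lin i)) = MvPolynomial.X := by
        funext i
        exact hlin' i
      rw [h5]
      exact aeval_X_left_apply F₀
    rw [← h4, h, map_zero]
  intro m hm
  -- the coefficients
  set M : Ind A B C → J → Qb := fun i j =>
    MvPolynomial.eval (fun p => ((m p.1 p.2 : ℤ) : Qb)) (lin (i, j)) with hM
  have hMev : MvPolynomial.eval (fun p => M p.1 p.2) F₀ =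
      MvPolynomial.eval (fun p => ((m p.1 p.2 : ℤ) : Qb)) (bind₁ lin F₀) := by
    rw [← MvPolynomial.coe_aeval_eq_eval, ← MvPolynomial.coe_aeval_eq_eval]
    show aeval (fun p => M p.1 p.2) F₀ = aeval _ (bind₁ lin F₀)
    rw [aeval_bind₁]
    rfl
  have hno := (hF M (by rw [hMev]; exact hm)).tot
  -- the values of the coefficients
  have hMA : ∀ a j, ((M (Sum.inl a) j : Qb) : ℂ) = m (Sum.inl a) j := by
    intro a j
    rw [hM]
    simp only [lin, MvPolynomial.eval_X]
    push_cast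
    rfl
  have hMB : ∀ b j, ((M (Sum.inr (Sum.inl b)) j : Qb) : ℂ) = m (Sum.inr (Sum.inl b)) j := by
    intro b j
    rw [hM]
    simp only [lin, MvPolynomial.eval_X]
    push_cast
    rfl
  have hMC : ∀ c j, ((M (Sum.inr (Sum.inr (Sum.inl c))) j : Qb) : ℂ) =
      m (Sum.inr (Sum.inr (Sum.inl c))) j + m (Sum.inr (Sum.inr (Sum.inr c))) j * d.α c := by
    intro c j
    rw [hM]
    simp only [lin, map_add, map_mul, MvPolynomial.eval_X, MvPolynomial.eval_C]
    push_cast
    ring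
  have hMC' : ∀ c j, ((M (Sum.inr (Sum.inr (Sum.inr c))) j : Qb) : ℂ) =
      m (Sum.inr (Sum.inr (Sum.inl c))) j + m (Sum.inr (Sum.inr (Sum.inr c))) j * αs c := by
    intro c j
    rw [hM]
    simp only [lin, map_add, map_mul, MvPolynomial.eval_X, MvPolynomial.eval_C]
    push_cast
    ring
  set x : Ind A B C → ℂ := fun i => 0 + ∑ j, M i j • w i j with hx
  have hsm : ∀ (a : Qb) (y : ℂ), a • y = (a : ℂ) * y := fun a y => rfl
  have hxA : ∀ a, x (Sum.inl a) = d.tA m a := by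
    intro a
    rw [hx]
    simp only [zero_add, hsm, hMA]
    rfl
  have hxB : ∀ b, (d.s b * zt (d.LB b) (d.pB m b) + d.ρ b * d.pB m b) - x (Sum.inr (Sum.inl b)) ∈ QB := by
    intro b
    have h4 := zt_comb (d.g2B b) (d.g3B b) (d.hB b).1 (m (Sum.inr (Sum.inl b)))
    have h5 := mul_mem (mem_QB.2 (d.hs b)) h4
    have h6 : (d.s b * zt (d.LB b) (d.pB m b) + d.ρ b * d.pB m b) - x (Sum.inr (Sum.inl b)) =
        d.s b * (zt (d.LB b) (∑ j, (m (Sum.inr (Sum.inl b)) j : ℂ) * d.uB b j) -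
          ∑ j, (m (Sum.inr (Sum.inl b)) j : ℂ) * zt (d.LB b) (d.uB b j)) := by
      have h7 : x (Sum.inr (Sum.inl b)) = d.s b * ∑ j, (m (Sum.inr (Sum.inl b)) j : ℂ) *
          zt (d.LB b) (d.uB b j) + d.ρ b * d.pB m b := by
        rw [hx]
        simp only [zero_add, hsm, hMB, pB, Finset.mul_sum]
        rw [← Finset.sum_add_distrib]
        apply Finset.sum_congr rfl
        intro j _
        rw [hw]
        simp only [Sum.elim_inr, Sum.elim_inl]
        ring
      rw [h7]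
      simp only [pB]
      ring
    rw [h6]
    exact h5
  have hxC : ∀ c, x (Sum.inr (Sum.inr (Sum.inl c))) = d.pC m c := by
    intro c
    rw [hx]
    simp only [zero_add, hsm, hMC, pC]
    apply Finset.sum_congr rfl
    intro j _
    rw [hw]
    simp only [Sum.elim_inr, Sum.elim_inl]
    ring
  have hxC' : ∀ c, zt (d.LC c) (d.pC m c) - (x (Sum.inr (Sum.inr (Sum.inr c))) +
      a₀ c * x (Sum.inr (Sum.inr (Sum.inl c)))) ∈ QB := by
    intro c
    have h4 := zt_comb_CM (d.g2C c) (d.g3C c) (d.hmul c) (hrel c) (d.hC c).1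
      (m (Sum.inr (Sum.inr (Sum.inl c)))) (m (Sum.inr (Sum.inr (Sum.inr c))))
    have h5 : x (Sum.inr (Sum.inr (Sum.inr c))) + a₀ c * x (Sum.inr (Sum.inr (Sum.inl c))) =
        ∑ j, ((m (Sum.inr (Sum.inr (Sum.inl c))) j : ℂ) +
          m (Sum.inr (Sum.inr (Sum.inr c))) j * (Nc c / d.α c)) * zt (d.LC c) (d.uC c j) +
        κ' c * ∑ j, (m (Sum.inr (Sum.inr (Sum.inr c))) j : ℂ) * d.uC c j := by
      have h6 : x (Sum.inr (Sum.inr (Sum.inr c))) = ∑ j, ((m (Sum.inr (Sum.inr (Sum.inl c))) j : ℂ) +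
          m (Sum.inr (Sum.inr (Sum.inr c))) j * αs c) *
            (zt (d.LC c) (d.uC c j) - a₀ c * d.uC c j) := by
        rw [hx]
        simp only [zero_add, hsm, hMC']
        apply Finset.sum_congr rfl
        intro j _
        rw [hw]
        simp only [Sum.elim_inr, Sum.elim_inl]
        ring
      have hk : κ' c = a₀ c * (d.α c - αs c) := by
        rw [ha₀]
        have := hne c
        field_simp
      rw [h6, hxC, pC, hk]
      simp only [Finset.mul_sum, ← Finset.sum_add_distrib]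
      apply Finset.sum_congr rfl
      intro j _
      show _ = ((m (Sum.inr (Sum.inr (Sum.inl c))) j : ℂ) +
          m (Sum.inr (Sum.inr (Sum.inr c))) j * αs c) * zt (d.LC c) (d.uC c j) +
          a₀ c * (d.α c - αs c) * (m (Sum.inr (Sum.inr (Sum.inr c))) j * d.uC c j)
      ring
    rw [h5]
    exact h4
  -- the affine transformation
  let cB : B → Qb := fun b => ⟨_, hxB b⟩
  let cC : C → Qb := fun c => ⟨_, hxC' c⟩
  let aq : C → Qb := fun c => ⟨a₀ c, ha₀Q c⟩
  let g : Ind A B C → MvPolynomial (Ind A B C) Qb := fun i =>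
    match i with
    | Sum.inl a => MvPolynomial.X (Sum.inl a)
    | Sum.inr (Sum.inl b) => MvPolynomial.X (Sum.inr (Sum.inl b)) + MvPolynomial.C (cB b)
    | Sum.inr (Sum.inr (Sum.inl c)) => MvPolynomial.X (Sum.inr (Sum.inr (Sum.inl c)))
    | Sum.inr (Sum.inr (Sum.inr c)) => MvPolynomial.X (Sum.inr (Sum.inr (Sum.inr c))) +
        MvPolynomial.C (aq c) * MvPolynomial.X (Sum.inr (Sum.inr (Sum.inl c))) + MvPolynomial.C (cC c)
  let g' : Ind A B C → MvPolynomial (Ind A B C) Qb := fun i =>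
    match i with
    | Sum.inl a => MvPolynomial.X (Sum.inl a)
    | Sum.inr (Sum.inl b) => MvPolynomial.X (Sum.inr (Sum.inl b)) - MvPolynomial.C (cB b)
    | Sum.inr (Sum.inr (Sum.inl c)) => MvPolynomial.X (Sum.inr (Sum.inr (Sum.inl c)))
    | Sum.inr (Sum.inr (Sum.inr c)) => MvPolynomial.X (Sum.inr (Sum.inr (Sum.inr c))) -
        MvPolynomial.C (aq c) * MvPolynomial.X (Sum.inr (Sum.inr (Sum.inl c))) - MvPolynomial.C (cC c)
  have hfin := hno.subst g g' (by
    rintro (a | b | c | c)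
    · simp only [g]
      rw [totalDegree_X]
    · simp only [g]
      refine (totalDegree_add _ _).trans (max_le ?_ ?_)
      · rw [totalDegree_X]
      · rw [totalDegree_C]
        exact Nat.zero_le _
    · simp only [g]
      rw [totalDegree_X]
    · simp only [g]
      refine (totalDegree_add _ _).trans (max_le ?_ ?_)
      · refine (totalDegree_add _ _).trans (max_le ?_ ?_)
        · rw [totalDegree_X]
        · refine (totalDegree_mul _ _).trans ?_
          rw [totalDegree_C, totalDegree_X]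
      · rw [totalDegree_C]
        exact Nat.zero_le _) (by
    rintro (a | b | c | c)
    · simp only [g, g', bind₁_X_right]
    · simp only [g, map_add, bind₁_X_right, bind₁_C_right]
      simp only [g']
      ring
    · simp only [g, g', bind₁_X_right]
    · simp only [g, map_add, map_mul, bind₁_X_right, bind₁_C_right]
      simp only [g']
      ring)
  have hnum : (fun i => aeval x (g i)) = d.num m := by
    funext i
    rcases i with a | b | c | c
    · simp only [g, aeval_X, hxA, num, Sum.elim_inl]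
    · simp only [g, map_add, aeval_X, aeval_C, num, Sum.elim_inr, Sum.elim_inl]
      show x (Sum.inr (Sum.inl b)) + (_ - x (Sum.inr (Sum.inl b))) = _
      ring
    · simp only [g, aeval_X, hxC, num, Sum.elim_inl, Sum.elim_inr]
    · simp only [g, map_add, map_mul, aeval_X, aeval_C, num, Sum.elim_inr]
      show x (Sum.inr (Sum.inr (Sum.inr c))) + a₀ c * x (Sum.inr (Sum.inr (Sum.inl c))) +
        (_ - (x (Sum.inr (Sum.inr (Sum.inr c))) + a₀ c * x (Sum.inr (Sum.inr (Sum.inl c))))) = _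
      ring
  rw [← hnum]
  exact hfin

end Data

end Pool.Agent.W245.EB
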