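import Mathlib
import Pool.Agent.W245.EB.Mix

set_option autoImplicit false
set_option linter.unusedVariables false
set_option linter.unusedSectionVars false
set_option linter.unusedSimpArgs false

/-!
# Consequences
-/

open Module MvPolynomial
open scoped PeriodPair

noncomputable section

namespace Pool.Agent.W245.EB

open H667R3

section

variable {κ C : Type*} [Field κ] [Field C] [Algebra κ C]

lemma NoRelTot.comp {σ τ : Type*} {W : Submodule κ C} {D : ℕ} {x : σ → C} (h : NoRelTot W D x)
    (f : τ → σ) (hf : Function.Injective f) : NoRelTot W D (fun i => x (f i)) := by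
  intro Q h1 h2 h3
  have h4 : rename f Q = 0 := by
    apply h
    · exact (totalDegree_rename_le _ _).trans h1
    · intro s
      by_cases hs : ∃ d : τ →₀ ℕ, d.mapDomain f = s
      · obtain ⟨d, rfl⟩ := hs
        rw [coeff_rename_mapDomain f hf]
        exact h2 d
      · push Not at hs
        rw [coeff_rename_eq_zero f Q s (fun u hu => absurd hu (hs u))]
        exact W.zero_mem
    · rw [MvPolynomial.eval_rename]
      exact h3
  apply rename_injective f hf
  rw [h4, map_zero]

lemma NoRelTot.linear {σ : Type*} [Fintype σ] {W : Submodule κ C} {D : ℕ} {x : σ → C}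
    (h : NoRelTot W D x) (hD : 1 ≤ D) (h1 : (1 : C) ∈ W) (β : σ → κ) {y : C} (hy : y ∈ W)
    (hsum : ∑ i, algebraMap κ C (β i) * x i = y) : β = 0 := by
  classical
  set Q : MvPolynomial σ C := ∑ i, monomial (Finsupp.single i 1) (algebraMap κ C (β i)) - monomial 0 y
    with hQ
  have hz : Q = 0 := by
    apply h
    · rw [hQ]
      refine (totalDegree_sub _ _).trans (max_le ?_ ?_)
      · apply totalDegree_finsetSum_le
        intro i _
        refine (totalDegree_monomial_le _ _).trans ?_
        simpa using hD
      · refine (totalDegree_monomial_le _ _).trans ?_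
        simp
    · intro s
      rw [hQ, coeff_sub, coeff_sum]
      apply W.sub_mem
      · apply W.sum_mem
        intro i _
        rw [coeff_monomial]
        split_ifs
        · have := W.smul_mem (β i) h1
          rwa [Algebra.smul_def, mul_one] at this
        · exact W.zero_mem
      · rw [coeff_monomial]
        split_ifs
        · exact hy
        · exact W.zero_mem
    · rw [hQ, map_sub, map_sum, sub_eq_zero]
      simp only [MvPolynomial.eval_monomial]
      have e1 : ∀ i : σ, ((Finsupp.single i 1).prod fun n e => x n ^ e) = x i := by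
        intro i
        have e2 : ((Finsupp.single i 1).prod fun n e => x n ^ e) = x i ^ 1 :=
          Finsupp.prod_single_index (pow_zero _)
        rw [e2, pow_one]
      simp only [e1, hsum, Finsupp.prod_zero_index, mul_one]
  funext i
  have h4 := congrArg (fun P : MvPolynomial σ C => P.coeff (Finsupp.single i 1)) hz
  simp only [coeff_zero] at h4
  rw [hQ, coeff_sub, coeff_sum, coeff_monomial, if_neg, Finset.sum_eq_single i, coeff_monomial,
    if_pos rfl, sub_zero] at h4
  · exact (algebraMap κ C).injective (by rw [h4, Pi.zero_apply, map_zero])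
  · intro j _ hj
    rw [coeff_monomial, if_neg]
    intro h5
    apply hj
    exact Finsupp.single_left_injective one_ne_zero h5
  · intro h5
    exact absurd (Finset.mem_univ _) h5
  · intro h5
    have := congrArg (fun f : σ →₀ ℕ => f i) h5
    simp at this

lemma NoRelTot.ne {σ : Type*} [Fintype σ] {W : Submodule κ C} {D : ℕ} {x : σ → C}
    (h : NoRelTot W D x) (hD : 1 ≤ D) (h1 : (1 : C) ∈ W) (i : σ) : x i ∉ W := by
  classical
  intro hy
  have h4 := h.linear hD h1 (Pi.single i 1) hy (by
    rw [Finset.sum_eq_single i]
    · simp
    · intro j _ hj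
      simp [hj]
    · intro h5
      exact absurd (Finset.mem_univ _) h5)
  have h5 := congrFun h4 i
  simp at h5

end

lemma mult_mem_Qb {L : PeriodPair} {β : ℂ} (h : β ∈ kL L) : β ∈ Qb := by
  obtain ⟨m, hm, h⟩ := h
  have h1 := alg_of_mul (L := L) (α := (m : ℂ) * β) h
  have hmC : (m : ℂ) ≠ 0 := by exact_mod_cast hm.ne'
  have h2 : β = ((m : ℂ) * β) / m := by field_simp
  rw [mem_Qb_iff, h2]
  exact div_mem (mem_QB.2 h1) (natCast_mem _ _)

end Pool.Agent.W245.EB
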