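import Mathlib
import Pool.Agent.W245.EB.Mix2

set_option autoImplicit false
set_option linter.unusedVariables false
set_option linter.unusedSectionVars false
set_option linter.unusedSimpArgs false

/-!
# Relations of bounded total degree: spaces of numbers
-/

open Module MvPolynomial

noncomputable section

namespace Pool.Agent.W245.EB

section

variable {κ C : Type*} [Field κ] [Field C] [Algebra κ C]

lemma NoRelTot.subst' {σ τ : Type*} {W : Submodule κ C} {D : ℕ} {x : σ → C} (h : NoRelTot W D x)
    (g : τ → MvPolynomial σ κ) (g' : σ → MvPolynomial τ κ) (hg : ∀ s, (g s).totalDegree ≤ 1)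
    (hgg' : ∀ s, bind₁ g' (g s) = MvPolynomial.X s) :
    NoRelTot W D (fun s => aeval x (g s)) := by
  intro Q h1 h2 h3
  set G : τ → MvPolynomial σ C := fun i => MvPolynomial.map (algebraMap κ C) (g i) with hG
  set G' : σ → MvPolynomial τ C := fun i => MvPolynomial.map (algebraMap κ C) (g' i) with hG'
  have hev : ∀ s, MvPolynomial.eval x (G s) = aeval x (g s) := by
    intro s
    rw [hG]
    simp only
    rw [MvPolynomial.eval_map, aeval_def]
  have hz : bind₁ G Q = 0 := by
    apply h
    · refine (totalDegree_bind_le G (fun s => ?_) Q).trans h1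
      exact (tdmap _).trans (hg s)
    · exact coeff_bind_mem W g Q h2
    · rw [← h3]
      have h4 : MvPolynomial.eval x (bind₁ G Q) = MvPolynomial.eval (fun s => MvPolynomial.eval x (G s)) Q := by
        rw [← MvPolynomial.coe_aeval_eq_eval, ← MvPolynomial.coe_aeval_eq_eval]
        show aeval x (bind₁ G Q) = aeval _ Q
        rw [aeval_bind₁]
        rfl
      rw [h4]
      congr 2
      funext s
      exact hev s
  have h4 : bind₁ G' (bind₁ G Q) = Q := by
    rw [bind₁_bind₁]
    have h5 : (fun i => (bind₁ G') (G i)) = MvPolynomial.X := by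
      funext i
      rw [hG, hG']
      simp only
      rw [← map_bind₁, hgg', map_X]
    rw [h5]
    exact aeval_X_left_apply Q
  rw [← h4, hz, map_zero]

lemma NoRelTot.mono {σ : Type*} {W W' : Submodule κ C} {D D' : ℕ} {x : σ → C}
    (h : NoRelTot W' D' x) (hW : W ≤ W') (hD : D ≤ D') : NoRelTot W D x :=
  fun Q h1 h2 h3 => h Q (h1.trans hD) (fun s => hW (h2 s)) h3

/-- translation by constants -/
lemma NoRelTot.shift {σ : Type*} {W : Submodule κ C} {D : ℕ} {x : σ → C} (h : NoRelTot W D x)
    (e : σ → κ) : NoRelTot W D (fun i => x i + algebraMap κ C (e i)) := by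
  have h1 := h.subst' (fun i => MvPolynomial.X i + MvPolynomial.C (e i))
    (fun i => MvPolynomial.X i - MvPolynomial.C (e i)) (fun i => by
      refine (totalDegree_add _ _).trans (max_le ?_ ?_)
      · rw [totalDegree_X]
      · rw [totalDegree_C]
        exact Nat.zero_le _) (fun i => by
      simp only [map_add, bind₁_X_right, bind₁_C_right]
      ring)
  have h2 : (fun s => aeval x (MvPolynomial.X s + MvPolynomial.C (e s) : MvPolynomial σ κ)) =
      fun i => x i + algebraMap κ C (e i) := by
    funext i
    rw [map_add, aeval_X, aeval_C]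
  rw [h2] at h1
  exact h1

/-- independent linear combinations -/
lemma NoRelTot.lin {σ τ : Type*} [Fintype σ] [Fintype τ] {W : Submodule κ C} {D : ℕ} {z : σ → C}
    (h : NoRelTot W D z) (c : τ → σ → κ) (hc : LinearIndependent κ c) :
    NoRelTot W D (fun j => ∑ i, c j i • z i) := by
  classical
  let f : (τ → κ) →ₗ[κ] (σ → κ) := Fintype.linearCombination κ c
  have hf : Function.Injective f := linearIndependent_iff_injective_fintypeLinearCombination.1 hc
  obtain ⟨g, hg⟩ := LinearMap.exists_leftInverse_of_injective f (LinearMap.ker_eq_bot.2 hf)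
  have hgc : ∀ j, g (c j) = Pi.single j 1 := by
    intro j
    have h1 : f (Pi.single j 1) = c j := by
      simp only [f]
      rw [Fintype.linearCombination_apply_single, one_smul]
    rw [← h1]
    have := congrArg (fun F : (τ → κ) →ₗ[κ] (τ → κ) => F (Pi.single j 1)) hg
    simpa using this
  have h1 := h.subst' (fun j => ∑ i, MvPolynomial.C (c j i) * MvPolynomial.X i)
    (fun i => ∑ j, MvPolynomial.C (g (Pi.single i 1) j) * MvPolynomial.X j) (fun j => by
      apply totalDegree_finsetSum_le
      intro i _
      refine (totalDegree_mul _ _).trans ?_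
      rw [totalDegree_C, totalDegree_X]) (fun j => by
      simp only [map_sum, map_mul, bind₁_X_right, bind₁_C_right, Finset.mul_sum]
      rw [Finset.sum_comm]
      have e1 : ∀ j' : τ, ∑ i, MvPolynomial.C (c j i) * (MvPolynomial.C (g (Pi.single i 1) j') *
          (MvPolynomial.X j' : MvPolynomial τ κ)) =
          MvPolynomial.C ((Pi.single j 1 : τ → κ) j') * MvPolynomial.X j' := by
        intro j'
        rw [← hgc j]
        have e2 : c j = ∑ i, c j i • (Pi.single i 1 : σ → κ) := by
          funext i
          simp [Finset.sum_apply, Pi.single_apply]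
        conv_rhs => rw [e2]
        rw [map_sum, Finset.sum_apply, map_sum, Finset.sum_mul]
        apply Finset.sum_congr rfl
        intro i _
        rw [map_smul, Pi.smul_apply, smul_eq_mul, MvPolynomial.C_mul]
        ring
      simp only [e1]
      rw [Finset.sum_eq_single j]
      · rw [Pi.single_eq_same, MvPolynomial.C_1, one_mul]
      · intro b _ hb
        rw [Pi.single_eq_of_ne hb, MvPolynomial.C_0, zero_mul]
      · intro hh
        exact absurd (Finset.mem_univ _) hh)
  have h2 : (fun s => aeval z (∑ i, MvPolynomial.C (c s i) * MvPolynomial.X i : MvPolynomial σ κ)) =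
      fun j => ∑ i, c j i • z i := by
    funext j
    rw [map_sum]
    apply Finset.sum_congr rfl
    intro i _
    rw [map_mul, aeval_X, aeval_C, Algebra.smul_def]
  rw [h2] at h1
  exact h1

/-- every independent family of elements of `X` satisfies no relation -/
def NR (W : Submodule κ C) (D : ℕ) (X : Submodule κ C) : Prop :=
  ∀ (k : ℕ) (x : Fin k → C), (∀ i, x i ∈ X) → LinearIndependent κ x → NoRelTot W D x

lemma NR.mono {W W' : Submodule κ C} {D D' : ℕ} {X : Submodule κ C}
    (h : NR W' D' X) (hW : W ≤ W') (hD : D ≤ D') : NR W D X :=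
  fun k x h1 h2 => (h k x h1 h2).mono hW hD

lemma NR.fam {W : Submodule κ C} {D : ℕ} {X : Submodule κ C} (h : NR W D X) {τ : Type*} [Fintype τ]
    (x : τ → C) (hx : ∀ i, x i ∈ X) (hi : LinearIndependent κ x) : NoRelTot W D x := by
  classical
  let e := Fintype.equivFin τ
  have h1 := h _ (fun i => x (e.symm i)) (fun i => hx _) (hi.comp _ e.symm.injective)
  have h2 := h1.comp e e.injective
  have h3 : (fun i => x (e.symm (e i))) = x := by
    funext i
    rw [e.symm_apply_apply]
  rw [h3] at h2
  exact h2

lemma nr_of_family {σ : Type*} [Fintype σ] {W : Submodule κ C} {D : ℕ} {z : σ → C}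
    (h : NoRelTot W D z) : NR W D (Submodule.span κ (Set.range z)) := by
  classical
  intro k x hx hi
  have h1 : ∀ j, ∃ c : σ → κ, ∑ i, c i • z i = x j := fun j =>
    (Submodule.mem_span_range_iff_exists_fun κ).1 (hx j)
  choose c hc using h1
  have h2 : LinearIndependent κ c := by
    rw [Fintype.linearIndependent_iff] at hi ⊢
    intro g hg
    apply hi g
    have e1 : ∑ j, g j • x j = ∑ i, (∑ j, g j • c j) i • z i := by
      simp only [← hc, Finset.smul_sum, Finset.sum_apply, Pi.smul_apply, smul_eq_mul, Finset.sum_smul,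
        mul_smul]
      rw [Finset.sum_comm]
    rw [e1, hg]
    simp
  have h3 := h.lin c h2
  have h4 : (fun j => ∑ i, c j i • z i) = x := by
    funext j
    exact hc j
  rw [h4] at h3
  exact h3

lemma nr_bot (W : Submodule κ C) (D : ℕ) : NR W D (⊥ : Submodule κ C) := by
  intro k x hx hi
  have hk : k = 0 := by
    by_contra hk
    have h1 := hi.ne_zero ⟨0, Nat.pos_of_ne_zero hk⟩
    exact h1 ((Submodule.mem_bot κ).1 (hx _))
  subst hk
  intro Q h1 h2 h3
  have h4 : Q = MvPolynomial.C (Q.coeff 0) := by
    apply MvPolynomial.ext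
    intro m
    have : m = 0 := Subsingleton.elim _ _
    rw [this, coeff_C, if_pos rfl]
  rw [h4, MvPolynomial.eval_C] at h3
  rw [h4, h3, MvPolynomial.C_0]

lemma prod_pow_mem {A : Submodule κ C} (h1 : (1 : C) ∈ A) {σ : Type*} [Fintype σ] (x : σ → C)
    (hx : ∀ i, x i ∈ A) (e : σ → ℕ) : ∏ i, x i ^ e i ∈ A ^ (∑ i, e i) := by
  classical
  have : ∀ s : Finset σ, ∏ i ∈ s, x i ^ e i ∈ A ^ (∑ i ∈ s, e i) := by
    intro s
    induction s using Finset.induction_on with
    | empty => simp
    | insert a s ha ih =>
      rw [Finset.prod_insert ha, Finset.sum_insert ha, pow_add]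
      exact Submodule.mul_mem_mul (Submodule.pow_mem_pow A (hx a) (e a)) ih
  exact this Finset.univ

lemma pow_mono_of_one {A : Submodule κ C} (h1 : (1 : C) ∈ A) {a b : ℕ} (hab : a ≤ b) :
    A ^ a ≤ A ^ b := by
  obtain ⟨c, rfl⟩ := Nat.exists_eq_add_of_le hab
  rw [pow_add]
  intro x hx
  have h2 : (1 : C) ∈ A ^ c := by
    have := Submodule.pow_mem_pow A h1 c
    rwa [one_pow] at this
  have := Submodule.mul_mem_mul hx h2
  rwa [mul_one] at this

/-- adjunction of a block -/
lemma NoRelTot.append {σ τ : Type*} [Fintype σ] [Fintype τ] {W A : Submodule κ C} {a D : ℕ}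
    (h1 : (1 : C) ∈ A) (hW : W ≤ A ^ a) {x : σ → C} {y : τ → C} (hx : ∀ i, x i ∈ A)
    (hX : NoRelTot W D x) (hY : NoRelTot (A ^ (a + D)) D y) : NoRelTot W D (Sum.elim x y) := by
  classical
  intro Q hQ hc h0
  have hinl : Function.Injective (Sum.inl : σ → σ ⊕ τ) := Sum.inl_injective
  have hinr : Function.Injective (Sum.inr : τ → σ ⊕ τ) := Sum.inr_injective
  let pl : (σ ⊕ τ →₀ ℕ) → (σ →₀ ℕ) := fun d => Finsupp.comapDomain Sum.inl d hinl.injOn
  let pr : (σ ⊕ τ →₀ ℕ) → (τ →₀ ℕ) := fun d => Finsupp.comapDomain Sum.inr d hinr.injOn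
  have hdeg : ∀ d ∈ Q.support, d.degree ≤ D := fun d hd => (le_totalDegree hd).trans hQ
  have hdl : ∀ d ∈ Q.support, ∑ i, d (Sum.inl i) ≤ D := by
    intro d hd
    refine le_trans ?_ (hdeg d hd)
    rw [Finsupp.degree_eq_sum, Fintype.sum_sum_type]
    exact Nat.le_add_right _ _
  have hdr : ∀ d ∈ Q.support, ∑ i, d (Sum.inr i) ≤ D := by
    intro d hd
    refine le_trans ?_ (hdeg d hd)
    rw [Finsupp.degree_eq_sum, Fintype.sum_sum_type]
    exact Nat.le_add_left _ _
  set Qy : MvPolynomial τ C := ∑ d ∈ Q.support,
    monomial (pr d) (Q.coeff d * ∏ i, x i ^ (d (Sum.inl i))) with hQy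
  have hev : MvPolynomial.eval y Qy = MvPolynomial.eval (Sum.elim x y) Q := by
    rw [hQy, map_sum, MvPolynomial.eval_eq']
    apply Finset.sum_congr rfl
    intro d _
    rw [MvPolynomial.eval_monomial, Finsupp.prod_fintype _ _ (fun _ => pow_zero _),
      Fintype.prod_sum_type]
    simp only [pr, Sum.elim_inl, Sum.elim_inr, Finsupp.comapDomain_apply]
    rw [mul_assoc]
  have hz : Qy = 0 := by
    apply hY
    · rw [hQy]
      apply totalDegree_finsetSum_le
      intro d hd
      refine (totalDegree_monomial_le _ _).trans (le_trans ?_ (hdr d hd))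
      rw [Finsupp.sum_fintype _ _ (fun _ => rfl)]
      simp only [pr, Finsupp.comapDomain_apply]
      exact le_rfl
    · intro s
      rw [hQy, coeff_sum]
      apply Submodule.sum_mem
      intro d hd
      rw [coeff_monomial]
      split_ifs
      · rw [pow_add]
        exact Submodule.mul_mem_mul (hW (hc d))
          (pow_mono_of_one h1 (hdl d hd) (prod_pow_mem h1 x hx _))
      · exact Submodule.zero_mem _
    · rw [hev]
      exact h0
  have hdet : ∀ d d' : σ ⊕ τ →₀ ℕ, pl d = pl d' → pr d = pr d' → d = d' := by
    intro d d' hl hr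
    ext i
    rcases i with i | i
    · have := congrArg (fun f : σ →₀ ℕ => f i) hl
      simpa [pl, Finsupp.comapDomain_apply] using this
    · have := congrArg (fun f : τ →₀ ℕ => f i) hr
      simpa [pr, Finsupp.comapDomain_apply] using this
  apply MvPolynomial.ext
  intro d0
  rw [coeff_zero]
  by_contra hne
  set P : MvPolynomial σ C := ∑ d ∈ Q.support.filter (fun d => pr d = pr d0),
    monomial (pl d) (Q.coeff d) with hP
  have hPz : P = 0 := by
    apply hX
    · rw [hP]
      apply totalDegree_finsetSum_le
      intro d hd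
      refine (totalDegree_monomial_le _ _).trans (le_trans ?_ (hdl d (Finset.mem_filter.1 hd).1))
      rw [Finsupp.sum_fintype _ _ (fun _ => rfl)]
      simp only [pl, Finsupp.comapDomain_apply]
      exact le_rfl
    · intro s
      rw [hP, coeff_sum]
      apply Submodule.sum_mem
      intro d hd
      rw [coeff_monomial]
      split_ifs
      · exact hc d
      · exact Submodule.zero_mem _
    · have h4 : Qy.coeff (pr d0) = 0 := by rw [hz, coeff_zero]
      rw [← h4, hQy, hP, map_sum, coeff_sum, Finset.sum_filter]
      apply Finset.sum_congr rfl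
      intro d _
      rw [coeff_monomial]
      split_ifs
      · rw [MvPolynomial.eval_monomial, Finsupp.prod_fintype _ _ (fun _ => pow_zero _)]
        simp only [pl, Finsupp.comapDomain_apply]
      · rfl
  have h5 : P.coeff (pl d0) = Q.coeff d0 := by
    rw [hP, coeff_sum, Finset.sum_eq_single d0]
    · rw [coeff_monomial, if_pos rfl]
    · intro d hd hdne
      rw [coeff_monomial, if_neg]
      intro h6
      exact hdne (hdet d d0 h6 (Finset.mem_filter.1 hd).2)
    · intro h6
      exfalso
      apply h6
      rw [Finset.mem_filter]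
      exact ⟨mem_support_iff.2 hne, rfl⟩
  rw [hPz, coeff_zero] at h5
  exact hne h5.symm

lemma nr_append {W A : Submodule κ C} {a N D : ℕ} (h1 : (1 : C) ∈ A) (hW : W ≤ A ^ a)
    (hN : a + D ≤ N) {X Y : Submodule κ C} (hXf : Module.Finite κ X) (hYf : Module.Finite κ Y)
    (hXA : X ≤ A) (hX : NR W D X) (hY : NR (A ^ N) D Y) : NR W D (X ⊔ Y) := by
  classical
  set bX := Module.finBasis κ X with hbX
  set bY := Module.finBasis κ Y with hbY
  have iX : LinearIndependent κ (fun i => ((bX i : X) : C)) :=
    bX.linearIndependent.map' X.subtype (Submodule.ker_subtype X)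
  have iY : LinearIndependent κ (fun i => ((bY i : Y) : C)) :=
    bY.linearIndependent.map' Y.subtype (Submodule.ker_subtype Y)
  have h4 : NoRelTot W D (Sum.elim (fun i => ((bX i : X) : C)) (fun i => ((bY i : Y) : C))) := by
    apply NoRelTot.append h1 hW (fun i => hXA (bX i).2)
    · exact hX _ _ (fun i => (bX i).2) iX
    · exact (hY _ _ (fun i => (bY i).2) iY).mono (pow_mono_of_one h1 hN) le_rfl
  have h5 := nr_of_family h4
  have h6 : Submodule.span κ (Set.range (Sum.elim (fun i => ((bX i : X) : C))
      (fun i => ((bY i : Y) : C)))) = X ⊔ Y := by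
    rw [Set.Sum.elim_range, Submodule.span_union]
    congr 1
    · have : Set.range (fun i => ((bX i : X) : C)) = X.subtype '' Set.range bX := by
        rw [← Set.range_comp]
        rfl
      rw [this, Submodule.span_image, bX.span_eq, Submodule.map_top, Submodule.range_subtype]
    · have : Set.range (fun i => ((bY i : Y) : C)) = Y.subtype '' Set.range bY := by
        rw [← Set.range_comp]
        rfl
      rw [this, Submodule.span_image, bY.span_eq, Submodule.map_top, Submodule.range_subtype]
  rw [h6] at h5
  exact h5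

/-- numbers which are congruent to elements of `X` modulo the base field -/
lemma NR.affine {W : Submodule κ C} {D : ℕ} {X : Submodule κ C} (h : NR W D X) {τ : Type*}
    [Fintype τ] (x : τ → C) (e : τ → κ) (hx : ∀ i, x i - algebraMap κ C (e i) ∈ X)
    (hi : LinearIndependent κ (fun i => x i - algebraMap κ C (e i))) : NoRelTot W D x := by
  have h1 := (h.fam _ hx hi).shift e
  have h2 : (fun i => x i - algebraMap κ C (e i) + algebraMap κ C (e i)) = x := by
    funext i
    ring
  rw [h2] at h1
  exact h1

end

end Pool.Agent.W245.EB
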