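import Mathlib
import Pool.Agent.W245.EB.Fam

set_option autoImplicit false
set_option linter.unusedVariables false
set_option linter.unusedSectionVars false
set_option linter.unusedSimpArgs false

/-!
# Infinite sequences without relations, with explicit bounds
-/

open Module Finset

noncomputable section

namespace Pool.Agent.W245.EB

open Pool.Agent.H297R2 Pool.Agent.W245 Pool.Agent.W245.PB

/-- a nonzero polynomial of bounded degree does not vanish on a large product of finite sets -/
lemma exists_eval_ne_zero {κ : Type*} [Field κ] {J : Type*} [Fintype J] [DecidableEq J]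
    (F : MvPolynomial J κ) (hF : F ≠ 0) (T : J → Finset κ) (hT : ∀ j, F.totalDegree < (T j).card) :
    ∃ m : J → κ, (∀ j, m j ∈ T j) ∧ MvPolynomial.eval m F ≠ 0 := by
  by_contra hcon
  push Not at hcon
  apply hF
  apply MvPolynomial.eq_zero_of_eval_zero_at_prod_finset F T
  · intro j
    exact (MvPolynomial.degreeOf_le_totalDegree F j).trans_lt (hT j)
  · intro m hm
    exact hcon m hm

/-- one variable -/
lemma noRelOver_of_noRelP {κ C : Type*} [Field κ] [Field C] [Algebra κ C] {W : Submodule κ C}
    {d : ℕ} {x : C} (h : NoRelP W (fun _ : Fin 1 => d) (fun _ => x)) : NoRelOver W d x := by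
  classical
  intro c hc h0 j
  set Q : MvPolynomial (Fin 1) C := ∑ j : Fin (d + 1), MvPolynomial.monomial (Finsupp.single 0 (j : ℕ)) (c j)
    with hQ
  have hcoef : ∀ j : Fin (d + 1), Q.coeff (Finsupp.single 0 (j : ℕ)) = c j := by
    intro j
    rw [hQ, MvPolynomial.coeff_sum, Finset.sum_eq_single j]
    · rw [MvPolynomial.coeff_monomial, if_pos rfl]
    · intro j' _ hne
      rw [MvPolynomial.coeff_monomial, if_neg]
      intro he
      apply hne
      have := congrArg (fun f : Fin 1 →₀ ℕ => f 0) he
      simp only [Finsupp.single_eq_same] at this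
      exact Fin.ext this
    · intro hh
      exact absurd (Finset.mem_univ _) hh
  have hz : Q = 0 := by
    apply h Q
    · intro i
      rw [MvPolynomial.degreeOf_le_iff]
      intro s hs
      rw [MvPolynomial.mem_support_iff, hQ, MvPolynomial.coeff_sum] at hs
      obtain ⟨j, _, hj⟩ := Finset.exists_ne_zero_of_sum_ne_zero hs
      rw [MvPolynomial.coeff_monomial] at hj
      split_ifs at hj with he
      · rw [← he]
        have : i = 0 := Subsingleton.elim _ _
        rw [this, Finsupp.single_eq_same]
        exact Nat.lt_succ_iff.1 j.2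
      · exact absurd rfl hj
    · intro s
      rw [hQ, MvPolynomial.coeff_sum]
      apply Submodule.sum_mem
      intro j _
      rw [MvPolynomial.coeff_monomial]
      split_ifs
      · exact hc j
      · exact W.zero_mem
    · rw [hQ, map_sum, ← h0]
      apply Finset.sum_congr rfl
      intro j _
      rw [MvPolynomial.eval_monomial]
      congr 1
      exact Finsupp.prod_single_index (pow_zero _)
  rw [← hcoef j, hz, MvPolynomial.coeff_zero]

/-- size of the blocks -/
def RR (N : ℕ) (D : ℕ → ℕ) (i : ℕ) : ℕ := N * ∏ l ∈ range (i + 1), (D l + 1)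

/-- **Infinite sequences without relations**, explicit form. -/
theorem seq_noRel {κ C : Type*} [Field κ] [IsAlgClosed κ] [Field C] [Algebra κ C] (N : ℕ)
    (D : ℕ → ℕ) (W : Submodule κ C) (hWf : Module.Finite κ W) (hWN : finrank κ W ≤ N)
    (v : ℕ → C) (w : (i : ℕ) → Fin (RR N D i) → C) (hw : ∀ i, LinearIndependent κ (w i))
    (T : (i : ℕ) → Fin (RR N D i) → Finset κ) (hT : ∀ i j, RR N D i * D i < (T i j).card) :
    ∃ m : (i : ℕ) → Fin (RR N D i) → κ, (∀ i j, m i j ∈ T i j) ∧
      ∀ k : ℕ, NoRelP W (fun i : Fin k => D i) (fun i : Fin k => v i + ∑ j, m i j • w i j) := by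
  classical
  obtain ⟨F, hF0, hFs⟩ : ∃ F : ℕ → ℕ, F 0 = N ∧ ∀ n, F (n + 1) = F n * (D n + 1) :=
    ⟨fun n => Nat.rec N (fun n s => s * (D n + 1)) n, rfl, fun n => rfl⟩
  have hFR : ∀ n, F n * (D n + 1) = RR N D n := by
    intro n
    induction n with
    | zero => simp [RR, hF0]
    | succ n ih =>
      rw [hFs, ih]
      unfold RR
      rw [Finset.prod_range_succ _ (n + 1)]
      ring
  -- one step
  have step : ∀ (n : ℕ) (U : Submodule κ C), ∃ m : Fin (RR N D n) → κ, (∀ j, m j ∈ T n j) ∧
      (Module.Finite κ U → finrank κ U ≤ F n → NoRelOver U (D n) (v n + ∑ j, m j • w n j)) := by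
    intro n U
    have hTne : ∀ j, (T n j).Nonempty := fun j => by
      rw [← Finset.card_pos]
      exact lt_of_le_of_lt (Nat.zero_le _) (hT n j)
    by_cases h : Module.Finite κ U ∧ finrank κ U ≤ F n
    · obtain ⟨P, hP0, hPd, hP⟩ := box_over (F n) (k := 1) (fun _ => D n) U h.1 h.2
        (J := Fin (RR N D n)) (by
          rw [Fintype.card_fin, ← hFR n]
          simp) (fun _ => v n) (fun _ => w n) (fun _ => hw n)
      obtain ⟨m, hm, hne⟩ := exists_eval_ne_zero P hP0 (fun p => T n p.2) (by
        intro p
        refine lt_of_le_of_lt (hPd.trans (le_of_eq ?_)) (hT n p.2)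
        simp [hFR n])
      refine ⟨fun j => m (0, j), fun j => hm _, fun _ _ => ?_⟩
      apply noRelOver_of_noRelP
      have hmm : (fun p : Fin 1 × Fin (RR N D n) => m (0, p.2)) = m := by
        funext p
        obtain ⟨a, b⟩ := p
        have : a = 0 := Subsingleton.elim _ _
        subst this
        rfl
      have h1 := hP (fun _ j => m (0, j)) (by
        rw [hmm]
        exact hne)
      exact h1
    · exact ⟨fun j => (hTne j).choose, fun j => (hTne j).choose_spec, fun h1 h2 => absurd ⟨h1, h2⟩ h⟩
  choose g hg1 hg2 using step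
  set x : (n : ℕ) → Submodule κ C → C := fun n U => v n + ∑ j, g n U j • w n j with hx
  obtain ⟨U, hU0, hUs⟩ : ∃ U : ℕ → Submodule κ C, U 0 = W ∧
      ∀ n, U (n + 1) = powExt (U n) (D n) (x n (U n)) :=
    ⟨fun n => Nat.rec W (fun n V => powExt V (D n) (x n V)) n, rfl, fun n => rfl⟩
  have hUfin : ∀ n, Module.Finite κ (U n) ∧ finrank κ (U n) ≤ F n := by
    intro n
    induction n with
    | zero => rw [hU0, hF0]; exact ⟨hWf, hWN⟩
    | succ n ih =>
      obtain ⟨h1, h2⟩ := ih
      rw [hUs, hFs]
      exact powExt_finite (U n) (F n) h2 (D n) _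
  refine ⟨fun n => g n (U n), fun n => hg1 _ _, ?_⟩
  have hblock : ∀ k m : ℕ, NoRelP (U m) (fun i : Fin k => D (m + i))
      (fun i => x (m + i) (U (m + i))) := by
    intro k
    induction k with
    | zero => intro m; exact NoRelP.zero _ _ _
    | succ k ih =>
      intro m
      have h1 := ih (m + 1)
      rw [hUs m] at h1
      have h2 := NoRelP.cons (hg2 m (U m) (hUfin m).1 (hUfin m).2) h1
      have e1 : (Fin.cons (D m) (fun i : Fin k => D (m + 1 + i)) : Fin (k + 1) → ℕ) =
          fun i : Fin (k + 1) => D (m + i) := by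
        funext i
        refine Fin.cases ?_ (fun j => ?_) i
        · simp
        · simp only [Fin.cons_succ, Fin.val_succ]
          congr 1
          omega
      have e2 : (Fin.cons (x m (U m))
          (fun i : Fin k => x (m + 1 + i) (U (m + 1 + i))) :
          Fin (k + 1) → C) = fun i : Fin (k + 1) => x (m + i) (U (m + i)) := by
        funext i
        refine Fin.cases ?_ (fun j => ?_) i
        · simp
        · simp only [Fin.cons_succ, Fin.val_succ]
          have e3 : m + 1 + (j : ℕ) = m + (j + 1) := by omega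
          rw [e3]
      rw [e1, e2] at h2
      exact h2
  intro k
  have h1 := hblock k 0
  simp only [zero_add] at h1
  rw [hU0] at h1
  exact h1

end Pool.Agent.W245.EB
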