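import Mathlib
import Pool.Agent.W245.EB.App
import Pool.Agent.W245.EB.Seq

set_option autoImplicit false
set_option linter.unusedVariables false
set_option linter.unusedSectionVars false
set_option linter.unusedSimpArgs false

/-!
# One step of the construction of subgroups of infinite rank
-/

open Module MvPolynomial
open scoped PeriodPair

noncomputable section

namespace Pool.Agent.W245.EB

open H667R3

/-- a nonzero polynomial does not vanish at some integral point -/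
lemma exists_int_eval_ne_zero {J : Type*} [Fintype J] (F : MvPolynomial J Qb) (hF : F ≠ 0) :
    ∃ m : J → ℤ, MvPolynomial.eval (fun j => ((m j : ℤ) : Qb)) F ≠ 0 := by
  classical
  obtain ⟨m, hm, hne⟩ := exists_eval_ne_zero F hF
    (fun _ => (Finset.range (F.totalDegree + 1)).image (fun n : ℕ => (n : Qb))) (fun _ => by
      rw [Finset.card_image_of_injective _ Nat.cast_injective, Finset.card_range]
      exact Nat.lt_succ_self _)
  have h1 : ∀ j, ∃ n : ℕ, (n : Qb) = m j := fun j => by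
    obtain ⟨n, _, hn⟩ := Finset.mem_image.1 (hm j)
    exact ⟨n, hn⟩
  choose n hn using h1
  refine ⟨fun j => (n j : ℤ), ?_⟩
  have h2 : (fun j => (((n j : ℕ) : ℤ) : Qb)) = m := by
    funext j
    rw [← hn j]
    push_cast
    rfl
  rw [h2]
  exact hne

/-- logarithms, arbitrary curves and curves with complex multiplication -/
structure Sys where
  Λ : AddSubgroup ℂ
  hΛ : ∀ x ∈ Λ, IsAlgebraic ℚ (Complex.exp x)
  rΛ : ∀ R : ℕ, ∃ w : Fin R → ℂ, (∀ j, w j ∈ Λ) ∧ LinearIndependent ℚ w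
  LB : ℕ → PeriodPair
  g2B : ∀ b, IsAlgebraic ℚ (LB b).g₂
  g3B : ∀ b, IsAlgebraic ℚ (LB b).g₃
  ΓB : ℕ → AddSubgroup ℂ
  hB : ∀ b, ∀ x ∈ ΓB b, x ∈ EL (LB b)
  rB : ∀ b R : ℕ, ∃ w : Fin R → ℂ, (∀ j, w j ∈ ΓB b) ∧ EllFam (LB b) w
  s : ℕ → ℂ
  ρ : ℕ → ℂ
  hs : ∀ b, IsAlgebraic ℚ (s b)
  hρ : ∀ b, IsAlgebraic ℚ (ρ b)
  hsρ : ∀ b, s b ≠ 0 ∨ ρ b ≠ 0
  LC : ℕ → PeriodPair
  g2C : ∀ c, IsAlgebraic ℚ (LC c).g₂
  g3C : ∀ c, IsAlgebraic ℚ (LC c).g₃
  α : ℕ → ℂ
  hα : ∀ c, (α c).im ≠ 0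
  hmul : ∀ c, ∀ w ∈ (LC c).lattice, α c * w ∈ (LC c).lattice
  ΓC : ℕ → AddSubgroup ℂ
  hC : ∀ c, ∀ x ∈ ΓC c, x ∈ EL (LC c)
  hCα : ∀ c, ∀ x ∈ ΓC c, α c * x ∈ ΓC c
  rC : ∀ c R : ℕ, ∃ w : Fin R → ℂ, (∀ j, w j ∈ ΓC c) ∧ EllFam (LC c) w

namespace Sys

variable (S : Sys)

/-- the numbers of one block -/
def num (n : ℕ) (t : ℂ) (qB qC : ℕ → ℂ) : Data.Ind (Fin 1) (Fin n) (Fin n) → ℂ :=
  Sum.elim (fun _ => t) (Sum.elim (fun b => S.s b * zt (S.LB b) (qB b) + S.ρ b * qB b)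
    (Sum.elim (fun c => qC c) (fun c => zt (S.LC c) (qC c))))

lemma zsum_mem {Γ : AddSubgroup ℂ} {J : Type*} [Fintype J] {w : J → ℂ} (hw : ∀ j, w j ∈ Γ)
    (m : J → ℤ) : ∑ j, (m j : ℂ) * w j ∈ Γ := by
  apply sum_mem
  intro j _
  rw [← zsmul_eq_mul]
  exact zsmul_mem (hw j) _

theorem step (n D : ℕ) (U : Submodule Qb ℂ) (hU : Module.Finite Qb U) :
    ∃ (t : ℂ) (qB qC : ℕ → ℂ), t ∈ S.Λ ∧ (∀ b, qB b ∈ S.ΓB b) ∧ (∀ c, qC c ∈ S.ΓC c) ∧
      NoRelTot U D (S.num n t qB qC) := by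
  classical
  set R : ℕ := finrank Qb U * (D + 1) ^ (Fintype.card (Fin 1) + (Fintype.card (Fin n) +
    (Fintype.card (Fin n) + Fintype.card (Fin n)))) with hR
  choose wΛ hwΛ hwΛ' using S.rΛ
  choose wB hwB hwB' using S.rB
  choose wC hwC hwC' using S.rC
  let d : Data (Fin 1) (Fin n) (Fin n) (Fin R) :=
    { wA := fun _ => wΛ R
      hA := fun _ => ⟨fun j => S.hΛ _ (hwΛ R j), hwΛ' R⟩
      LB := fun b => S.LB b
      g2B := fun b => S.g2B b
      g3B := fun b => S.g3B b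
      uB := fun b => wB b R
      hB := fun b => hwB' b R
      s := fun b => S.s b
      ρ := fun b => S.ρ b
      hs := fun b => S.hs b
      hρ := fun b => S.hρ b
      hsρ := fun b => S.hsρ b
      LC := fun c => S.LC c
      g2C := fun c => S.g2C c
      g3C := fun c => S.g3C c
      uC := fun c => wC c R
      hC := fun c => hwC' c R
      α := fun c => S.α c
      hα := fun c => S.hα c
      hmul := fun c => S.hmul c }
  obtain ⟨F, hF0, _, hF⟩ := d.main (finrank Qb U) D U hU le_rfl (le_of_eq (Fintype.card_fin R).symm)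
  obtain ⟨m, hm⟩ := exists_int_eval_ne_zero F hF0
  have h1 := hF (fun i j => m (i, j)) hm
  refine ⟨d.tA (fun i j => m (i, j)) 0,
    fun b => if h : b < n then d.pB (fun i j => m (i, j)) ⟨b, h⟩ else 0,
    fun c => if h : c < n then d.pC (fun i j => m (i, j)) ⟨c, h⟩ else 0, ?_, ?_, ?_, ?_⟩
  · exact zsum_mem (hwΛ R) _
  · intro b
    by_cases h : b < n
    · simp only [dif_pos h]
      exact zsum_mem (hwB b R) _
    · simp only [dif_neg h]
      exact zero_mem _
  · intro c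
    by_cases h : c < n
    · simp only [dif_pos h]
      have h2 : d.pC (fun i j => m (i, j)) ⟨c, h⟩ =
          ∑ j, ((m (Sum.inr (Sum.inr (Sum.inl ⟨c, h⟩)), j) : ℤ) : ℂ) * wC c R j +
          ∑ j, ((m (Sum.inr (Sum.inr (Sum.inr ⟨c, h⟩)), j) : ℤ) : ℂ) * (S.α c * wC c R j) := by
        rw [← Finset.sum_add_distrib]
        simp only [Data.pC]
        apply Finset.sum_congr rfl
        intro j _
        simp only [d]
        ring
      rw [h2]
      exact add_mem (zsum_mem (hwC c R) _) (zsum_mem (fun j => S.hCα c _ (hwC c R j)) _)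
    · simp only [dif_neg h]
      exact zero_mem _
  · have h2 : S.num n (d.tA (fun i j => m (i, j)) 0)
        (fun b => if h : b < n then d.pB (fun i j => m (i, j)) ⟨b, h⟩ else 0)
        (fun c => if h : c < n then d.pC (fun i j => m (i, j)) ⟨c, h⟩ else 0) =
        d.num (fun i j => m (i, j)) := by
      funext i
      rcases i with i | i | i | i
      · have : i = 0 := Subsingleton.elim _ _
        subst this
        rfl
      · simp only [num, Sum.elim_inr, Sum.elim_inl, i.2, dif_pos, Fin.eta, Data.num]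
        rfl
      · simp only [num, Sum.elim_inr, Sum.elim_inl, i.2, dif_pos, Fin.eta, Data.num]
      · simp only [num, Sum.elim_inr, Sum.elim_inl, i.2, dif_pos, Fin.eta, Data.num]
        rfl
    rw [h2]
    exact h1

end Sys

end Pool.Agent.W245.EB
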