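import Mathlib
import Pool.Agent.W245.EB.Step

set_option autoImplicit false
set_option linter.unusedVariables false
set_option linter.unusedSectionVars false
set_option linter.unusedSimpArgs false

/-!
# Valuations and exponentials of arbitrary complex numbers
-/

open Module MvPolynomial

noncomputable section

namespace Pool.Agent.W245.EB

open H667R3

/-- a valuation, trivial on the algebraic numbers, which is not trivial on `T` -/
lemma exists_val (T : ℂ) (hT : T ∉ QB) :
    ∃ V : ValuationSubring ℂ, (∀ a ∈ QB, a ∈ V) ∧ T ∉ V := by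
  set R : Subring ℂ := (Qb.toSubfield).toSubring with hR
  have hmem : ∀ a, a ∈ R ↔ a ∈ QB := fun a => Iff.rfl
  have hint : IsIntegrallyClosedIn R ℂ := by
    rw [Subring.isIntegrallyClosedIn_iff]
    intro x hx
    rw [hmem]
    have h1 : IsAlgebraic Qb x := by
      obtain ⟨p, hp, hpx⟩ := hx
      let f : R →+* Qb := RingHom.id _
      refine ⟨p.map f, (hp.map f).ne_zero, ?_⟩
      rw [Polynomial.aeval_def, Polynomial.eval₂_map]
      exact hpx
    have hinst : Algebra.IsAlgebraic ℚ Qb := algebraicClosure.isAlgebraic ℚ ℂ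
    have h2 : IsAlgebraic ℚ x := IsAlgebraic.restrictScalars ℚ h1
    exact mem_QB.2 h2
  obtain ⟨V, hV, hTV⟩ := Subring.exists_le_valuationSubring_of_isIntegrallyClosedIn (x := T) (R := R)
    (by rw [hmem]; exact hT)
  exact ⟨V, fun a ha => hV ((hmem a).2 ha), hTV⟩

section

variable {Γ₀ : Type*} [LinearOrderedCommGroupWithZero Γ₀]

/-- a vanishing sum has two terms of the same valuation -/
lemma exists_val_eq (v : Valuation ℂ Γ₀) {ι : Type*} [DecidableEq ι] (s : Finset ι) (hs : s.Nonempty)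
    (f : ι → ℂ) (hf : ∀ i ∈ s, f i ≠ 0) (h0 : ∑ i ∈ s, f i = 0) :
    ∃ i ∈ s, ∃ j ∈ s, i ≠ j ∧ v (f i) = v (f j) := by
  obtain ⟨i, hi, hmax⟩ := s.exists_max_image (fun i => v (f i)) hs
  by_contra hcon
  push Not at hcon
  have hlt : ∀ j ∈ s.erase i, v (f j) < v (f i) := by
    intro j hj
    obtain ⟨hji, hjs⟩ := Finset.mem_erase.1 hj
    exact lt_of_le_of_ne (hmax j hjs) (fun h => hcon i hi j hjs (Ne.symm hji) h.symm)
  have h1 := v.map_sum_lt (v.ne_zero_iff.2 (hf i hi)) hlt
  have h2 : f i = - ∑ j ∈ s.erase i, f j := by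
    have := Finset.add_sum_erase s f hi
    rw [h0] at this
    exact eq_neg_of_add_eq_zero_left this
  rw [← Valuation.map_neg, ← h2] at h1
  exact lt_irrefl _ h1

/-- the values on a finite dimensional space -/
lemma vals_finite (v : Valuation ℂ Γ₀) (hv : ∀ a : Qb, a ≠ 0 → v (a : ℂ) = 1)
    (W : Submodule Qb ℂ) (hW : Module.Finite Qb W) (N : ℕ) (hN : finrank Qb W ≤ N) :
    ∃ s : Finset Γ₀, s.card ≤ N ∧ ∀ w ∈ W, w ≠ 0 → v w ∈ s := by
  classical
  have key : ∀ t : Finset Γ₀, (∀ g ∈ t, ∃ w ∈ W, w ≠ 0 ∧ v w = g) → t.card ≤ N := by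
    intro t ht
    choose! w hw hw0 hwg using ht
    have hli : LinearIndependent Qb (fun g : t => (⟨w g.1, hw g.1 g.2⟩ : W)) := by
      rw [Fintype.linearIndependent_iff]
      intro c hc
      by_contra hcon
      push Not at hcon
      obtain ⟨g₀, hg₀⟩ := hcon
      set s : Finset t := Finset.univ.filter (fun g => c g ≠ 0) with hs
      have hsum : ∑ g ∈ s, (c g : ℂ) * w g.1 = 0 := by
        have h1 : ∑ g : t, (c g : ℂ) * w g.1 = 0 := by
          have h2 := congrArg (fun x : W => (x : ℂ)) hc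
          simp only [Submodule.coe_sum, Submodule.coe_smul] at h2
          exact h2
        have h3 : ∑ g ∈ s, (c g : ℂ) * w g.1 = ∑ g : t, (c g : ℂ) * w g.1 := by
          rw [hs, Finset.sum_filter]
          apply Finset.sum_congr rfl
          intro g _
          split_ifs with h
          · rfl
          · push Not at h
            rw [h]
            simp
        rw [h3, h1]
      have hcg : ∀ g ∈ s, (c g : ℂ) ≠ 0 := by
        intro g hg h
        exact (Finset.mem_filter.1 hg).2 (Subtype.ext h)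
      obtain ⟨g, hg, g', hg', hne, heq⟩ := exists_val_eq v s ⟨g₀, Finset.mem_filter.2 ⟨Finset.mem_univ _, hg₀⟩⟩
        (fun g => (c g : ℂ) * w g.1) (fun g hg => mul_ne_zero (hcg g hg) (hw0 g.1 g.2)) hsum
      rw [map_mul, map_mul, hv _ (Finset.mem_filter.1 hg).2, hv _ (Finset.mem_filter.1 hg').2, one_mul,
        one_mul, hwg g.1 g.2, hwg g'.1 g'.2] at heq
      exact hne (Subtype.ext heq)
    have := hli.fintype_card_le_finrank
    rw [Fintype.card_coe] at this
    exact this.trans hN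
  set Vs : Set Γ₀ := {g | ∃ w ∈ W, w ≠ 0 ∧ v w = g} with hVs
  have hfin : Vs.Finite := by
    by_contra hinf
    obtain ⟨t, ht1, ht2⟩ := Set.Infinite.exists_subset_card_eq hinf (N + 1)
    have := key t (fun g hg => ht1 hg)
    omega
  refine ⟨hfin.toFinset, key _ (fun g hg => ?_), fun w hw hw0 => ?_⟩
  · have h1 : g ∈ Vs := (Set.Finite.mem_toFinset hfin).1 hg
    exact h1
  · have h1 : v w ∈ Vs := ⟨w, hw, hw0, rfl⟩
    exact (Set.Finite.mem_toFinset hfin).2 h1

end

/-- a nonzero functional which vanishes on the kernel of a homomorphism -/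
lemma exists_functional {ι : Type*} [Fintype ι] {G : Type*} [AddCommGroup G] [IsAddTorsionFree G]
    (Φ : (ι → ℤ) →+ G) (a : ι → ℤ) (ha : Φ a ≠ 0) :
    ∃ ψ : (ι → ℤ) →ₗ[ℤ] ℤ, ψ a ≠ 0 ∧ ∀ m, Φ m = 0 → ψ m = 0 := by
  let Φ' : (ι → ℤ) →ₗ[ℤ] G := Φ.toIntLinearMap
  let M := LinearMap.range Φ'
  have hfin : Module.Finite ℤ M := inferInstance
  have htf : Module.IsTorsionFree ℤ G := inferInstance
  have htf' : Module.IsTorsionFree ℤ M := inferInstance
  have hfree : Module.Free ℤ M := Module.free_of_finite_type_torsion_free'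
  set x : M := ⟨Φ' a, ⟨a, rfl⟩⟩ with hx
  have hx0 : x ≠ 0 := by
    intro h
    exact ha (congrArg Subtype.val h)
  have h1 : ∃ φ : Module.Dual ℤ M, φ x ≠ 0 := by
    by_contra hcon
    push Not at hcon
    exact hx0 ((Module.forall_dual_apply_eq_zero_iff ℤ x).1 hcon)
  obtain ⟨φ, hφ⟩ := h1
  refine ⟨φ.comp Φ'.rangeRestrict, ?_, ?_⟩
  · exact hφ
  · intro m hm
    have h2 : Φ'.rangeRestrict m = 0 := Subtype.ext hm
    rw [LinearMap.comp_apply, h2, map_zero]

end Pool.Agent.W245.EB
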