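import Mathlib
import Pool.Agent.W245.EB.Val

set_option autoImplicit false
set_option linter.unusedVariables false
set_option linter.unusedSectionVars false
set_option linter.unusedSimpArgs false

/-!
# Products of powers with generic exponents satisfy no relation of bounded degree
-/

open Module MvPolynomial

noncomputable section

namespace Pool.Agent.W245.EB

section

variable {Γ₀ : Type*} [LinearOrderedCommGroupWithZero Γ₀] {J : Type} [Fintype J] {k : ℕ}

/-- the value of the monomial with exponents `δ` at the products with exponents `m` -/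
def Ev (u : J → Γ₀ˣ) (δ : Fin k → ℤ) (m : Fin k × J → ℤ) : Γ₀ˣ := ∏ p, u p.2 ^ (δ p.1 * m p)

lemma Ev_add (u : J → Γ₀ˣ) (δ : Fin k → ℤ) (m m' : Fin k × J → ℤ) :
    Ev u δ (m + m') = Ev u δ m * Ev u δ m' := by
  unfold Ev
  rw [← Finset.prod_mul_distrib]
  apply Finset.prod_congr rfl
  intro p _
  rw [← zpow_add, Pi.add_apply, mul_add]

lemma Ev_sub (u : J → Γ₀ˣ) (δ δ' : Fin k → ℤ) (m : Fin k × J → ℤ) :
    Ev u (δ - δ') m = Ev u δ m / Ev u δ' m := by
  unfold Ev
  rw [← Finset.prod_div_distrib]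
  apply Finset.prod_congr rfl
  intro p _
  rw [Pi.sub_apply, sub_mul, zpow_sub, div_eq_mul_inv]

/-- the same, as a homomorphism -/
def EvHom (u : J → Γ₀ˣ) (δ : Fin k → ℤ) : (Fin k × J → ℤ) →+ Additive Γ₀ˣ where
  toFun m := Additive.ofMul (Ev u δ m)
  map_zero' := by
    have : Ev u δ (0 : Fin k × J → ℤ) = 1 := by
      unfold Ev
      simp
    rw [this]
    rfl
  map_add' m m' := by
    rw [Ev_add]
    rfl

lemma EvHom_single [DecidableEq J] (u : J → Γ₀ˣ) (δ : Fin k → ℤ) (p : Fin k × J) :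
    EvHom u δ (Pi.single p 1) = Additive.ofMul (u p.2 ^ δ p.1) := by
  show Additive.ofMul (Ev u δ (Pi.single p 1)) = _
  congr 1
  unfold Ev
  rw [Finset.prod_eq_single p]
  · simp
  · intro q _ hq
    rw [Pi.single_eq_of_ne hq, mul_zero, zpow_zero]
  · intro h
    exact absurd (Finset.mem_univ _) h

lemma zpow_ne_one_of {u : Γ₀ˣ} (hu : u ≠ 1) {n : ℤ} (hn : n ≠ 0) : u ^ n ≠ 1 := by
  intro h
  apply hu
  apply zpow_left_injective hn
  simp only [one_zpow]
  exact h

end

open Classical in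
/-- **Generic exponents.** -/
theorem exp_generic {J : Type} [Fintype J] (T : J → ℂ) (hT0 : ∀ j, T j ≠ 0) (hT : ∃ j, T j ∉ QB)
    (k D N : ℕ) (W : Submodule Qb ℂ) (hW : Module.Finite Qb W) (hN : finrank Qb W ≤ N) :
    ∃ F : MvPolynomial (Fin k × J) Qb, F ≠ 0 ∧ F.totalDegree ≤ N ^ 2 * ((2 * D + 1) ^ k - 1) ∧
      ∀ m : Fin k → J → ℤ, MvPolynomial.eval (fun p => ((m p.1 p.2 : ℤ) : Qb)) F ≠ 0 →
        NoRelS W D (fun i => ∏ j, T j ^ (m i j)) := by
  obtain ⟨j₀, hj₀⟩ := hT
  obtain ⟨V, hV, hVT⟩ := exists_val (T j₀) hj₀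
  set v : Valuation ℂ V.ValueGroup := V.valuation with hv
  have hQv : ∀ a : Qb, a ≠ 0 → v (a : ℂ) = 1 := by
    intro a ha
    have ha' : (a : ℂ) ≠ 0 := fun h => ha (Subtype.ext h)
    have h1 : v (a : ℂ) ≤ 1 := (V.valuation_le_one_iff _).2 (hV _ a.2)
    have h2 : v ((a : ℂ)⁻¹) ≤ 1 := (V.valuation_le_one_iff _).2 (hV _ (inv_mem a.2))
    rw [map_inv₀] at h2
    have h3 : v (a : ℂ) ≠ 0 := v.ne_zero_iff.2 ha'
    refine le_antisymm h1 ?_
    by_contra hlt
    push Not at hlt
    have h4 := (one_lt_inv₀ (zero_lt_iff.2 h3)).2 hlt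
    exact absurd h2 (not_le.2 h4)
  obtain ⟨s, hs, hsW⟩ := vals_finite v hQv W hW N hN
  set u : J → V.ValueGroupˣ := fun j => Units.mk0 (v (T j)) (v.ne_zero_iff.2 (hT0 j)) with hu
  have huj : u j₀ ≠ 1 := by
    intro h
    apply hVT
    have h1 : v (T j₀) = 1 := by
      have := congrArg (fun x : V.ValueGroupˣ => (x : V.ValueGroup)) h
      simpa [hu] using this
    exact (V.valuation_le_one_iff _).1 h1.le
  -- the functionals
  have hfun : ∀ δ : Fin k → ℤ, ∃ ψ : (Fin k × J → ℤ) →ₗ[ℤ] ℤ,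
      (δ ≠ 0 → ∃ p : Fin k × J, ψ (Pi.single p 1) ≠ 0) ∧ ∀ m, EvHom u δ m = 0 → ψ m = 0 := by
    intro δ
    by_cases hδ : δ = 0
    · exact ⟨0, fun h => absurd hδ h, fun _ _ => rfl⟩
    obtain ⟨i₀, hi₀⟩ := Function.ne_iff.1 hδ
    obtain ⟨ψ, h1, h2⟩ := exists_functional (EvHom u δ) (Pi.single (i₀, j₀) 1) (by
      rw [EvHom_single]
      intro h
      exact zpow_ne_one_of huj hi₀ (Additive.ofMul.injective h))
    exact ⟨ψ, fun _ => ⟨(i₀, j₀), h1⟩, h2⟩
  choose ψ hψ1 hψ2 using hfun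
  -- the constants
  set cst : (Fin k → ℤ) → V.ValueGroup × V.ValueGroup → ℤ := fun δ z =>
    if h : ∃ m : Fin k × J → ℤ, z.1 * (Ev u δ m : V.ValueGroup) = z.2 then ψ δ h.choose else 0 with hcst
  set Δ : Finset (Fin k → ℤ) := (Fintype.piFinset fun _ => Finset.Icc (-(D : ℤ)) D).erase 0 with hΔ
  have hΔcard : Δ.card = (2 * D + 1) ^ k - 1 := by
    rw [hΔ, Finset.card_erase_of_mem, Fintype.card_piFinset]
    · simp only [Int.card_Icc, Finset.prod_const, Finset.card_univ, Fintype.card_fin]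
      congr 2
      omega
    · rw [Fintype.mem_piFinset]
      intro i
      rw [Finset.mem_Icc]
      simp
  set Lf : (Fin k → ℤ) → V.ValueGroup × V.ValueGroup → MvPolynomial (Fin k × J) Qb := fun δ z =>
    ∑ q, MvPolynomial.C (((ψ δ (Pi.single q 1) : ℤ) : Qb)) * MvPolynomial.X q -
      MvPolynomial.C ((cst δ z : ℤ) : Qb) with hLf
  have hLne : ∀ δ, δ ≠ 0 → ∀ z, Lf δ z ≠ 0 := by
    intro δ hδ z h
    obtain ⟨p, hp⟩ := hψ1 δ hδ
    have h1 := congrArg (fun P : MvPolynomial (Fin k × J) Qb =>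
      MvPolynomial.coeff (Finsupp.single p 1) P) h
    simp only [hLf, coeff_sub, coeff_sum, coeff_zero, coeff_C_mul, coeff_C] at h1
    rw [if_neg (by
      intro h2
      have := congrArg (fun f : (Fin k × J →₀ ℕ) => f p) h2
      simp at this), sub_zero, Finset.sum_eq_single p] at h1
    · rw [MvPolynomial.coeff_X, if_pos rfl, mul_one] at h1
      exact hp (by exact_mod_cast h1)
    · intro q _ hq
      rw [MvPolynomial.coeff_X, if_neg, mul_zero]
      intro h2
      exact hq (Finsupp.single_left_injective one_ne_zero h2)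
    · intro h2
      exact absurd (Finset.mem_univ _) h2
  have hLdeg : ∀ δ z, (Lf δ z).totalDegree ≤ 1 := by
    intro δ z
    refine (totalDegree_sub _ _).trans (max_le ?_ ?_)
    · apply totalDegree_finsetSum_le
      intro q _
      refine (totalDegree_mul _ _).trans ?_
      rw [totalDegree_C, totalDegree_X]
    · rw [totalDegree_C]
      omega
  have hLev : ∀ (δ : Fin k → ℤ) (z) (m : Fin k → J → ℤ), ψ δ (fun q => m q.1 q.2) = cst δ z →
      MvPolynomial.eval (fun q => ((m q.1 q.2 : ℤ) : Qb)) (Lf δ z) = 0 := by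
    intro δ z m hm
    have h1 : ψ δ (fun q => m q.1 q.2) = ∑ q : Fin k × J, ψ δ (Pi.single q 1) * m q.1 q.2 := by
      have h2 : (fun q : Fin k × J => m q.1 q.2) = ∑ q : Fin k × J, m q.1 q.2 • (Pi.single q 1 : Fin k × J → ℤ) := by
        funext q'
        rw [Finset.sum_apply, Finset.sum_eq_single q']
        · simp
        · intro b _ hb
          simp [Pi.single_eq_of_ne (Ne.symm hb)]
        · intro h
          exact absurd (Finset.mem_univ _) h
      conv_lhs => rw [h2]
      rw [map_sum]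
      apply Finset.sum_congr rfl
      intro q _
      rw [map_smul, smul_eq_mul, mul_comm]
    rw [hLf]
    simp only [map_sub, map_sum, map_mul, MvPolynomial.eval_C, MvPolynomial.eval_X]
    rw [sub_eq_zero, ← hm, h1]
    push_cast
    rfl
  refine ⟨∏ δ ∈ Δ, ∏ z ∈ s ×ˢ s, Lf δ z, ?_, ?_, ?_⟩
  · rw [Finset.prod_ne_zero_iff]
    intro δ hδ
    rw [Finset.prod_ne_zero_iff]
    intro z _
    exact hLne δ (Finset.mem_erase.1 hδ).1 z
  · refine (totalDegree_finsetProd _ _).trans ?_
    refine (Finset.sum_le_card_nsmul _ _ (N ^ 2) ?_).trans ?_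
    · intro δ _
      refine (totalDegree_finsetProd _ _).trans ?_
      refine (Finset.sum_le_card_nsmul _ _ 1 (fun z _ => hLdeg δ z)).trans ?_
      rw [Finset.card_product, smul_eq_mul, mul_one, pow_two]
      exact Nat.mul_le_mul hs hs
    · rw [hΔcard, smul_eq_mul, mul_comm]
  · intro m hm Q hQ1 hQ2 hQ3
    by_contra hQ0
    apply hm
    have hsup : Q.support.Nonempty := by
      rw [Finset.nonempty_iff_ne_empty]
      intro h
      exact hQ0 (MvPolynomial.support_eq_empty.1 h)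
    have hne : ∀ i, ∏ j, T j ^ (m i j) ≠ 0 := fun i =>
      Finset.prod_ne_zero_iff.2 fun j _ => zpow_ne_zero _ (hT0 j)
    obtain ⟨a, ha, a', ha', haa', heq⟩ := exists_val_eq v Q.support hsup
      (fun a => Q.coeff a * ∏ i, (∏ j, T j ^ (m i j)) ^ (a i))
      (fun a ha => mul_ne_zero (MvPolynomial.mem_support_iff.1 ha)
        (Finset.prod_ne_zero_iff.2 fun i _ => pow_ne_zero _ (hne i)))
      (by rw [← hQ3, MvPolynomial.eval_eq'])
    set mm : Fin k × J → ℤ := fun q => m q.1 q.2 with hmm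
    have hvE : ∀ a : Fin k →₀ ℕ, v (∏ i, (∏ j, T j ^ (m i j)) ^ (a i)) =
        ((Ev u (fun i => (a i : ℤ)) mm : V.ValueGroupˣ) : V.ValueGroup) := by
      intro a
      unfold Ev
      rw [map_prod, Units.coe_prod, Fintype.prod_prod_type]
      apply Finset.prod_congr rfl
      intro i _
      rw [map_pow, map_prod, ← Finset.prod_pow]
      apply Finset.prod_congr rfl
      intro j _
      rw [map_zpow₀, Units.val_zpow_eq_zpow_val, hu, Units.val_mk0, hmm, ← zpow_natCast, ← zpow_mul,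
        mul_comm]
    simp only [map_mul, hvE] at heq
    set δ : Fin k → ℤ := (fun i => (a i : ℤ)) - fun i => (a' i : ℤ) with hδ
    have hδ0 : δ ≠ 0 := by
      intro h
      apply haa'
      ext i
      have := congrFun h i
      simp only [hδ, Pi.sub_apply, Pi.zero_apply] at this
      omega
    have hδΔ : δ ∈ Δ := by
      rw [hΔ, Finset.mem_erase]
      refine ⟨hδ0, ?_⟩
      rw [Fintype.mem_piFinset]
      intro i
      rw [Finset.mem_Icc, hδ]
      have h1 : a i ≤ D := (MvPolynomial.monomial_le_degreeOf i ha).trans (hQ1 i)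
      have h2 : a' i ≤ D := (MvPolynomial.monomial_le_degreeOf i ha').trans (hQ1 i)
      simp only [Pi.sub_apply]
      omega
    have hE : v (Q.coeff a) * (Ev u δ mm : V.ValueGroup) = v (Q.coeff a') := by
      rw [hδ, Ev_sub, Units.val_div_eq_div_val, mul_div_assoc', div_eq_iff (Units.ne_zero _)]
      exact heq
    have hmem : (v (Q.coeff a), v (Q.coeff a')) ∈ s ×ˢ s := by
      rw [Finset.mem_product]
      exact ⟨hsW _ (hQ2 a) (MvPolynomial.mem_support_iff.1 ha),
        hsW _ (hQ2 a') (MvPolynomial.mem_support_iff.1 ha')⟩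
    have hex : ∃ m : Fin k × J → ℤ, (v (Q.coeff a), v (Q.coeff a')).1 *
        (Ev u δ m : V.ValueGroup) = (v (Q.coeff a), v (Q.coeff a')).2 := ⟨mm, hE⟩
    have hc : ψ δ mm = cst δ (v (Q.coeff a), v (Q.coeff a')) := by
      rw [hcst]
      simp only
      rw [dif_pos hex]
      have h1 := hex.choose_spec
      have hca : v (Q.coeff a) ≠ 0 := v.ne_zero_iff.2 (MvPolynomial.mem_support_iff.1 ha)
      have h2 : Ev u δ mm = Ev u δ hex.choose := by
        apply Units.ext
        exact mul_left_cancel₀ hca (hE.trans h1.symm)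
      have h3 : EvHom u δ (mm - hex.choose) = 0 := by
        rw [map_sub]
        show Additive.ofMul (Ev u δ mm) - Additive.ofMul (Ev u δ hex.choose) = 0
        rw [h2, sub_self]
      have h4 := hψ2 δ _ h3
      rw [map_sub, sub_eq_zero] at h4
      exact h4
    rw [map_prod]
    apply Finset.prod_eq_zero hδΔ
    rw [map_prod]
    apply Finset.prod_eq_zero hmem
    exact hLev δ _ m hc

end Pool.Agent.W245.EB
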