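import Mathlib
import Pool.Agent.W245.EB.ExpGen

set_option autoImplicit false
set_option linter.unusedVariables false
set_option linter.unusedSectionVars false
set_option linter.unusedSimpArgs false

/-!
# Generic combinations of arbitrary numbers which span a space of large dimension
-/

open Module MvPolynomial

noncomputable section

namespace Pool.Agent.W245.EB

open Classical in
theorem lin_generic {J : Type} [Fintype J] (w : J → ℂ) (k D N : ℕ) (W : Submodule Qb ℂ)
    (hW : Module.Finite Qb W) (hN : finrank Qb W ≤ N)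
    (hdim : N * (D + 1) ^ k ≤ finrank Qb (Submodule.span Qb (Set.range w))) :
    ∃ F : MvPolynomial (Fin k × J) Qb, F ≠ 0 ∧ F.totalDegree ≤ N * (D + 1) ^ k * (k * D) ∧
      ∀ m : Fin k → J → Qb, MvPolynomial.eval (fun p => m p.1 p.2) F ≠ 0 →
        NoRelS W D (fun i => ∑ j, (m i j : ℂ) * w j) := by
  have hac : IsAlgClosed Qb := (algebraicClosure.isAlgClosure ℚ ℂ).isAlgClosed
  obtain ⟨κ, a, ha, hspan, hli⟩ := exists_linearIndependent' Qb w
  have hfκ : Finite κ := Finite.of_injective a ha
  have hκ : Fintype κ := Fintype.ofFinite κ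
  have hcard : finrank Qb (Submodule.span Qb (Set.range w)) = Fintype.card κ := by
    rw [← hspan]
    exact finrank_span_eq_card hli
  -- coordinates
  have hc : ∀ j, ∃ c : κ → Qb, ∑ l, c l • w (a l) = w j ∧ ∀ l, j = a l → c = Pi.single l 1 := by
    intro j
    by_cases hj : ∃ l, j = a l
    · obtain ⟨l, rfl⟩ := hj
      refine ⟨Pi.single l 1, ?_, fun l' hl' => by rw [ha hl']⟩
      rw [Finset.sum_eq_single l]
      · rw [Pi.single_eq_same, one_smul]
      · intro b _ hb
        rw [Pi.single_eq_of_ne hb, zero_smul]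
      · intro h
        exact absurd (Finset.mem_univ _) h
    · have h1 : w j ∈ Submodule.span Qb (Set.range (w ∘ a)) := by
        rw [hspan]
        exact Submodule.subset_span ⟨j, rfl⟩
      obtain ⟨c, hc⟩ := (Submodule.mem_span_range_iff_exists_fun Qb).1 h1
      exact ⟨c, hc, fun l hl => absurd ⟨l, hl⟩ hj⟩
  choose c hcw hcs using hc
  obtain ⟨F, h0, h1, h2⟩ := box_over (κ := Qb) N (fun _ : Fin k => D) W hW hN (J := κ)
    (by
      simp only [Finset.prod_const, Finset.card_univ, Fintype.card_fin]
      rw [← hcard]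
      exact hdim) (fun _ => 0) (fun _ l => w (a l)) (fun _ => hli)
  set g : Fin k × κ → MvPolynomial (Fin k × J) Qb := fun p =>
    ∑ j, MvPolynomial.C (c j p.2) * MvPolynomial.X (p.1, j) with hg
  refine ⟨bind₁ g F, ?_, ?_, ?_⟩
  · intro h
    apply h0
    set g' : Fin k × J → MvPolynomial (Fin k × κ) Qb := fun p =>
      if h : ∃ l, p.2 = a l then MvPolynomial.X (p.1, h.choose) else 0 with hg'
    have h3 : bind₁ g' (bind₁ g F) = F := by
      rw [bind₁_bind₁]
      have h4 : (fun i => (bind₁ g') (g i)) = MvPolynomial.X := by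
        funext p
        rw [hg]
        simp only [map_sum, map_mul, bind₁_C_right, bind₁_X_right]
        rw [Finset.sum_eq_single (a p.2)]
        · rw [hcs (a p.2) p.2 rfl, Pi.single_eq_same, MvPolynomial.C_1, one_mul, hg']
          simp only
          have hex : ∃ l, a p.2 = a l := ⟨p.2, rfl⟩
          rw [dif_pos hex]
          have h5 := ha hex.choose_spec
          rw [← h5]
        · intro j _ hj
          rw [hg']
          simp only
          split_ifs with hex
          · have h5 := hex.choose_spec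
            rw [hcs j hex.choose h5, Pi.single_eq_of_ne, MvPolynomial.C_0, zero_mul]
            intro h6
            exact hj (by rw [h5, ← h6])
          · rw [mul_zero]
        · intro h
          exact absurd (Finset.mem_univ _) h
      rw [h4]
      exact aeval_X_left_apply F
    rw [← h3, h, map_zero]
  · refine (totalDegree_bind_le g (fun p => ?_) F).trans (h1.trans ?_)
    · rw [hg]
      apply totalDegree_finsetSum_le
      intro j _
      refine (totalDegree_mul _ _).trans ?_
      rw [totalDegree_C, totalDegree_X]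
    · simp only [Finset.prod_const, Finset.sum_const, Finset.card_univ, Fintype.card_fin,
        smul_eq_mul]
      exact le_rfl
  · intro m hm
    have h3 := h2 (fun i l => ∑ j, m i j * c j l) (by
      intro h
      apply hm
      have h4 : MvPolynomial.eval (fun p => m p.1 p.2) (bind₁ g F) =
          MvPolynomial.eval (fun p => MvPolynomial.eval (fun p => m p.1 p.2) (g p)) F := by
        rw [← MvPolynomial.coe_aeval_eq_eval, ← MvPolynomial.coe_aeval_eq_eval]
        show aeval _ (bind₁ g F) = aeval _ F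
        rw [aeval_bind₁]
        rfl
      rw [h4, ← h]
      congr 2
      funext p
      rw [hg]
      simp only [map_sum, map_mul, MvPolynomial.eval_C, MvPolynomial.eval_X]
      apply Finset.sum_congr rfl
      intro j _
      ring)
    intro Q hQ1 hQ2 hQ3
    apply h3 Q hQ1 hQ2
    have h4 : ∀ i j, (m i j : ℂ) * w j = ∑ l, (m i j * c j l) • w (a l) := by
      intro i j
      rw [← hcw j, Finset.mul_sum]
      apply Finset.sum_congr rfl
      intro l _
      simp only [mul_smul, IntermediateField.smul_def, smul_eq_mul]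
    have h5 : (fun i => (0 : ℂ) + ∑ l, (∑ j, m i j * c j l) • w (a l)) =
        fun i => ∑ j, (m i j : ℂ) * w j := by
      funext i
      rw [zero_add]
      simp only [h4, Finset.sum_smul]
      rw [Finset.sum_comm]
    rw [h5]
    exact hQ3

/-- the space of values of polynomials of degree at most `D` in each variable, with coefficients in
`W` -/
def polySpace (W : Submodule Qb ℂ) (D : ℕ) {k : ℕ} (x : Fin k → ℂ) : Submodule Qb ℂ :=
  Submodule.span Qb {z | ∃ u ∈ W, ∃ a : Fin k → ℕ, (∀ i, a i ≤ D) ∧ z = u * ∏ i, x i ^ a i}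

lemma polySpace_le {J : Type} [Fintype J] (w : J → ℂ) (W : Submodule Qb ℂ) (D k : ℕ)
    (m : Fin k → J → ℤ) : polySpace W D (fun i => ∑ j, (m i j : ℂ) * w j) ≤
      W * (Submodule.span Qb (insert 1 (Set.range w))) ^ (k * D) := by
  unfold polySpace
  rw [Submodule.span_le]
  rintro z ⟨u, hu, a, ha, rfl⟩
  apply Submodule.mul_mem_mul hu
  set A : Submodule Qb ℂ := Submodule.span Qb (insert 1 (Set.range w)) with hA
  have h1 : (1 : ℂ) ∈ A := Submodule.subset_span (Set.mem_insert _ _)
  have hx : ∀ i : Fin k, ∑ j, (m i j : ℂ) * w j ∈ A := by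
    intro i
    apply Submodule.sum_mem
    intro j _
    have h2 : (m i j : ℂ) * w j = ((m i j : ℤ) : Qb) • w j := by
      rw [IntermediateField.smul_def, smul_eq_mul]
      push_cast
      rfl
    rw [h2]
    exact Submodule.smul_mem _ _ (Submodule.subset_span (Set.mem_insert_of_mem _ ⟨j, rfl⟩))
  refine pow_mono_of_one h1 ?_ (prod_pow_mem h1 _ hx a)
  calc ∑ i, a i ≤ ∑ _i : Fin k, D := Finset.sum_le_sum fun i _ => ha i
    _ = k * D := by simp

lemma finrank_mul_le (A B : Submodule Qb ℂ) (hA : Module.Finite Qb A) (hB : Module.Finite Qb B) :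
    finrank Qb (A * B : Submodule Qb ℂ) ≤ finrank Qb A * finrank Qb B := by
  classical
  have hspan : ∀ (E : Submodule Qb ℂ) (hE : Module.Finite Qb E),
      Submodule.span Qb (Set.range fun i => ((Module.finBasis Qb E i : E) : ℂ)) = E := by
    intro E hE
    have : Set.range (fun i => ((Module.finBasis Qb E i : E) : ℂ)) =
        E.subtype '' Set.range (Module.finBasis Qb E) := by
      rw [← Set.range_comp]
      rfl
    rw [this, Submodule.span_image, (Module.finBasis Qb E).span_eq, Submodule.map_top,
      Submodule.range_subtype]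
  have h1 : A * B = Submodule.span Qb (Set.range fun p : Fin (finrank Qb A) × Fin (finrank Qb B) =>
      ((Module.finBasis Qb A p.1 : A) : ℂ) * ((Module.finBasis Qb B p.2 : B) : ℂ)) := by
    conv_lhs => rw [← hspan A hA, ← hspan B hB]
    rw [Submodule.span_mul_span]
    congr 1
    ext z
    constructor
    · rintro ⟨_, ⟨i, rfl⟩, _, ⟨j, rfl⟩, rfl⟩
      exact ⟨(i, j), rfl⟩
    · rintro ⟨⟨i, j⟩, rfl⟩
      exact ⟨_, ⟨i, rfl⟩, _, ⟨j, rfl⟩, rfl⟩
  rw [h1]
  refine (finrank_range_le_card _).trans ?_
  rw [Fintype.card_prod, Fintype.card_fin, Fintype.card_fin]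

lemma finite_mul (A B : Submodule Qb ℂ) (hA : Module.Finite Qb A) (hB : Module.Finite Qb B) :
    Module.Finite Qb (A * B : Submodule Qb ℂ) :=
  Module.Finite.iff_fg.2 ((Module.Finite.iff_fg.1 hA).mul (Module.Finite.iff_fg.1 hB))

lemma finrank_pow_le (A : Submodule Qb ℂ) (hA : Module.Finite Qb A) (n : ℕ) :
    finrank Qb (A ^ n : Submodule Qb ℂ) ≤ finrank Qb A ^ n := by
  induction n with
  | zero =>
    rw [pow_zero, pow_zero]
    have h1 : (1 : Submodule Qb ℂ) = Submodule.span Qb {(1 : ℂ)} := Submodule.one_eq_span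
    rw [h1]
    exact (finrank_span_le_card _).trans (by simp)
  | succ n ih =>
    have h1 : Module.Finite Qb (A ^ n : Submodule Qb ℂ) :=
      Module.Finite.iff_fg.2 ((Module.Finite.iff_fg.1 hA).pow _)
    rw [pow_succ, pow_succ]
    exact (finrank_mul_le _ _ h1 hA).trans (Nat.mul_le_mul_right _ ih)

open Classical in
/-- generic exponentials over polynomials in the exponents -/
theorem exp_generic_poly {R : ℕ} (w : Fin R → ℂ) (hw : ∃ j, Complex.exp (w j) ∉ QB) (k D N : ℕ)
    (W : Submodule Qb ℂ) (hW : Module.Finite Qb W) (hN : finrank Qb W ≤ N) :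
    ∃ F : MvPolynomial (Fin k × Fin R) Qb, F ≠ 0 ∧
      F.totalDegree ≤ (N * (R + 1) ^ (k * D)) ^ 2 * ((2 * D + 1) ^ k - 1) ∧
      ∀ m : Fin k → Fin R → ℤ, MvPolynomial.eval (fun p => ((m p.1 p.2 : ℤ) : Qb)) F ≠ 0 →
        NoRelS (polySpace W D (fun i => ∑ j, (m i j : ℂ) * w j)) D
          (fun i => Complex.exp (∑ j, (m i j : ℂ) * w j)) := by
  set A : Submodule Qb ℂ := Submodule.span Qb (insert 1 (Set.range w)) with hA
  have hAf : Module.Finite Qb A :=
    FiniteDimensional.span_of_finite Qb ((Set.finite_range _).insert _)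
  have hAr : finrank Qb A ≤ R + 1 := by
    have h1 : A = Submodule.span Qb (Set.range (Fin.cons 1 w : Fin (R + 1) → ℂ)) := by
      rw [hA, Fin.range_cons]
    rw [h1]
    refine (finrank_range_le_card _).trans ?_
    rw [Fintype.card_fin]
  have hAp : Module.Finite Qb (A ^ (k * D) : Submodule Qb ℂ) :=
    Module.Finite.iff_fg.2 ((Module.Finite.iff_fg.1 hAf).pow _)
  have h2 : finrank Qb (W * A ^ (k * D) : Submodule Qb ℂ) ≤ N * (R + 1) ^ (k * D) :=
    (finrank_mul_le _ _ hW hAp).trans (Nat.mul_le_mul hN
      ((finrank_pow_le A hAf _).trans (Nat.pow_le_pow_left hAr _)))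
  obtain ⟨F, h0, h1, h3⟩ := exp_generic (fun j => Complex.exp (w j)) (fun j => Complex.exp_ne_zero _)
    hw k D _ _ (finite_mul _ _ hW hAp) h2
  refine ⟨F, h0, h1, fun m hm => ?_⟩
  have h4 := h3 m hm
  have h5 : (fun i => Complex.exp (∑ j, (m i j : ℂ) * w j)) =
      fun i => ∏ j, Complex.exp (w j) ^ (m i j) := by
    funext i
    rw [Complex.exp_sum]
    apply Finset.prod_congr rfl
    intro j _
    rw [Complex.exp_int_mul]
  rw [h5]
  intro Q hQ1 hQ2 hQ3
  exact h4 Q hQ1 (fun s => polySpace_le w W D k m (hQ2 s)) hQ3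

end Pool.Agent.W245.EB
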