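import Mathlib
import Pool.Agent.W245.EB.Step

set_option autoImplicit false
set_option linter.unusedVariables false
set_option linter.unusedSectionVars false
set_option linter.unusedSimpArgs false

/-!
# Sequences chosen one after the other, without relations of bounded degree
-/

open Module MvPolynomial

noncomputable section

namespace Pool.Agent.W245.EB

/-- the result of the construction: `t i` is taken from the set `S i`, and the spaces `V i` are
contained in the coefficient spaces -/
structure GChain (S : ℕ → Set ℂ) (V : ℕ → Submodule Qb ℂ) where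
  t : ℕ → ℂ
  A : ℕ → Submodule Qb ℂ
  ht : ∀ i, t i ∈ S i
  mono : Monotone A
  fin : ∀ i, Module.Finite Qb (A i)
  one : ∀ i, (1 : ℂ) ∈ A i
  hV : ∀ i, V i ≤ A i
  htA : ∀ i, t i ∈ A (i + 1)
  noRel : ∀ i, NoRelTot (A i ^ (2 * i + 3)) (i + 1) (fun _ : Fin 1 => t i)

theorem exists_gchain (S : ℕ → Set ℂ) (V : ℕ → Submodule Qb ℂ) (hV : ∀ i, Module.Finite Qb (V i))
    (hS : ∀ (i D : ℕ) (U : Submodule Qb ℂ), Module.Finite Qb U →
      ∃ t ∈ S i, NoRelTot U D (fun _ : Fin 1 => t)) : Nonempty (GChain S V) := by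
  classical
  have hstep : ∀ (i : ℕ) (A : Submodule Qb ℂ), ∃ t ∈ S i,
      (Module.Finite Qb A → NoRelTot (A ^ (2 * i + 3)) (i + 1) (fun _ : Fin 1 => t)) := by
    intro i A
    by_cases h : Module.Finite Qb A
    · have h1 : Module.Finite Qb (A ^ (2 * i + 3) : Submodule Qb ℂ) :=
        Module.Finite.iff_fg.2 ((Module.Finite.iff_fg.1 h).pow _)
      obtain ⟨t, ht, h5⟩ := hS i (i + 1) _ h1
      exact ⟨t, ht, fun _ => h5⟩
    · obtain ⟨t, ht, _⟩ := hS i 0 ⊥ inferInstance
      exact ⟨t, ht, fun h' => absurd h' h⟩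
  choose t ht hno using hstep
  obtain ⟨P, hP0, hPs⟩ : ∃ P : ℕ → Submodule Qb ℂ, P 0 = Submodule.span Qb {(1 : ℂ)} ⊔ V 0 ∧
      ∀ i, P (i + 1) = P i ⊔ (V (i + 1) ⊔ Submodule.span Qb {t i (P i)}) :=
    ⟨fun i => Nat.rec (Submodule.span Qb {(1 : ℂ)} ⊔ V 0)
      (fun i Q => Q ⊔ (V (i + 1) ⊔ Submodule.span Qb {t i Q})) i, rfl, fun i => rfl⟩
  have hPfin : ∀ i, Module.Finite Qb (P i) := by
    intro i
    induction i with
    | zero =>
      rw [hP0]
      have h1 : Module.Finite Qb (Submodule.span Qb {(1 : ℂ)}) :=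
        FiniteDimensional.span_of_finite Qb (Set.finite_singleton _)
      have h2 := hV 0
      exact Submodule.finite_sup _ _
    | succ i ih =>
      rw [hPs]
      have h1 : Module.Finite Qb (Submodule.span Qb {t i (P i)}) :=
        FiniteDimensional.span_of_finite Qb (Set.finite_singleton _)
      have h2 := hV (i + 1)
      have h3 : Module.Finite Qb (V (i + 1) ⊔ Submodule.span Qb {t i (P i)} : Submodule Qb ℂ) :=
        Submodule.finite_sup _ _
      exact Submodule.finite_sup _ _
  have hPmono : Monotone P := by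
    apply monotone_nat_of_le_succ
    intro i
    rw [hPs]
    exact le_sup_left
  have hVP : ∀ i, V i ≤ P i := by
    intro i
    cases i with
    | zero => rw [hP0]; exact le_sup_right
    | succ i =>
      rw [hPs]
      exact le_sup_left.trans le_sup_right
  exact ⟨{
    t := fun i => t i (P i)
    A := P
    ht := fun i => ht i (P i)
    mono := hPmono
    fin := hPfin
    one := fun i => hPmono (Nat.zero_le i) (by
      rw [hP0]
      exact (le_sup_left : _ ≤ Submodule.span Qb {(1 : ℂ)} ⊔ V 0) (Submodule.subset_span rfl))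
    hV := hVP
    htA := fun i => by
      rw [hPs]
      exact (le_sup_right.trans le_sup_right :
        Submodule.span Qb {t i (P i)} ≤ P i ⊔ (V (i + 1) ⊔ Submodule.span Qb {t i (P i)}))
        (Submodule.subset_span rfl)
    noRel := fun i => hno i (P i) (hPfin i) }⟩

namespace GChain

variable {S : ℕ → Set ℂ} {V : ℕ → Submodule Qb ℂ} (c : GChain S V)

lemma le_pow (i a : ℕ) (ha : 1 ≤ a) : c.A i ≤ c.A i ^ a := by
  have := pow_mono_of_one (c.one i) ha
  rwa [pow_one] at this

lemma notMem (i : ℕ) : c.t i ∉ c.A i := by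
  intro h
  have h1 : (MvPolynomial.X 0 - MvPolynomial.C (c.t i) : MvPolynomial (Fin 1) ℂ) = 0 := by
    apply c.noRel i
    · refine (totalDegree_sub _ _).trans (max_le ?_ ?_)
      · rw [totalDegree_X]; omega
      · rw [totalDegree_C]; omega
    · intro s
      rw [coeff_sub, MvPolynomial.coeff_X, coeff_C]
      apply Submodule.sub_mem
      · split_ifs
        · exact c.le_pow i _ (by omega) (c.one i)
        · exact Submodule.zero_mem _
      · split_ifs
        · exact c.le_pow i _ (by omega) h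
        · exact Submodule.zero_mem _
    · simp
  have h2 := congrArg (MvPolynomial.eval (fun _ => c.t i + 1)) h1
  simp at h2

lemma indep : LinearIndependent Qb c.t := by
  rw [linearIndependent_iff_finset_linearIndependent]
  have key : ∀ K : ℕ, LinearIndependent Qb (fun i : Fin K => c.t i) ∧
      ∀ i : Fin K, c.t i ∈ c.A K := by
    intro K
    induction K with
    | zero => exact ⟨linearIndependent_empty_type, fun i => i.elim0⟩
    | succ K ih =>
      constructor
      · have h1 : (fun i : Fin (K + 1) => c.t i) = Fin.snoc (fun i : Fin K => c.t i) (c.t K) := by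
          funext i
          refine Fin.lastCases ?_ (fun j => ?_) i
          · simp
          · simp
        rw [h1, linearIndependent_finSnoc]
        refine ⟨ih.1, fun h => c.notMem K ?_⟩
        refine (Submodule.span_le.2 ?_ : Submodule.span Qb _ ≤ c.A K) h
        rintro _ ⟨i, rfl⟩
        exact ih.2 i
      · intro i
        refine Fin.lastCases ?_ (fun j => ?_) i
        · simpa using c.htA K
        · simpa using c.mono (Nat.le_succ K) (ih.2 j)
  intro s
  obtain ⟨K, hK⟩ : ∃ K, ∀ i ∈ s, i < K := ⟨s.sup id + 1, fun i hi =>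
    Nat.lt_succ_of_le (Finset.le_sup (f := id) hi)⟩
  exact (key K).1.comp (fun i : s => (⟨i.1, hK i.1 i.2⟩ : Fin K)) (fun i j hij => by
    have := congrArg Fin.val hij
    exact Subtype.ext this)

/-- the space spanned by `t D, ..., t (D + j - 1)` -/
def X (D j : ℕ) : Submodule Qb ℂ := Submodule.span Qb (c.t '' Set.Ico D (D + j))

lemma X_succ (D j : ℕ) : c.X D (j + 1) = c.X D j ⊔ Submodule.span Qb {c.t (D + j)} := by
  rw [X, X, ← Submodule.span_union]
  congr 1
  ext x
  simp only [Set.mem_image, Set.mem_Ico, Set.mem_union, Set.mem_singleton_iff]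
  constructor
  · rintro ⟨i, hi, rfl⟩
    by_cases h : i < D + j
    · exact Or.inl ⟨i, ⟨hi.1, h⟩, rfl⟩
    · exact Or.inr (by congr 1; omega)
  · rintro (⟨i, hi, rfl⟩ | rfl)
    · exact ⟨i, ⟨hi.1, by omega⟩, rfl⟩
    · exact ⟨D + j, ⟨by omega, by omega⟩, rfl⟩

lemma X_le (D j : ℕ) : c.X D j ≤ c.A (D + j) := by
  rw [X, Submodule.span_le]
  rintro _ ⟨i, hi, rfl⟩
  exact c.mono (by have := hi.2; omega) (c.htA i)

lemma X_fin (D j : ℕ) : Module.Finite Qb (c.X D j) :=
  FiniteDimensional.span_of_finite Qb ((Set.finite_Ico _ _).image _)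

theorem nr (D : ℕ) : ∀ j, NR (c.A D ^ (D + 1)) D (c.X D j) := by
  intro j
  induction j with
  | zero =>
    have : c.X D 0 = ⊥ := by
      rw [X]
      simp
    rw [this]
    exact nr_bot _ _
  | succ j ih =>
    rw [X_succ]
    have h1 : Module.Finite Qb (Submodule.span Qb {c.t (D + j)}) :=
      FiniteDimensional.span_of_finite Qb (Set.finite_singleton _)
    have h2 := c.X_fin D j
    have h3 : c.A D ^ (D + 1) ≤ c.A (D + j) ^ (D + 1) :=
      pow_le_pow_left' (c.mono (Nat.le_add_right _ _)) _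
    refine nr_append (A := c.A (D + j)) (a := D + 1) (N := 2 * (D + j) + 3) (c.one _) h3 (by omega)
      h2 h1 (c.X_le D j) ih ?_
    have h4 := nr_of_family (c.noRel (D + j))
    have h5 : Set.range (fun _ : Fin 1 => c.t (D + j)) = {c.t (D + j)} := by
      ext x
      simp [eq_comm]
    rw [h5] at h4
    exact h4.mono le_rfl (by omega)

/-- **the main property** -/
theorem nr_top (D : ℕ) : NR (c.A D ^ (D + 1)) D (Submodule.span Qb (c.t '' Set.Ici D)) := by
  intro k x hx hi
  have h1 : ∀ i, ∃ j, x i ∈ c.X D j := by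
    intro i
    have h2 := hx i
    refine Submodule.span_induction (p := fun y _ => ∃ j, y ∈ c.X D j) ?_ ?_ ?_ ?_ h2
    · rintro _ ⟨a, ha, rfl⟩
      refine ⟨a - D + 1, Submodule.subset_span ⟨a, ⟨ha, ?_⟩, rfl⟩⟩
      have := Set.mem_Ici.1 ha
      omega
    · exact ⟨0, Submodule.zero_mem _⟩
    · rintro a b _ _ ⟨j, hj⟩ ⟨j', hj'⟩
      refine ⟨max j j', Submodule.add_mem _ ?_ ?_⟩
      · refine Submodule.span_mono (Set.image_mono (Set.Ico_subset_Ico_right ?_)) hj
        have := le_max_left j j'
        omega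
      · refine Submodule.span_mono (Set.image_mono (Set.Ico_subset_Ico_right ?_)) hj'
        have := le_max_right j j'
        omega
    · rintro a b _ ⟨j, hj⟩
      exact ⟨j, Submodule.smul_mem _ _ hj⟩
  choose j hj using h1
  have h2 : ∀ i, x i ∈ c.X D (∑ l, j l) := by
    intro i
    refine Submodule.span_mono (Set.image_mono (Set.Ico_subset_Ico_right ?_)) (hj i)
    have : j i ≤ ∑ l, j l := Finset.single_le_sum (fun _ _ => Nat.zero_le _) (Finset.mem_univ i)
    omega
  exact c.nr D _ k x h2 hi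

end GChain

/-- supply of numbers by a group of infinite rank -/
lemma exists_of_rank (Λ : AddSubgroup ℂ)
    (h : ∀ R : ℕ, ∃ w : Fin R → ℂ, (∀ j, w j ∈ Λ) ∧ LinearIndependent Qb w) (D : ℕ)
    (U : Submodule Qb ℂ) (hU : Module.Finite Qb U) :
    ∃ t ∈ (Λ : Set ℂ), NoRelTot U D (fun _ : Fin 1 => t) := by
  have hac : IsAlgClosed Qb := (algebraicClosure.isAlgClosure ℚ ℂ).isAlgClosed
  obtain ⟨w, hw1, hw2⟩ := h (finrank Qb U * ∏ _i : Fin 1, (D + 1))
  obtain ⟨F, h0, _, h2⟩ := box_over (κ := Qb) (finrank Qb U) (fun _ : Fin 1 => D) U hU le_rfl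
    (J := Fin (finrank Qb U * ∏ _i : Fin 1, (D + 1))) (by rw [Fintype.card_fin]) (fun _ => 0)
    (fun _ => w) (fun _ => hw2)
  obtain ⟨m, hm⟩ := exists_int_eval_ne_zero F h0
  refine ⟨∑ j, (m (0, j) : ℂ) * w j, ?_, ?_⟩
  · apply sum_mem
    intro j _
    rw [← zsmul_eq_mul]
    exact zsmul_mem (hw1 j) _
  · have h3 := h2 (fun i j => ((m (i, j) : ℤ) : Qb)) hm
    intro Q hQ1 hQ2 hQ3
    apply h3 Q
    · intro i
      exact (MvPolynomial.degreeOf_le_totalDegree Q i).trans hQ1
    · exact hQ2
    · have h4 : (fun i : Fin 1 => (0 : ℂ) + ∑ j, ((m (i, j) : ℤ) : Qb) • w j) =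
          fun _ => ∑ j, (m (0, j) : ℂ) * w j := by
        funext i
        have hi : i = 0 := Subsingleton.elim _ _
        subst hi
        rw [zero_add]
        apply Finset.sum_congr rfl
        intro j _
        rw [IntermediateField.smul_def, smul_eq_mul]
        push_cast
        rfl
      rw [h4]
      exact hQ3

end Pool.Agent.W245.EB
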