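import Mathlib
import Pool.Agent.W245.EB.Step

set_option autoImplicit false
set_option linter.unusedVariables false
set_option linter.unusedSectionVars false
set_option linter.unusedSimpArgs false

/-!
# The infinite construction
-/

open Module MvPolynomial
open scoped PeriodPair

noncomputable section

namespace Pool.Agent.W245.EB

open H667R3

/-- the result of the construction -/
structure Chain (S : Sys) (v : ℕ → ℂ) where
  t : ℕ → ℂ
  qB : ℕ → ℕ → ℂ
  qC : ℕ → ℕ → ℂ
  A : ℕ → Submodule Qb ℂ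
  ht : ∀ i, t i ∈ S.Λ
  hqB : ∀ i b, qB i b ∈ S.ΓB b
  hqC : ∀ i c, qC i c ∈ S.ΓC c
  mono : Monotone A
  fin : ∀ i, Module.Finite Qb (A i)
  one : ∀ i, (1 : ℂ) ∈ A i
  hv : ∀ i, v i ∈ A i
  hnum : ∀ i a, S.num (i + 1) (t i) (qB i) (qC i) a ∈ A (i + 1)
  pB : ∀ i b, b ≤ i → (S.LB b).ω₁ ∈ A i ∧ (S.LB b).ω₂ ∈ A i
  pC : ∀ i c, c ≤ i → (S.LC c).ω₁ ∈ A i ∧ (S.LC c).ω₂ ∈ A i
  eB : ∀ i b, b ≤ i → H667R3.eta (S.LB b) (S.LB b).ω₁ ∈ A i ∧ H667R3.eta (S.LB b) (S.LB b).ω₂ ∈ A i
  eC : ∀ i c, c ≤ i → H667R3.eta (S.LC c) (S.LC c).ω₁ ∈ A i ∧ H667R3.eta (S.LC c) (S.LC c).ω₂ ∈ A i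
  pi : ∀ i, (2 * Real.pi * Complex.I : ℂ) ∈ A i
  noRel : ∀ i, NoRelTot (A i ^ (2 * i + 3)) (i + 1) (S.num (i + 1) (t i) (qB i) (qC i))

theorem exists_chain (S : Sys) (v : ℕ → ℂ) : Nonempty (Chain S v) := by
  classical
  have hstep : ∀ (i : ℕ) (A : Submodule Qb ℂ), ∃ (t : ℂ) (qB qC : ℕ → ℂ), t ∈ S.Λ ∧
      (∀ b, qB b ∈ S.ΓB b) ∧ (∀ c, qC c ∈ S.ΓC c) ∧
      (Module.Finite Qb A → NoRelTot (A ^ (2 * i + 3)) (i + 1) (S.num (i + 1) t qB qC)) := by
    intro i A
    by_cases h : Module.Finite Qb A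
    · have h1 : Module.Finite Qb (A ^ (2 * i + 3) : Submodule Qb ℂ) :=
        Module.Finite.iff_fg.2 ((Module.Finite.iff_fg.1 h).pow _)
      obtain ⟨t, qB, qC, h2, h3, h4, h5⟩ := S.step (i + 1) (i + 1) _ h1
      exact ⟨t, qB, qC, h2, h3, h4, fun _ => h5⟩
    · exact ⟨0, 0, 0, zero_mem _, fun _ => zero_mem _, fun _ => zero_mem _, fun h' => absurd h' h⟩
  choose t qB qC ht hqB hqC hno using hstep
  let gen : ℕ → Set ℂ := fun i => {1, (2 * Real.pi * Complex.I : ℂ)} ∪ v '' Set.Iic i ∪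
    ⋃ b ∈ Set.Iic i, {(S.LB b).ω₁, (S.LB b).ω₂, H667R3.eta (S.LB b) (S.LB b).ω₁,
      H667R3.eta (S.LB b) (S.LB b).ω₂, (S.LC b).ω₁, (S.LC b).ω₂,
      H667R3.eta (S.LC b) (S.LC b).ω₁, H667R3.eta (S.LC b) (S.LC b).ω₂}
  have hgenfin : ∀ i, (gen i).Finite := by
    intro i
    refine Set.Finite.union (Set.Finite.union (by simp) ((Set.finite_Iic i).image v)) ?_
    exact (Set.finite_Iic i).biUnion (fun b _ => by simp)
  have hgenmono : ∀ i j, i ≤ j → gen i ⊆ gen j := by
    intro i j hij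
    apply Set.union_subset_union
    · apply Set.union_subset_union_right
      exact Set.image_mono (Set.Iic_subset_Iic.2 hij)
    · exact Set.biUnion_subset_biUnion_left (Set.Iic_subset_Iic.2 hij)
  let B : ℕ → Submodule Qb ℂ := fun i => Submodule.span Qb (gen i)
  obtain ⟨P, hP0, hPs⟩ : ∃ P : ℕ → Submodule Qb ℂ, P 0 = ⊥ ∧ ∀ i, P (i + 1) = P i ⊔
      Submodule.span Qb (Set.range (S.num (i + 1) (t i (B i ⊔ P i)) (qB i (B i ⊔ P i))
        (qC i (B i ⊔ P i)))) :=
    ⟨fun i => Nat.rec ⊥ (fun i Q => Q ⊔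
      Submodule.span Qb (Set.range (S.num (i + 1) (t i (B i ⊔ Q)) (qB i (B i ⊔ Q))
        (qC i (B i ⊔ Q))))) i, rfl, fun i => rfl⟩
  have hBfin : ∀ i, Module.Finite Qb (B i) := fun i =>
    FiniteDimensional.span_of_finite Qb (hgenfin i)
  have hPfin : ∀ i, Module.Finite Qb (P i) := by
    intro i
    induction i with
    | zero => rw [hP0]; infer_instance
    | succ i ih =>
      rw [hPs]
      have : Module.Finite Qb (Submodule.span Qb (Set.range (S.num (i + 1) (t i (B i ⊔ P i))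
        (qB i (B i ⊔ P i)) (qC i (B i ⊔ P i))))) :=
        FiniteDimensional.span_of_finite Qb (Set.finite_range _)
      infer_instance
  have hBmono : Monotone B := fun i j hij => Submodule.span_mono (hgenmono i j hij)
  have hPmono : Monotone P := by
    apply monotone_nat_of_le_succ
    intro i
    rw [hPs]
    exact le_sup_left
  have hgenB : ∀ i x, x ∈ gen i → x ∈ B i ⊔ P i := fun i x hx =>
    (le_sup_left : B i ≤ _) (Submodule.subset_span hx)
  exact ⟨{
    t := fun i => t i (B i ⊔ P i)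
    qB := fun i => qB i (B i ⊔ P i)
    qC := fun i => qC i (B i ⊔ P i)
    A := fun i => B i ⊔ P i
    ht := fun i => ht _ _
    hqB := fun i => hqB _ _
    hqC := fun i => hqC _ _
    mono := fun i j hij => sup_le_sup (hBmono hij) (hPmono hij)
    fin := fun i => by
      have h1 := hBfin i
      have h2 := hPfin i
      exact Submodule.finite_sup (B i) (P i)
    one := fun i => hgenB i _ (Or.inl (Or.inl (by simp)))
    hv := fun i => hgenB i _ (Or.inl (Or.inr ⟨i, by simp, rfl⟩))
    hnum := fun i a => by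
      have h1 : S.num (i + 1) (t i (B i ⊔ P i)) (qB i (B i ⊔ P i)) (qC i (B i ⊔ P i)) a ∈ P (i + 1) := by
        rw [hPs]
        exact (le_sup_right : _ ≤ P i ⊔ _) (Submodule.subset_span ⟨a, rfl⟩)
      exact (le_sup_right : P (i + 1) ≤ _) h1
    pB := fun i b hb => ⟨hgenB i _ (Or.inr (Set.mem_biUnion (Set.mem_Iic.2 hb) (by simp))),
      hgenB i _ (Or.inr (Set.mem_biUnion (Set.mem_Iic.2 hb) (by simp)))⟩
    pC := fun i b hb => ⟨hgenB i _ (Or.inr (Set.mem_biUnion (Set.mem_Iic.2 hb) (by simp))),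
      hgenB i _ (Or.inr (Set.mem_biUnion (Set.mem_Iic.2 hb) (by simp)))⟩
    eB := fun i b hb => ⟨hgenB i _ (Or.inr (Set.mem_biUnion (Set.mem_Iic.2 hb) (by simp))),
      hgenB i _ (Or.inr (Set.mem_biUnion (Set.mem_Iic.2 hb) (by simp)))⟩
    eC := fun i b hb => ⟨hgenB i _ (Or.inr (Set.mem_biUnion (Set.mem_Iic.2 hb) (by simp))),
      hgenB i _ (Or.inr (Set.mem_biUnion (Set.mem_Iic.2 hb) (by simp)))⟩
    pi := fun i => hgenB i _ (Or.inl (Or.inl (by simp)))
    noRel := fun i => hno i (B i ⊔ P i) (by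
      have h1 := hBfin i
      have h2 := hPfin i
      exact Submodule.finite_sup (B i) (P i)) }⟩

namespace Chain

variable {S : Sys} {v : ℕ → ℂ} (c : Chain S v)

/-- index set of the `i`-th block -/
abbrev I (i : ℕ) : Type := Data.Ind (Fin 1) (Fin (i + 1)) (Fin (i + 1))

/-- the numbers of the `i`-th block -/
def z (i : ℕ) : I i → ℂ := S.num (i + 1) (c.t i) (c.qB i) (c.qC i)

lemma le_pow (i a : ℕ) (ha : 1 ≤ a) : c.A i ≤ c.A i ^ a := by
  conv_lhs => rw [← pow_one (c.A i)]
  exact pow_mono_of_one (c.one i) ha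

/-- linear independence of all numbers of the blocks `i₀, …, K - 1` modulo `A i₀` -/
lemma indep (i₀ : ℕ) : ∀ (K : ℕ) (β : (i : ℕ) → I i → Qb), (∀ i < i₀, β i = 0) →
    ∑ i ∈ Finset.range K, ∑ a, β i a • c.z i a ∈ c.A i₀ → ∀ i < K, β i = 0 := by
  intro K
  induction K with
  | zero => intro β _ _ i hi; exact absurd hi (Nat.not_lt_zero i)
  | succ K ih =>
    intro β h0 hs i hi
    have hrest : ∑ i ∈ Finset.range K, ∑ a, β i a • c.z i a ∈ c.A K := by
      apply Submodule.sum_mem
      intro i hi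
      apply Submodule.sum_mem
      intro a _
      apply Submodule.smul_mem
      exact c.mono (Nat.succ_le_of_lt (Finset.mem_range.1 hi)) (c.hnum i a)
    by_cases hK : K < i₀
    · have hlast : β K = 0 := h0 K hK
      rw [Finset.sum_range_succ, hlast] at hs
      simp only [Pi.zero_apply, zero_smul, Finset.sum_const_zero, add_zero] at hs
      rcases Nat.lt_succ_iff_lt_or_eq.1 hi with h | h
      · exact ih β h0 hs i h
      · rw [h]; exact hlast
    · push Not at hK
      rw [Finset.sum_range_succ] at hs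
      have h1 : ∑ a, β K a • c.z K a ∈ c.A K := by
        have h2 := (c.A K).sub_mem (c.mono hK hs) hrest
        rwa [add_sub_cancel_left] at h2
      have hlast : β K = 0 := by
        have h3 := (c.noRel K).linear (Nat.succ_le_succ (Nat.zero_le _))
          (c.le_pow K _ (by omega) (c.one K)) (β K) (c.le_pow K _ (by omega) h1) (by
            apply Finset.sum_congr rfl
            intro a _
            rw [Algebra.smul_def]
            rfl)
        exact h3
      rw [hlast] at hs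
      simp only [Pi.zero_apply, zero_smul, Finset.sum_const_zero, add_zero] at hs
      rcases Nat.lt_succ_iff_lt_or_eq.1 hi with h | h
      · exact ih β h0 hs i h
      · rw [h]; exact hlast

/-- the space spanned by the blocks `D, …, D + j - 1` -/
def X (D : ℕ) : ℕ → Submodule Qb ℂ
  | 0 => ⊥
  | j + 1 => X D j ⊔ Submodule.span Qb (Set.range (c.z (D + j)))

lemma X_fin (D j : ℕ) : Module.Finite Qb (c.X D j) := by
  induction j with
  | zero =>
    show Module.Finite Qb (⊥ : Submodule Qb ℂ)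
    infer_instance
  | succ j ih =>
    show Module.Finite Qb (c.X D j ⊔ Submodule.span Qb (Set.range (c.z (D + j))) : Submodule Qb ℂ)
    have : Module.Finite Qb (Submodule.span Qb (Set.range (c.z (D + j)))) :=
      FiniteDimensional.span_of_finite Qb (Set.finite_range _)
    exact Submodule.finite_sup _ _

lemma X_le (D j : ℕ) : c.X D j ≤ c.A (D + j) := by
  induction j with
  | zero => unfold X; exact bot_le
  | succ j ih =>
    unfold X
    apply sup_le
    · exact ih.trans (c.mono (by omega))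
    · rw [Submodule.span_le]
      rintro _ ⟨a, rfl⟩
      exact c.hnum (D + j) a

lemma blk_le (D j i : ℕ) (h1 : D ≤ i) (h2 : i < D + j) (a : I i) : c.z i a ∈ c.X D j := by
  induction j with
  | zero => omega
  | succ j ih =>
    unfold X
    by_cases h : i < D + j
    · exact (le_sup_left : c.X D j ≤ _) (ih h)
    · have : i = D + j := by omega
      subst this
      exact (le_sup_right : _ ≤ c.X D j ⊔ _) (Submodule.subset_span ⟨a, rfl⟩)

theorem nr (D j : ℕ) : NR (c.A D ^ (D + 1)) D (c.X D j) := by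
  induction j with
  | zero => unfold X; exact nr_bot _ _
  | succ j ih =>
    unfold X
    have h1 : c.A D ^ (D + 1) ≤ c.A (D + j) ^ (D + 1) :=
      pow_le_pow_left' (c.mono (by omega)) _
    apply nr_append (c.one (D + j)) h1 (N := 2 * (D + j) + 3) (by omega) (c.X_fin D j)
      (FiniteDimensional.span_of_finite Qb (Set.finite_range _)) (c.X_le D j) ih
    exact (nr_of_family (c.noRel (D + j))).mono le_rfl (by omega)

end Chain

end Pool.Agent.W245.EB
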