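import Mathlib
import Pool.Agent.W245.EB.Inf

set_option autoImplicit false
set_option linter.unusedVariables false
set_option linter.unusedSectionVars false
set_option linter.unusedSimpArgs false

/-!
# Elements of the subgroups
-/

open Module MvPolynomial
open scoped PeriodPair

noncomputable section

namespace Pool.Agent.W245.EB

open H667R3

lemma second_alg {L : PeriodPair} (h2 : IsAlgebraic ℚ L.g₂) (h3 : IsAlgebraic ℚ L.g₃) {J : Type}
    [Fintype J] {u : J → ℂ} (h : EllFam L u) {s ρ : ℂ} (hs : IsAlgebraic ℚ s) (hρ : IsAlgebraic ℚ ρ)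
    (hsρ : s ≠ 0 ∨ ρ ≠ 0) (c : J → ℂ) (hc : ∀ j, IsAlgebraic ℚ (c j))
    (h0 : IsAlgebraic ℚ (∑ j, c j * (s * zt L (u j) + ρ * u j))) : c = 0 := by
  classical
  let e := Fintype.equivFin J
  have h4 := second_kind h2 h3 (fun r => u (e.symm r)) (fun r => h.1 _) (by
    intro α hα hsum
    have h5 := h.2 (fun j => α (e j)) (fun j => hα _) (by
      rw [← hsum, ← e.symm.sum_comp]
      simp)
    funext r
    have := congrFun h5 (e.symm r)
    simpa using this) s ρ hs hρ hsρ (fun r => c (e.symm r)) (fun r => hc _) (by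
      have h6 : ∑ r, c (e.symm r) * (s * zt L (u (e.symm r)) + ρ * u (e.symm r)) =
          ∑ j, c j * (s * zt L (u j) + ρ * u j) := by
        rw [← e.symm.sum_comp]
      rw [h6]
      exact h0)
  funext j
  have := congrFun h4 (e j)
  simpa using this

lemma Module.exists_dual_forall_apply_ne_zero_aux {V : Type*} [AddCommGroup V] [Module ℚ V] (x : V)
    (hx : x ≠ 0) : ∃ φ : V →ₗ[ℚ] ℚ, φ x ≠ 0 := by
  by_contra hcon
  push Not at hcon
  exact hx ((Module.forall_dual_apply_eq_zero_iff ℚ x).1 hcon)

lemma sum_sub {J : Type} [Fintype J] (p : J → Prop) [DecidablePred p] (f : J → ℂ) :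
    ∑ j : {j // p j}, f j.1 = ∑ j, if p j then f j else 0 := by
  rw [← Finset.sum_filter]
  exact (Finset.sum_subtype (Finset.univ.filter p) (by simp) f).symm

/-- independence of points on several curves -/
def SepIndep {J : Type} [Fintype J] (L : ℕ → PeriodPair) (e : J → ℕ) (y : J → ℂ) : Prop :=
  ∀ β : J → ℂ, (∀ j, β j ∈ kL (L (e j))) →
    (∀ c, ∑ j, (if e j = c then β j * y j else 0) = 0) → β = 0

lemma SepIndep.ell {J : Type} [Fintype J] {L : ℕ → PeriodPair} {e : J → ℕ} {y : J → ℂ}
    (h : SepIndep L e y) (hy : ∀ j, y j ∈ EL (L (e j))) (c : ℕ) :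
    EllFam (L c) (fun j : {j : J // e j = c} => y j.1) := by
  classical
  refine ⟨fun j => by have := hy j.1; rw [j.2] at this; exact this, ?_⟩
  intro β hβ h0
  have h1 := h (fun j => if hj : e j = c then β ⟨j, hj⟩ else 0) (by
    intro j
    by_cases hj : e j = c
    · simp only [dif_pos hj]
      have := hβ ⟨j, hj⟩
      rw [hj]
      exact this
    · simp only [dif_neg hj]
      exact zero_mem _) (by
    intro c'
    by_cases hc : c' = c
    · subst hc
      rw [← sum_sub (fun j => e j = c'), ← h0]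
      apply Finset.sum_congr rfl
      intro j _
      simp only [dif_pos j.2]
    · apply Finset.sum_eq_zero
      intro j _
      split_ifs with h1 h2
      · exact absurd (h1.symm.trans h2) hc
      · rw [zero_mul]
      · rfl)
  funext j
  have := congrFun h1 j.1
  simp only [dif_pos j.2, Pi.zero_apply] at this
  exact this

/-- in particular nothing is trivial -/
lemma SepIndep.ne_zero {J : Type} [Fintype J] {L : ℕ → PeriodPair} {e : J → ℕ} {y : J → ℂ}
    (h : SepIndep L e y) (j₀ : J) : y j₀ ≠ 0 := by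
  classical
  intro h0
  have h1 := h (fun j => if j = j₀ then 1 else 0) (by
    intro j
    by_cases hj : j = j₀
    · simp only [if_pos hj]
      exact one_mem _
    · simp only [if_neg hj]
      exact zero_mem _) (by
    intro c
    apply Finset.sum_eq_zero
    intro j _
    by_cases hj : j = j₀
    · subst hj
      rw [h0]
      simp
    · simp [if_neg hj])
  have := congrFun h1 j₀
  simp at this

namespace Chain

variable {S : Sys} {v : ℕ → ℂ} (c : Chain S v)

theorem aff {τ : Type} [Fintype τ] (D K : ℕ) (x' : τ → ℂ) (e : τ → Qb)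
    (Cf : τ → (i : ℕ) → I i → Qb) (hCf0 : ∀ h i, i < D → Cf h i = 0)
    (hrep : ∀ h, x' h - (e h : ℂ) = ∑ i ∈ Finset.range K, ∑ a, Cf h i a • c.z i a)
    (hrow : ∀ lam : τ → Qb, (∀ i < K, ∀ a, ∑ h, lam h * Cf h i a = 0) → lam = 0) :
    NoRelTot (c.A D ^ (D + 1)) D x' := by
  classical
  apply (c.nr D K).affine x' e
  · intro h
    show x' h - (e h : ℂ) ∈ _
    rw [hrep h]
    apply Submodule.sum_mem
    intro i hi
    apply Submodule.sum_mem
    intro a _
    by_cases hiD : i < D
    · rw [hCf0 h i hiD, Pi.zero_apply, zero_smul]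
      exact Submodule.zero_mem _
    · apply Submodule.smul_mem
      exact c.blk_le D K i (by omega) (by have := Finset.mem_range.1 hi; omega) a
  · rw [Fintype.linearIndependent_iff]
    intro lam hlam
    have h1 : ∑ i ∈ Finset.range K, ∑ a, (∑ h, lam h * Cf h i a) • c.z i a = 0 := by
      rw [← hlam]
      have h2 : ∀ h, lam h • (x' h - algebraMap Qb ℂ (e h)) =
          ∑ i ∈ Finset.range K, ∑ a, (lam h * Cf h i a) • c.z i a := by
        intro h
        have h3 : x' h - algebraMap Qb ℂ (e h) = ∑ i ∈ Finset.range K, ∑ a, Cf h i a • c.z i a := hrep h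
        rw [h3]
        simp only [Finset.smul_sum, mul_smul]
      simp only [h2]
      rw [Finset.sum_comm]
      apply Finset.sum_congr rfl
      intro i _
      rw [Finset.sum_comm]
      apply Finset.sum_congr rfl
      intro a _
      rw [Finset.sum_smul]
    have h4 := c.indep 0 K (fun i a => ∑ h, lam h * Cf h i a) (fun i hi => absurd hi (Nat.not_lt_zero i))
      (by rw [h1]; exact Submodule.zero_mem _)
    have h5 := hrow lam (fun i hi a => congrFun (h4 i hi) a)
    exact fun h => congrFun h5 h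

/-- the sum over one block, coefficient of a logarithm -/
lemma sum_L (i : ℕ) (n : Qb) :
    ∑ a : I i, (Sum.elim (fun _ => n) (fun _ => 0) a : Qb) • c.z i a = (n : ℂ) * c.t i := by
  rw [Fintype.sum_sum_type]
  simp only [Sum.elim_inl, Sum.elim_inr, zero_smul, Finset.sum_const_zero, add_zero, Finset.univ_unique,
    Finset.sum_singleton]
  rfl

lemma sum_fin_ite (n b : ℕ) (f : ℕ → ℂ) :
    ∑ b' : Fin n, (if b'.1 = b then f b'.1 else 0) = if b < n then f b else 0 := by
  rw [Fin.sum_univ_eq_sum_range (fun k => if k = b then f k else 0) n]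
  rw [Finset.sum_ite_eq' (Finset.range n) b f]
  simp

/-- the sum over one block, coefficient of a point of an arbitrary curve -/
lemma sum_B (i b : ℕ) (m : Qb) (hm : i < b → m = 0) :
    ∑ a : I i, (Sum.elim (fun _ => 0) (Sum.elim (fun b' => if b'.1 = b then m else 0) (fun _ => 0)) a : Qb) •
      c.z i a = (m : ℂ) * (S.s b * zt (S.LB b) (c.qB i b) + S.ρ b * c.qB i b) := by
  rw [Fintype.sum_sum_type, Fintype.sum_sum_type]
  simp only [Sum.elim_inl, Sum.elim_inr, zero_smul, Finset.sum_const_zero, add_zero, zero_add]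
  have h1 : ∀ b' : Fin (i + 1), ((if b'.1 = b then m else 0 : Qb)) • c.z i (Sum.inr (Sum.inl b')) =
      if b'.1 = b then (fun k => (m : ℂ) * (S.s k * zt (S.LB k) (c.qB i k) + S.ρ k * c.qB i k)) b'.1
        else 0 := by
    intro b'
    split_ifs
    · rfl
    · rw [zero_smul]
  simp only [h1]
  rw [sum_fin_ite (i + 1) b (fun k => (m : ℂ) * (S.s k * zt (S.LB k) (c.qB i k) + S.ρ k * c.qB i k))]
  split_ifs with h
  · rfl
  · rw [hm (by omega)]
    simp

/-- the sum over one block, coefficients of a point with complex multiplication -/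
lemma sum_C (i b : ℕ) (m m' : Qb) (hm : i < b → m = 0 ∧ m' = 0) :
    ∑ a : I i, (Sum.elim (fun _ => 0) (Sum.elim (fun _ => 0)
      (Sum.elim (fun b' => if b'.1 = b then m else 0) (fun b' => if b'.1 = b then m' else 0))) a : Qb) •
      c.z i a = (m : ℂ) * c.qC i b + m' * zt (S.LC b) (c.qC i b) := by
  rw [Fintype.sum_sum_type, Fintype.sum_sum_type, Fintype.sum_sum_type]
  simp only [Sum.elim_inl, Sum.elim_inr, zero_smul, Finset.sum_const_zero, add_zero, zero_add]
  have h1 : ∀ b' : Fin (i + 1), ((if b'.1 = b then m else 0 : Qb)) •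
      c.z i (Sum.inr (Sum.inr (Sum.inl b'))) =
      if b'.1 = b then (fun k => (m : ℂ) * c.qC i k) b'.1 else 0 := by
    intro b'
    split_ifs
    · rfl
    · rw [zero_smul]
  have h2 : ∀ b' : Fin (i + 1), ((if b'.1 = b then m' else 0 : Qb)) •
      c.z i (Sum.inr (Sum.inr (Sum.inr b'))) =
      if b'.1 = b then (fun k => (m' : ℂ) * zt (S.LC k) (c.qC i k)) b'.1 else 0 := by
    intro b'
    split_ifs
    · rfl
    · rw [zero_smul]
  simp only [h1, h2]
  rw [sum_fin_ite (i + 1) b (fun k => (m : ℂ) * c.qC i k),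
    sum_fin_ite (i + 1) b (fun k => (m' : ℂ) * zt (S.LC k) (c.qC i k))]
  split_ifs with h
  · rfl
  · rw [(hm (by omega)).1, (hm (by omega)).2]
    simp

theorem core (D K : ℕ) {ιL ιB ιC : Type} [Fintype ιL] [Fintype ιB] [Fintype ιC]
    (n : ιL → ℕ → ℤ) (hn : ∀ l i, i < D → n l i = 0)
    (x : ιL → ℂ) (hx : ∀ l, x l = ∑ i ∈ Finset.range K, (n l i : ℂ) * c.t i)
    (hxi : LinearIndependent ℚ x)
    (b : ιB → ℕ) (m : ιB → ℕ → ℤ) (hm : ∀ j i, i < D + b j → m j i = 0)
    (z : ιB → ℂ) (hz : ∀ j, z j = ∑ i ∈ Finset.range K, (m j i : ℂ) * c.qB i (b j))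
    (hzi : ∀ g : ιB → ℚ, (∀ b₀, ∑ j, (if b j = b₀ then (g j : ℂ) * z j else 0) = 0) → g = 0)
    (e : ιC → ℕ) (μ μ' : ιC → ℕ → ℤ) (hμ : ∀ j i, i < D + e j → μ j i = 0 ∧ μ' j i = 0)
    (y : ιC → ℂ)
    (hy : ∀ j, y j = ∑ i ∈ Finset.range K, ((μ j i : ℂ) + μ' j i * S.α (e j)) * c.qC i (e j))
    (hyi : SepIndep S.LC e y) :
    NoRelTot (c.A D ^ (D + 1)) D (Sum.elim x (Sum.elim
      (fun j => S.s (b j) * zt (S.LB (b j)) (z j) + S.ρ (b j) * z j)
      (Sum.elim y (fun j => zt (S.LC (e j)) (y j))))) := by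
  classical
  have hα0 : ∀ c, S.α c ≠ 0 := by
    intro c h
    exact S.hα c (by rw [h]; simp)
  choose Nc κ' hNc hκ' hrel using fun c => zt_mul (S.g2C c) (S.g3C c) (hα0 c) (S.hmul c)
  have hαQ : ∀ c, S.α c ∈ QB := fun c => mem_QB.2 (alg_of_mul (S.hmul c))
  set αs : ℕ → ℂ := fun c => (Nc c : ℂ) / S.α c with hαs
  have hαsQ : ∀ c, αs c ∈ QB := fun c => div_mem (natCast_mem _ _) (hαQ c)
  have hne : ∀ c, S.α c - αs c ≠ 0 := fun c => sub_ne_zero.2 (ne_conj (S.hα c) (hNc c)).symm
  set a₀ : ℕ → ℂ := fun c => κ' c / (S.α c - αs c) with ha₀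
  have ha₀Q : ∀ c, a₀ c ∈ QB := fun c => div_mem (hκ' c) (sub_mem (hαQ c) (hαsQ c))
  have hk : ∀ c, κ' c = a₀ c * (S.α c - αs c) := by
    intro c
    rw [ha₀]
    have := hne c
    field_simp
  -- the points belong to the groups
  have hzE : ∀ j, z j ∈ EL (S.LB (b j)) := by
    intro j
    apply S.hB
    rw [hz j]
    apply sum_mem
    intro i _
    rw [← zsmul_eq_mul]
    exact zsmul_mem (c.hqB i (b j)) _
  have hyE : ∀ j, y j ∈ EL (S.LC (e j)) := by
    intro j
    apply S.hC
    rw [hy j]
    apply sum_mem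
    intro i _
    have h1 : ((μ j i : ℂ) + μ' j i * S.α (e j)) * c.qC i (e j) =
        (μ j i : ℂ) * c.qC i (e j) + (μ' j i : ℂ) * (S.α (e j) * c.qC i (e j)) := by ring
    rw [h1, ← zsmul_eq_mul, ← zsmul_eq_mul]
    exact add_mem (zsmul_mem (c.hqC i (e j)) _) (zsmul_mem (S.hCα _ _ (c.hqC i (e j))) _)
  -- values of zeta
  have hEB : ∀ j, zt (S.LB (b j)) (z j) - ∑ i ∈ Finset.range K, (m j i : ℂ) *
      zt (S.LB (b j)) (c.qB i (b j)) ∈ QB := by
    intro j
    have h1 := zt_comb (S.g2B (b j)) (S.g3B (b j)) (J := Fin K) (u := fun i => c.qB i (b j))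
      (fun i => S.hB _ _ (c.hqB i (b j))) (fun i => m j i)
    rw [Fin.sum_univ_eq_sum_range (fun i => (m j i : ℂ) * c.qB i (b j)) K,
      Fin.sum_univ_eq_sum_range (fun i => (m j i : ℂ) * zt (S.LB (b j)) (c.qB i (b j))) K,
      ← hz j] at h1
    exact h1
  have hEC : ∀ j, zt (S.LC (e j)) (y j) - (∑ i ∈ Finset.range K,
      ((μ j i : ℂ) + μ' j i * αs (e j)) * zt (S.LC (e j)) (c.qC i (e j)) +
      κ' (e j) * ∑ i ∈ Finset.range K, (μ' j i : ℂ) * c.qC i (e j)) ∈ QB := by
    intro j
    have h1 := zt_comb_CM (S.g2C (e j)) (S.g3C (e j)) (S.hmul (e j)) (hrel (e j)) (J := Fin K)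
      (u := fun i => c.qC i (e j)) (fun i => S.hC _ _ (c.hqC i (e j))) (fun i => μ j i)
      (fun i => μ' j i)
    rw [Fin.sum_univ_eq_sum_range (fun i => ((μ j i : ℂ) + μ' j i * S.α (e j)) * c.qC i (e j)) K,
      Fin.sum_univ_eq_sum_range (fun i => ((μ j i : ℂ) + μ' j i * (Nc (e j) / S.α (e j))) *
        zt (S.LC (e j)) (c.qC i (e j))) K,
      Fin.sum_univ_eq_sum_range (fun i => (μ' j i : ℂ) * c.qC i (e j)) K, ← hy j] at h1
    exact h1
  -- the coefficients
  let μα : ιC → ℕ → Qb := fun j i => ⟨(μ j i : ℂ) + μ' j i * S.α (e j),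
    add_mem (intCast_mem _ _) (mul_mem (intCast_mem _ _) (hαQ _))⟩
  let μs : ιC → ℕ → Qb := fun j i => ⟨(μ j i : ℂ) + μ' j i * αs (e j),
    add_mem (intCast_mem _ _) (mul_mem (intCast_mem _ _) (hαsQ _))⟩
  let κμ : ιC → ℕ → Qb := fun j i => ⟨κ' (e j) * (μ' j i : ℂ), mul_mem (hκ' _) (intCast_mem _ _)⟩
  let Cf : (ιL ⊕ (ιB ⊕ (ιC ⊕ ιC))) → (i : ℕ) → I i → Qb :=
    Sum.elim (fun l i => Sum.elim (fun _ => (n l i : Qb)) (fun _ => 0))
      (Sum.elim (fun j i => Sum.elim (fun _ => 0)
        (Sum.elim (fun b' => if b'.1 = b j then (m j i : Qb) else 0) (fun _ => 0)))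
      (Sum.elim (fun j i => Sum.elim (fun _ => 0) (Sum.elim (fun _ => 0)
          (Sum.elim (fun b' => if b'.1 = e j then μα j i else 0)
            (fun b' => if b'.1 = e j then 0 else 0))))
        (fun j i => Sum.elim (fun _ => 0) (Sum.elim (fun _ => 0)
          (Sum.elim (fun b' => if b'.1 = e j then κμ j i else 0)
            (fun b' => if b'.1 = e j then μs j i else 0))))))
  let E : (ιL ⊕ (ιB ⊕ (ιC ⊕ ιC))) → Qb := Sum.elim (fun _ => 0)
    (Sum.elim (fun j => ⟨S.s (b j) * _, mul_mem (mem_QB.2 (S.hs (b j))) (hEB j)⟩)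
      (Sum.elim (fun _ => 0) (fun j => ⟨_, hEC j⟩)))
  have hμα0 : ∀ j i, i < D + e j → μα j i = 0 := by
    intro j i hi
    apply Subtype.ext
    show (μ j i : ℂ) + μ' j i * S.α (e j) = 0
    rw [(hμ j i hi).1, (hμ j i hi).2]
    simp
  have hμs0 : ∀ j i, i < D + e j → μs j i = 0 := by
    intro j i hi
    apply Subtype.ext
    show (μ j i : ℂ) + μ' j i * αs (e j) = 0
    rw [(hμ j i hi).1, (hμ j i hi).2]
    simp
  have hκμ0 : ∀ j i, i < D + e j → κμ j i = 0 := by
    intro j i hi
    apply Subtype.ext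
    show κ' (e j) * (μ' j i : ℂ) = 0
    rw [(hμ j i hi).2]
    simp
  have hm0 : ∀ j i, i < D + b j → (m j i : Qb) = 0 := by
    intro j i hi
    rw [hm j i hi, Int.cast_zero]
  have hn0 : ∀ l i, i < D → (n l i : Qb) = 0 := by
    intro l i hi
    rw [hn l i hi, Int.cast_zero]
  apply c.aff D K _ E Cf
  · -- the coefficients vanish before `D`
    rintro (l | j | j | j) i hi
    · funext a
      simp only [Cf, Sum.elim_inl, hn0 l i hi]
      rcases a with a | a <;> rfl
    · funext a
      simp only [Cf, Sum.elim_inl, Sum.elim_inr, hm0 j i (by omega)]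
      rcases a with a | a | a <;> simp
    · funext a
      simp only [Cf, Sum.elim_inl, Sum.elim_inr, hμα0 j i (by omega)]
      rcases a with a | a | a | a <;> simp
    · funext a
      simp only [Cf, Sum.elim_inl, Sum.elim_inr, hκμ0 j i (by omega), hμs0 j i (by omega)]
      rcases a with a | a | a | a <;> simp
  · -- the representation
    rintro (l | j | j | j)
    · simp only [Cf, E, Sum.elim_inl, Sum.elim_inr, sum_L]
      rw [hx l]
      simp
    · simp only [Cf, E, Sum.elim_inl, Sum.elim_inr]
      have h1 : ∀ i ∈ Finset.range K, ∑ a : I i, (Sum.elim (fun _ => 0)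
          (Sum.elim (fun b' => if b'.1 = b j then (m j i : Qb) else 0) (fun _ => 0)) a : Qb) • c.z i a =
          (m j i : ℂ) * (S.s (b j) * zt (S.LB (b j)) (c.qB i (b j)) + S.ρ (b j) * c.qB i (b j)) := by
        intro i _
        rw [c.sum_B i (b j) (m j i : Qb) (fun h => hm0 j i (by omega))]
        push_cast
        rfl
      rw [Finset.sum_congr rfl h1]
      conv_lhs => rw [hz j]
      simp only [mul_add, Finset.sum_add_distrib, Finset.mul_sum]
      rw [← hz j]
      have h2 : ∑ i ∈ Finset.range K, (m j i : ℂ) * (S.s (b j) * zt (S.LB (b j)) (c.qB i (b j))) =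
          S.s (b j) * ∑ i ∈ Finset.range K, (m j i : ℂ) * zt (S.LB (b j)) (c.qB i (b j)) := by
        rw [Finset.mul_sum]
        apply Finset.sum_congr rfl
        intro i _
        ring
      have h3 : ∑ i ∈ Finset.range K, (m j i : ℂ) * (S.ρ (b j) * c.qB i (b j)) =
          ∑ i ∈ Finset.range K, S.ρ (b j) * ((m j i : ℂ) * c.qB i (b j)) := by
        apply Finset.sum_congr rfl
        intro i _
        ring
      rw [h2, h3]
      ring
    · simp only [Cf, E, Sum.elim_inl, Sum.elim_inr]
      have h1 : ∀ i ∈ Finset.range K, ∑ a : I i, (Sum.elim (fun _ => 0) (Sum.elim (fun _ => 0)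
          (Sum.elim (fun b' => if b'.1 = e j then μα j i else 0)
            (fun b' => if b'.1 = e j then 0 else 0))) a : Qb) • c.z i a =
          ((μ j i : ℂ) + μ' j i * S.α (e j)) * c.qC i (e j) := by
        intro i _
        rw [c.sum_C i (e j) (μα j i) 0 (fun h => ⟨hμα0 j i (by omega), rfl⟩)]
        show ((μ j i : ℂ) + μ' j i * S.α (e j)) * c.qC i (e j) + ((0 : Qb) : ℂ) * _ = _
        simp
      rw [Finset.sum_congr rfl h1, ← hy j]
      simp
    · simp only [Cf, E, Sum.elim_inl, Sum.elim_inr]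
      have h1 : ∀ i ∈ Finset.range K, ∑ a : I i, (Sum.elim (fun _ => 0) (Sum.elim (fun _ => 0)
          (Sum.elim (fun b' => if b'.1 = e j then κμ j i else 0)
            (fun b' => if b'.1 = e j then μs j i else 0))) a : Qb) • c.z i a =
          κ' (e j) * (μ' j i : ℂ) * c.qC i (e j) +
            ((μ j i : ℂ) + μ' j i * αs (e j)) * zt (S.LC (e j)) (c.qC i (e j)) := by
        intro i _
        rw [c.sum_C i (e j) (κμ j i) (μs j i) (fun h => ⟨hκμ0 j i (by omega), hμs0 j i (by omega)⟩)]
      rw [Finset.sum_congr rfl h1, Finset.sum_add_distrib]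
      have h2 : ∑ i ∈ Finset.range K, κ' (e j) * (μ' j i : ℂ) * c.qC i (e j) =
          κ' (e j) * ∑ i ∈ Finset.range K, (μ' j i : ℂ) * c.qC i (e j) := by
        rw [Finset.mul_sum]
        apply Finset.sum_congr rfl
        intro i _
        ring
      rw [h2]
      ring
  · -- the rows are independent
    intro lam hlam
    set δ : ιL → Qb := fun l => lam (Sum.inl l) with hδ
    set β : ιB → Qb := fun j => lam (Sum.inr (Sum.inl j)) with hβ
    set γ : ιC → Qb := fun j => lam (Sum.inr (Sum.inr (Sum.inl j))) with hγ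
    set ε : ιC → Qb := fun j => lam (Sum.inr (Sum.inr (Sum.inr j))) with hε
    have hxA : ∀ l, IsAlgebraic ℚ (Complex.exp (x l)) := by
      intro l
      apply S.hΛ
      rw [hx l]
      apply sum_mem
      intro i _
      rw [← zsmul_eq_mul]
      exact zsmul_mem (c.ht i) _
    -- logarithms
    have hL : ∀ i < K, ∑ l, δ l * (n l i : Qb) = 0 := by
      intro i hi
      have h1 := hlam i hi (Sum.inl 0)
      rw [Fintype.sum_sum_type, Fintype.sum_sum_type, Fintype.sum_sum_type] at h1
      simpa [Cf] using h1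
    have hδ0 : ∀ l, δ l = 0 := by
      have h1 : ∑ l, δ l • x l = 0 := by
        have h2 : ∀ l, δ l • x l = ∑ i ∈ Finset.range K, ((δ l * (n l i : Qb) : Qb) : ℂ) * c.t i := by
          intro l
          rw [hx l, Algebra.smul_def, Finset.mul_sum]
          apply Finset.sum_congr rfl
          intro i _
          show (δ l : ℂ) * _ = _
          push_cast
          ring
        simp only [h2]
        rw [Finset.sum_comm]
        apply Finset.sum_eq_zero
        intro i hi
        rw [← Finset.sum_mul]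
        have h3 := hL i (Finset.mem_range.1 hi)
        have h4 : ∑ l, ((δ l * (n l i : Qb) : Qb) : ℂ) = 0 := by
          rw [← IntermediateField.coe_sum, h3]
          rfl
        rw [h4, zero_mul]
      exact Fintype.linearIndependent_iff.1
        (LogFam.indep (w := x) ⟨hxA, hxi⟩) δ h1
    -- arbitrary curves
    have hB : ∀ b₀ i, i < K → ∑ j, (if b j = b₀ then (β j : ℂ) * (m j i : ℂ) else 0) = 0 := by
      intro b₀ i hi
      by_cases hbi : b₀ < i + 1
      · have h1 := hlam i hi (Sum.inr (Sum.inl ⟨b₀, hbi⟩))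
        rw [Fintype.sum_sum_type, Fintype.sum_sum_type, Fintype.sum_sum_type] at h1
        simp only [Cf, Sum.elim_inl, Sum.elim_inr, mul_zero, Finset.sum_const_zero, add_zero,
          zero_add] at h1
        have h2 := congrArg (fun q : Qb => (q : ℂ)) h1
        simp only [IntermediateField.coe_sum] at h2
        refine Eq.trans ?_ (h2.trans (ZeroMemClass.coe_zero _))
        apply Finset.sum_congr rfl
        intro j _
        by_cases hj : b j = b₀
        · rw [if_pos hj, if_pos hj.symm]
          push_cast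
          rfl
        · rw [if_neg hj, if_neg (fun h => hj h.symm)]
          simp
      · apply Finset.sum_eq_zero
        intro j _
        split_ifs with hj
        · rw [hm j i (by omega)]
          simp
        · rfl
    have hβ0 : ∀ j, β j = 0 := by
      intro j₀
      by_contra hne0
      obtain ⟨φ, hφ⟩ := Module.exists_dual_forall_apply_ne_zero_aux (β j₀) hne0
      have hB' : ∀ b₀ i, i < K → ∑ j, (if b j = b₀ then (φ (β j) : ℂ) * (m j i : ℂ) else 0) = 0 := by
        intro b₀ i hi
        have h1 := hB b₀ i hi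
        have h2 : ∑ j, (if b j = b₀ then (m j i : ℚ) • β j else 0) = 0 := by
          apply Subtype.ext
          rw [IntermediateField.coe_sum]
          refine Eq.trans (Finset.sum_congr rfl ?_) h1
          intro j _
          split_ifs
          · rw [IntermediateField.coe_smul, Rat.smul_def]
            push_cast
            ring
          · rfl
        have h3 := congrArg φ h2
        rw [map_sum, map_zero] at h3
        have h4 := congrArg (fun q : ℚ => (q : ℂ)) h3
        rw [Rat.cast_zero, Rat.cast_sum] at h4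
        refine Eq.trans (Finset.sum_congr rfl ?_) h4
        intro j _
        split_ifs
        · rw [map_smul, smul_eq_mul]
          push_cast
          ring
        · rw [map_zero, Rat.cast_zero]
      have h5 := hzi (fun j => φ (β j)) (by
        intro b₀
        have h3 : ∀ j, (if b j = b₀ then (φ (β j) : ℂ) * z j else 0) = ∑ i ∈ Finset.range K,
            (if b j = b₀ then (φ (β j) : ℂ) * (m j i : ℂ) else 0) * c.qB i b₀ := by
          intro j
          split_ifs with hj
          · rw [hz j, Finset.mul_sum]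
            apply Finset.sum_congr rfl
            intro i _
            rw [hj]
            ring
          · simp
        simp only [h3]
        rw [Finset.sum_comm]
        apply Finset.sum_eq_zero
        intro i hi
        rw [← Finset.sum_mul, hB' b₀ i (Finset.mem_range.1 hi), zero_mul])
      exact hφ (congrFun h5 j₀)
    -- complex multiplication
    have hC1 : ∀ c₀ i, i < K → ∑ j, (if e j = c₀ then (γ j : ℂ) * ((μ j i : ℂ) + μ' j i * S.α c₀) +
        ε j * (κ' c₀ * (μ' j i : ℂ)) else 0) = 0 := by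
      intro c₀ i hi
      by_cases hbi : c₀ < i + 1
      · have h1 := hlam i hi (Sum.inr (Sum.inr (Sum.inl ⟨c₀, hbi⟩)))
        rw [Fintype.sum_sum_type, Fintype.sum_sum_type, Fintype.sum_sum_type] at h1
        simp only [Cf, Sum.elim_inl, Sum.elim_inr, mul_zero, Finset.sum_const_zero, add_zero,
          zero_add] at h1
        rw [← Finset.sum_add_distrib] at h1
        have h2 := congrArg (fun q : Qb => (q : ℂ)) h1
        simp only [IntermediateField.coe_sum] at h2
        refine Eq.trans ?_ (h2.trans (ZeroMemClass.coe_zero _))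
        apply Finset.sum_congr rfl
        intro j _
        by_cases hj : e j = c₀
        · rw [if_pos hj, if_pos hj.symm, if_pos hj.symm]
          show _ = (γ j : ℂ) * ((μ j i : ℂ) + μ' j i * S.α (e j)) + (ε j : ℂ) *
            (κ' (e j) * (μ' j i : ℂ))
          rw [hj]
        · rw [if_neg hj, if_neg (fun h => hj h.symm), if_neg (fun h => hj h.symm)]
          simp
      · apply Finset.sum_eq_zero
        intro j _
        split_ifs with hj
        · rw [(hμ j i (by omega)).1, (hμ j i (by omega)).2]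
          simp
        · rfl
    have hC2 : ∀ c₀ i, i < K → ∑ j, (if e j = c₀ then (ε j : ℂ) * ((μ j i : ℂ) + μ' j i * αs c₀)
        else 0) = 0 := by
      intro c₀ i hi
      by_cases hbi : c₀ < i + 1
      · have h1 := hlam i hi (Sum.inr (Sum.inr (Sum.inr ⟨c₀, hbi⟩)))
        rw [Fintype.sum_sum_type, Fintype.sum_sum_type, Fintype.sum_sum_type] at h1
        simp only [Cf, Sum.elim_inl, Sum.elim_inr, mul_zero, Finset.sum_const_zero, add_zero,
          zero_add, ite_self] at h1
        have h2 := congrArg (fun q : Qb => (q : ℂ)) h1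
        simp only [IntermediateField.coe_sum] at h2
        refine Eq.trans ?_ (h2.trans (ZeroMemClass.coe_zero _))
        apply Finset.sum_congr rfl
        intro j _
        by_cases hj : e j = c₀
        · rw [if_pos hj, if_pos hj.symm]
          show _ = (ε j : ℂ) * ((μ j i : ℂ) + μ' j i * αs (e j))
          rw [hj]
        · rw [if_neg hj, if_neg (fun h => hj h.symm)]
          simp
      · apply Finset.sum_eq_zero
        intro j _
        split_ifs with hj
        · rw [(hμ j i (by omega)).1, (hμ j i (by omega)).2]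
          simp
        · rfl
    have hC3 : ∀ c₀ i, i < K → ∑ j, (if e j = c₀ then ((γ j : ℂ) + a₀ c₀ * ε j) *
        ((μ j i : ℂ) + μ' j i * S.α c₀) else 0) = 0 := by
      intro c₀ i hi
      have h1 := hC1 c₀ i hi
      have h2 := hC2 c₀ i hi
      have h3 : ∑ j, (if e j = c₀ then (γ j : ℂ) * ((μ j i : ℂ) + μ' j i * S.α c₀) +
          ε j * (κ' c₀ * (μ' j i : ℂ)) else 0) + a₀ c₀ * ∑ j, (if e j = c₀ then (ε j : ℂ) *
          ((μ j i : ℂ) + μ' j i * αs c₀) else 0) = ∑ j, (if e j = c₀ then ((γ j : ℂ) + a₀ c₀ * ε j) *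
        ((μ j i : ℂ) + μ' j i * S.α c₀) else 0) := by
        rw [Finset.mul_sum, ← Finset.sum_add_distrib]
        apply Finset.sum_congr rfl
        intro j _
        split_ifs
        · rw [hk c₀]
          ring
        · simp
      rw [← h3, h1, h2]
      ring
    have hγε : ∀ j, γ j + ⟨a₀ (e j), ha₀Q (e j)⟩ * ε j = 0 := by
      intro j₀
      set g : ιC → Qb := fun j => γ j + ⟨a₀ (e j₀), ha₀Q (e j₀)⟩ * ε j with hg
      have h1 : ∑ j : {j // e j = e j₀}, g j.1 • y j.1 = 0 := by
        have h2 := sum_sub (fun j => e j = e j₀) (fun j => g j • y j)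
        rw [h2]
        have h3 : ∀ j, (if e j = e j₀ then g j • y j else 0) = ∑ i ∈ Finset.range K,
            (if e j = e j₀ then ((γ j : ℂ) + a₀ (e j₀) * ε j) *
              ((μ j i : ℂ) + μ' j i * S.α (e j₀)) else 0) * c.qC i (e j₀) := by
          intro j
          split_ifs with hj
          · rw [hy j, Algebra.smul_def, Finset.mul_sum]
            apply Finset.sum_congr rfl
            intro i _
            show ((γ j : ℂ) + a₀ (e j₀) * ε j) * _ = _
            rw [hj]
            ring
          · simp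
        simp only [h3]
        rw [Finset.sum_comm]
        apply Finset.sum_eq_zero
        intro i hi
        rw [← Finset.sum_mul, hC3 (e j₀) i (Finset.mem_range.1 hi), zero_mul]
      exact Fintype.linearIndependent_iff.1
        (EllFam.indep (S.g2C (e j₀)) (S.g3C (e j₀)) (hyi.ell hyE (e j₀)))
        (fun j => g j.1) h1 ⟨j₀, rfl⟩
    have hε0 : ∀ j, ε j = 0 := by
      intro j₀
      have h1 : ∑ j : {j // e j = e j₀}, (ε j.1 : ℂ) * (1 * zt (S.LC (e j₀)) (y j.1) +
          (-a₀ (e j₀)) * y j.1) ∈ QB := by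
        have h2 := sum_sub (fun j => e j = e j₀) (fun j => (ε j : ℂ) *
          (1 * zt (S.LC (e j₀)) (y j) + (-a₀ (e j₀)) * y j))
        rw [h2]
        have h3 : ∀ j, (if e j = e j₀ then (ε j : ℂ) *
            (1 * zt (S.LC (e j₀)) (y j) + (-a₀ (e j₀)) * y j) else 0) =
            (if e j = e j₀ then (ε j : ℂ) * (zt (S.LC (e j)) (y j) - (∑ i ∈ Finset.range K,
              ((μ j i : ℂ) + μ' j i * αs (e j)) * zt (S.LC (e j)) (c.qC i (e j)) +
              κ' (e j) * ∑ i ∈ Finset.range K, (μ' j i : ℂ) * c.qC i (e j))) else 0) +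
            ∑ i ∈ Finset.range K, (if e j = e j₀ then (ε j : ℂ) *
              ((μ j i : ℂ) + μ' j i * αs (e j₀)) else 0) *
              (zt (S.LC (e j₀)) (c.qC i (e j₀)) - a₀ (e j₀) * c.qC i (e j₀)) := by
          intro j
          split_ifs with hj
          · have h4 : ∑ i ∈ Finset.range K, (ε j : ℂ) * ((μ j i : ℂ) + μ' j i * αs (e j₀)) *
                (zt (S.LC (e j₀)) (c.qC i (e j₀)) - a₀ (e j₀) * c.qC i (e j₀)) =
                (ε j : ℂ) * (∑ i ∈ Finset.range K, ((μ j i : ℂ) + μ' j i * αs (e j₀)) *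
                  zt (S.LC (e j₀)) (c.qC i (e j₀)) + κ' (e j₀) * ∑ i ∈ Finset.range K,
                  (μ' j i : ℂ) * c.qC i (e j₀) - a₀ (e j₀) * y j) := by
              rw [hy j, hk (e j₀), hj]
              simp only [Finset.mul_sum, ← Finset.sum_add_distrib, ← Finset.sum_sub_distrib]
              apply Finset.sum_congr rfl
              intro i _
              ring
            rw [h4, hj]
            ring
          · simp
        simp only [h3, Finset.sum_add_distrib]
        apply add_mem
        · apply sum_mem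
          intro j _
          split_ifs
          · exact mul_mem (ε j).2 (hEC j)
          · exact zero_mem _
        · rw [Finset.sum_comm]
          apply sum_mem
          intro i hi
          rw [← Finset.sum_mul, hC2 (e j₀) i (Finset.mem_range.1 hi), zero_mul]
          exact zero_mem _
      have h5 := second_alg (S.g2C (e j₀)) (S.g3C (e j₀)) (hyi.ell hyE (e j₀)) isAlgebraic_one
        (mem_QB.1 (neg_mem (ha₀Q (e j₀)))) (Or.inl one_ne_zero) (fun j => (ε j.1 : ℂ))
        (fun j => mem_QB.1 (ε j.1).2) (mem_QB.1 h1)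
      have h6 := congrFun h5 ⟨j₀, rfl⟩
      exact Subtype.ext h6
    have hγ0 : ∀ j, γ j = 0 := by
      intro j
      have h1 := hγε j
      rw [hε0 j, mul_zero, add_zero] at h1
      exact h1
    funext h
    rcases h with l | j | j | j
    · exact hδ0 l
    · exact hβ0 j
    · exact hγ0 j
    · exact hε0 j

end Chain

end Pool.Agent.W245.EB
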