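import Mathlib
import Pool.Agent.W245.EB.GChain
import Pool.Agent.W245.EB.InfMain

set_option autoImplicit false
set_option linter.unusedVariables false
set_option linter.unusedSectionVars false
set_option linter.unusedSimpArgs false

/-!
# Integrals of the second kind on a sequence of arbitrary elliptic curves
-/

open Module MvPolynomial
open scoped PeriodPair

noncomputable section

namespace Pool.Agent.W245.EB

open H667R3

lemma smulQ' (x : Qb) (y : ℂ) : x • y = (x : ℂ) * y := rfl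

/-- supply of integrals of the second kind -/
lemma exists_second {L : PeriodPair} (h2 : IsAlgebraic ℚ L.g₂) (h3 : IsAlgebraic ℚ L.g₃) {s ρ : ℂ}
    (hs : IsAlgebraic ℚ s) (hρ : IsAlgebraic ℚ ρ) (hsρ : s ≠ 0 ∨ ρ ≠ 0) (Γ : AddSubgroup ℂ)
    (hΓ : ∀ x ∈ Γ, x ∈ EL L)
    (rΓ : ∀ R : ℕ, ∃ w : Fin R → ℂ, (∀ j, w j ∈ Γ) ∧ EllFam L w) (D : ℕ)
    (U : Submodule Qb ℂ) (hU : Module.Finite Qb U) :
    ∃ u ∈ Γ, NoRelTot U D (fun _ : Fin 1 => s * zt L u + ρ * u) := by
  classical
  have hac : IsAlgClosed Qb := (algebraicClosure.isAlgClosure ℚ ℂ).isAlgClosed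
  obtain ⟨w, hw1, hw2⟩ := rΓ (finrank Qb U * ∏ _i : Fin 1, (D + 1))
  have hli := second_indep h2 h3 hw2 hs hρ hsρ
  obtain ⟨F, h0, _, h4⟩ := box_over (κ := Qb) (finrank Qb U) (fun _ : Fin 1 => D) U hU le_rfl
    (J := Fin (finrank Qb U * ∏ _i : Fin 1, (D + 1))) (by rw [Fintype.card_fin]) (fun _ => 0)
    (fun _ j => s * zt L (w j) + ρ * w j) (fun _ => hli)
  obtain ⟨m, hm⟩ := exists_int_eval_ne_zero F h0
  have h5 := h4 (fun i j => ((m (i, j) : ℤ) : Qb)) hm
  set u : ℂ := ∑ j, (m (0, j) : ℂ) * w j with hu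
  have hz := zt_comb h2 h3 hw2.1 (fun j => m (0, j))
  have hzQ : s * zt L u + ρ * u - ∑ j, (m (0, j) : ℂ) * (s * zt L (w j) + ρ * w j) ∈ QB := by
    have e1 : s * zt L u + ρ * u - ∑ j, (m (0, j) : ℂ) * (s * zt L (w j) + ρ * w j) =
        s * (zt L (∑ j, (m (0, j) : ℂ) * w j) - ∑ j, (m (0, j) : ℂ) * zt L (w j)) := by
      rw [mul_sub, hu, Finset.mul_sum, Finset.mul_sum]
      have e2 : ∑ j, (m (0, j) : ℂ) * (s * zt L (w j) + ρ * w j) =
          ∑ j, s * ((m (0, j) : ℂ) * zt L (w j)) + ∑ j, ρ * ((m (0, j) : ℂ) * w j) := by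
        rw [← Finset.sum_add_distrib]
        apply Finset.sum_congr rfl
        intro j _
        ring
      rw [e2]
      ring
    rw [e1]
    exact mul_mem (mem_QB.2 hs) hz
  refine ⟨u, ?_, ?_⟩
  · apply sum_mem
    intro j _
    rw [← zsmul_eq_mul]
    exact zsmul_mem (hw1 j) _
  · have h6 : NoRelTot U D (fun _ : Fin 1 => ∑ j, (m (0, j) : ℂ) * (s * zt L (w j) + ρ * w j)) := by
      intro Q hQ1 hQ2 hQ3
      apply h5 Q
      · intro i
        exact (MvPolynomial.degreeOf_le_totalDegree Q i).trans hQ1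
      · exact hQ2
      · have e3 : (fun i : Fin 1 => (0 : ℂ) + ∑ j, ((m (i, j) : ℤ) : Qb) •
            (s * zt L (w j) + ρ * w j)) =
            fun _ => ∑ j, (m (0, j) : ℂ) * (s * zt L (w j) + ρ * w j) := by
          funext i
          have hi : i = 0 := Subsingleton.elim _ _
          subst hi
          rw [zero_add]
          apply Finset.sum_congr rfl
          intro j _
          rw [smulQ']
          push_cast
          rfl
        rw [e3]
        exact hQ3
    have h7 := h6.shift (fun _ => (⟨_, hzQ⟩ : Qb))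
    have e4 : (fun i : Fin 1 => (∑ j, (m (0, j) : ℂ) * (s * zt L (w j) + ρ * w j)) +
        algebraMap Qb ℂ (⟨_, hzQ⟩ : Qb)) = fun _ => s * zt L u + ρ * u := by
      funext i
      show _ + (s * zt L u + ρ * u - ∑ j, (m (0, j) : ℂ) * (s * zt L (w j) + ρ * w j)) = _
      ring
    rw [e4] at h7
    exact h7

/-- representation of the elements of a group given by generators -/
lemma rep_of_closure {q : ℕ → ℂ} {I : ℕ → Prop} {x : ℂ}
    (hx : x ∈ AddSubgroup.closure {a | ∃ i, I i ∧ a = q i}) :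
    ∃ f : ℕ →₀ ℤ, (∀ i, ¬ I i → f i = 0) ∧ x = f.sum (fun i m => (m : ℂ) * q i) := by
  classical
  refine AddSubgroup.closure_induction (p := fun y _ => ∃ f : ℕ →₀ ℤ, (∀ i, ¬ I i → f i = 0) ∧
    y = f.sum (fun i m => (m : ℂ) * q i)) ?_ ?_ ?_ ?_ hx
  · rintro _ ⟨i, hi, rfl⟩
    refine ⟨Finsupp.single i 1, fun j hj => ?_, ?_⟩
    · rw [Finsupp.single_apply, if_neg]
      intro h
      exact hj (h ▸ hi)
    · rw [Finsupp.sum_single_index (by simp)]
      simp
  · exact ⟨0, fun _ _ => rfl, by simp⟩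
  · rintro a b _ _ ⟨f, hf, rfl⟩ ⟨g, hg, rfl⟩
    refine ⟨f + g, fun i hi => by rw [Finsupp.add_apply, hf i hi, hg i hi, add_zero], ?_⟩
    rw [Finsupp.sum_add_index' (fun i => by simp) (fun i a b => by push_cast; ring)]
  · rintro a _ ⟨f, hf, rfl⟩
    refine ⟨-f, fun i hi => by rw [Finsupp.neg_apply, hf i hi, neg_zero], ?_⟩
    rw [Finsupp.sum_neg_index (fun i => by simp)]
    rw [Finsupp.sum, Finsupp.sum, ← Finset.sum_neg_distrib]
    apply Finset.sum_congr rfl
    intro i _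
    push_cast
    ring

/-- rational independence of combinations implies independence of the coefficient vectors over any
field -/
lemma coeff_indep {ι : Type} [Fintype ι] {κ : Type*} (f : ι → κ → ℤ)
    (hf : ∀ g : ι → ℚ, (∀ a, ∑ i, g i * (f i a : ℚ) = 0) → g = 0)
    (β : ι → Qb) (hβ : ∀ a, ∑ i, β i * ((f i a : ℤ) : Qb) = 0) : β = 0 := by
  classical
  by_contra hne
  obtain ⟨i₀, hi₀⟩ := Function.ne_iff.1 hne
  obtain ⟨φ, hφ⟩ := Module.exists_dual_forall_apply_ne_zero_aux (β i₀) hi₀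
  have h1 := hf (fun i => φ (β i)) (fun a => by
    have h2 := congrArg φ (hβ a)
    rw [map_zero, map_sum] at h2
    rw [← h2]
    apply Finset.sum_congr rfl
    intro i _
    have h3 : β i * ((f i a : ℤ) : Qb) = (f i a : ℤ) • β i := by
      rw [zsmul_eq_mul, mul_comm]
    rw [h3, map_zsmul, zsmul_eq_mul, mul_comm])
  exact hφ (congrFun h1 i₀)

end Pool.Agent.W245.EB
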