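import Mathlib
import Pool.Agent.W245.EB.BChain

set_option autoImplicit false
set_option linter.unusedVariables false
set_option linter.unusedSectionVars false
set_option linter.unusedSimpArgs false

/-!
# Logarithms and integrals of the second kind on a sequence of arbitrary elliptic curves
-/

open Module MvPolynomial
open scoped PeriodPair

noncomputable section

namespace Pool.Agent.W245.EB

open H667R3

/-- logarithms and arbitrary curves with a class of the second kind -/
structure SysB where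
  Λ : AddSubgroup ℂ
  hΛ : ∀ x ∈ Λ, IsAlgebraic ℚ (Complex.exp x)
  rΛ : ∀ R : ℕ, ∃ w : Fin R → ℂ, (∀ j, w j ∈ Λ) ∧ LinearIndependent ℚ w
  L : ℕ → PeriodPair
  g2 : ∀ b, IsAlgebraic ℚ (L b).g₂
  g3 : ∀ b, IsAlgebraic ℚ (L b).g₃
  Γ : ℕ → AddSubgroup ℂ
  hΓ : ∀ b, ∀ x ∈ Γ b, x ∈ EL (L b)
  rΓ : ∀ b R : ℕ, ∃ w : Fin R → ℂ, (∀ j, w j ∈ Γ b) ∧ EllFam (L b) w
  s : ℕ → ℂ
  ρ : ℕ → ℂ
  hs : ∀ b, IsAlgebraic ℚ (s b)
  hρ : ∀ b, IsAlgebraic ℚ (ρ b)
  hsρ : ∀ b, s b ≠ 0 ∨ ρ b ≠ 0

namespace SysB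

variable (S : SysB) (v : ℕ → ℂ)

/-- the integral of the second kind -/
def J (b : ℕ) (u : ℂ) : ℂ := S.s b * zt (S.L b) u + S.ρ b * u

/-- supply -/
def sup (i : ℕ) : Set ℂ :=
  match (Nat.unpair i).1 with
  | 0 => (S.Λ : Set ℂ)
  | b + 1 => {z | ∃ u ∈ S.Γ b, z = S.J b u}

/-- coefficients -/
def coef (i : ℕ) : Submodule Qb ℂ :=
  Submodule.span Qb (v '' Set.Iic i ∪ ⋃ b ∈ Set.Iic i, {(S.L b).ω₁, (S.L b).ω₂,
    H667R3.eta (S.L b) (S.L b).ω₁, H667R3.eta (S.L b) (S.L b).ω₂})

lemma coef_fin (i : ℕ) : Module.Finite Qb (S.coef v i) := by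
  apply FiniteDimensional.span_of_finite Qb
  refine Set.Finite.union ((Set.finite_Iic i).image v) ?_
  exact (Set.finite_Iic i).biUnion (fun b _ => by simp)

theorem exists_chainB : Nonempty (GChain S.sup (S.coef v)) := by
  apply exists_gchain _ _ (S.coef_fin v)
  intro i D U hU
  unfold sup
  split
  · apply exists_of_rank S.Λ _ D U hU
    intro R
    obtain ⟨w, h1, h2⟩ := S.rΛ R
    exact ⟨w, h1, LogFam.indep ⟨fun j => S.hΛ _ (h1 j), h2⟩⟩
  · rename_i b hb
    obtain ⟨u, hu, h1⟩ := exists_second (S.g2 b) (S.g3 b) (S.hs b) (S.hρ b) (S.hsρ b) (S.Γ b)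
      (S.hΓ b) (S.rΓ b) D U hU
    exact ⟨_, ⟨u, hu, rfl⟩, h1⟩

end SysB

namespace BC

variable {S : SysB} {v : ℕ → ℂ} (c : GChain S.sup (S.coef v))

/-- the logarithms -/
def lg (i : ℕ) : ℂ := c.t (Nat.pair 0 i)

lemma lg_mem (i : ℕ) : lg c i ∈ S.Λ := by
  have h := c.ht (Nat.pair 0 i)
  unfold SysB.sup at h
  rw [Nat.unpair_pair] at h
  exact h

lemma ex_pt (b i : ℕ) : ∃ u ∈ S.Γ b, c.t (Nat.pair (b + 1) i) = S.J b u := by
  have h := c.ht (Nat.pair (b + 1) i)
  unfold SysB.sup at h
  rw [Nat.unpair_pair] at h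
  exact h

/-- the points -/
def pt (b i : ℕ) : ℂ := (ex_pt c b i).choose

lemma pt_mem (b i : ℕ) : pt c b i ∈ S.Γ b := (ex_pt c b i).choose_spec.1

lemma pt_eq (b i : ℕ) : c.t (Nat.pair (b + 1) i) = S.J b (pt c b i) := (ex_pt c b i).choose_spec.2

/-- combinations of the numbers with indices `pair a i` -/
def cb (a : ℕ) (f : ℕ →₀ ℤ) : ℂ := f.sum fun i m => (m : ℂ) * c.t (Nat.pair a i)

lemma cb_mem {D a : ℕ} {f : ℕ →₀ ℤ} (hf : ∀ i, ¬ (D ≤ a ∨ D ≤ i) → f i = 0) :
    cb c a f ∈ Submodule.span Qb (c.t '' Set.Ici D) := by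
  unfold cb Finsupp.sum
  apply Submodule.sum_mem
  intro i hi
  have h1 : ((f i : ℤ) : ℂ) * c.t (Nat.pair a i) = ((f i : ℤ) : Qb) • c.t (Nat.pair a i) := by
    rw [smulQ']
    push_cast
    rfl
  show ((f i : ℤ) : ℂ) * c.t (Nat.pair a i) ∈ Submodule.span Qb (c.t '' Set.Ici D)
  rw [h1]
  apply Submodule.smul_mem
  apply Submodule.subset_span
  refine ⟨_, ?_, rfl⟩
  have h2 : D ≤ a ∨ D ≤ i := by
    by_contra h
    exact (Finsupp.mem_support_iff.1 hi) (hf i h)
  rw [Set.mem_Ici]
  rcases h2 with h2 | h2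
  · exact h2.trans (Nat.left_le_pair a i)
  · exact h2.trans (Nat.right_le_pair a i)

lemma cb_eq_zero {a : ℕ} {f : ℕ →₀ ℤ} (h : cb c a f = 0) : f = 0 := by
  classical
  have h1 := c.indep.comp (Nat.pair a) (fun i j hij => by
    have := congrArg Nat.unpair hij
    rw [Nat.unpair_pair, Nat.unpair_pair] at this
    exact (Prod.ext_iff.1 this).2)
  rw [linearIndependent_iff'] at h1
  ext i
  by_cases hi : i ∈ f.support
  · have h2 := h1 f.support (fun i => ((f i : ℤ) : Qb)) (by
      rw [← h]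
      unfold cb Finsupp.sum
      apply Finset.sum_congr rfl
      intro i _
      rw [smulQ']
      push_cast
      rfl) i hi
    exact_mod_cast h2
  · exact Finsupp.notMem_support_iff.1 hi

/-- elements of the span which belong to the coefficient space vanish -/
lemma zero_of_mem {D : ℕ} (hD : 1 ≤ D) {z : ℂ} (hz : z ∈ Submodule.span Qb (c.t '' Set.Ici D))
    (hA : z ∈ c.A D) : z = 0 := by
  by_contra h0
  have h1 : LinearIndependent Qb (fun _ : Fin 1 => z) := by
    rw [Fintype.linearIndependent_iff]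
    intro g hg i
    have hi : i = 0 := Subsingleton.elim _ _
    subst hi
    simp only [Finset.univ_unique, Finset.sum_singleton] at hg
    rw [smulQ'] at hg
    have := (mul_eq_zero.1 hg).resolve_right h0
    exact Subtype.ext this
  have h2 := c.nr_top D 1 (fun _ => z) (fun _ => hz) h1
  exact h2.ne hD (c.le_pow D _ (by omega) (c.one D)) 0 (c.le_pow D _ (by omega) hA)

lemma J_sub_mem (b : ℕ) (f : ℕ →₀ ℤ) :
    S.J b (f.sum fun i m => (m : ℂ) * pt c b i) - cb c (b + 1) f ∈ QB := by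
  classical
  have h1 := zt_comb (S.g2 b) (S.g3 b) (J := {i // i ∈ f.support}) (u := fun i => pt c b i)
    (fun i => S.hΓ b _ (pt_mem c b i)) (fun i => f i)
  have e1 : ∀ F : ℕ → ℂ, ∑ i : {i // i ∈ f.support}, F i = ∑ i ∈ f.support, F i := fun F =>
    Finset.sum_coe_sort f.support F
  rw [e1 (fun i => (f i : ℂ) * pt c b i), e1 (fun i => (f i : ℂ) * zt (S.L b) (pt c b i))] at h1
  have e2 : S.J b (f.sum fun i m => (m : ℂ) * pt c b i) - cb c (b + 1) f =
      S.s b * (zt (S.L b) (∑ i ∈ f.support, (f i : ℂ) * pt c b i) -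
        ∑ i ∈ f.support, (f i : ℂ) * zt (S.L b) (pt c b i)) := by
    unfold cb Finsupp.sum
    simp only [pt_eq]
    unfold SysB.J
    have e3 : ∑ i ∈ f.support, (f i : ℂ) * (S.s b * zt (S.L b) (pt c b i) + S.ρ b * pt c b i) =
        S.s b * ∑ i ∈ f.support, (f i : ℂ) * zt (S.L b) (pt c b i) +
        S.ρ b * ∑ i ∈ f.support, (f i : ℂ) * pt c b i := by
      rw [Finset.mul_sum, Finset.mul_sum, ← Finset.sum_add_distrib]
      apply Finset.sum_congr rfl
      intro i _
      ring
    rw [e3]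
    ring
  rw [e2]
  exact mul_mem (mem_QB.2 (S.hs b)) h1

lemma QB_le_A (D : ℕ) {x : ℂ} (hx : x ∈ QB) : x ∈ c.A D := by
  have := (c.A D).smul_mem (⟨x, hx⟩ : Qb) (c.one D)
  rwa [smulQ', mul_one] at this

/-- a nonzero element of the group of points is not a period -/
lemma notMem (b : ℕ) (f : ℕ →₀ ℤ) (h0 : (f.sum fun i m => (m : ℂ) * pt c b i) ≠ 0) :
    (f.sum fun i m => (m : ℂ) * pt c b i) ∉ (S.L b).lattice := by
  classical
  set y : ℂ := f.sum fun i m => (m : ℂ) * pt c b i with hy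
  intro hyL
  have hVA : S.coef v (b + 1) ≤ c.A (b + 1) := c.hV (b + 1)
  have hgen : ∀ x ∈ ({(S.L b).ω₁, (S.L b).ω₂, H667R3.eta (S.L b) (S.L b).ω₁,
      H667R3.eta (S.L b) (S.L b).ω₂} : Set ℂ), x ∈ c.A (b + 1) := by
    intro x hx
    apply hVA
    apply Submodule.subset_span
    right
    exact Set.mem_biUnion (Set.mem_Iic.2 (Nat.le_succ b)) hx
  have hcomb : ∀ p q : ℤ, ∀ x ∈ c.A (b + 1), ∀ y ∈ c.A (b + 1), (p : ℂ) * x + q * y ∈ c.A (b + 1) := by
    intro p q x hx y hy
    have h1 := (c.A (b + 1)).smul_mem (p : Qb) hx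
    have h2 := (c.A (b + 1)).smul_mem (q : Qb) hy
    rw [smulQ'] at h1 h2
    push_cast at h1 h2
    exact (c.A (b + 1)).add_mem h1 h2
  obtain ⟨u, w, h⟩ := PeriodPair.mem_lattice.1 hyL
  have hyA : y ∈ c.A (b + 1) := by
    rw [← h]
    exact hcomb u w _ (hgen _ (by simp)) _ (hgen _ (by simp))
  have hetaA : H667R3.eta (S.L b) y ∈ c.A (b + 1) := by
    have h4 := H667R3.intCast_mul_mem (S.L b) (S.L b).ω₁_mem_lattice u
    have h5 := H667R3.intCast_mul_mem (S.L b) (S.L b).ω₂_mem_lattice w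
    rw [← h, H667R3.eta_add (S.L b) h4 h5, H667R3.eta_zsmul (S.L b) (S.L b).ω₁_mem_lattice,
      H667R3.eta_zsmul (S.L b) (S.L b).ω₂_mem_lattice]
    exact hcomb u w _ (hgen _ (by simp)) _ (hgen _ (by simp))
  have hJ : S.J b y ∈ c.A (b + 1) := by
    unfold SysB.J
    rw [zt_of_mem hyL]
    have h1 := (c.A (b + 1)).smul_mem (⟨_, mem_QB.2 (S.hs b)⟩ : Qb) hetaA
    have h2 := (c.A (b + 1)).smul_mem (⟨_, mem_QB.2 (S.hρ b)⟩ : Qb) hyA
    rw [smulQ'] at h1 h2
    exact (c.A (b + 1)).add_mem h1 h2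
  have hcb : cb c (b + 1) f ∈ c.A (b + 1) := by
    have h1 := QB_le_A c (b + 1) (J_sub_mem c b f)
    have h2 := (c.A (b + 1)).sub_mem hJ h1
    rw [← hy, sub_sub_cancel] at h2
    exact h2
  have h3 := zero_of_mem c (Nat.le_add_left 1 b)
    (cb_mem c (D := b + 1) (a := b + 1) (f := f) (fun i hi => absurd (Or.inl le_rfl) hi)) hcb
  have h4 := cb_eq_zero c h3
  apply h0
  rw [hy, h4]
  simp

lemma pt_indep (b : ℕ) : LinearIndependent ℚ (pt c b) := by
  rw [← LinearIndependent.iff_fractionRing ℤ ℚ, linearIndependent_iff]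
  intro f hf
  have h1 : (f.sum fun i m => (m : ℂ) * pt c b i) = 0 := by
    rw [← hf, Finsupp.linearCombination_apply]
    apply Finsupp.sum_congr
    intro i _
    rw [zsmul_eq_mul]
  have h2 := J_sub_mem c b f
  rw [h1] at h2
  have h3 : S.J b 0 = 0 := by
    unfold SysB.J
    rw [zt_zero]
    ring
  rw [h3, zero_sub] at h2
  have h4 := QB_le_A c 1 (neg_mem_iff.1 h2)
  exact cb_eq_zero c (zero_of_mem c le_rfl
    (cb_mem c (D := 1) (a := b + 1) (f := f) (fun i hi => absurd (Or.inl (by omega)) hi)) h4)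

lemma lg_indep : LinearIndependent ℚ (lg c) := by
  have h1 := c.indep.comp (Nat.pair 0) (fun i j hij => by
    have := congrArg Nat.unpair hij
    rw [Nat.unpair_pair, Nat.unpair_pair] at this
    exact (Prod.ext_iff.1 this).2)
  exact LinearIndependent.restrict_scalars (R := ℚ) (K := Qb) (M := ℂ) (by
    intro a b hab
    have h2 : (algebraMap ℚ Qb a) = algebraMap ℚ Qb b := by
      simpa [Algebra.smul_def] using hab
    exact (algebraMap ℚ Qb).injective h2) h1

/-- **Main theorem.** -/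
theorem core {D s n : ℕ} (x : Fin s → ℂ) (b : Fin n → ℕ) (y : Fin n → ℂ)
    (f : Fin s → ℕ →₀ ℤ) (hf : ∀ l i, ¬ D ≤ i → f l i = 0)
    (hx : ∀ l, x l = (f l).sum fun i m => (m : ℂ) * lg c i)
    (g : Fin n → ℕ →₀ ℤ) (hg : ∀ j i, ¬ (D ≤ b j ∨ D ≤ i) → g j i = 0)
    (hy : ∀ j, y j = (g j).sum fun i m => (m : ℂ) * pt c (b j) i)
    (hxi : LinearIndependent ℚ x)
    (hyi : ∀ r : Fin n → ℚ, (∀ b₀, ∑ j, (if b j = b₀ then (r j : ℂ) * y j else 0) = 0) → r = 0) :
    NoRelTot (c.A D ^ (D + 1)) D (Sum.elim x (fun j => S.J (b j) (y j))) := by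
  classical
  have hx' : ∀ l, x l = cb c 0 (f l) := hx
  have he : ∀ j, S.J (b j) (y j) - cb c (b j + 1) (g j) ∈ QB := by
    intro j
    rw [hy j]
    exact J_sub_mem c (b j) (g j)
  have hfam : ∀ i : Fin s ⊕ Fin n, Sum.elim x (fun j => S.J (b j) (y j)) i -
      algebraMap Qb ℂ (Sum.elim (fun _ => 0) (fun j => (⟨_, he j⟩ : Qb)) i) =
      Sum.elim (fun l => cb c 0 (f l)) (fun j => cb c (b j + 1) (g j)) i := by
    rintro (l | j)
    · simp only [Sum.elim_inl, map_zero, sub_zero]
      exact hx' l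
    · simp only [Sum.elim_inr]
      show S.J (b j) (y j) - (S.J (b j) (y j) - cb c (b j + 1) (g j)) = _
      ring
  have h1 : ∀ i : Fin s ⊕ Fin n, Sum.elim (fun l => cb c 0 (f l)) (fun j => cb c (b j + 1) (g j)) i ∈
      Submodule.span Qb (c.t '' Set.Ici D) := by
    rintro (l | j)
    · exact cb_mem c (fun i hi => hf l i (fun h => hi (Or.inr h)))
    · refine cb_mem c (fun i hi => hg j i (fun h => hi ?_))
      rcases h with h | h
      · exact Or.inl (h.trans (Nat.le_succ _))
      · exact Or.inr h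
  have h2 : LinearIndependent Qb
      (Sum.elim (fun l => cb c 0 (f l)) (fun j => cb c (b j + 1) (g j))) := by
    rw [Fintype.linearIndependent_iff]
    intro β hβ
    -- the coefficients
    set F : ℕ →₀ Qb := ∑ l, β (Sum.inl l) • ((f l).mapRange (Int.cast : ℤ → Qb) Int.cast_zero).mapDomain
        (Nat.pair 0) + ∑ j, β (Sum.inr j) •
        ((g j).mapRange (Int.cast : ℤ → Qb) Int.cast_zero).mapDomain (Nat.pair (b j + 1)) with hF
    have hlc : ∀ (a : ℕ) (h : ℕ →₀ ℤ), Finsupp.linearCombination Qb c.t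
        ((h.mapRange (Int.cast : ℤ → Qb) Int.cast_zero).mapDomain (Nat.pair a)) = cb c a h := by
      intro a h
      rw [Finsupp.linearCombination_mapDomain, Finsupp.linearCombination_apply,
        Finsupp.sum_mapRange_index (fun i => by rw [zero_smul])]
      unfold cb
      apply Finsupp.sum_congr
      intro i _
      rw [smulQ']
      push_cast
      rfl
    have hF0 : F = 0 := by
      apply (linearIndependent_iff.1 c.indep)
      rw [hF, map_add, map_sum, map_sum]
      simp only [map_smul, hlc]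
      rw [Fintype.sum_sum_type] at hβ
      simpa using hβ
    have hpair : ∀ a a' i i', Nat.pair a i = Nat.pair a' i' ↔ a = a' ∧ i = i' := by
      intro a a' i i'
      constructor
      · intro h
        have := congrArg Nat.unpair h
        rw [Nat.unpair_pair, Nat.unpair_pair] at this
        exact ⟨(Prod.ext_iff.1 this).1, (Prod.ext_iff.1 this).2⟩
      · rintro ⟨rfl, rfl⟩
        rfl
    have hinj : ∀ a, Function.Injective (Nat.pair a) := fun a i j hij => ((hpair _ _ _ _).1 hij).2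
    have hval : ∀ (a a' i : ℕ) (h : ℕ →₀ ℤ),
        ((h.mapRange (Int.cast : ℤ → Qb) Int.cast_zero).mapDomain (Nat.pair a)) (Nat.pair a' i) =
        if a = a' then ((h i : ℤ) : Qb) else 0 := by
      intro a a' i h
      split_ifs with haa
      · subst haa
        rw [Finsupp.mapDomain_apply (hinj a), Finsupp.mapRange_apply]
      · apply Finsupp.mapDomain_of_notMem_range
        rintro ⟨i', hi'⟩
        exact haa ((hpair _ _ _ _).1 hi').1
    have hA : ∀ i, ∑ l, β (Sum.inl l) * ((f l i : ℤ) : Qb) = 0 := by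
      intro i
      have h3 := congrArg (fun G : ℕ →₀ Qb => G (Nat.pair 0 i)) hF0
      simp only [hF, Finsupp.add_apply, Finsupp.finsetSum_apply, Finsupp.smul_apply, hval,
        smul_eq_mul, Finsupp.zero_apply, if_true] at h3
      have h4 : ∑ j, β (Sum.inr j) * (if b j + 1 = 0 then ((g j i : ℤ) : Qb) else 0) = 0 := by
        apply Finset.sum_eq_zero
        intro j _
        rw [if_neg (Nat.succ_ne_zero _), mul_zero]
      rw [h4, add_zero] at h3
      exact h3
    have hB : ∀ b₀ i, ∑ j, β (Sum.inr j) * (((if b j = b₀ then g j i else 0 : ℤ)) : Qb) = 0 := by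
      intro b₀ i
      have h3 := congrArg (fun G : ℕ →₀ Qb => G (Nat.pair (b₀ + 1) i)) hF0
      simp only [hF, Finsupp.add_apply, Finsupp.finsetSum_apply, Finsupp.smul_apply, hval,
        smul_eq_mul, Finsupp.zero_apply] at h3
      have h4 : ∑ l, β (Sum.inl l) * (if 0 = b₀ + 1 then ((f l i : ℤ) : Qb) else 0) = 0 := by
        apply Finset.sum_eq_zero
        intro j _
        rw [if_neg (Nat.succ_ne_zero _).symm, mul_zero]
      rw [h4, zero_add] at h3
      rw [← h3]
      apply Finset.sum_congr rfl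
      intro j _
      by_cases hj : b j = b₀
      · rw [if_pos hj, if_pos (by rw [hj])]
      · rw [if_neg hj, if_neg (fun h => hj (Nat.succ_injective h)), Int.cast_zero]
    have hβl : (fun l => β (Sum.inl l)) = 0 := by
      apply coeff_indep (fun l i => f l i) _ _ hA
      intro r hr
      rw [Fintype.linearIndependent_iff] at hxi
      funext l
      refine hxi r ?_ l
      -- the sum
      have h5 : ∀ l, x l = ∑ i ∈ Finset.univ.biUnion (fun l => (f l).support), ((f l i : ℤ) : ℂ) * lg c i := by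
        intro l
        rw [hx l, Finsupp.sum]
        apply Finset.sum_subset (Finset.subset_biUnion_of_mem (fun l => (f l).support) (Finset.mem_univ l))
        intro i _ hi
        rw [Finsupp.notMem_support_iff.1 hi]
        simp
      simp only [h5, Finset.smul_sum]
      rw [Finset.sum_comm]
      apply Finset.sum_eq_zero
      intro i _
      have h6 : ∑ l, (r l) • (((f l i : ℤ) : ℂ) * lg c i) = ((∑ l, r l * (f l i : ℚ) : ℚ) : ℂ) * lg c i := by
        push_cast
        rw [Finset.sum_mul]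
        apply Finset.sum_congr rfl
        intro l _
        rw [Rat.smul_def]
        ring
      rw [h6, hr i]
      simp
    have hβr : (fun j => β (Sum.inr j)) = 0 := by
      apply coeff_indep (fun j (a : ℕ × ℕ) => if b j = a.1 then g j a.2 else 0) _ _
        (fun a => hB a.1 a.2)
      intro r hr
      apply hyi r
      intro b₀
      have h5 : ∀ j, (if b j = b₀ then (r j : ℂ) * y j else 0) =
          ∑ i ∈ Finset.univ.biUnion (fun j => (g j).support),
            (((r j * ((if b j = b₀ then g j i else 0 : ℤ) : ℚ) : ℚ)) : ℂ) * pt c b₀ i := by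
        intro j
        split_ifs with hj
        · rw [hy j, Finsupp.sum, Finset.mul_sum, hj]
          have h6 : ∑ i ∈ (g j).support, (r j : ℂ) * (((g j i : ℤ) : ℂ) * pt c b₀ i) =
              ∑ i ∈ Finset.univ.biUnion (fun j => (g j).support),
                (r j : ℂ) * (((g j i : ℤ) : ℂ) * pt c b₀ i) := by
            apply Finset.sum_subset (Finset.subset_biUnion_of_mem (fun j => (g j).support)
              (Finset.mem_univ j))
            intro i _ hi
            rw [Finsupp.notMem_support_iff.1 hi]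
            simp
          rw [h6]
          apply Finset.sum_congr rfl
          intro i _
          push_cast
          ring
        · symm
          apply Finset.sum_eq_zero
          intro i _
          simp
      simp only [h5]
      rw [Finset.sum_comm]
      apply Finset.sum_eq_zero
      intro i _
      rw [← Finset.sum_mul, ← Rat.cast_sum, hr (b₀, i)]
      simp
    rintro (l | j)
    · exact congrFun hβl l
    · exact congrFun hβr j
  apply (c.nr_top D).affine (Sum.elim x (fun j => S.J (b j) (y j)))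
    (Sum.elim (fun _ => 0) (fun j => (⟨_, he j⟩ : Qb)))
  · intro i
    rw [hfam i]
    exact h1 i
  · have h3 : (fun i => Sum.elim x (fun j => S.J (b j) (y j)) i -
      algebraMap Qb ℂ (Sum.elim (fun _ => 0) (fun j => (⟨_, he j⟩ : Qb)) i)) =
      Sum.elim (fun l => cb c 0 (f l)) (fun j => cb c (b j + 1) (g j)) := funext hfam
    rw [h3]
    exact h2

end BC

end Pool.Agent.W245.EB
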