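import Mathlib
import Pool.Agent.W245.EB.Mix2

set_option autoImplicit false
set_option linter.unusedVariables false
set_option linter.unusedSectionVars false
set_option linter.unusedSimpArgs false

/-!
# Relations over the algebraic numbers involving further numbers
-/

open Module MvPolynomial
open scoped PeriodPair

noncomputable section

namespace Pool.Agent.W245.EB

open H667R3

/-- the space spanned by the monomials of partial degrees at most `D` -/
def monSpan {P : Type} [Fintype P] (θ : P → ℂ) (D : ℕ) : Submodule Qb ℂ :=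
  Submodule.span Qb (Set.range fun e : P → Fin (D + 1) => ∏ i, θ i ^ (e i : ℕ))

lemma monSpan_finite {P : Type} [Fintype P] (θ : P → ℂ) (D : ℕ) : Module.Finite Qb (monSpan θ D) :=
  FiniteDimensional.span_of_finite Qb (Set.finite_range _)

lemma finrank_monSpan {P : Type} [Fintype P] (θ : P → ℂ) (D : ℕ) :
    finrank Qb (monSpan θ D) ≤ (D + 1) ^ Fintype.card P := by
  classical
  refine (finrank_range_le_card _).trans (le_of_eq ?_)
  simp

lemma prod_mem_monSpan {P : Type} [Fintype P] (θ : P → ℂ) (D : ℕ) (e : P → ℕ) (he : ∀ i, e i ≤ D) :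
    ∏ i, θ i ^ e i ∈ monSpan θ D :=
  Submodule.subset_span ⟨fun i => ⟨e i, Nat.lt_succ_of_le (he i)⟩, rfl⟩

lemma one_mem_monSpan {P : Type} [Fintype P] (θ : P → ℂ) (D : ℕ) : (1 : ℂ) ∈ monSpan θ D := by
  have := prod_mem_monSpan θ D (fun _ => 0) (fun _ => Nat.zero_le _)
  simpa using this

lemma mem_monSpan {P : Type} [Fintype P] (θ : P → ℂ) {D : ℕ} (hD : 1 ≤ D) (i : P) :
    θ i ∈ monSpan θ D := by
  classical
  have := prod_mem_monSpan θ D (fun j => if j = i then 1 else 0) (fun j => by split_ifs <;> omega)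
  simpa using this

lemma NoRelTot.param {P σ : Type} [Fintype P] [Fintype σ] (θ : P → ℂ) {D : ℕ} {x : σ → ℂ}
    (h : NoRelTot (monSpan θ D) D x) (Q : MvPolynomial (P ⊕ σ) Qb) (hQ : Q.totalDegree ≤ D)
    (h0 : aeval (Sum.elim θ x) Q = 0) (y : σ → ℂ) : aeval (Sum.elim θ y) Q = 0 := by
  classical
  have hinj : Function.Injective (Sum.inr : σ → P ⊕ σ) := Sum.inr_injective
  set Qθ : MvPolynomial σ ℂ := ∑ d ∈ Q.support,
    monomial (Finsupp.comapDomain Sum.inr d hinj.injOn)
      (((Q.coeff d : Qb) : ℂ) * ∏ i, θ i ^ (d (Sum.inl i))) with hQθ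
  have hdeg : ∀ d ∈ Q.support, d.degree ≤ D := fun d hd => (le_totalDegree hd).trans hQ
  have hev : ∀ y : σ → ℂ, MvPolynomial.eval y Qθ = aeval (Sum.elim θ y) Q := by
    intro y
    rw [hQθ, map_sum, aeval_def, eval₂_eq']
    apply Finset.sum_congr rfl
    intro d _
    rw [MvPolynomial.eval_monomial, Finsupp.prod_fintype _ _ (fun _ => pow_zero _),
      Fintype.prod_sum_type]
    simp only [Sum.elim_inl, Sum.elim_inr, Finsupp.comapDomain_apply]
    rw [mul_assoc]
    rfl
  have hz : Qθ = 0 := by
    apply h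
    · rw [hQθ]
      apply totalDegree_finsetSum_le
      intro d hd
      refine (totalDegree_monomial_le _ _).trans (le_trans ?_ (hdeg d hd))
      rw [Finsupp.sum_fintype _ _ (fun _ => rfl)]
      rw [Finsupp.degree_eq_sum]
      rw [Fintype.sum_sum_type]
      simp only [Finsupp.comapDomain_apply]
      exact Nat.le_add_left _ _
    · intro s
      rw [hQθ, coeff_sum]
      apply Submodule.sum_mem
      intro d hd
      rw [coeff_monomial]
      split_ifs
      · have h4 : ∏ i, θ i ^ (d (Sum.inl i)) ∈ monSpan θ D :=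
          prod_mem_monSpan θ D (fun i => d (Sum.inl i)) (fun i =>
            (Finsupp.le_degree (Sum.inl i) d).trans (hdeg d hd))
        exact (monSpan θ D).smul_mem (Q.coeff d) h4
      · exact Submodule.zero_mem _
    · rw [hev]
      exact h0
  rw [← hev, hz, map_zero]

end Pool.Agent.W245.EB
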