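import Mathlib
import Pool.Agent.W245.EB.InfMain

set_option autoImplicit false
set_option linter.unusedVariables false
set_option linter.unusedSectionVars false
set_option linter.unusedSimpArgs false

/-!
# Tails of the subgroups
-/

open Module MvPolynomial
open scoped PeriodPair

noncomputable section

namespace Pool.Agent.W245.EB

open H667R3

/-- integral combinations of the terms `q i`, `i ≥ D` -/
def Rep (q : ℕ → ℂ) (D : ℕ) (x : ℂ) : Prop :=
  ∃ (n : ℕ → ℤ) (K₀ : ℕ), (∀ i, i < D → n i = 0) ∧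
    ∀ K, K₀ ≤ K → x = ∑ i ∈ Finset.range K, (n i : ℂ) * q i

lemma Rep.of_closure {q : ℕ → ℂ} {D : ℕ} {x : ℂ}
    (hx : x ∈ AddSubgroup.closure {a | ∃ i, D ≤ i ∧ a = q i}) : Rep q D x := by
  classical
  induction hx using AddSubgroup.closure_induction with
  | mem x hx =>
    obtain ⟨i, hi, rfl⟩ := hx
    refine ⟨fun j => if j = i then 1 else 0, i + 1, fun j hj => if_neg (by omega), fun K hK => ?_⟩
    rw [Finset.sum_eq_single i]
    · simp
    · intro j _ hj
      simp [hj]
    · intro h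
      exact absurd (Finset.mem_range.2 (by omega)) h
  | zero => exact ⟨fun _ => 0, 0, fun _ _ => rfl, fun K _ => by simp⟩
  | add x y _ _ hx hy =>
    obtain ⟨n, K, h1, h2⟩ := hx
    obtain ⟨n', K', h1', h2'⟩ := hy
    refine ⟨fun i => n i + n' i, max K K', fun i hi => by show n i + n' i = 0; rw [h1 i hi, h1' i hi, add_zero], fun L hL => ?_⟩
    rw [h2 L (le_trans (le_max_left _ _) hL), h2' L (le_trans (le_max_right _ _) hL),
      ← Finset.sum_add_distrib]
    apply Finset.sum_congr rfl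
    intro i _
    push_cast
    ring
  | neg x _ hx =>
    obtain ⟨n, K, h1, h2⟩ := hx
    refine ⟨fun i => - n i, K, fun i hi => by show - n i = 0; rw [h1 i hi, neg_zero], fun L hL => ?_⟩
    rw [h2 L hL, ← Finset.sum_neg_distrib]
    apply Finset.sum_congr rfl
    intro i _
    push_cast
    ring

/-- combinations with coefficients in `ℤ[α]` -/
def RepC (α : ℂ) (q : ℕ → ℂ) (D : ℕ) (x : ℂ) : Prop :=
  ∃ (n n' : ℕ → ℤ) (K₀ : ℕ), (∀ i, i < D → n i = 0 ∧ n' i = 0) ∧
    ∀ K, K₀ ≤ K → x = ∑ i ∈ Finset.range K, ((n i : ℂ) + n' i * α) * q i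

lemma RepC.of_closure {α : ℂ} {q : ℕ → ℂ} {D : ℕ} {x : ℂ}
    (hx : x ∈ AddSubgroup.closure {a | ∃ i, D ≤ i ∧ (a = q i ∨ a = α * q i)}) : RepC α q D x := by
  classical
  induction hx using AddSubgroup.closure_induction with
  | mem x hx =>
    obtain ⟨i, hi, h | h⟩ := hx
    · subst h
      refine ⟨fun j => if j = i then 1 else 0, fun _ => 0, i + 1, fun j hj => ⟨if_neg (by omega), rfl⟩,
        fun K hK => ?_⟩
      rw [Finset.sum_eq_single i]
      · simp
      · intro j _ hj
        simp [hj]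
      · intro h
        exact absurd (Finset.mem_range.2 (by omega)) h
    · subst h
      refine ⟨fun _ => 0, fun j => if j = i then 1 else 0, i + 1, fun j hj => ⟨rfl, if_neg (by omega)⟩,
        fun K hK => ?_⟩
      rw [Finset.sum_eq_single i]
      · simp
      · intro j _ hj
        simp [hj]
      · intro h
        exact absurd (Finset.mem_range.2 (by omega)) h
  | zero => exact ⟨fun _ => 0, fun _ => 0, 0, fun _ _ => ⟨rfl, rfl⟩, fun K _ => by simp⟩
  | add x y _ _ hx hy =>
    obtain ⟨n, m, K, h1, h2⟩ := hx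
    obtain ⟨n', m', K', h1', h2'⟩ := hy
    refine ⟨fun i => n i + n' i, fun i => m i + m' i, max K K',
      fun i hi => ⟨by show n i + n' i = 0; rw [(h1 i hi).1, (h1' i hi).1, add_zero],
        by show m i + m' i = 0; rw [(h1 i hi).2, (h1' i hi).2, add_zero]⟩,
      fun L hL => ?_⟩
    rw [h2 L (le_trans (le_max_left _ _) hL), h2' L (le_trans (le_max_right _ _) hL),
      ← Finset.sum_add_distrib]
    apply Finset.sum_congr rfl
    intro i _
    push_cast
    ring
  | neg x _ hx =>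
    obtain ⟨n, m, K, h1, h2⟩ := hx
    refine ⟨fun i => - n i, fun i => - m i, K,
      fun i hi => ⟨by show - n i = 0; rw [(h1 i hi).1, neg_zero], by show - m i = 0; rw [(h1 i hi).2, neg_zero]⟩, fun L hL => ?_⟩
    rw [h2 L hL, ← Finset.sum_neg_distrib]
    apply Finset.sum_congr rfl
    intro i _
    push_cast
    ring

namespace Chain

variable {S : Sys} {v : ℕ → ℂ} (c : Chain S v)

lemma smulQ (x : Qb) (y : ℂ) : x • y = (x : ℂ) * y := rfl

lemma t_indep : LinearIndependent ℚ c.t := by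
  classical
  rw [linearIndependent_iff']
  intro s g hg i hi
  obtain ⟨K, hK⟩ : ∃ K, ∀ j ∈ s, j < K := ⟨s.sup id + 1, fun j hj =>
    Nat.lt_succ_of_le (Finset.le_sup (f := id) hj)⟩
  have h1 := c.indep 0 K (fun i => Sum.elim (fun _ => if i ∈ s then ((g i : ℚ) : Qb) else 0) (fun _ => 0))
    (fun i hi => absurd hi (Nat.not_lt_zero i)) (by
      simp only [sum_L]
      have h2 : ∑ j ∈ Finset.range K, (((if j ∈ s then ((g j : ℚ) : Qb) else 0 : Qb)) : ℂ) * c.t j =
          ∑ j ∈ s, g j • c.t j := by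
        have h3 : ∀ j, (((if j ∈ s then ((g j : ℚ) : Qb) else 0 : Qb)) : ℂ) * c.t j =
            if j ∈ s then g j • c.t j else 0 := by
          intro j
          split_ifs
          · rw [Rat.smul_def]
            push_cast
            rfl
          · simp
        simp only [h3]
        rw [← Finset.sum_filter]
        apply Finset.sum_congr _ (fun _ _ => rfl)
        ext j
        simp only [Finset.mem_filter, Finset.mem_range]
        exact ⟨fun h => h.2, fun h => ⟨hK j h, h⟩⟩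
      rw [h2, hg]
      exact Submodule.zero_mem _)
  have h2 := congrFun (h1 i (hK i hi)) (Sum.inl 0)
  simp only [Sum.elim_inl, if_pos hi, Pi.zero_apply] at h2
  have h3 := congrArg (fun x : Qb => (x : ℂ)) h2
  push_cast at h3
  exact_mod_cast h3

/-- the points of the curve with index `b` -/
def ptC (b i : ℕ) : ℂ := c.qC (b + i) b

/-- the points of the curve with index `b` -/
def ptB (b i : ℕ) : ℂ := c.qB (b + i) b

lemma ptC_indep (b k : ℕ) (β : Fin k → ℂ) (hβ : ∀ i, β i ∈ kL (S.LC b))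
    (h0 : ∑ i, β i * c.ptC b i = 0) : β = 0 := by
  classical
  let B : ℕ → Qb := fun i => if h : b ≤ i ∧ i - b < k then ⟨β ⟨i - b, h.2⟩, mult_mem_Qb (hβ _)⟩ else 0
  have hB0 : ∀ i, i < b → B i = 0 := fun i hi => dif_neg (fun h => absurd h.1 (by omega))
  have hB1 : ∀ i : Fin k, ((B (b + i) : Qb) : ℂ) = β i := by
    intro i
    have h : b ≤ b + (i : ℕ) ∧ b + (i : ℕ) - b < k := ⟨Nat.le_add_right _ _, by
      rw [Nat.add_sub_cancel_left]; exact i.2⟩
    simp only [B, dif_pos h]
    congr 1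
    apply Fin.ext
    simp
  have h1 := c.indep 0 (b + k) (fun i => Sum.elim (fun _ => 0) (Sum.elim (fun _ => 0)
      (Sum.elim (fun b' => if b'.1 = b then B i else 0) (fun b' => if b'.1 = b then 0 else 0))))
    (fun i hi => absurd hi (Nat.not_lt_zero i)) (by
      have h2 : ∀ i ∈ Finset.range (b + k), ∑ a : I i, (Sum.elim (fun _ => 0) (Sum.elim (fun _ => 0)
          (Sum.elim (fun b' => if b'.1 = b then B i else 0)
            (fun b' => if b'.1 = b then 0 else 0))) a : Qb) • c.z i a = (B i : ℂ) * c.qC i b := by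
        intro i _
        rw [c.sum_C i b (B i) 0 (fun h => ⟨hB0 i h, rfl⟩)]
        show (B i : ℂ) * c.qC i b + ((0 : Qb) : ℂ) * _ = _
        simp
      rw [Finset.sum_congr rfl h2, Finset.sum_range_add]
      have h3 : ∑ i ∈ Finset.range b, (B i : ℂ) * c.qC i b = 0 := by
        apply Finset.sum_eq_zero
        intro i hi
        rw [hB0 i (Finset.mem_range.1 hi)]
        simp
      rw [h3, zero_add, ← Fin.sum_univ_eq_sum_range (fun i => (B (b + i) : ℂ) * c.qC (b + i) b) k]
      simp only [hB1]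
      have h4 : ∑ i : Fin k, β i * c.qC (b + i) b = 0 := h0
      rw [h4]
      exact Submodule.zero_mem _)
  funext i
  have h2 := congrFun (h1 (b + i) (by have := i.2; omega))
    (Sum.inr (Sum.inr (Sum.inl ⟨b, Nat.lt_succ_of_le (Nat.le_add_right _ _)⟩)))
  simp only [Sum.elim_inr, Sum.elim_inl, if_true, Pi.zero_apply] at h2
  rw [← hB1 i, h2]
  rfl

lemma ptB_indep (b : ℕ) : LinearIndependent ℚ (c.ptB b) := by
  classical
  rw [linearIndependent_iff']
  intro s g hg i hi
  obtain ⟨K, hK⟩ : ∃ K, ∀ j ∈ s, j < K := ⟨s.sup id + 1, fun j hj =>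
    Nat.lt_succ_of_le (Finset.le_sup (f := id) hj)⟩
  -- a common denominator
  obtain ⟨d, hd, m, hm⟩ : ∃ d : ℕ, 0 < d ∧ ∃ m : ℕ → ℤ, ∀ j ∈ s, (d : ℚ) * g j = m j := by
    refine ⟨∏ j ∈ s, (g j).den, Finset.prod_pos (fun j _ => (g j).den_pos),
      fun j => if j ∈ s then (∏ l ∈ s.erase j, ((g l).den : ℤ)) * (g j).num else 0, ?_⟩
    intro j hj
    simp only [if_pos hj]
    push_cast
    rw [← Finset.mul_prod_erase s (fun l => ((g l).den : ℚ)) hj]
    have : ((g j).den : ℚ) * g j = (g j).num := by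
      rw [mul_comm]
      exact Rat.mul_den_eq_num (g j)
    calc ((g j).den : ℚ) * (∏ x ∈ s.erase j, ((g x).den : ℚ)) * g j =
        (∏ x ∈ s.erase j, ((g x).den : ℚ)) * (((g j).den : ℚ) * g j) := by ring
      _ = _ := by rw [this]
  set M : ℕ → ℤ := fun j => if b ≤ j ∧ j - b ∈ s then m (j - b) else 0 with hM
  have hM0 : ∀ j, j < b → M j = 0 := fun j hj => if_neg (fun h => absurd h.1 (by omega))
  have hsum : ∑ j ∈ Finset.range (b + K), (M j : ℂ) * c.qB j b = 0 := by
    rw [Finset.sum_range_add]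
    have h3 : ∑ j ∈ Finset.range b, (M j : ℂ) * c.qB j b = 0 := by
      apply Finset.sum_eq_zero
      intro j hj
      rw [hM0 j (Finset.mem_range.1 hj)]
      simp
    rw [h3, zero_add]
    have h4 : ∀ j, (M (b + j) : ℂ) * c.qB (b + j) b = if j ∈ s then (d : ℂ) * (g j • c.ptB b j) else 0 := by
      intro j
      simp only [hM, Nat.le_add_right, true_and, Nat.add_sub_cancel_left]
      split_ifs with hj
      · have h5 : ((m j : ℤ) : ℂ) = (d : ℂ) * (g j : ℂ) := by
          have h6 := congrArg (fun q : ℚ => (q : ℂ)) (hm j hj)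
          push_cast at h6
          exact h6.symm
        rw [h5, Rat.smul_def]
        unfold ptB
        ring
      · simp
    simp only [h4]
    rw [← Finset.sum_filter]
    have h5 : (Finset.range K).filter (fun j => j ∈ s) = s := by
      ext j
      simp only [Finset.mem_filter, Finset.mem_range]
      exact ⟨fun h => h.2, fun h => ⟨hK j h, h⟩⟩
    rw [h5, ← Finset.mul_sum, hg, mul_zero]
  have hzt : ∑ j ∈ Finset.range (b + K), (M j : ℂ) * (S.s b * zt (S.LB b) (c.qB j b) +
      S.ρ b * c.qB j b) ∈ QB := by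
    have h1 := zt_comb (S.g2B b) (S.g3B b) (J := Fin (b + K)) (u := fun i => c.qB i b)
      (fun i => S.hB _ _ (c.hqB i b)) (fun i => M i)
    rw [Fin.sum_univ_eq_sum_range (fun i => (M i : ℂ) * c.qB i b) (b + K),
      Fin.sum_univ_eq_sum_range (fun i => (M i : ℂ) * zt (S.LB b) (c.qB i b)) (b + K), hsum] at h1
    have h2 : zt (S.LB b) 0 = 0 := by
      rw [zt_of_mem (zero_mem _)]
      exact H667R3.eta_zero _
    rw [h2, zero_sub] at h1
    have h3 : ∑ j ∈ Finset.range (b + K), (M j : ℂ) * (S.s b * zt (S.LB b) (c.qB j b) +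
        S.ρ b * c.qB j b) = S.s b * ∑ j ∈ Finset.range (b + K), (M j : ℂ) * zt (S.LB b) (c.qB j b) +
        S.ρ b * ∑ j ∈ Finset.range (b + K), (M j : ℂ) * c.qB j b := by
      rw [Finset.mul_sum, Finset.mul_sum, ← Finset.sum_add_distrib]
      apply Finset.sum_congr rfl
      intro j _
      ring
    rw [h3, hsum, mul_zero, add_zero]
    exact mul_mem (mem_QB.2 (S.hs b)) (neg_mem_iff.1 h1)
  have h1 := c.indep 0 (b + K) (fun i => Sum.elim (fun _ => 0)
      (Sum.elim (fun b' => if b'.1 = b then (M i : Qb) else 0) (fun _ => 0)))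
    (fun i hi => absurd hi (Nat.not_lt_zero i)) (by
      have h2 : ∀ i ∈ Finset.range (b + K), ∑ a : I i, (Sum.elim (fun _ => 0)
          (Sum.elim (fun b' => if b'.1 = b then (M i : Qb) else 0) (fun _ => 0)) a : Qb) • c.z i a =
          (M i : ℂ) * (S.s b * zt (S.LB b) (c.qB i b) + S.ρ b * c.qB i b) := by
        intro i _
        rw [c.sum_B i b (M i : Qb) (fun h => by rw [hM0 i h, Int.cast_zero])]
        push_cast
        rfl
      rw [Finset.sum_congr rfl h2]
      have h3 := (c.A 0).smul_mem (⟨_, hzt⟩ : Qb) (c.one 0)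
      rw [smulQ, mul_one] at h3
      exact h3)
  have h2 := congrFun (h1 (b + i) (by have := hK i hi; omega))
    (Sum.inr (Sum.inl ⟨b, Nat.lt_succ_of_le (Nat.le_add_right _ _)⟩))
  simp only [Sum.elim_inr, Sum.elim_inl, if_true, Pi.zero_apply] at h2
  have h3 : M (b + i) = m i := by
    simp only [hM, Nat.le_add_right, true_and, Nat.add_sub_cancel_left, if_pos hi]
  rw [h3] at h2
  have h4 : m i = 0 := by exact_mod_cast h2
  have h5 := hm i hi
  rw [h4, Int.cast_zero] at h5
  rcases mul_eq_zero.1 h5 with h6 | h6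
  · exact absurd h6 (by exact_mod_cast hd.ne')
  · exact h6

lemma notMem_C (b K : ℕ) (μ μ' : ℕ → ℤ) (hμ : ∀ i, i < b → μ i = 0 ∧ μ' i = 0) (y : ℂ)
    (hy : y = ∑ i ∈ Finset.range K, ((μ i : ℂ) + μ' i * S.α b) * c.qC i b) (h0 : y ≠ 0) :
    y ∉ (S.LC b).lattice := by
  classical
  intro hyL
  apply h0
  have hαQ : S.α b ∈ QB := mem_QB.2 (alg_of_mul (S.hmul b))
  have hyA : y ∈ c.A b := by
    obtain ⟨u, w, h⟩ := PeriodPair.mem_lattice.1 hyL
    rw [← h]
    have h1 := (c.A b).smul_mem (u : Qb) (c.pC b b le_rfl).1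
    have h2 := (c.A b).smul_mem (w : Qb) (c.pC b b le_rfl).2
    rw [smulQ] at h1 h2
    push_cast at h1 h2
    exact (c.A b).add_mem h1 h2
  let M : ℕ → Qb := fun i => ⟨(μ i : ℂ) + μ' i * S.α b,
    add_mem (intCast_mem _ _) (mul_mem (intCast_mem _ _) hαQ)⟩
  have hM0 : ∀ i, i < b → M i = 0 := by
    intro i hi
    apply Subtype.ext
    show (μ i : ℂ) + μ' i * S.α b = 0
    rw [(hμ i hi).1, (hμ i hi).2]
    simp
  have h1 := c.indep b K (fun i => Sum.elim (fun _ => 0) (Sum.elim (fun _ => 0)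
      (Sum.elim (fun b' => if b'.1 = b then M i else 0) (fun b' => if b'.1 = b then 0 else 0))))
    (fun i hi => by
      funext a
      rcases a with a | a | a | a <;> simp [hM0 i hi]) (by
      have h2 : ∀ i ∈ Finset.range K, ∑ a : I i, (Sum.elim (fun _ => 0) (Sum.elim (fun _ => 0)
          (Sum.elim (fun b' => if b'.1 = b then M i else 0)
            (fun b' => if b'.1 = b then 0 else 0))) a : Qb) • c.z i a =
            ((μ i : ℂ) + μ' i * S.α b) * c.qC i b := by
        intro i _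
        rw [c.sum_C i b (M i) 0 (fun h => ⟨hM0 i h, rfl⟩)]
        show ((μ i : ℂ) + μ' i * S.α b) * c.qC i b + ((0 : Qb) : ℂ) * _ = _
        simp
      rw [Finset.sum_congr rfl h2, ← hy]
      exact hyA)
  rw [hy]
  apply Finset.sum_eq_zero
  intro i hi
  by_cases hbi : b ≤ i
  · have h2 := congrFun (h1 i (Finset.mem_range.1 hi))
      (Sum.inr (Sum.inr (Sum.inl ⟨b, Nat.lt_succ_of_le hbi⟩)))
    simp only [Sum.elim_inr, Sum.elim_inl, if_true, Pi.zero_apply] at h2
    have h3 : (μ i : ℂ) + μ' i * S.α b = 0 := congrArg (fun x : Qb => (x : ℂ)) h2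
    rw [h3, zero_mul]
  · rw [(hμ i (by omega)).1, (hμ i (by omega)).2]
    simp

lemma notMem_B (b K : ℕ) (m : ℕ → ℤ) (hm : ∀ i, i < b → m i = 0) (z : ℂ)
    (hz : z = ∑ i ∈ Finset.range K, (m i : ℂ) * c.qB i b) (h0 : z ≠ 0) :
    z ∉ (S.LB b).lattice := by
  classical
  intro hzL
  apply h0
  have hcomb : ∀ p q : ℤ, ∀ x ∈ c.A b, ∀ y ∈ c.A b, (p : ℂ) * x + q * y ∈ c.A b := by
    intro p q x hx y hy
    have h1 := (c.A b).smul_mem (p : Qb) hx
    have h2 := (c.A b).smul_mem (q : Qb) hy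
    rw [smulQ] at h1 h2
    push_cast at h1 h2
    exact (c.A b).add_mem h1 h2
  obtain ⟨u, w, h⟩ := PeriodPair.mem_lattice.1 hzL
  have hzA : z ∈ c.A b := by
    rw [← h]
    exact hcomb u w _ (c.pB b b le_rfl).1 _ (c.pB b b le_rfl).2
  have hetaA : H667R3.eta (S.LB b) z ∈ c.A b := by
    have h4 := H667R3.intCast_mul_mem (S.LB b) (S.LB b).ω₁_mem_lattice u
    have h5 := H667R3.intCast_mul_mem (S.LB b) (S.LB b).ω₂_mem_lattice w
    rw [← h, H667R3.eta_add (S.LB b) h4 h5, H667R3.eta_zsmul (S.LB b) (S.LB b).ω₁_mem_lattice,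
      H667R3.eta_zsmul (S.LB b) (S.LB b).ω₂_mem_lattice]
    exact hcomb u w _ (c.eB b b le_rfl).1 _ (c.eB b b le_rfl).2
  have hzt : zt (S.LB b) z = H667R3.eta (S.LB b) z := zt_of_mem hzL
  have h1 := zt_comb (S.g2B b) (S.g3B b) (J := Fin K) (u := fun i => c.qB i b)
    (fun i => S.hB _ _ (c.hqB i b)) (fun i => m i)
  rw [Fin.sum_univ_eq_sum_range (fun i => (m i : ℂ) * c.qB i b) K,
    Fin.sum_univ_eq_sum_range (fun i => (m i : ℂ) * zt (S.LB b) (c.qB i b)) K, ← hz, hzt] at h1
  have hA : ∑ i ∈ Finset.range K, (m i : ℂ) * (S.s b * zt (S.LB b) (c.qB i b) +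
      S.ρ b * c.qB i b) ∈ c.A b := by
    have h3 : ∑ i ∈ Finset.range K, (m i : ℂ) * (S.s b * zt (S.LB b) (c.qB i b) +
        S.ρ b * c.qB i b) = S.s b * H667R3.eta (S.LB b) z + S.ρ b * z -
        S.s b * (H667R3.eta (S.LB b) z - ∑ i ∈ Finset.range K, (m i : ℂ) * zt (S.LB b) (c.qB i b)) := by
      rw [mul_sub, hz, Finset.mul_sum, Finset.mul_sum, ← hz]
      have h4 : ∑ i ∈ Finset.range K, (m i : ℂ) * (S.s b * zt (S.LB b) (c.qB i b) +
          S.ρ b * c.qB i b) = ∑ i ∈ Finset.range K, S.s b * ((m i : ℂ) * zt (S.LB b) (c.qB i b)) +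
          ∑ i ∈ Finset.range K, S.ρ b * ((m i : ℂ) * c.qB i b) := by
        rw [← Finset.sum_add_distrib]
        apply Finset.sum_congr rfl
        intro i _
        ring
      rw [h4]
      ring
    rw [h3]
    have h5 := (c.A b).smul_mem (⟨_, mem_QB.2 (S.hs b)⟩ : Qb) hetaA
    have h6 := (c.A b).smul_mem (⟨_, mem_QB.2 (S.hρ b)⟩ : Qb) hzA
    have h7 := (c.A b).smul_mem (⟨_, mul_mem (mem_QB.2 (S.hs b)) h1⟩ : Qb) (c.one b)
    rw [smulQ] at h5 h6 h7
    rw [mul_one] at h7
    exact (c.A b).sub_mem ((c.A b).add_mem h5 h6) h7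
  have h8 := c.indep b K (fun i => Sum.elim (fun _ => 0)
      (Sum.elim (fun b' => if b'.1 = b then (m i : Qb) else 0) (fun _ => 0)))
    (fun i hi => by
      funext a
      rcases a with a | a | a <;> simp [hm i hi]) (by
      have h2 : ∀ i ∈ Finset.range K, ∑ a : I i, (Sum.elim (fun _ => 0)
          (Sum.elim (fun b' => if b'.1 = b then (m i : Qb) else 0) (fun _ => 0)) a : Qb) • c.z i a =
          (m i : ℂ) * (S.s b * zt (S.LB b) (c.qB i b) + S.ρ b * c.qB i b) := by
        intro i _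
        rw [c.sum_B i b (m i : Qb) (fun h => by rw [hm i h, Int.cast_zero])]
        push_cast
        rfl
      rw [Finset.sum_congr rfl h2]
      exact hA)
  rw [hz]
  apply Finset.sum_eq_zero
  intro i hi
  by_cases hbi : b ≤ i
  · have h2 := congrFun (h8 i (Finset.mem_range.1 hi)) (Sum.inr (Sum.inl ⟨b, Nat.lt_succ_of_le hbi⟩))
    simp only [Sum.elim_inr, Sum.elim_inl, if_true, Pi.zero_apply] at h2
    have h3 : m i = 0 := by exact_mod_cast h2
    rw [h3]
    simp
  · rw [hm i (by omega)]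
    simp

end Chain

end Pool.Agent.W245.EB
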