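import Pool.Agent.W245.EB.Core4

set_option autoImplicit false
set_option linter.unusedVariables false
set_option linter.unusedSectionVars false
set_option linter.unusedSimpArgs false

/-!
# The end of the transcendence argument
-/

open Filter MvPolynomial NumberField
open scoped Topology PeriodPair

noncomputable section

namespace Pool.Agent.W245.EB

open H667R3

namespace SL

variable {n : ℕ} {c : SL n} {S : ℕ} (e : c.Den S)

lemma Ord_mono {E : Type*} [NormedAddCommGroup E] [NormedSpace ℂ E] {f : E → ℂ} {p : E} {T T' : ℕ}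
    (h : T ≤ T') (hf : Ord f p T') : Ord f p T := fun l hl => hf l (hl.trans_le h)

lemma one_le_norm (x : 𝓞 c.K) (hx : x ≠ 0) {H : ℝ} (hH0 : 0 ≤ H) (hH : ∀ τ : c.K →+* ℂ, ‖τ (x : c.K)‖ ≤ H) :
    1 ≤ ‖c.ph (x : c.K)‖ * H ^ (Module.finrank ℚ c.K - 1) := by
  have h1 := norm_norm_le_norm_mul_house_pow (x : c.K) c.ph
  have h2 : (1 : ℝ) ≤ ‖Algebra.norm ℚ (x : c.K)‖ := by
    have h3 : ((Algebra.norm ℤ x : ℤ) : ℚ) = Algebra.norm ℚ (x : c.K) := Algebra.coe_norm_int x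
    rw [← h3]
    have h4 : Algebra.norm ℤ x ≠ 0 := by
      rw [Algebra.norm_ne_zero_iff]
      exact hx
    have h5 : (1 : ℝ) ≤ |((Algebra.norm ℤ x : ℤ) : ℝ)| := by
      have := Int.one_le_abs h4
      exact_mod_cast this
    have h6 : ‖((Algebra.norm ℤ x : ℤ) : ℚ)‖ = |((Algebra.norm ℤ x : ℤ) : ℝ)| := by
      rw [← Real.norm_eq_abs]
      simp only [Rat.norm_cast_real, Int.norm_cast_rat]
      exact Int.norm_eq_abs _
    rw [h6]
    exact h5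
  refine h2.trans (h1.trans ?_)
  apply mul_le_mul_of_nonneg_left _ (norm_nonneg _)
  exact pow_le_pow_left₀ (house_nonneg _) (house_le hH0 hH) _

namespace Den

/-- the polynomial attached to the coefficients -/
def Pc {Lc : ℕ} (ξ : (c.I → Fin Lc) → 𝓞 c.K) : MvPolynomial c.I ℂ :=
  ∑ lam : c.I → Fin Lc, monomial (Finsupp.equivFunOnFinite.symm fun i => (lam i : ℕ))
    (c.emb (ξ lam) * ∏ i, ((e.d : ℂ) ^ 2) ^ (lam i : ℕ))

lemma eval_Pc {Lc : ℕ} (ξ : (c.I → Fin Lc) → 𝓞 c.K) (z : Fin n → ℂ) :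
    MvPolynomial.eval (fun i => ℘[c.L] (c.ell i z + c.q)) (e.Pc ξ) = e.Fn (Phi ξ) z := by
  rw [Fn_eq, Pc, map_sum]
  apply Finset.sum_congr rfl
  intro lam _
  rw [MvPolynomial.eval_monomial, Finsupp.prod_fintype _ _ (fun _ => pow_zero _), mul_assoc,
    ← Finset.prod_mul_distrib]
  congr 1
  apply Finset.prod_congr rfl
  intro i _
  rw [mul_pow]
  rfl

lemma emb_injective : Function.Injective c.emb := by
  have h1 : Function.Injective c.ph := c.ph.injective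
  have h2 : Function.Injective (algebraMap (𝓞 c.K) c.K) := FaithfulSMul.algebraMap_injective _ _
  exact h1.comp h2

lemma Pc_ne_zero {Lc : ℕ} (ξ : (c.I → Fin Lc) → 𝓞 c.K) (hξ : ξ ≠ 0) : e.Pc ξ ≠ 0 := by
  classical
  obtain ⟨lam, hlam⟩ := Function.ne_iff.1 hξ
  intro h
  have h1 := congrArg (MvPolynomial.coeff (Finsupp.equivFunOnFinite.symm fun i => (lam i : ℕ))) h
  rw [Pc, MvPolynomial.coeff_sum, MvPolynomial.coeff_zero, Finset.sum_eq_single lam] at h1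
  · rw [MvPolynomial.coeff_monomial, if_pos rfl] at h1
    rcases mul_eq_zero.1 h1 with h2 | h2
    · apply hlam
      apply emb_injective
      rw [h2]
      simp
    · rw [Finset.prod_eq_zero_iff] at h2
      obtain ⟨i, _, hi⟩ := h2
      have hd : (e.d : ℂ) ≠ 0 := by exact_mod_cast e.hd
      exact pow_ne_zero _ (pow_ne_zero _ hd) hi
  · intro lam' _ hne
    rw [MvPolynomial.coeff_monomial, if_neg]
    intro h2
    apply hne
    funext i
    have h3 := congrArg (fun f : c.I →₀ ℕ => f i) h2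
    simp only [Finsupp.equivFunOnFinite_symm_apply_apply] at h3
    exact Fin.ext h3
  · intro h2
    exact absurd (Finset.mem_univ _) h2

/-- the auxiliary function does not vanish to infinite order -/
lemma exists_not_ord {Lc : ℕ} (ξ : (c.I → Fin Lc) → 𝓞 c.K) (hξ : ξ ≠ 0) (s : Fin n → Fin S) :
    ∃ m : ℕ, ¬ Ord (e.Fn (Phi ξ)) (c.pt s) m := by
  by_contra hcon
  push Not at hcon
  have h1 : ∀ l : List (Fin n → ℂ), DL l (e.G ξ) (c.pt s) = 0 := by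
    intro l
    rw [DL_congr c.isOpen_O (e.G_eqOn ξ) l (c.pt_mem s)]
    exact (ord_mul c.isOpen_O (c.pt_mem s) (l.length + 1) (c.theta Lc) (e.Fn (Phi ξ))
      (analytic_theta Lc) (e.analytic_Fn _) (hcon _)).1 l (Nat.lt_succ_self _)
  have h2 := eq_zero_of_DL (e.analytic_G ξ) (c.pt s) h1
  obtain ⟨z, hz, hne⟩ := c.indep (e.Pc ξ) (e.Pc_ne_zero ξ hξ)
  rw [eval_Pc] at hne
  have h3 := h2 z
  rw [e.G_eq ξ hz] at h3
  rcases mul_eq_zero.1 h3 with h4 | h4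
  · rw [theta, Finset.prod_eq_zero_iff] at h4
    obtain ⟨i, _, hi⟩ := h4
    exact pow_ne_zero _ (pow_ne_zero _ (sigma_ne_zero c.L (hz i))) hi
  · exact hne h4

end Den

/-- final numerical contradiction -/
lemma numeric (n a S m ρ Lc t : ℕ) (hn : 0 < n) (hS : S = 6 * n * (n + 1) * a + 1) (K₅ : ℝ)
    (hK : 1 ≤ K₅) (hρ1 : 1 ≤ ρ) (hρ : (K₅ * (16 * S) ^ ((n + 1) * a)) ^ (2 * n) < ρ)
    (hnm : n ≤ m) (hLc : Lc = 2 * S * t ^ n) (ht : t ^ (n + 1) ≤ m) (hm : m < (ρ + 1) ^ 3 * Lc)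
    (hmain : (ρ : ℝ) ^ (S * (m / n)) ≤ K₅ ^ m * (m : ℝ) ^ (a * m)) : False := by
  have hS1 : 1 ≤ S := by omega
  have hm1 : 1 ≤ m := by omega
  have hmR : (1 : ℝ) ≤ m := by exact_mod_cast hm1
  have hρR : (1 : ℝ) ≤ ρ := by exact_mod_cast hρ1
  -- `m ≤ (16 S ρ ^ 3) ^ (n + 1)`
  have h1 : m ≤ (16 * S * ρ ^ 3) ^ (n + 1) := by
    have h2 : Lc ^ (n + 1) ≤ (2 * S) ^ (n + 1) * m ^ n := by
      rw [hLc, mul_pow, ← pow_mul, mul_comm n (n + 1), pow_mul t (n + 1) n]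
      exact Nat.mul_le_mul_left _ (Nat.pow_le_pow_left ht n)
    have h3 : m ≤ 8 * ρ ^ 3 * Lc := by
      have h4 : (ρ + 1) ^ 3 ≤ 8 * ρ ^ 3 := by
        calc (ρ + 1) ^ 3 ≤ (2 * ρ) ^ 3 := Nat.pow_le_pow_left (by omega) 3
          _ = 8 * ρ ^ 3 := by ring
      exact hm.le.trans (Nat.mul_le_mul_right _ h4)
    have h4 : m ^ (n + 1) ≤ (16 * S * ρ ^ 3) ^ (n + 1) * m ^ n := by
      calc m ^ (n + 1) ≤ (8 * ρ ^ 3 * Lc) ^ (n + 1) := Nat.pow_le_pow_left h3 _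
        _ = (8 * ρ ^ 3) ^ (n + 1) * Lc ^ (n + 1) := mul_pow _ _ _
        _ ≤ (8 * ρ ^ 3) ^ (n + 1) * ((2 * S) ^ (n + 1) * m ^ n) := Nat.mul_le_mul_left _ h2
        _ = (8 * ρ ^ 3 * (2 * S)) ^ (n + 1) * m ^ n := by rw [mul_pow (8 * ρ ^ 3)]; ring
        _ = _ := by congr 2; ring
    have h5 : 0 < m ^ n := by positivity
    rw [pow_succ, mul_comm] at h4
    exact Nat.le_of_mul_le_mul_right h4 h5
  have h2 : (m : ℝ) ^ (a * m) ≤ (((16 * S) ^ ((n + 1) * a)) ^ m) * (ρ : ℝ) ^ (3 * (n + 1) * a * m) := by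
    have h3 : (m : ℝ) ≤ ((16 * S : ℝ) * (ρ : ℝ) ^ 3) ^ (n + 1) := by exact_mod_cast h1
    calc (m : ℝ) ^ (a * m) ≤ (((16 * S : ℝ) * (ρ : ℝ) ^ 3) ^ (n + 1)) ^ (a * m) :=
          pow_le_pow_left₀ (by positivity) h3 _
      _ = _ := by
        rw [← pow_mul, mul_pow, ← pow_mul, ← pow_mul]
        congr 2 <;> ring
  set K₄ : ℝ := K₅ * (16 * S) ^ ((n + 1) * a) with hK₄
  have hK₄1 : 1 ≤ K₄ := by
    have : (1 : ℝ) ≤ (16 * S) ^ ((n + 1) * a) := by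
      apply one_le_pow₀
      have : (1 : ℝ) ≤ S := by exact_mod_cast hS1
      linarith
    rw [hK₄]
    nlinarith
  have h3 : (ρ : ℝ) ^ (S * (m / n)) ≤ K₄ ^ m * (ρ : ℝ) ^ (3 * (n + 1) * a * m) := by
    refine hmain.trans ?_
    rw [hK₄, mul_pow, mul_assoc]
    apply mul_le_mul_of_nonneg_left h2 (by positivity)
  clear_value K₄
  set Q := m / n with hQ
  have hQ1 : 1 ≤ Q := (Nat.one_le_div_iff hn).2 hnm
  have hmQ : m ≤ 2 * n * Q := by
    have h4 : m < n * (Q + 1) := by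
      have := Nat.lt_mul_div_succ m hn
      exact this
    nlinarith
  have h4 : (ρ : ℝ) ^ (S * Q) ≤ (K₄ ^ (2 * n) * (ρ : ℝ) ^ (6 * n * (n + 1) * a)) ^ Q := by
    calc (ρ : ℝ) ^ (S * Q) ≤ K₄ ^ m * (ρ : ℝ) ^ (3 * (n + 1) * a * m) := h3
      _ ≤ K₄ ^ (2 * n * Q) * (ρ : ℝ) ^ (3 * (n + 1) * a * (2 * n * Q)) := by
          apply mul_le_mul (pow_le_pow_right₀ hK₄1 hmQ)
            (pow_le_pow_right₀ hρR (Nat.mul_le_mul_left _ hmQ)) (by positivity) (by positivity)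
      _ = _ := by
          rw [mul_pow, ← pow_mul, ← pow_mul]
          congr 2
          ring
  rw [pow_mul] at h4
  have h5 : (ρ : ℝ) ^ S ≤ K₄ ^ (2 * n) * (ρ : ℝ) ^ (6 * n * (n + 1) * a) :=
    le_of_pow_le_pow_left₀ (by omega) (by positivity) h4
  rw [hS, pow_succ, mul_comm] at h5
  have h6 : (ρ : ℝ) ≤ K₄ ^ (2 * n) :=
    le_of_mul_le_mul_right h5 (by positivity)
  linarith

theorem false (c : SL n) (hn : 0 < n) : False := by
  classical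
  set δ₀ := Module.finrank ℚ c.K with hδ₀
  set a := (n + 2) + (n + 1) * (δ₀ - 1) with ha
  set S := 6 * n * (n + 1) * a + 1 with hS
  have hSpos : 0 < S := Nat.succ_pos _
  obtain ⟨e⟩ := c.exists_den S
  obtain ⟨A, hA, hX⟩ := e.exists_A
  obtain ⟨C, hC, hδ⟩ := e.exists_C A
  obtain ⟨K₁, hK₁, hsieg⟩ := e.siegel_step hn hSpos hA hX hC hδ
  obtain ⟨K₃, hK₃, hupper⟩ := e.upper hn hSpos
  set K₂ : ℝ := C * (n + 2) * 2 ^ (n + 1) * K₁ * A ^ (n + 1) with hK₂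
  have hn0 : (0 : ℝ) ≤ n := Nat.cast_nonneg n
  have hK₂1 : 1 ≤ K₂ := by
    have h1 : (1 : ℝ) ≤ n + 2 := by linarith
    have h2 : (1 : ℝ) ≤ 2 ^ (n + 1) := one_le_pow₀ (by norm_num)
    have h3 : (1 : ℝ) ≤ A ^ (n + 1) := one_le_pow₀ hA
    calc (1 : ℝ) = 1 * 1 * 1 * 1 * 1 := by ring
      _ ≤ _ := by rw [hK₂]; gcongr
  set K₅ : ℝ := K₃ * K₁ * K₂ ^ (δ₀ - 1) with hK₅
  have hK₅1 : 1 ≤ K₅ := by
    have h1 : (1 : ℝ) ≤ K₂ ^ (δ₀ - 1) := one_le_pow₀ hK₂1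
    calc (1 : ℝ) = 1 * 1 * 1 := by ring
      _ ≤ _ := by rw [hK₅]; gcongr
  -- parameters
  obtain ⟨ρ₁, hρ₁⟩ := exists_nat_gt ((K₅ * (16 * S) ^ ((n + 1) * a)) ^ (2 * n))
  set ρ₀ := ρ₁ + 2 * S with hρ₀
  set t := 2 * S * ρ₀ ^ 3 + 2 * S + n with ht
  have htpos : 0 < t := by omega
  have h2St : 2 * S ≤ t := by omega
  set Lc := 2 * S * t ^ n with hLc
  have hLpos : 0 < Lc := by positivity
  set T := t ^ (n + 1) with hT
  obtain ⟨ξ, hξ0, hordT, hξH⟩ : ∃ ξ : (c.I → Fin Lc) → 𝓞 c.K, ξ ≠ 0 ∧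
      (∀ s : Fin n → Fin S, Ord (e.Fn (Phi ξ)) (c.pt s) T) ∧
      ∀ m : ℕ, T ≤ m → ∀ (τ : c.K →+* ℂ) lam,
        ‖τ (ξ lam : c.K)‖ ≤ K₁ ^ m * (m : ℝ) ^ (n * m) := hsieg t htpos h2St
  have hLT : Lc ≤ T := by
    rw [hLc, hT, pow_succ, mul_comm (t ^ n) t]
    exact Nat.mul_le_mul_right _ h2St
  have hnT : n ≤ T := by
    have h1 : t ^ 1 ≤ t ^ (n + 1) := Nat.pow_le_pow_right htpos (by omega)
    rw [pow_one] at h1
    have h2 : n ≤ t := by rw [ht]; omega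
    exact h2.trans h1
  -- the exact order of vanishing
  have hex : ∃ m : ℕ, ¬ ∀ s : Fin n → Fin S, Ord (e.Fn (Phi ξ)) (c.pt s) m := by
    obtain ⟨m, hm⟩ := e.exists_not_ord ξ hξ0 (fun _ => ⟨0, hSpos⟩)
    exact ⟨m, fun h => hm (h _)⟩
  set m' := Nat.find hex with hm'
  have hm'1 := Nat.find_spec hex
  rw [← hm'] at hm'1
  have hTm' : T < m' := by
    by_contra hcon
    push Not at hcon
    exact hm'1 (fun s => Ord_mono hcon (hordT s))
  obtain ⟨m, hmm'⟩ : ∃ m, m' = m + 1 := ⟨m' - 1, by omega⟩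
  have hTm : T ≤ m := by omega
  have hordm : ∀ s : Fin n → Fin S, Ord (e.Fn (Phi ξ)) (c.pt s) m := by
    have := Nat.find_min hex (m := m) (by rw [← hm']; omega)
    push Not at this
    exact this
  rw [hmm'] at hm'1
  push Not at hm'1
  obtain ⟨s, hs⟩ := hm'1
  unfold Ord at hs
  push Not at hs
  obtain ⟨l, hl, hlne⟩ := hs
  have hlm : l.length = m := by
    by_contra hcon
    exact hlne (hordm s l (by omega))
  obtain ⟨l', hl', hl'ne⟩ : ∃ l' : List (Fin n), l'.length = m ∧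
      DL (l'.map e.v) (e.Fn (Phi ξ)) (c.pt s) ≠ 0 := by
    by_contra hcon
    push Not at hcon
    exact hlne (DL_zero_of_spans c.isOpen_O (c.pt_mem s) (e.analytic_Fn _) e.v e.spans_v m hcon l hlm)
  have hTpos : 0 < T := by positivity
  have hm1 : 1 ≤ m := by omega
  have hmR : (1 : ℝ) ≤ m := by exact_mod_cast hm1
  have hLm : Lc ≤ m := hLT.trans hTm
  -- the algebraic integer
  set x := e.at' s (PL e.δ l' (Phi ξ)) with hx
  have hxval : DL (l'.map e.v) (e.Fn (Phi ξ)) (c.pt s) = c.emb x := e.DL_Fn _ _ _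
  have hx0 : x ≠ 0 := by
    intro h
    rw [hxval, h, map_zero] at hl'ne
    exact hl'ne rfl
  set H : ℝ := K₁ ^ m * (m : ℝ) ^ (n * m) with hH
  have hH0 : 0 ≤ H := by positivity
  have hhouse : ∀ τ : c.K →+* ℂ, ‖τ (x : c.K)‖ ≤ K₂ ^ m * (m : ℝ) ^ ((n + 1) * m) := by
    intro τ
    set M := (n + 1) * Lc + m with hM
    have hMm : (M : ℝ) ≤ (n + 2) * m := by
      have : M ≤ (n + 2) * m := by
        rw [hM]
        calc (n + 1) * Lc + m ≤ (n + 1) * m + m := Nat.add_le_add_right (Nat.mul_le_mul_left _ hLm) _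
          _ = (n + 2) * m := by ring
      exact_mod_cast this
    have h1 := e.norm_at_le hA hX hC hδ τ s l' (Phi ξ) M (by
      have := totalDegree_Phi ξ
      omega)
    have h2 := NN_Phi ξ τ hA (fun lam => hξH m hTm τ lam)
    rw [← hH] at h2
    have h3 : (Lc : ℝ) ^ (n + 1) ≤ (2 ^ (n + 1)) ^ m := by
      have h2 : Lc < 2 ^ m := hLm.trans_lt (Nat.lt_two_pow_self)
      have h3 : Lc ^ (n + 1) ≤ (2 ^ m) ^ (n + 1) := Nat.pow_le_pow_left h2.le _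
      have h4 : (2 ^ m) ^ (n + 1) = (2 ^ (n + 1)) ^ m := by
        rw [← pow_mul, ← pow_mul, mul_comm]
      rw [h4] at h3
      exact_mod_cast h3
    have h4 : A ^ ((n + 1) * Lc) ≤ (A ^ (n + 1)) ^ m := by
      rw [← pow_mul]
      exact pow_le_pow_right₀ hA (Nat.mul_le_mul_left _ hLm)
    have h5 : NN (sg τ) A (Phi ξ) ≤ (2 ^ (n + 1)) ^ m * (H * (A ^ (n + 1)) ^ m) := by
      refine h2.trans ?_
      gcongr
    rw [hl'] at h1
    refine h1.trans ?_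
    calc (C * (M : ℝ)) ^ m * NN (sg τ) A (Phi ξ)
        ≤ (C * ((n + 2) * m)) ^ m * ((2 ^ (n + 1)) ^ m * (H * (A ^ (n + 1)) ^ m)) := by
          have : 0 ≤ NN (sg τ) A (Phi ξ) := NN_nonneg _ hA _
          gcongr
      _ = K₂ ^ m * (m : ℝ) ^ ((n + 1) * m) := by
          rw [hK₂, hH, add_mul n 1 m, one_mul, pow_add]
          simp only [mul_pow]
          ring
  have hlow := one_le_norm x hx0 (by positivity) hhouse
  -- the choice of the radius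
  have hρ₀L : ρ₀ ^ 3 * Lc ≤ m := by
    refine le_trans ?_ hTm
    rw [hLc, hT, pow_succ t n, mul_comm (t ^ n) t, ← mul_assoc]
    apply Nat.mul_le_mul_right
    rw [ht]
    nlinarith
  have hρ₀1 : 1 ≤ ρ₀ := by omega
  have hρ₀m : ρ₀ ≤ m := by
    refine le_trans ?_ hρ₀L
    calc ρ₀ = ρ₀ ^ 1 * 1 := by ring
      _ ≤ ρ₀ ^ 3 * Lc := Nat.mul_le_mul (Nat.pow_le_pow_right hρ₀1 (by norm_num)) hLpos
  set ρ := Nat.findGreatest (fun r => r ^ 3 * Lc ≤ m) m with hρ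
  have hρρ₀ : ρ₀ ≤ ρ := Nat.le_findGreatest hρ₀m hρ₀L
  have hρL : ρ ^ 3 * Lc ≤ m := Nat.findGreatest_spec (P := fun r => r ^ 3 * Lc ≤ m) hρ₀m hρ₀L
  have hρm : m < (ρ + 1) ^ 3 * Lc := by
    by_contra hcon
    push Not at hcon
    have h1 : ρ + 1 ≤ m := by
      refine le_trans ?_ hcon
      calc ρ + 1 = (ρ + 1) ^ 1 * 1 := by ring
        _ ≤ (ρ + 1) ^ 3 * Lc := Nat.mul_le_mul (Nat.pow_le_pow_right (by omega) (by norm_num)) hLpos
    have := Nat.le_findGreatest (P := fun r => r ^ 3 * Lc ≤ m) h1 hcon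
    omega
  have hup := hupper Lc m ρ ξ H hH0 (fun lam => hξH m hTm c.ph lam) hm1 hLm hρL (by omega) hordm s l' hl'
  rw [hxval] at hup
  have hmain : (ρ : ℝ) ^ (S * (m / n)) ≤ K₅ ^ m * (m : ℝ) ^ (a * m) := by
    set Hx := K₂ ^ m * (m : ℝ) ^ ((n + 1) * m) with hHx
    have hHx0 : 0 ≤ Hx := by positivity
    calc (ρ : ℝ) ^ (S * (m / n)) = (ρ : ℝ) ^ (S * (m / n)) * 1 := (mul_one _).symm
      _ ≤ (ρ : ℝ) ^ (S * (m / n)) * (‖c.ph (x : c.K)‖ * Hx ^ (δ₀ - 1)) :=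
          mul_le_mul_of_nonneg_left hlow (by positivity)
      _ = (‖c.ph (x : c.K)‖ * (ρ : ℝ) ^ (S * (m / n))) * Hx ^ (δ₀ - 1) := by ring
      _ ≤ (K₃ ^ m * (m : ℝ) ^ (2 * m) * H) * Hx ^ (δ₀ - 1) :=
          mul_le_mul_of_nonneg_right hup (by positivity)
      _ = K₅ ^ m * (m : ℝ) ^ (a * m) := by
          rw [hK₅, hH, hHx, ha, add_mul (n + 2), pow_add, add_mul n 2 m, pow_add]
          rw [mul_pow (K₂ ^ m), ← pow_mul (m : ℝ), ← pow_mul K₂, mul_comm m (δ₀ - 1), pow_mul K₂]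
          rw [show (n + 1) * (δ₀ - 1) * m = (n + 1) * m * (δ₀ - 1) by ring]
          simp only [mul_pow]
          ring
  refine numeric n a S m ρ Lc t hn hS K₅ hK₅1 (by omega) ?_ (hnT.trans hTm) hLc hTm hρm hmain
  refine hρ₁.trans_le ?_
  have : ρ₁ ≤ ρ := by omega
  exact_mod_cast this

end SL

end Pool.Agent.W245.EB
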