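import Pool.Agent.W245.EB.AD1
import Pool.Agent.W245.EB.Core5

set_option autoImplicit false
set_option linter.unusedVariables false
set_option linter.unusedSectionVars false
set_option linter.unusedSimpArgs false

/-!
# The theorem of Schneider and Lang on Cartesian products: abstract form, upper bound and end
-/

open Filter MvPolynomial NumberField
open scoped Topology

noncomputable section

namespace Pool.Agent.W245.EB

namespace AD

variable {n S : ℕ} (e : AD n S)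

/-- the denominator -/
def theta (Lc : ℕ) (z : Fin n → ℂ) : ℂ := ∏ i, (e.Th i z) ^ Lc

/-- the entire function -/
def G {Lc : ℕ} (ξ : (e.I → Fin Lc) → 𝓞 e.K) (z : Fin n → ℂ) : ℂ :=
  ∑ lam : e.I → Fin Lc, e.emb (ξ lam) * ∏ i,
    ((e.A i z) ^ (lam i : ℕ) * (e.Th i z) ^ (Lc - lam i))

lemma Fn_eq {Lc : ℕ} (ξ : (e.I → Fin Lc) → 𝓞 e.K) (z : Fin n → ℂ) :
    e.Fn (e.Phi ξ) z = ∑ lam : e.I → Fin Lc, e.emb (ξ lam) * ∏ i,
      (e.val (e.b i) z) ^ (lam i : ℕ) := by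
  simp only [Fn, ev, Phi]
  rw [MvPolynomial.eval₂_sum]
  apply Finset.sum_congr rfl
  intro lam _
  rw [MvPolynomial.smul_eq_C_mul, MvPolynomial.eval₂_mul, MvPolynomial.eval₂_C]
  congr 1
  rw [mu, MvPolynomial.monomial_sum_one, MvPolynomial.eval₂_prod]
  apply Finset.prod_congr rfl
  intro i _
  rw [MvPolynomial.eval₂_monomial, map_one, one_mul]
  exact Finsupp.prod_single_index (pow_zero _)

lemma G_eq {Lc : ℕ} (ξ : (e.I → Fin Lc) → 𝓞 e.K) {z : Fin n → ℂ} (hz : z ∈ e.O) :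
    e.G ξ z = e.theta Lc z * e.Fn (e.Phi ξ) z := by
  rw [Fn_eq, G, theta, Finset.mul_sum]
  apply Finset.sum_congr rfl
  intro lam _
  rw [mul_left_comm, ← Finset.prod_mul_distrib]
  congr 1
  apply Finset.prod_congr rfl
  intro i _
  rw [← e.hTh i z hz]
  have h2 : e.Th i z ^ Lc = e.Th i z ^ (Lc - (lam i : ℕ)) * e.Th i z ^ (lam i : ℕ) := by
    rw [← pow_add, Nat.sub_add_cancel (lam i).2.le]
  rw [h2, mul_pow]
  ring

lemma analytic_G {Lc : ℕ} (ξ : (e.I → Fin Lc) → 𝓞 e.K) :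
    AnalyticOnNhd ℂ (e.G ξ) Set.univ := by
  intro z _
  apply Finset.analyticAt_fun_sum
  intro lam _
  apply analyticAt_const.fun_mul
  apply Finset.analyticAt_fun_prod
  intro i _
  apply AnalyticAt.fun_mul
  · apply AnalyticAt.fun_pow
    exact e.analytic_A i z (Set.mem_univ _)
  · apply AnalyticAt.fun_pow
    exact e.analytic_Th i z (Set.mem_univ _)

lemma analytic_theta (Lc : ℕ) : AnalyticOnNhd ℂ (e.theta Lc) e.O := by
  intro z _
  apply Finset.analyticAt_fun_prod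
  intro i _
  apply AnalyticAt.fun_pow
  exact e.analytic_Th i z (Set.mem_univ _)

lemma G_eqOn {Lc : ℕ} (ξ : (e.I → Fin Lc) → 𝓞 e.K) :
    Set.EqOn (e.G ξ) (fun z => e.theta Lc z * e.Fn (e.Phi ξ) z) e.O :=
  fun z hz => e.G_eq ξ hz

lemma exists_growth : ∃ E : ℝ, 0 ≤ E ∧ ∀ (i : e.I) z,
    ‖e.A i z‖ ≤ Real.exp (E * (1 + ‖z‖ ^ 3)) ∧
    ‖e.Th i z‖ ≤ Real.exp (E * (1 + ‖z‖ ^ 3)) := by
  choose C hC hC' using e.gr_A
  choose C2 hC2 hC2' using e.gr_Th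
  obtain ⟨M, hM⟩ := Finite.exists_le (fun i => max (C i) (C2 i))
  refine ⟨max 0 M, le_max_left _ _, fun i z => ?_⟩
  have h1 : C i ≤ max 0 M := (le_max_left _ _).trans ((hM i).trans (le_max_right _ _))
  have h2 : C2 i ≤ max 0 M := (le_max_right _ _).trans ((hM i).trans (le_max_right _ _))
  have h0 : 0 ≤ 1 + ‖z‖ ^ 3 := by positivity
  exact ⟨(hC' i z).trans (Real.exp_le_exp.mpr (mul_le_mul_of_nonneg_right h1 h0)),
    (hC2' i z).trans (Real.exp_le_exp.mpr (mul_le_mul_of_nonneg_right h2 h0))⟩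

/-- growth of `G` -/
lemma norm_G_le {E : ℝ} (hE : 0 ≤ E) (hEg : ∀ (i : e.I) z,
    ‖e.A i z‖ ≤ Real.exp (E * (1 + ‖z‖ ^ 3)) ∧
    ‖e.Th i z‖ ≤ Real.exp (E * (1 + ‖z‖ ^ 3)))
    {Lc : ℕ} (ξ : (e.I → Fin Lc) → 𝓞 e.K) {H : ℝ} (hH : ∀ lam, ‖e.emb (ξ lam)‖ ≤ H)
    (z : Fin n → ℂ) :
    ‖e.G ξ z‖ ≤ (Lc : ℝ) ^ (n + 1) * (H * Real.exp (E * (1 + ‖z‖ ^ 3)) ^ ((n + 1) * Lc)) := by
  have hcard : (Lc : ℝ) ^ (n + 1) = ∑ _lam : e.I → Fin Lc, (1 : ℝ) := by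
    simp [e.cardI]
  rw [hcard, Finset.sum_mul, G]
  refine (norm_sum_le _ _).trans ?_
  apply Finset.sum_le_sum
  intro lam _
  rw [one_mul, norm_mul]
  apply mul_le_mul (hH lam) _ (norm_nonneg _) ((norm_nonneg _).trans (hH lam))
  rw [norm_prod]
  set X := Real.exp (E * (1 + ‖z‖ ^ 3)) with hX
  have hX0 : 0 ≤ X := Real.exp_nonneg _
  calc ∏ i, ‖(e.A i z) ^ (lam i : ℕ) * (e.Th i z) ^ (Lc - lam i)‖ ≤ ∏ _i : e.I, X ^ Lc := by
        apply Finset.prod_le_prod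
        · intro i _
          exact norm_nonneg _
        · intro i _
          rw [norm_mul, norm_pow, norm_pow]
          calc _ ≤ X ^ (lam i : ℕ) * X ^ (Lc - (lam i : ℕ)) := by
                apply mul_le_mul (pow_le_pow_left₀ (norm_nonneg _) (hEg i z).1 _)
                  (pow_le_pow_left₀ (norm_nonneg _) (hEg i z).2 _) (by positivity) (by positivity)
            _ = X ^ Lc := by
                rw [← pow_add]
                congr 1
                have := (lam i).2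
                omega
    _ = X ^ ((n + 1) * Lc) := by
        rw [Finset.prod_const, Finset.card_univ, e.cardI, ← pow_mul, mul_comm Lc]

lemma exists_theta_bound : ∃ v : ℝ, 0 < v ∧ v ≤ 1 ∧
    ∀ (s : Fin n → Fin S) (Lc : ℕ), v ^ Lc ≤ ‖e.theta Lc (e.pt s)‖ := by
  have hpos : ∀ s : Fin n → Fin S, 0 < ∏ i, ‖e.Th i (e.pt s)‖ := by
    intro s
    apply Finset.prod_pos
    intro i _
    rw [norm_pos_iff]
    exact e.Th_ne i s
  obtain ⟨M, hM⟩ := Finite.exists_le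
    (fun s : Fin n → Fin S => (∏ i, ‖e.Th i (e.pt s)‖)⁻¹)
  have hM1 : 0 < max 1 M := lt_of_lt_of_le one_pos (le_max_left _ _)
  refine ⟨(max 1 M)⁻¹, inv_pos.2 hM1, inv_le_one_of_one_le₀ (le_max_left _ _), ?_⟩
  intro s Lc
  have h1 : ‖e.theta Lc (e.pt s)‖ = (∏ i, ‖e.Th i (e.pt s)‖) ^ Lc := by
    rw [theta, norm_prod, ← Finset.prod_pow]
    apply Finset.prod_congr rfl
    intro i _
    rw [norm_pow _ Lc]
  rw [h1]
  apply pow_le_pow_left₀ (inv_pos.2 hM1).le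
  rw [inv_le_comm₀ hM1 (hpos s)]
  exact (hM s).trans (le_max_right _ _)

/-- moving along the grid -/
lemma pt_update (s : Fin n → Fin S) (k : Fin n) (r : Fin S) :
    e.pt (Function.update s k r) = e.pt s + (((r : ℕ) : ℂ) - ((s k : ℕ) : ℂ)) • e.U k := by
  classical
  rw [pt, pt, ← Finset.add_sum_erase _ _ (Finset.mem_univ k),
    ← Finset.add_sum_erase _ (fun j => ((s j : ℕ) : ℂ) • e.U j) (Finset.mem_univ k)]
  have h1 : ∑ x ∈ Finset.univ.erase k, (((Function.update s k r) x : ℕ) : ℂ) • e.U x =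
      ∑ x ∈ Finset.univ.erase k, ((s x : ℕ) : ℂ) • e.U x := by
    apply Finset.sum_congr rfl
    intro x hx
    rw [Function.update_of_ne (Finset.ne_of_mem_erase hx)]
  rw [h1, Function.update_self]
  module

theorem upper (hn : 0 < n) (hS : 0 < S) : ∃ K₃ : ℝ, 1 ≤ K₃ ∧ ∀ (Lc m ρ : ℕ)
    (ξ : (e.I → Fin Lc) → 𝓞 e.K) (H : ℝ), 0 ≤ H → (∀ lam, ‖e.emb (ξ lam)‖ ≤ H) → 0 < m → Lc ≤ m →
    ρ ^ 3 * Lc ≤ m → 2 * S ≤ ρ → (∀ s : Fin n → Fin S, Ord (e.Fn (e.Phi ξ)) (e.pt s) m) →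
    ∀ (s : Fin n → Fin S) (l : List (Fin n)), l.length = m →
      ‖DL (l.map e.v) (e.Fn (e.Phi ξ)) (e.pt s)‖ * (ρ : ℝ) ^ (S * (m / n)) ≤
        K₃ ^ m * (m : ℝ) ^ (2 * m) * H := by
  classical
  obtain ⟨E, hE, hEg⟩ := exists_growth e
  obtain ⟨v, hv0, hv1, hv⟩ := exists_theta_bound e
  -- the norms of the directions and of the grid points
  obtain ⟨V0, hV0⟩ := Finite.exists_le (fun k : Fin n => ‖e.U k‖)
  obtain ⟨P0, hP0⟩ := Finite.exists_le (fun s : Fin n → Fin S => ‖e.pt s‖)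
  set V : ℝ := max 1 V0 with hVdef
  have hV1 : 1 ≤ V := le_max_left _ _
  have hVU : ∀ k, ‖e.U k‖ ≤ V := fun k => (hV0 k).trans (le_max_right _ _)
  set P : ℝ := max 0 P0 with hPdef
  have hP1 : 0 ≤ P := le_max_left _ _
  have hPs : ∀ s : Fin n → Fin S, ‖e.pt s‖ ≤ P := fun s => (hP0 s).trans (le_max_right _ _)
  -- expressing the directions `v j` in terms of `U`
  have hspan : ∀ w : Fin n → ℂ, ∃ κ : Fin n → ℂ, w = ∑ k, κ k • e.U k := by
    intro w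
    have h1 : Submodule.span ℂ (Set.range e.U) = ⊤ := by
      apply e.hU.span_eq_top_of_card_eq_finrank'
      simp
    have h2 : w ∈ Submodule.span ℂ (Set.range e.U) := by rw [h1]; trivial
    rw [Submodule.mem_span_range_iff_exists_fun] at h2
    obtain ⟨κ, hκ⟩ := h2
    exact ⟨κ, hκ.symm⟩
  choose κ hκ using hspan
  set CU : ℝ := 1 + ∑ j, ∑ k, ‖κ (e.v j) k‖ with hCU
  have hCU1 : 1 ≤ CU := by
    rw [hCU]
    have : 0 ≤ ∑ j, ∑ k, ‖κ (e.v j) k‖ :=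
      Finset.sum_nonneg fun j _ => Finset.sum_nonneg fun k _ => norm_nonneg _
    linarith
  set W : ℝ := V + 1 + P with hW
  have hW0 : 0 ≤ W := by linarith
  set E₁ : ℝ := Real.exp (E * (1 + W ^ 3) * (n + 1)) with hE₁
  have hE₁1 : 1 ≤ E₁ := by
    apply Real.one_le_exp
    positivity
  have hSR : (1 : ℝ) ≤ S := by exact_mod_cast hS
  refine ⟨v⁻¹ * CU * (2 * S) ^ S * V * 2 ^ (n + 1) * E₁, ?_, ?_⟩
  · have h1 : 1 ≤ v⁻¹ := (one_le_inv₀ hv0).2 hv1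
    have h2 : (1 : ℝ) ≤ (2 * S) ^ S := one_le_pow₀ (by linarith)
    have h3 : (1 : ℝ) ≤ 2 ^ (n + 1) := one_le_pow₀ (by norm_num)
    calc (1 : ℝ) = 1 * 1 * 1 * 1 * 1 * 1 := by ring
      _ ≤ _ := by gcongr
  intro Lc m ρ ξ H hH0 hH hm hLm hρ hSρ hord s l hlen
  have hmR : (1 : ℝ) ≤ m := by exact_mod_cast hm
  have hρR : 2 * (S : ℝ) ≤ ρ := by exact_mod_cast hSρ
  have hρ1 : (1 : ℝ) ≤ ρ := by linarith
  have hρ0 : (0 : ℝ) < ρ := by linarith
  -- the entire function at the grid points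
  have hmul : ∀ s : Fin n → Fin S, Ord (e.G ξ) (e.pt s) m ∧ ∀ l : List (Fin n → ℂ), l.length = m →
      DL l (e.G ξ) (e.pt s) = e.theta Lc (e.pt s) * DL l (e.Fn (e.Phi ξ)) (e.pt s) := by
    intro s
    obtain ⟨a1, a2⟩ := ord_mul e.isOpen_O (e.ptO s) m (e.theta Lc) (e.Fn (e.Phi ξ))
      (e.analytic_theta Lc) (e.analytic_Fn _) (hord s)
    refine ⟨?_, ?_⟩
    · intro l hl
      rw [DL_congr e.isOpen_O (e.G_eqOn ξ) l (e.ptO s)]
      exact a1 l hl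
    · intro l hl
      rw [DL_congr e.isOpen_O (e.G_eqOn ξ) l (e.ptO s)]
      exact a2 l hl
  -- Schwarz lemma
  set BG : ℝ := (2 ^ (n + 1)) ^ m * (H * E₁ ^ m) with hBG
  have hBG0 : 0 ≤ BG := by positivity
  have hGball : ∀ w : Fin n → ℂ, ‖w - e.pt s‖ ≤ ρ * V + 1 → ‖e.G ξ w‖ ≤ BG := by
    intro w hw
    refine (e.norm_G_le hE hEg ξ hH w).trans ?_
    have h1 : (Lc : ℝ) ^ (n + 1) ≤ (2 ^ (n + 1)) ^ m := by
      have h2 : Lc < 2 ^ m := hLm.trans_lt (Nat.lt_two_pow_self)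
      have h3 : Lc ^ (n + 1) ≤ (2 ^ m) ^ (n + 1) := Nat.pow_le_pow_left h2.le _
      have h4 : (2 ^ m) ^ (n + 1) = (2 ^ (n + 1)) ^ m := by
        rw [← pow_mul, ← pow_mul, mul_comm]
      rw [h4] at h3
      exact_mod_cast h3
    have h2 : ‖w‖ ≤ ρ * W := by
      calc ‖w‖ = ‖(w - e.pt s) + e.pt s‖ := by rw [sub_add_cancel]
        _ ≤ ‖w - e.pt s‖ + ‖e.pt s‖ := norm_add_le _ _
        _ ≤ (ρ * V + 1) + P := add_le_add hw (hPs s)
        _ ≤ ρ * W := by rw [hW]; nlinarith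
    have h3 : Real.exp (E * (1 + ‖w‖ ^ 3)) ^ ((n + 1) * Lc) ≤ E₁ ^ m := by
      rw [← Real.exp_nat_mul, hE₁, ← Real.exp_nat_mul]
      apply Real.exp_le_exp.mpr
      have h4 : ‖w‖ ^ 3 ≤ (ρ * W) ^ 3 := by gcongr
      have h5 : (ρ : ℝ) ^ 3 * Lc ≤ m := by exact_mod_cast hρ
      have h6 : (Lc : ℝ) ≤ m := by exact_mod_cast hLm
      have h7 : (1 + ‖w‖ ^ 3) * Lc ≤ (1 + W ^ 3) * m := by
        have h8 : (0 : ℝ) ≤ Lc := Nat.cast_nonneg _
        calc (1 + ‖w‖ ^ 3) * Lc ≤ (1 + (ρ * W) ^ 3) * Lc := by gcongr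
          _ = Lc + W ^ 3 * (ρ ^ 3 * Lc) := by ring
          _ ≤ m + W ^ 3 * m := by gcongr
          _ = (1 + W ^ 3) * m := by ring
      push_cast
      calc ((n : ℝ) + 1) * Lc * (E * (1 + ‖w‖ ^ 3)) = E * (n + 1) * ((1 + ‖w‖ ^ 3) * Lc) := by ring
        _ ≤ E * (n + 1) * ((1 + W ^ 3) * m) := by gcongr
        _ = (m : ℝ) * (E * (1 + W ^ 3) * (n + 1)) := by ring
    rw [hBG]
    gcongr
  set M : Fin n → Finset ℂ := fun k =>
    Finset.univ.image (fun r : Fin S => (((r : ℕ) : ℂ) - ((s k : ℕ) : ℂ))) with hM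
  have hschw : ∀ l : List (Fin n), l.length = m → ‖DL (l.map e.U) (e.G ξ) (e.pt s)‖ ≤
      m.factorial * ((S : ℝ) * (2 / ρ)) ^ (S * (m / n)) * ((V * m) ^ m * BG) := by
    intro l hl
    refine schwarz_all (e.analytic_G ξ) hn (e.pt s) e.U M ?_ S m ?_ ?_ ?_ V ρ BG hV1 hVU hρR
      hGball l hl
    · intro k
      exact Finset.mem_image.2 ⟨s k, Finset.mem_univ _, sub_self _⟩
    · intro k
      rw [Finset.card_image_of_injective, Finset.card_univ, Fintype.card_fin]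
      intro r r' hrr
      have h1 : ((r : ℕ) : ℂ) = ((r' : ℕ) : ℂ) := sub_left_injective hrr
      exact Fin.ext (by exact_mod_cast h1)
    · intro k r hr
      obtain ⟨r', _, rfl⟩ := Finset.mem_image.1 hr
      have h1 : (((r' : ℕ) : ℂ) - ((s k : ℕ) : ℂ)) = (((r' : ℤ) - (s k : ℤ) : ℤ) : ℂ) := by
        push_cast
        ring
      rw [h1, Complex.norm_intCast]
      have h2 : |((r' : ℕ) : ℤ) - ((s k : ℕ) : ℤ)| ≤ S := by
        have := r'.2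
        have := (s k).2
        rw [abs_le]
        constructor <;> omega
      exact_mod_cast h2
    · intro k r hr
      obtain ⟨r', _, rfl⟩ := Finset.mem_image.1 hr
      rw [← pt_update]
      exact (hmul _).1
  have hchange := DL_change (C := CU) (f := e.G ξ) isOpen_univ (Set.mem_univ (e.pt s)) (e.analytic_G ξ) e.U _
    (by linarith) (by positivity) m hschw (Set.range e.v) (by
      rintro w ⟨j, rfl⟩
      refine ⟨κ (e.v j), hκ _, ?_⟩
      have h1 : ∑ k, ‖κ (e.v j) k‖ ≤ ∑ j, ∑ k, ‖κ (e.v j) k‖ :=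
        Finset.single_le_sum (f := fun j => ∑ k, ‖κ (e.v j) k‖)
          (fun j _ => Finset.sum_nonneg fun k _ => norm_nonneg _) (Finset.mem_univ j)
      rw [hCU]
      linarith) (l.map e.v) (by
      intro w hw
      obtain ⟨j, _, rfl⟩ := List.mem_map.1 hw
      exact ⟨j, rfl⟩) (by rw [List.length_map, hlen])
  rw [(hmul s).2 _ (by rw [List.length_map, hlen]), norm_mul] at hchange
  set Y := ‖DL (l.map e.v) (e.Fn (e.Phi ξ)) (e.pt s)‖ with hY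
  have hY0 : 0 ≤ Y := norm_nonneg _
  have hv2 : v ^ m * Y ≤ ‖e.theta Lc (e.pt s)‖ * Y := by
    apply mul_le_mul_of_nonneg_right _ hY0
    exact (pow_le_pow_of_le_one hv0.le hv1 hLm).trans (hv s Lc)
  have h1 := hv2.trans hchange
  -- multiply by `ρ ^ (S * (m / n))`
  have hρS : ((S : ℝ) * (2 / ρ)) ^ (S * (m / n)) * (ρ : ℝ) ^ (S * (m / n)) ≤ ((2 * S) ^ S) ^ m := by
    rw [← mul_pow]
    have h2 : (S : ℝ) * (2 / ρ) * ρ = 2 * S := by field_simp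
    rw [h2, ← pow_mul]
    apply pow_le_pow_right₀ (by linarith)
    exact Nat.mul_le_mul_left _ (Nat.div_le_self _ _)
  have hfac : (m.factorial : ℝ) ≤ (m : ℝ) ^ m := by exact_mod_cast Nat.factorial_le_pow m
  have h2 : v ^ m * (Y * (ρ : ℝ) ^ (S * (m / n))) ≤
      CU ^ m * ((m : ℝ) ^ m * ((2 * S) ^ S) ^ m * ((V * m) ^ m * BG)) := by
    calc v ^ m * (Y * (ρ : ℝ) ^ (S * (m / n))) = v ^ m * Y * (ρ : ℝ) ^ (S * (m / n)) := by ring
      _ ≤ (CU ^ m * (m.factorial * ((S : ℝ) * (2 / ρ)) ^ (S * (m / n)) * ((V * m) ^ m * BG))) *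
          (ρ : ℝ) ^ (S * (m / n)) := mul_le_mul_of_nonneg_right h1 (by positivity)
      _ = CU ^ m * (m.factorial * (((S : ℝ) * (2 / ρ)) ^ (S * (m / n)) * (ρ : ℝ) ^ (S * (m / n))) *
          ((V * m) ^ m * BG)) := by ring
      _ ≤ _ := by gcongr
  have h3 : Y * (ρ : ℝ) ^ (S * (m / n)) ≤ v⁻¹ ^ m *
      (CU ^ m * ((m : ℝ) ^ m * ((2 * S) ^ S) ^ m * ((V * m) ^ m * BG))) := by
    calc Y * (ρ : ℝ) ^ (S * (m / n)) = v⁻¹ ^ m * (v ^ m * (Y * (ρ : ℝ) ^ (S * (m / n)))) := by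
          rw [← mul_assoc, ← mul_pow, inv_mul_cancel₀ hv0.ne', one_pow, one_mul]
      _ ≤ _ := mul_le_mul_of_nonneg_left h2 (by positivity)
  refine h3.trans (le_of_eq ?_)
  rw [hBG, mul_pow V, two_mul m, pow_add]
  simp only [mul_pow]
  ring

lemma one_le_norm (x : 𝓞 e.K) (hx : x ≠ 0) {H : ℝ} (hH0 : 0 ≤ H) (hH : ∀ τ : e.K →+* ℂ, ‖τ (x : e.K)‖ ≤ H) :
    1 ≤ ‖e.ph (x : e.K)‖ * H ^ (Module.finrank ℚ e.K - 1) := by
  have h1 := norm_norm_le_norm_mul_house_pow (x : e.K) e.ph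
  have h2 : (1 : ℝ) ≤ ‖Algebra.norm ℚ (x : e.K)‖ := by
    have h3 : ((Algebra.norm ℤ x : ℤ) : ℚ) = Algebra.norm ℚ (x : e.K) := Algebra.coe_norm_int x
    rw [← h3]
    have h4 : Algebra.norm ℤ x ≠ 0 := by
      rw [Algebra.norm_ne_zero_iff]
      exact hx
    have h5 : (1 : ℝ) ≤ |((Algebra.norm ℤ x : ℤ) : ℝ)| := by
      have := Int.one_le_abs h4
      exact_mod_cast this
    have h6 : ‖((Algebra.norm ℤ x : ℤ) : ℚ)‖ = |((Algebra.norm ℤ x : ℤ) : ℝ)| := by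
      rw [← Real.norm_eq_abs]
      simp only [Rat.norm_cast_real, Int.norm_cast_rat]
      exact Int.norm_eq_abs _
    rw [h6]
    exact h5
  refine h2.trans (h1.trans ?_)
  apply mul_le_mul_of_nonneg_left _ (norm_nonneg _)
  exact pow_le_pow_left₀ (house_nonneg _) (e.house_le hH0 hH) _

/-- the polynomial attached to the coefficients -/
def Pc {Lc : ℕ} (ξ : (e.I → Fin Lc) → 𝓞 e.K) : MvPolynomial e.I ℂ :=
  ∑ lam : e.I → Fin Lc, monomial (Finsupp.equivFunOnFinite.symm fun i => (lam i : ℕ))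
    (e.emb (ξ lam))

lemma eval_Pc {Lc : ℕ} (ξ : (e.I → Fin Lc) → 𝓞 e.K) (z : Fin n → ℂ) :
    MvPolynomial.eval (fun i => e.val (e.b i) z) (e.Pc ξ) = e.Fn (e.Phi ξ) z := by
  rw [Fn_eq, Pc, map_sum]
  apply Finset.sum_congr rfl
  intro lam _
  rw [MvPolynomial.eval_monomial, Finsupp.prod_fintype _ _ (fun _ => pow_zero _)]
  rfl

lemma emb_injective : Function.Injective e.emb := by
  have h1 : Function.Injective e.ph := e.ph.injective
  have h2 : Function.Injective (algebraMap (𝓞 e.K) e.K) := FaithfulSMul.algebraMap_injective _ _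
  exact h1.comp h2

lemma Pc_ne_zero {Lc : ℕ} (ξ : (e.I → Fin Lc) → 𝓞 e.K) (hξ : ξ ≠ 0) : e.Pc ξ ≠ 0 := by
  classical
  obtain ⟨lam, hlam⟩ := Function.ne_iff.1 hξ
  intro h
  have h1 := congrArg (MvPolynomial.coeff (Finsupp.equivFunOnFinite.symm fun i => (lam i : ℕ))) h
  rw [Pc, MvPolynomial.coeff_sum, MvPolynomial.coeff_zero, Finset.sum_eq_single lam] at h1
  · rw [MvPolynomial.coeff_monomial, if_pos rfl] at h1
    apply hlam
    apply e.emb_injective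
    rw [h1]
    simp
  · intro lam' _ hne
    rw [MvPolynomial.coeff_monomial, if_neg]
    intro h2
    apply hne
    funext i
    have h3 := congrArg (fun f : e.I →₀ ℕ => f i) h2
    simp only [Finsupp.equivFunOnFinite_symm_apply_apply] at h3
    exact Fin.ext h3
  · intro h2
    exact absurd (Finset.mem_univ _) h2

/-- the auxiliary function does not vanish to infinite order -/
lemma exists_not_ord {Lc : ℕ} (ξ : (e.I → Fin Lc) → 𝓞 e.K) (hξ : ξ ≠ 0) (s : Fin n → Fin S) :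
    ∃ m : ℕ, ¬ Ord (e.Fn (e.Phi ξ)) (e.pt s) m := by
  by_contra hcon
  push Not at hcon
  have h1 : ∀ l : List (Fin n → ℂ), DL l (e.G ξ) (e.pt s) = 0 := by
    intro l
    rw [DL_congr e.isOpen_O (e.G_eqOn ξ) l (e.ptO s)]
    exact (ord_mul e.isOpen_O (e.ptO s) (l.length + 1) (e.theta Lc) (e.Fn (e.Phi ξ))
      (e.analytic_theta Lc) (e.analytic_Fn _) (hcon _)).1 l (Nat.lt_succ_self _)
  have h2 := eq_zero_of_DL (e.analytic_G ξ) (e.pt s) h1
  obtain ⟨z, hz, hTz, hne⟩ := e.indep (e.Pc ξ) (e.Pc_ne_zero ξ hξ)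
  rw [eval_Pc] at hne
  have h3 := h2 z
  rw [e.G_eq ξ hz] at h3
  rcases mul_eq_zero.1 h3 with h4 | h4
  · rw [theta, Finset.prod_eq_zero_iff] at h4
    obtain ⟨i, _, hi⟩ := h4
    exact pow_ne_zero _ (hTz i) hi
  · exact hne h4

/-- the number of grid points needed -/
def Snum (n δ₀ : ℕ) : ℕ := 6 * n * (n + 1) * ((n + 2) + (n + 1) * (δ₀ - 1)) + 1

theorem false (hn : 0 < n) (hS : S = Snum n (Module.finrank ℚ e.K)) : False := by
  classical
  set δ₀ := Module.finrank ℚ e.K with hδ₀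
  set a := (n + 2) + (n + 1) * (δ₀ - 1) with ha
  have hS : S = 6 * n * (n + 1) * a + 1 := hS
  have hSpos : 0 < S := by omega
  obtain ⟨A, hA, hX⟩ := e.exists_A
  obtain ⟨C, hC, hδ⟩ := e.exists_C A
  obtain ⟨K₁, hK₁, hsieg⟩ := e.siegel_step hn hSpos hA hX hC hδ
  obtain ⟨K₃, hK₃, hupper⟩ := e.upper hn hSpos
  set K₂ : ℝ := C * (n + 2) * 2 ^ (n + 1) * K₁ * A ^ (n + 1) with hK₂
  have hn0 : (0 : ℝ) ≤ n := Nat.cast_nonneg n
  have hK₂1 : 1 ≤ K₂ := by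
    have h1 : (1 : ℝ) ≤ n + 2 := by linarith
    have h2 : (1 : ℝ) ≤ 2 ^ (n + 1) := one_le_pow₀ (by norm_num)
    have h3 : (1 : ℝ) ≤ A ^ (n + 1) := one_le_pow₀ hA
    calc (1 : ℝ) = 1 * 1 * 1 * 1 * 1 := by ring
      _ ≤ _ := by rw [hK₂]; gcongr
  set K₅ : ℝ := K₃ * K₁ * K₂ ^ (δ₀ - 1) with hK₅
  have hK₅1 : 1 ≤ K₅ := by
    have h1 : (1 : ℝ) ≤ K₂ ^ (δ₀ - 1) := one_le_pow₀ hK₂1
    calc (1 : ℝ) = 1 * 1 * 1 := by ring
      _ ≤ _ := by rw [hK₅]; gcongr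
  -- parameters
  obtain ⟨ρ₁, hρ₁⟩ := exists_nat_gt ((K₅ * (16 * S) ^ ((n + 1) * a)) ^ (2 * n))
  set ρ₀ := ρ₁ + 2 * S with hρ₀
  set t := 2 * S * ρ₀ ^ 3 + 2 * S + n with ht
  have htpos : 0 < t := by omega
  have h2St : 2 * S ≤ t := by omega
  set Lc := 2 * S * t ^ n with hLc
  have hLpos : 0 < Lc := by positivity
  set T := t ^ (n + 1) with hT
  obtain ⟨ξ, hξ0, hordT, hξH⟩ : ∃ ξ : (e.I → Fin Lc) → 𝓞 e.K, ξ ≠ 0 ∧
      (∀ s : Fin n → Fin S, Ord (e.Fn (e.Phi ξ)) (e.pt s) T) ∧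
      ∀ m : ℕ, T ≤ m → ∀ (τ : e.K →+* ℂ) lam,
        ‖τ (ξ lam : e.K)‖ ≤ K₁ ^ m * (m : ℝ) ^ (n * m) := hsieg t htpos h2St
  have hLT : Lc ≤ T := by
    rw [hLc, hT, pow_succ, mul_comm (t ^ n) t]
    exact Nat.mul_le_mul_right _ h2St
  have hnT : n ≤ T := by
    have h1 : t ^ 1 ≤ t ^ (n + 1) := Nat.pow_le_pow_right htpos (by omega)
    rw [pow_one] at h1
    have h2 : n ≤ t := by rw [ht]; omega
    exact h2.trans h1
  -- the exact order of vanishing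
  have hex : ∃ m : ℕ, ¬ ∀ s : Fin n → Fin S, Ord (e.Fn (e.Phi ξ)) (e.pt s) m := by
    obtain ⟨m, hm⟩ := e.exists_not_ord ξ hξ0 (fun _ => ⟨0, hSpos⟩)
    exact ⟨m, fun h => hm (h _)⟩
  set m' := Nat.find hex with hm'
  have hm'1 := Nat.find_spec hex
  rw [← hm'] at hm'1
  have hTm' : T < m' := by
    by_contra hcon
    push Not at hcon
    exact hm'1 (fun s => SL.Ord_mono hcon (hordT s))
  obtain ⟨m, hmm'⟩ : ∃ m, m' = m + 1 := ⟨m' - 1, by omega⟩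
  have hTm : T ≤ m := by omega
  have hordm : ∀ s : Fin n → Fin S, Ord (e.Fn (e.Phi ξ)) (e.pt s) m := by
    have := Nat.find_min hex (m := m) (by rw [← hm']; omega)
    push Not at this
    exact this
  rw [hmm'] at hm'1
  push Not at hm'1
  obtain ⟨s, hs⟩ := hm'1
  unfold Ord at hs
  push Not at hs
  obtain ⟨l, hl, hlne⟩ := hs
  have hlm : l.length = m := by
    by_contra hcon
    exact hlne (hordm s l (by omega))
  obtain ⟨l', hl', hl'ne⟩ : ∃ l' : List (Fin n), l'.length = m ∧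
      DL (l'.map e.v) (e.Fn (e.Phi ξ)) (e.pt s) ≠ 0 := by
    by_contra hcon
    push Not at hcon
    exact hlne (DL_zero_of_spans e.isOpen_O (e.ptO s) (e.analytic_Fn _) e.v e.spans_v m hcon l hlm)
  have hTpos : 0 < T := by positivity
  have hm1 : 1 ≤ m := by omega
  have hmR : (1 : ℝ) ≤ m := by exact_mod_cast hm1
  have hLm : Lc ≤ m := hLT.trans hTm
  -- the algebraic integer
  set x := e.at' s (PL e.δ l' (e.Phi ξ)) with hx
  have hxval : DL (l'.map e.v) (e.Fn (e.Phi ξ)) (e.pt s) = e.emb x := e.DL_Fn _ _ _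
  have hx0 : x ≠ 0 := by
    intro h
    rw [hxval, h, map_zero] at hl'ne
    exact hl'ne rfl
  set H : ℝ := K₁ ^ m * (m : ℝ) ^ (n * m) with hH
  have hH0 : 0 ≤ H := by positivity
  have hhouse : ∀ τ : e.K →+* ℂ, ‖τ (x : e.K)‖ ≤ K₂ ^ m * (m : ℝ) ^ ((n + 1) * m) := by
    intro τ
    set M := (n + 1) * Lc + m with hM
    have hMm : (M : ℝ) ≤ (n + 2) * m := by
      have : M ≤ (n + 2) * m := by
        rw [hM]
        calc (n + 1) * Lc + m ≤ (n + 1) * m + m := Nat.add_le_add_right (Nat.mul_le_mul_left _ hLm) _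
          _ = (n + 2) * m := by ring
      exact_mod_cast this
    have h1 := e.norm_at_le hA hX hC hδ τ s l' (e.Phi ξ) M (by
      have := e.totalDegree_Phi ξ
      omega)
    have h2 := e.NN_Phi ξ τ hA (fun lam => hξH m hTm τ lam)
    rw [← hH] at h2
    have h3 : (Lc : ℝ) ^ (n + 1) ≤ (2 ^ (n + 1)) ^ m := by
      have h2 : Lc < 2 ^ m := hLm.trans_lt (Nat.lt_two_pow_self)
      have h3 : Lc ^ (n + 1) ≤ (2 ^ m) ^ (n + 1) := Nat.pow_le_pow_left h2.le _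
      have h4 : (2 ^ m) ^ (n + 1) = (2 ^ (n + 1)) ^ m := by
        rw [← pow_mul, ← pow_mul, mul_comm]
      rw [h4] at h3
      exact_mod_cast h3
    have h4 : A ^ ((n + 1) * Lc) ≤ (A ^ (n + 1)) ^ m := by
      rw [← pow_mul]
      exact pow_le_pow_right₀ hA (Nat.mul_le_mul_left _ hLm)
    have h5 : NN (e.sg τ) A (e.Phi ξ) ≤ (2 ^ (n + 1)) ^ m * (H * (A ^ (n + 1)) ^ m) := by
      refine h2.trans ?_
      gcongr
    rw [hl'] at h1
    refine h1.trans ?_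
    calc (C * (M : ℝ)) ^ m * NN (e.sg τ) A (e.Phi ξ)
        ≤ (C * ((n + 2) * m)) ^ m * ((2 ^ (n + 1)) ^ m * (H * (A ^ (n + 1)) ^ m)) := by
          have : 0 ≤ NN (e.sg τ) A (e.Phi ξ) := NN_nonneg _ hA _
          gcongr
      _ = K₂ ^ m * (m : ℝ) ^ ((n + 1) * m) := by
          rw [hK₂, hH, add_mul n 1 m, one_mul, pow_add]
          simp only [mul_pow]
          ring
  have hlow := e.one_le_norm x hx0 (by positivity) hhouse
  -- the choice of the radius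
  have hρ₀L : ρ₀ ^ 3 * Lc ≤ m := by
    refine le_trans ?_ hTm
    rw [hLc, hT, pow_succ t n, mul_comm (t ^ n) t, ← mul_assoc]
    apply Nat.mul_le_mul_right
    rw [ht]
    nlinarith
  have hρ₀1 : 1 ≤ ρ₀ := by omega
  have hρ₀m : ρ₀ ≤ m := by
    refine le_trans ?_ hρ₀L
    calc ρ₀ = ρ₀ ^ 1 * 1 := by ring
      _ ≤ ρ₀ ^ 3 * Lc := Nat.mul_le_mul (Nat.pow_le_pow_right hρ₀1 (by norm_num)) hLpos
  set ρ := Nat.findGreatest (fun r => r ^ 3 * Lc ≤ m) m with hρ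
  have hρρ₀ : ρ₀ ≤ ρ := Nat.le_findGreatest hρ₀m hρ₀L
  have hρL : ρ ^ 3 * Lc ≤ m := Nat.findGreatest_spec (P := fun r => r ^ 3 * Lc ≤ m) hρ₀m hρ₀L
  have hρm : m < (ρ + 1) ^ 3 * Lc := by
    by_contra hcon
    push Not at hcon
    have h1 : ρ + 1 ≤ m := by
      refine le_trans ?_ hcon
      calc ρ + 1 = (ρ + 1) ^ 1 * 1 := by ring
        _ ≤ (ρ + 1) ^ 3 * Lc := Nat.mul_le_mul (Nat.pow_le_pow_right (by omega) (by norm_num)) hLpos
    have := Nat.le_findGreatest (P := fun r => r ^ 3 * Lc ≤ m) h1 hcon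
    omega
  have hup := hupper Lc m ρ ξ H hH0 (fun lam => hξH m hTm e.ph lam) hm1 hLm hρL (by omega) hordm s l' hl'
  rw [hxval] at hup
  have hmain : (ρ : ℝ) ^ (S * (m / n)) ≤ K₅ ^ m * (m : ℝ) ^ (a * m) := by
    set Hx := K₂ ^ m * (m : ℝ) ^ ((n + 1) * m) with hHx
    have hHx0 : 0 ≤ Hx := by positivity
    calc (ρ : ℝ) ^ (S * (m / n)) = (ρ : ℝ) ^ (S * (m / n)) * 1 := (mul_one _).symm
      _ ≤ (ρ : ℝ) ^ (S * (m / n)) * (‖e.ph (x : e.K)‖ * Hx ^ (δ₀ - 1)) :=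
          mul_le_mul_of_nonneg_left hlow (by positivity)
      _ = (‖e.ph (x : e.K)‖ * (ρ : ℝ) ^ (S * (m / n))) * Hx ^ (δ₀ - 1) := by ring
      _ ≤ (K₃ ^ m * (m : ℝ) ^ (2 * m) * H) * Hx ^ (δ₀ - 1) :=
          mul_le_mul_of_nonneg_right hup (by positivity)
      _ = K₅ ^ m * (m : ℝ) ^ (a * m) := by
          rw [hK₅, hH, hHx, ha, add_mul (n + 2), pow_add, add_mul n 2 m, pow_add]
          rw [mul_pow (K₂ ^ m), ← pow_mul (m : ℝ), ← pow_mul K₂, mul_comm m (δ₀ - 1), pow_mul K₂]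
          rw [show (n + 1) * (δ₀ - 1) * m = (n + 1) * m * (δ₀ - 1) by ring]
          simp only [mul_pow]
          ring
  refine SL.numeric n a S m ρ Lc t hn hS K₅ hK₅1 (by omega) ?_ (hnT.trans hTm) hLc hTm hρm hmain
  refine hρ₁.trans_le ?_
  have : ρ₁ ≤ ρ := by omega
  exact_mod_cast this

end AD

end Pool.Agent.W245.EB
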