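import Mathlib
import Pool.Agent.W245.PB.Inf

set_option autoImplicit false
set_option linter.unusedVariables false
set_option linter.unusedSectionVars false
set_option linter.unusedSimpArgs false

/-!
# Generic combinations satisfy no relation of bounded degree

Let `κ ⊂ C` be fields, `κ` algebraically closed, `W` a `κ`-space of dimension at most `N`,
`R = N ∏ (D i + 1)`. If for each `i < k` the numbers `w i j` (`j` in a set of size at least `R`) are
linearly independent over `κ`, then for all `m` outside the zero set of a nonzero polynomial of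
degree at most `R ∑ D i` the numbers `v i + ∑ j, m i j • w i j` satisfy no polynomial relation of
degree at most `D i` in the `i`-th variable and with coefficients in `W`.
-/

open Module MvPolynomial

namespace Pool.Agent.W245.EB

open Pool.Agent.H297R2 Pool.Agent.W245 Pool.Agent.W245.PB

/-- exponents -/
abbrev Ex {k : ℕ} (D : Fin k → ℕ) := (i : Fin k) → Fin (D i + 1)

/-- the exponent as a finitely supported function -/
noncomputable def ex {k : ℕ} {D : Fin k → ℕ} (e : Ex D) : Fin k →₀ ℕ :=
  Finsupp.equivFunOnFinite.symm fun i => (e i : ℕ)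

lemma ex_apply {k : ℕ} {D : Fin k → ℕ} (e : Ex D) (i : Fin k) : ex e i = e i := rfl

lemma ex_injective {k : ℕ} {D : Fin k → ℕ} : Function.Injective (ex (D := D)) := by
  intro e e' h
  funext i
  have := congrArg (fun f : Fin k →₀ ℕ => f i) h
  exact Fin.ext this

lemma card_Ex {k : ℕ} (D : Fin k → ℕ) : Fintype.card (Ex D) = ∏ i, (D i + 1) := by
  simp [Ex]

/-- a polynomial of bounded degrees is a sum over the exponents -/
lemma eq_sum_ex {C : Type*} [CommRing C] {k : ℕ} {D : Fin k → ℕ} (Q : MvPolynomial (Fin k) C)
    (hQ : ∀ i, Q.degreeOf i ≤ D i) : Q = ∑ e : Ex D, monomial (ex e) (Q.coeff (ex e)) := by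
  classical
  ext s
  rw [coeff_sum]
  by_cases hs : s ∈ Q.support
  · have hle : ∀ i, s i ≤ D i := fun i => (degreeOf_le_iff.1 (hQ i)) s hs
    set e₀ : Ex D := fun i => ⟨s i, Nat.lt_succ_of_le (hle i)⟩ with he₀
    have hes : ex e₀ = s := by
      ext i
      rfl
    rw [Finset.sum_eq_single e₀]
    · rw [coeff_monomial, if_pos hes, hes]
    · intro e _ hne
      rw [coeff_monomial, if_neg]
      intro h
      apply hne
      apply ex_injective
      rw [h, hes]
    · intro h
      exact absurd (Finset.mem_univ _) h
  · rw [notMem_support_iff.1 hs]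
    symm
    apply Finset.sum_eq_zero
    intro e _
    rw [coeff_monomial]
    split_ifs with h
    · rw [h, notMem_support_iff.1 hs]
    · rfl

section

variable {κ C : Type*} [Field κ] [IsAlgClosed κ] [Field C] [Algebra κ C]

/-- the evaluation matrix -/
noncomputable def evM {ι : Type*} {k : ℕ} {D : Fin k → ℕ} {S : Type*} [CommRing S]
    (t : ι → S) (y : Fin k → S) : ι × Ex D → S := fun s => t s.1 * ∏ i, y i ^ (s.2 i : ℕ)

theorem box_basis {ι : Type*} [Fintype ι] {k : ℕ} (D : Fin k → ℕ) (t : ι → C)
    (ht : LinearIndependent κ t) {J : Type*} [Fintype J]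
    (hJ : Fintype.card ι * ∏ i, (D i + 1) ≤ Fintype.card J) (v : Fin k → C) (w : Fin k → J → C)
    (hw : ∀ i, LinearIndependent κ (w i)) :
    ∃ F : MvPolynomial (Fin k × J) κ, F ≠ 0 ∧
      F.totalDegree ≤ (Fintype.card ι * ∏ i, (D i + 1)) * ∑ i, D i ∧
      ∀ m : Fin k → J → κ, MvPolynomial.eval (fun p => m p.1 p.2) F ≠ 0 →
        NoRelP (Submodule.span κ (Set.range t)) D (fun i => v i + ∑ j, m i j • w i j) := by
  classical
  set Ix := ι × Ex D with hIx
  have hcard : Fintype.card Ix = Fintype.card ι * ∏ i, (D i + 1) := by
    show Fintype.card (ι × Ex D) = _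
    rw [Fintype.card_prod, card_Ex]
  -- an embedding of the index set
  obtain ⟨g⟩ : Nonempty (Ix ↪ J) := by
    rw [Function.Embedding.nonempty_iff_card_le, hcard]
    exact hJ
  -- the algebra
  set U : Set C := Set.range t ∪ Set.range (fun p : Fin k × J => w p.1 p.2) ∪ Set.range v with hU
  have hUf : U.Finite := ((Set.finite_range _).union (Set.finite_range _)).union (Set.finite_range _)
  set A := Algebra.adjoin κ U with hA
  have htU : ∀ i, t i ∈ A := fun i => Algebra.subset_adjoin (Or.inl (Or.inl ⟨i, rfl⟩))
  have hwU : ∀ i j, w i j ∈ A := fun i j => Algebra.subset_adjoin (Or.inl (Or.inr ⟨(i, j), rfl⟩))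
  have hvU : ∀ i, v i ∈ A := fun i => Algebra.subset_adjoin (Or.inr ⟨i, rfl⟩)
  have hAfg : Algebra.FiniteType κ A := by
    rw [← Subalgebra.fg_iff_finiteType]
    exact ⟨hUf.toFinset, by simp [hA]⟩
  set tA : ι → A := fun i => ⟨t i, htU i⟩ with htA
  set wA : Fin k → J → A := fun i j => ⟨w i j, hwU i j⟩ with hwA
  set vA : Fin k → A := fun i => ⟨v i, hvU i⟩ with hvA
  have htA' : LinearIndependent κ tA := by
    apply LinearIndependent.of_comp A.val.toLinearMap
    exact ht
  have hwA' : ∀ i, LinearIndependent κ (wA i) := by
    intro i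
    apply LinearIndependent.of_comp A.val.toLinearMap
    exact hw i
  -- the families
  set fam : Option (Fin k) → Ix → MvPolynomial (Fin k) A := fun o s =>
    o.elim (monomial (ex s.2) (tA s.1)) (fun i => MvPolynomial.C (wA i (g s))) with hfam
  set Wf : Option (Fin k) → Submodule κ (MvPolynomial (Fin k) A) := fun o =>
    Submodule.span κ (Set.range (fam o)) with hWf
  have hfin : ∀ o, Module.Finite κ (Wf o) := fun o =>
    FiniteDimensional.span_of_finite κ (Set.finite_range _)
  obtain ⟨φ, hφ⟩ := exists_points κ (MvPolynomial (Fin k) A) (Fintype.card Ix) Wf (fun o => by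
    rw [hWf]
    exact finrank_range_le_card (fam o))
  have e : Fin (Fintype.card Ix) ≃ Ix := (Fintype.equivFin _).symm
  have hkey : ∀ o (c : Ix → κ), (∀ j, ∑ s, c s * φ (e.symm j) (fam o s) = 0) →
      ∑ s, c s • fam o s = 0 := by
    intro o c hc
    apply hφ o
    · apply Submodule.sum_mem
      intro s _
      exact Submodule.smul_mem _ _ (Submodule.subset_span ⟨s, rfl⟩)
    · intro j
      have := hc (e j)
      rw [Equiv.symm_apply_apply] at this
      rw [map_sum, ← this]
      apply Finset.sum_congr rfl
      intro s _
      rw [map_smul, smul_eq_mul]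
  -- the homomorphisms of `A`
  set τ : Ix → (A →ₐ[κ] κ) := fun j =>
    ((φ (e.symm j)).restrictScalars κ).comp (Algebra.ofId A (MvPolynomial (Fin k) A) |>.restrictScalars κ) with hτ
  have hτC : ∀ j a, τ j a = φ (e.symm j) (MvPolynomial.C a) := fun j a => rfl
  -- the linear forms
  set Lf : Ix → Fin k → MvPolynomial (Fin k × J) κ := fun j i =>
    MvPolynomial.C (τ j (vA i)) + ∑ j', MvPolynomial.X (i, j') * MvPolynomial.C (τ j (wA i j')) with hLf
  set Mat : Matrix Ix Ix (MvPolynomial (Fin k × J) κ) := Matrix.of fun j s =>
    evM (fun i => MvPolynomial.C (τ j (tA i))) (Lf j) s with hMat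
  have hLfeval : ∀ (m : Fin k → J → κ) j i, MvPolynomial.eval (fun p => m p.1 p.2) (Lf j i) =
      τ j (vA i + ∑ j', m i j' • wA i j') := by
    intro m j i
    rw [hLf]
    simp only [map_add, map_sum, map_mul, MvPolynomial.eval_C, MvPolynomial.eval_X, map_smul,
      smul_eq_mul]
  have hdeteval : ∀ m : Fin k → J → κ, MvPolynomial.eval (fun p => m p.1 p.2) Mat.det =
      (Matrix.of fun j s => evM (fun i => τ j (tA i))
        (fun i => τ j (vA i + ∑ j', m i j' • wA i j')) s : Matrix Ix Ix κ).det := by
    intro m
    rw [RingHom.map_det]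
    congr 1
    ext j s
    rw [RingHom.mapMatrix_apply, Matrix.map_apply, hMat]
    simp only [Matrix.of_apply, evM, map_mul, map_prod, map_pow, MvPolynomial.eval_C, hLfeval]
  refine ⟨Mat.det, ?_, ?_, ?_⟩
  · -- nonzero
    -- solve the linear systems
    have hsolve : ∀ i, ∃ mi : J → κ, ∀ j, τ j (vA i + ∑ j', mi j' • wA i j') =
        φ (e.symm j) (MvPolynomial.X i) := by
      intro i
      let T : (Ix → κ) →ₗ[κ] (Ix → κ) :=
        { toFun := fun c j => ∑ s, c s * τ j (wA i (g s))
          map_add' := by
            intro c c'
            funext j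
            simp [add_mul, Finset.sum_add_distrib]
          map_smul' := by
            intro a c
            funext j
            simp [Finset.mul_sum, mul_assoc] }
      have hTinj : Function.Injective T := by
        rw [← LinearMap.ker_eq_bot, LinearMap.ker_eq_bot']
        intro c hc
        have h1 := hkey (some i) c (by
          intro j
          have := congrFun hc j
          exact this)
        have h2 : ∑ s, c s • wA i (g s) = 0 := by
          apply MvPolynomial.C_injective (Fin k) A
          rw [map_sum, map_zero, ← h1]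
          apply Finset.sum_congr rfl
          intro s _
          rw [hfam]
          simp only [Option.elim]
          apply MvPolynomial.ext
          intro mm
          rw [MvPolynomial.coeff_smul, MvPolynomial.coeff_C, MvPolynomial.coeff_C, smul_ite, smul_zero]
        funext s
        exact (Fintype.linearIndependent_iff.1 ((hwA' i).comp g g.injective)) c h2 s
      have hTsurj : Function.Surjective T := LinearMap.injective_iff_surjective.1 hTinj
      obtain ⟨c, hc⟩ := hTsurj (fun j => φ (e.symm j) (MvPolynomial.X i) - τ j (vA i))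
      refine ⟨fun j' => ∑ s, if g s = j' then c s else 0, fun j => ?_⟩
      have h1 : ∑ j', (∑ s, if g s = j' then c s else 0) • wA i j' = ∑ s, c s • wA i (g s) := by
        simp only [Finset.sum_smul, ite_smul, zero_smul]
        rw [Finset.sum_comm]
        apply Finset.sum_congr rfl
        intro s _
        rw [Finset.sum_ite_eq]
        simp
      rw [h1, map_add, map_sum]
      have h2 := congrFun hc j
      have h3 : T c j = ∑ s, c s * τ j (wA i (g s)) := rfl
      rw [h3] at h2
      simp only [map_smul, smul_eq_mul]
      rw [h2]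
      ring
    choose mm hmm using hsolve
    intro hzero
    have h1 := hdeteval mm
    rw [hzero, map_zero] at h1
    have h2 : (Matrix.of fun j s => evM (fun i => τ j (tA i))
        (fun i => τ j (vA i + ∑ j', mm i j' • wA i j')) s : Matrix Ix Ix κ) =
        Matrix.of fun j s => φ (e.symm j) (fam none s) := by
      ext j s
      simp only [Matrix.of_apply, evM, hmm]
      rw [hfam]
      simp only [Option.elim]
      rw [MvPolynomial.monomial_eq, map_mul, Finsupp.prod_fintype _ _ (fun _ => pow_zero _), map_prod]
      simp only [map_pow]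
      rfl
    rw [h2] at h1
    obtain ⟨c, hc0, hc⟩ := Matrix.exists_mulVec_eq_zero_iff.2 h1.symm
    apply hc0
    have h3 := hkey none c (by
      intro j
      have := congrFun hc j
      rw [Matrix.mulVec, dotProduct, Pi.zero_apply] at this
      rw [← this]
      apply Finset.sum_congr rfl
      intro s _
      rw [Matrix.of_apply, mul_comm])
    -- independence of the monomials
    funext s
    obtain ⟨i, ee⟩ := s
    have h4 := congrArg (MvPolynomial.coeff (ex ee)) h3
    rw [MvPolynomial.coeff_sum, MvPolynomial.coeff_zero, Fintype.sum_prod_type] at h4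
    have h5 : ∀ i' : ι, ∑ e' : Ex D, MvPolynomial.coeff (ex ee) (c (i', e') • fam none (i', e')) =
        c (i', ee) • tA i' := by
      intro i'
      rw [Finset.sum_eq_single ee]
      · rw [hfam]
        simp only [Option.elim, MvPolynomial.coeff_smul, MvPolynomial.coeff_monomial, if_true]
      · intro e' _ hne
        rw [hfam]
        simp only [Option.elim, MvPolynomial.coeff_smul, MvPolynomial.coeff_monomial]
        rw [if_neg, smul_zero]
        intro h
        exact hne (ex_injective h)
      · intro h
        exact absurd (Finset.mem_univ _) h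
    simp only [h5] at h4
    exact (Fintype.linearIndependent_iff.1 htA') (fun i' => c (i', ee)) h4 i
  · -- degree
    rw [Matrix.det_apply]
    apply MvPolynomial.totalDegree_finsetSum_le
    intro π _
    refine (MvPolynomial.totalDegree_smul_le _ _).trans ?_
    refine (MvPolynomial.totalDegree_finsetProd _ _).trans ?_
    rw [← hcard, ← Finset.card_univ, ← smul_eq_mul, ← Finset.sum_const]
    apply Finset.sum_le_sum
    intro s _
    rw [hMat, Matrix.of_apply]
    unfold evM
    refine (MvPolynomial.totalDegree_mul _ _).trans ?_
    rw [MvPolynomial.totalDegree_C, zero_add]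
    refine (MvPolynomial.totalDegree_finsetProd _ _).trans ?_
    apply Finset.sum_le_sum
    intro i _
    refine (MvPolynomial.totalDegree_pow _ _).trans ?_
    have h1 : (Lf (π s) i).totalDegree ≤ 1 := by
      rw [hLf]
      simp only
      refine (MvPolynomial.totalDegree_add _ _).trans ?_
      apply max_le
      · rw [MvPolynomial.totalDegree_C]
        exact Nat.zero_le _
      · apply MvPolynomial.totalDegree_finsetSum_le
        intro j' _
        refine (MvPolynomial.totalDegree_mul _ _).trans ?_
        rw [MvPolynomial.totalDegree_C, MvPolynomial.totalDegree_X]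
    have h2 : ((s.2 i : ℕ)) ≤ D i := Nat.lt_succ_iff.1 (s.2 i).2
    calc ((s.2 i : ℕ)) * (Lf (π s) i).totalDegree ≤ D i * 1 := Nat.mul_le_mul h2 h1
      _ = D i := mul_one _
  · -- no relation
    intro m hm Q hdeg hcoef h0
    rw [hdeteval] at hm
    have h1 : ∀ e : Ex D, ∃ a : ι → κ, ∑ i, a i • t i = Q.coeff (ex e) := fun e =>
      (Submodule.mem_span_range_iff_exists_fun κ).1 (hcoef _)
    choose a ha using h1
    set xA : Fin k → A := fun i => vA i + ∑ j', m i j' • wA i j' with hxA
    have hxA' : ∀ i, (xA i : C) = v i + ∑ j', m i j' • w i j' := by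
      intro i
      rw [hxA]
      push_cast
      rfl
    have h2 : ∑ s : Ix, a s.2 s.1 • (tA s.1 * ∏ i, xA i ^ (s.2 i : ℕ)) = 0 := by
      apply Subtype.ext
      rw [ZeroMemClass.coe_zero, ← h0]
      conv_rhs => rw [eq_sum_ex Q hdeg]
      rw [map_sum]
      push_cast
      rw [Fintype.sum_prod_type_right]
      apply Finset.sum_congr rfl
      intro e _
      rw [MvPolynomial.eval_monomial, Finsupp.prod_fintype _ _ (fun _ => pow_zero _), ← ha e,
        Finset.sum_mul]
      apply Finset.sum_congr rfl
      intro i _
      rw [smul_mul_assoc]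
      congr 2
      apply Finset.prod_congr rfl
      intro l _
      rw [hxA']
      rfl
    have h3 := Matrix.eq_zero_of_mulVec_eq_zero hm (v := fun s : Ix => a s.2 s.1) (by
      funext j
      have h4 := congrArg (τ j) h2
      rw [map_sum, map_zero] at h4
      rw [Pi.zero_apply, ← h4, Matrix.mulVec, dotProduct]
      apply Finset.sum_congr rfl
      intro s _
      simp only [map_smul, map_mul, map_pow, map_prod, Matrix.of_apply, smul_eq_mul, evM]
      rw [mul_comm])
    rw [eq_sum_ex Q hdeg]
    apply Finset.sum_eq_zero
    intro e _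
    have h4 : Q.coeff (ex e) = 0 := by
      rw [← ha e]
      apply Finset.sum_eq_zero
      intro i _
      have := congrFun h3 (i, e)
      simp only [Pi.zero_apply] at this
      rw [this, zero_smul]
    rw [h4, MvPolynomial.monomial_zero]

end

end Pool.Agent.W245.EB
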