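import Pool.Agent.W245.EB.AD1
import Pool.Agent.H667R3.W7

set_option autoImplicit false
set_option linter.unusedVariables false
set_option linter.unusedSectionVars false
set_option linter.unusedSimpArgs false

/-!
# Growth of entire functions, and the quasi-periods are not proportional to the periods
-/

open Filter MvPolynomial
open scoped Topology PeriodPair

noncomputable section

namespace Pool.Agent.W245.EB

open H667R3

lemma Gr_deriv {f : ℂ → ℂ} (hf : Gr f) (hd : Differentiable ℂ f) : Gr (deriv f) := by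
  obtain ⟨C, hC, h⟩ := hf
  refine ⟨8 * C, by positivity, fun z => ?_⟩
  have h1 : ‖deriv f z‖ ≤ Real.exp (8 * C * (1 + ‖z‖ ^ 3)) / 1 := by
    apply Complex.norm_deriv_le_of_forall_mem_sphere_norm_le one_pos hd.diffContOnCl
    intro w hw
    refine (h w).trans (Real.exp_le_exp.mpr ?_)
    have h2 : ‖w‖ ≤ ‖z‖ + 1 := by
      have h3 : ‖w - z‖ = 1 := by
        rw [mem_sphere_iff_norm] at hw
        exact hw
      calc ‖w‖ = ‖z + (w - z)‖ := by rw [add_sub_cancel]
        _ ≤ ‖z‖ + ‖w - z‖ := norm_add_le _ _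
        _ = ‖z‖ + 1 := by rw [h3]
    have h3 : ‖w‖ ^ 3 ≤ (‖z‖ + 1) ^ 3 := by gcongr
    have h4 : (‖z‖ + 1) ^ 3 ≤ 4 * (‖z‖ ^ 3 + 1) := by
      nlinarith [norm_nonneg z, mul_nonneg (norm_nonneg z) (norm_nonneg z),
        mul_nonneg (add_nonneg (norm_nonneg z) zero_le_one) (mul_self_nonneg (‖z‖ - 1))]
    have h5 : 0 ≤ ‖z‖ ^ 3 := by positivity
    nlinarith
  simpa using h1

variable {n : ℕ}

lemma GrE.const (c : ℂ) : GrE (fun _ : Fin n → ℂ => c) := by
  refine ⟨‖c‖, norm_nonneg _, fun z => ?_⟩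
  have h1 := Real.add_one_le_exp (‖c‖ * (1 + ‖z‖ ^ 3))
  have h2 : 0 ≤ ‖c‖ * ‖z‖ ^ 3 := by positivity
  linarith

lemma GrE.mul {f g : (Fin n → ℂ) → ℂ} (hf : GrE f) (hg : GrE g) : GrE (fun z => f z * g z) := by
  obtain ⟨C, hC, h⟩ := hf
  obtain ⟨E, hE, h'⟩ := hg
  refine ⟨C + E, by positivity, fun z => ?_⟩
  rw [norm_mul, add_mul, Real.exp_add]
  exact mul_le_mul (h z) (h' z) (norm_nonneg _) (Real.exp_nonneg _)

lemma GrE.add {f g : (Fin n → ℂ) → ℂ} (hf : GrE f) (hg : GrE g) : GrE (fun z => f z + g z) := by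
  obtain ⟨C, hC, h⟩ := hf
  obtain ⟨E, hE, h'⟩ := hg
  refine ⟨1 + C + E, by positivity, fun z => ?_⟩
  have hu : 1 ≤ 1 + ‖z‖ ^ 3 := by
    have : 0 ≤ ‖z‖ ^ 3 := by positivity
    linarith
  set u := 1 + ‖z‖ ^ 3 with hudef
  have h1 : ‖f z‖ ≤ Real.exp ((C + E) * u) := (h z).trans (Real.exp_le_exp.mpr (by nlinarith))
  have h2 : ‖g z‖ ≤ Real.exp ((C + E) * u) := (h' z).trans (Real.exp_le_exp.mpr (by nlinarith))
  have h3 : (2 : ℝ) ≤ Real.exp u := by
    have := Real.add_one_le_exp u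
    linarith
  calc ‖f z + g z‖ ≤ ‖f z‖ + ‖g z‖ := norm_add_le _ _
    _ ≤ 2 * Real.exp ((C + E) * u) := by linarith
    _ ≤ Real.exp u * Real.exp ((C + E) * u) := by gcongr
    _ = Real.exp ((1 + C + E) * u) := by rw [← Real.exp_add]; congr 1; ring

lemma GrE.sum {ι : Type*} (s : Finset ι) (f : ι → (Fin n → ℂ) → ℂ) (hf : ∀ i ∈ s, GrE (f i)) :
    GrE (fun z => ∑ i ∈ s, f i z) := by
  classical
  induction s using Finset.induction_on with
  | empty => simpa using GrE.const 0
  | insert i s hi ih =>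
    simp only [Finset.sum_insert hi]
    exact (hf i (Finset.mem_insert_self _ _)).add (ih fun j hj => hf j (Finset.mem_insert_of_mem hj))

lemma GrE.prod {ι : Type*} (s : Finset ι) (f : ι → (Fin n → ℂ) → ℂ) (hf : ∀ i ∈ s, GrE (f i)) :
    GrE (fun z => ∏ i ∈ s, f i z) := by
  classical
  induction s using Finset.induction_on with
  | empty => simpa using GrE.const 1
  | insert i s hi ih =>
    simp only [Finset.prod_insert hi]
    exact (hf i (Finset.mem_insert_self _ _)).mul (ih fun j hj => hf j (Finset.mem_insert_of_mem hj))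

lemma GrE.coord (j : Fin n) : GrE (fun z : Fin n → ℂ => z j) := by
  refine ⟨1, zero_le_one, fun z => ?_⟩
  have h1 : ‖z j‖ ≤ ‖z‖ := norm_le_pi_norm z j
  have h2 := le_one_add_cube (norm_nonneg z)
  have h3 := Real.add_one_le_exp (1 * (1 + ‖z‖ ^ 3))
  linarith

lemma GrE.comp {f : ℂ → ℂ} (hf : Gr f) (j : Fin n) (q : ℂ) : GrE (fun z : Fin n → ℂ => f (z j + q)) := by
  obtain ⟨C, hC, h⟩ := hf.shift q
  refine ⟨C, hC, fun z => (h (z j)).trans (Real.exp_le_exp.mpr ?_)⟩
  have h1 : ‖z j‖ ≤ ‖z‖ := norm_le_pi_norm z j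
  have h2 : ‖z j‖ ^ 3 ≤ ‖z‖ ^ 3 := by gcongr
  apply mul_le_mul_of_nonneg_left _ hC
  linarith

lemma wpExcept_eq {L : PeriodPair} {z : ℂ} (hz : z ≠ 0) : ℘[L] z = ℘[L - (0 : ℂ)] z + 1 / z ^ 2 := by
  have := L.weierstrassPExcept_add (0 : L.lattice) z
  simp at this
  rw [← this]; simp

lemma zreg_zero (L : PeriodPair) : zreg L 0 = 0 := by
  rw [zreg, Pi'_zero, div_one]
  have h1 : Pi' L = fun z => Pi' L (-z) := by
    funext z
    rw [Pi'_neg]
  have h2 : deriv (Pi' L) 0 = - deriv (Pi' L) 0 := by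
    conv_lhs => rw [h1]
    rw [deriv_comp_neg (Pi' L), neg_zero]
  linear_combination (1 / 2 : ℂ) * h2

/-- the quasi-periods are not proportional to the periods -/
lemma exists_quasi_period (L : PeriodPair) {s ρ : ℂ} (h : s ≠ 0 ∨ ρ ≠ 0) :
    ∃ w ∈ L.lattice, s * eta L w + ρ * w ≠ 0 := by
  by_cases hs : s = 0
  · subst hs
    have hρ : ρ ≠ 0 := h.resolve_left (fun h => h rfl)
    refine ⟨L.ω₁, L.ω₁_mem_lattice, ?_⟩
    rw [zero_mul, zero_add]
    apply mul_ne_zero hρ
    intro h0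
    have := L.ω₁_div_two_notMem_lattice
    rw [h0, zero_div] at this
    exact this (zero_mem _)
  by_contra hcon
  push Not at hcon
  set c : ℂ := ρ / s with hc
  have hη : ∀ w ∈ L.lattice, eta L w = -(c * w) := by
    intro w hw
    have h1 := hcon w hw
    rw [hc]
    field_simp
    linear_combination h1
  -- the elliptic function
  set g : ℂ → ℂ := fun z => zeta L z + c * z with hg
  have hgper : ∀ z, z ∉ L.lattice → ∀ l ∈ L.lattice, g (z + l) = g z := by
    intro z hz l hl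
    rw [hg]
    simp only
    rw [zeta_add_coe L hz hl, hη l hl]
    ring
  have hgodd : ∀ z, g (-z) = - g z := by
    intro z
    rw [hg]
    simp only
    rw [zeta_neg]
    ring
  have hgd : ∀ z, z ∉ L.lattice → DifferentiableAt ℂ g z := by
    intro z hz
    exact (hasDerivAt_zeta L hz).differentiableAt.add (by fun_prop)
  have hzr : DifferentiableAt ℂ (zreg L) 0 := differentiableAt_zreg (by rw [Pi'_zero]; exact one_ne_zero)
  have hzan : AnalyticAt ℂ (zreg L) 0 := by
    have h1 : ∀ᶠ z in 𝓝 (0 : ℂ), Pi' L z ≠ 0 := by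
      apply ((differentiable_Pi' L).continuous.continuousAt).eventually_ne
      rw [Pi'_zero]
      exact one_ne_zero
    rw [Complex.analyticAt_iff_eventually_differentiableAt]
    filter_upwards [h1] with z hz
    exact differentiableAt_zreg hz
  have hds : DifferentiableAt ℂ (dslope (zreg L) 0) 0 := by
    obtain ⟨p, hp⟩ := hzan
    exact (hp.has_fpower_series_dslope_fslope).analyticAt.differentiableAt
  have hconst := eq_of_periodic L (fun z => g z ^ 2 - ℘[L] z) ?_ ?_
    (fun z => (zreg L z + c * z) ^ 2 + 2 * (dslope (zreg L) 0 z + c) - ℘[L - (0 : ℂ)] z) ?_ ?_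
  · have hhalf : ∀ w ∈ L.lattice, w / 2 ∉ L.lattice → g (w / 2) = 0 := by
      intro w hw hw2
      have h1 := hgper (-(w / 2)) (fun h => hw2 (by simpa using neg_mem h)) w hw
      rw [show -(w / 2) + w = w / 2 by ring, hgodd] at h1
      linear_combination (1 / 2 : ℂ) * h1
    have h1 := hconst (L.ω₁ / 2) (L.ω₂ / 2) L.ω₁_div_two_notMem_lattice L.ω₂_div_two_notMem_lattice
    rw [hhalf _ L.ω₁_mem_lattice L.ω₁_div_two_notMem_lattice,
      hhalf _ L.ω₂_mem_lattice L.ω₂_div_two_notMem_lattice] at h1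
    have h2 : ℘[L] (L.ω₁ / 2) = ℘[L] (L.ω₂ / 2) := by linear_combination (-1 : ℂ) * h1
    have h := (wp_eq_iff L L.ω₁_div_two_notMem_lattice L.ω₂_div_two_notMem_lattice).mp h2
    rcases h with h | h
    · exact half_add_half_notMem L h
    · exact half_sub_half_notMem L h
  · intro z hz
    exact ((hgd z hz).pow 2).sub (hasDerivAt_weierstrassP L hz).differentiableAt
  · intro z hz l hl
    rw [hgper z hz l hl, L.weierstrassP_add_coe z ⟨l, hl⟩]
  · have h4 := (L.analyticAt_weierstrassPExcept 0).differentiableAt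
    refine DifferentiableAt.sub (DifferentiableAt.add (DifferentiableAt.pow (hzr.add (by fun_prop)) 2)
      ((hds.add (by fun_prop)).const_mul 2)) h4
  · have h1 : ∀ᶠ z in 𝓝[≠] (0 : ℂ), z ∉ L.lattice := by
      filter_upwards [self_mem_nhdsWithin, mem_nhdsWithin_of_mem_nhds
        (L.compl_lattice_sdiff_singleton_mem_nhds 0)] with w hw hw'
      simp_all
    filter_upwards [h1, self_mem_nhdsWithin] with z hz hz0
    have hz0' : z ≠ 0 := hz0
    have e1 : zeta L z = zreg L z + 1 / z := by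
      rw [zreg_eq hz]; ring
    have e2 : dslope (zreg L) 0 z = zreg L z / z := by
      rw [dslope_of_ne _ hz0', slope_def_field, zreg_zero, sub_zero, sub_zero]
    rw [hg]
    simp only
    rw [e1, e2, wpExcept_eq hz0']
    field_simp
    ring

end Pool.Agent.W245.EB
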