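import Pool.Agent.W245.EB.Ell

set_option autoImplicit false
set_option linter.unusedVariables false
set_option linter.unusedSectionVars false
set_option linter.unusedSimpArgs false

/-!
# The function `ζ` on elliptic logarithms, modulo a field
-/

open Module Filter
open scoped Topology Nat PeriodPair

noncomputable section

namespace Pool.Agent.W245.EB

open H667R3

variable (L : PeriodPair)

open Classical in
/-- the function `ζ`, extended to the lattice by the quasi-periods -/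
def zt (u : ℂ) : ℂ := if u ∈ L.lattice then eta L u else zeta L u

variable {L}

lemma zt_of_mem {u : ℂ} (hu : u ∈ L.lattice) : zt L u = eta L u := by
  rw [zt, if_pos hu]

lemma zt_of_notMem {u : ℂ} (hu : u ∉ L.lattice) : zt L u = zeta L u := by
  rw [zt, if_neg hu]

lemma zt_zero : zt L 0 = 0 := by
  rw [zt_of_mem (zero_mem _), eta_zero]

lemma zt_add_lattice {u w : ℂ} (hw : w ∈ L.lattice) : zt L (u + w) = zt L u + eta L w := by
  by_cases hu : u ∈ L.lattice
  · rw [zt_of_mem hu, zt_of_mem (add_mem hu hw), eta_add L hu hw]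
  · rw [zt_of_notMem hu, zt_of_notMem (fun h => hu ((add_mem_lattice_iff L hw).1 h)),
      zeta_add_coe L hu hw]

lemma zt_neg (u : ℂ) : zt L (-u) = - zt L u := by
  by_cases hu : u ∈ L.lattice
  · rw [zt_of_mem hu, zt_of_mem (neg_mem hu), eta_neg L hu]
  · rw [zt_of_notMem hu, zt_of_notMem (fun h => hu (by simpa using neg_mem h)), zeta_neg]

/-- the function `ζ` is additive modulo the field -/
lemma zt_add {K : Subfield ℂ} (hg : L.g₂ ∈ K) {u v : ℂ} (hu : u ∈ GK L K) (hv : v ∈ GK L K) :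
    zt L (u + v) - zt L u - zt L v ∈ K := by
  by_cases hv0 : v ∈ L.lattice
  · rw [zt_add_lattice hv0, zt_of_mem hv0]
    have : zt L u + eta L v - zt L u - eta L v = 0 := by ring
    rw [this]
    exact zero_mem K
  by_cases hu0 : u ∈ L.lattice
  · rw [add_comm u v, zt_add_lattice hu0, zt_of_mem hu0]
    have : zt L v + eta L u - eta L u - zt L v = 0 := by ring
    rw [this]
    exact zero_mem K
  by_cases huv : u + v ∈ L.lattice
  · have e1 : zt L v = - zt L u + zt L (u + v) := by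
      have h1 : v = -u + (u + v) := by ring
      conv_lhs => rw [h1]
      rw [zt_add_lattice huv, zt_neg, zt_of_mem huv]
    have : zt L (u + v) - zt L u - zt L v = 0 := by
      rw [e1]; ring
    rw [this]
    exact zero_mem K
  have hu' : ℘[L] u ∈ K ∧ ℘'[L] u ∈ K := hu.resolve_left hu0
  have hv' : ℘[L] v ∈ K ∧ ℘'[L] v ∈ K := hv.resolve_left hv0
  obtain ⟨X1, Y1⟩ := hu'
  obtain ⟨X2, Y2⟩ := hv'
  by_cases hd : u - v ∈ L.lattice
  · have e : u + v = 2 * v + (u - v) := by ring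
    have h2 : 2 * v ∉ L.lattice := by
      intro h
      exact huv (by rw [e]; exact add_mem h hd)
    have e1 : zt L u = zt L v + eta L (u - v) := by
      have h1 : u = v + (u - v) := by ring
      conv_lhs => rw [h1]
      rw [zt_add_lattice hd]
    have e2 : zt L (u + v) = 2 * zt L v + (6 * ℘[L] v ^ 2 - L.g₂ / 2) / (2 * ℘'[L] v) +
        eta L (u - v) := by
      rw [e, zt_add_lattice hd, zt_of_notMem h2, zeta_two L h2, zt_of_notMem hv0]
    have : zt L (u + v) - zt L u - zt L v = (6 * ℘[L] v ^ 2 - L.g₂ / 2) / (2 * ℘'[L] v) := by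
      rw [e2, e1]; ring
    rw [this]
    (repeat (first | assumption | (exact one_mem _) | (exact ofNat_mem _ _) | (apply div_mem) | (apply mul_mem) | (apply sub_mem) | (apply add_mem) | (apply neg_mem) | (apply pow_mem)))
  · have : zt L (u + v) - zt L u - zt L v = (℘'[L] u - ℘'[L] v) / (2 * (℘[L] u - ℘[L] v)) := by
      rw [zt_of_notMem huv, zt_of_notMem hu0, zt_of_notMem hv0, zeta_add L hu0 hv0 huv hd]
      ring
    rw [this]
    (repeat (first | assumption | (exact one_mem _) | (exact ofNat_mem _ _) | (apply div_mem) | (apply mul_mem) | (apply sub_mem) | (apply add_mem) | (apply neg_mem) | (apply pow_mem)))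

/-- the group of pairs `(u, a)` with `u` an elliptic logarithm of a point over `K` and `a`
congruent to `ζ(u)` modulo `K` -/
def HK (L : PeriodPair) (K : Subfield ℂ) (hg : L.g₂ ∈ K) (hh : HalfMem L K) :
    AddSubgroup (ℂ × ℂ) where
  carrier := {p | p.1 ∈ GK L K ∧ zt L p.1 - p.2 ∈ K}
  add_mem' := by
    rintro ⟨u, a⟩ ⟨v, b⟩ ⟨hu, ha⟩ ⟨hv, hb⟩
    refine ⟨GK_add hg hh hu hv, ?_⟩
    have h1 := zt_add hg hu hv
    have h2 := add_mem (add_mem h1 ha) hb
    have e : zt L (u + v) - (a + b) = zt L (u + v) - zt L u - zt L v + (zt L u - a) + (zt L v - b) := by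
      ring
    show zt L (u + v) - (a + b) ∈ K
    rw [e]
    exact h2
  zero_mem' := by
    refine ⟨GK_zero, ?_⟩
    show zt L 0 - 0 ∈ K
    rw [zt_zero, sub_zero]
    exact zero_mem K
  neg_mem' := by
    rintro ⟨u, a⟩ ⟨hu, ha⟩
    refine ⟨GK_neg hu, ?_⟩
    show zt L (-u) - (-a) ∈ K
    rw [zt_neg]
    have e : - zt L u - (-a) = -(zt L u - a) := by ring
    rw [e]
    exact neg_mem ha

lemma mem_HK {K : Subfield ℂ} {hg : L.g₂ ∈ K} {hh : HalfMem L K} {p : ℂ × ℂ} :
    p ∈ HK L K hg hh ↔ p.1 ∈ GK L K ∧ zt L p.1 - p.2 ∈ K := Iff.rfl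

lemma self_mem_HK {K : Subfield ℂ} {hg : L.g₂ ∈ K} {hh : HalfMem L K} {u : ℂ} (hu : u ∈ GK L K) :
    (u, zt L u) ∈ HK L K hg hh := by
  rw [mem_HK]
  refine ⟨hu, ?_⟩
  simp only [sub_self]
  exact zero_mem K

/-- integral combinations -/
lemma zt_sum {K : Subfield ℂ} (hg : L.g₂ ∈ K) (hh : HalfMem L K) {ι : Type*} (s : Finset ι)
    (c : ι → ℤ) (u : ι → ℂ) (hu : ∀ i ∈ s, u i ∈ GK L K) :
    zt L (∑ i ∈ s, (c i : ℂ) * u i) - ∑ i ∈ s, (c i : ℂ) * zt L (u i) ∈ K := by
  have h1 : ∑ i ∈ s, c i • ((u i, zt L (u i)) : ℂ × ℂ) ∈ HK L K hg hh :=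
    sum_mem fun i hi => zsmul_mem (self_mem_HK (hu i hi)) _
  rw [mem_HK] at h1
  have e1 : (∑ i ∈ s, c i • ((u i, zt L (u i)) : ℂ × ℂ)).1 = ∑ i ∈ s, (c i : ℂ) * u i := by
    rw [Prod.fst_sum]
    apply Finset.sum_congr rfl
    intro i _
    simp
  have e2 : (∑ i ∈ s, c i • ((u i, zt L (u i)) : ℂ × ℂ)).2 = ∑ i ∈ s, (c i : ℂ) * zt L (u i) := by
    rw [Prod.snd_sum]
    apply Finset.sum_congr rfl
    intro i _
    simp
  rw [e1, e2] at h1
  exact h1.2

end Pool.Agent.W245.EB
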