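import Pool.Agent.W245.EB.Psi
import Pool.Agent.W245.EB.Zt
import Pool.Agent.W245.EB.Gz

set_option autoImplicit false
set_option linter.unusedVariables false
set_option linter.unusedSectionVars false
set_option linter.unusedSimpArgs false

/-!
# Complex multiplication and the function `ζ`
-/

open Filter
open scoped Topology PeriodPair

noncomputable section

namespace Pool.Agent.W245.EB

open H667R3

lemma ω₁_ne_zero (L : PeriodPair) : L.ω₁ ≠ 0 := by
  intro h
  have := L.ω₁_div_two_notMem_lattice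
  rw [h, zero_div] at this
  exact this (zero_mem _)

lemma ω_indep (L : PeriodPair) {a b : ℤ} (h : (a : ℂ) * L.ω₁ + b * L.ω₂ = 0) : a = 0 ∧ b = 0 := by
  have h1 := LinearIndependent.pair_iff.1 L.indep (a : ℝ) (b : ℝ) (by
    simp only [Complex.real_smul]
    push_cast
    exact h)
  exact ⟨by exact_mod_cast h1.1, by exact_mod_cast h1.2⟩

/-- the lattice `α⁻¹ Ω` -/
def scL (L : PeriodPair) (α : ℂ) (hα : α ≠ 0) : PeriodPair where
  ω₁ := α⁻¹ * L.ω₁
  ω₂ := α⁻¹ * L.ω₂
  indep := by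
    rw [LinearIndependent.pair_iff]
    intro s t h
    apply LinearIndependent.pair_iff.1 L.indep s t
    simp only [Complex.real_smul] at h ⊢
    have h1 : α⁻¹ * ((s : ℂ) * L.ω₁ + t * L.ω₂) = 0 := by linear_combination h
    exact (mul_eq_zero.1 h1).resolve_left (inv_ne_zero hα)

lemma mem_scL {L : PeriodPair} {α : ℂ} {hα : α ≠ 0} {x : ℂ} :
    x ∈ (scL L α hα).lattice ↔ α * x ∈ L.lattice := by
  rw [PeriodPair.mem_lattice, PeriodPair.mem_lattice]
  show (∃ m n : ℤ, (m : ℂ) * (α⁻¹ * L.ω₁) + n * (α⁻¹ * L.ω₂) = x) ↔ _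
  constructor
  · rintro ⟨m, n, h⟩
    refine ⟨m, n, ?_⟩
    rw [← h]
    field_simp
  · rintro ⟨m, n, h⟩
    refine ⟨m, n, ?_⟩
    have h1 : x = α⁻¹ * (α * x) := by field_simp
    rw [h1, ← h]
    ring

variable {L : PeriodPair} {α : ℂ}

/-- a quadratic equation for the multiplier -/
lemma exists_det (hα : α ≠ 0) (hm : ∀ w ∈ L.lattice, α * w ∈ L.lattice) :
    ∃ T Δ : ℤ, Δ ≠ 0 ∧ α * (T - α) = Δ := by
  obtain ⟨a, b, h1⟩ := PeriodPair.mem_lattice.1 (hm _ L.ω₁_mem_lattice)
  obtain ⟨c, d, h2⟩ := PeriodPair.mem_lattice.1 (hm _ L.ω₂_mem_lattice)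
  have h0 := ω₁_ne_zero L
  have h3 : α * ((a + d : ℤ) - α) = (a * d - b * c : ℤ) := by
    apply mul_right_cancel₀ h0
    push_cast
    linear_combination (α - d) * h1 + b * h2
  refine ⟨a + d, a * d - b * c, ?_, h3⟩
  intro hΔ
  rw [hΔ] at h3
  have h4 : α = ((a + d : ℤ) : ℂ) := by
    have h5 : ((a + d : ℤ) : ℂ) - α = 0 := by
      apply (mul_eq_zero.1 (h3.trans Int.cast_zero)).resolve_left hα
    linear_combination -h5
  push_cast at h4
  rw [h4] at h1 h2
  have h5 := ω_indep L (a := d) (b := -b) (by push_cast; linear_combination -h1)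
  have h6 := ω_indep L (a := -c) (b := a) (by push_cast; linear_combination -h2)
  apply hα
  rw [h4, h5.1, h6.2]
  simp

lemma exists_tors (hα : α ≠ 0) (hm : ∀ w ∈ L.lattice, α * w ∈ L.lattice) :
    ∃ m : ℕ, 0 < m ∧ ∀ x, α * x ∈ L.lattice → (m : ℂ) * x ∈ L.lattice := by
  obtain ⟨T, Δ, hΔ, h⟩ := exists_det hα hm
  refine ⟨Δ.natAbs, Int.natAbs_pos.2 hΔ, fun x hx => ?_⟩
  have h1 : (Δ : ℂ) * x ∈ L.lattice := by
    rw [← h]
    have h2 := sub_mem (intCast_mul_mem L hx T) (hm _ hx)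
    convert h2 using 1
    ring
  rcases Int.natAbs_eq Δ with h2 | h2
  · have : ((Δ.natAbs : ℕ) : ℂ) = (Δ : ℂ) := by
      conv_rhs => rw [h2]
      simp
    rwa [this]
  · have : ((Δ.natAbs : ℕ) : ℂ) = -(Δ : ℂ) := by
      conv_rhs => rw [h2]
      simp
    rw [this, neg_mul]
    exact neg_mem h1

lemma alg_of_mul (hm : ∀ w ∈ L.lattice, α * w ∈ L.lattice) : IsAlgebraic ℚ α := by
  by_cases hα : α = 0
  · rw [hα]; exact isAlgebraic_zero
  obtain ⟨T, Δ, hΔ, h⟩ := exists_det hα hm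
  refine ⟨Polynomial.X ^ 2 - Polynomial.C (T : ℚ) * Polynomial.X + Polynomial.C (Δ : ℚ), ?_, ?_⟩
  · intro h0
    have := congrArg (fun p => Polynomial.coeff p 2) h0
    simp only [Polynomial.coeff_add, Polynomial.coeff_sub, Polynomial.coeff_C_mul,
      Polynomial.coeff_X_pow, Polynomial.coeff_X, Polynomial.coeff_C, Polynomial.coeff_zero] at this
    norm_num at this
  · simp only [map_add, map_sub, map_mul, map_pow, Polynomial.aeval_X, Polynomial.aeval_C]
    simp only [eq_ratCast, Rat.cast_intCast]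
    linear_combination -h

/-- the quotient -/
abbrev Qt (L : PeriodPair) : Type := ℂ ⧸ L.lattice.toAddSubgroup

lemma mk_eq_iff {u v : ℂ} : (QuotientAddGroup.mk u : Qt L) = QuotientAddGroup.mk v ↔
    u - v ∈ L.lattice := by
  rw [QuotientAddGroup.eq]
  constructor
  · intro h
    have h1 : -(-u + v) ∈ L.lattice := neg_mem h
    have e : u - v = -(-u + v) := by ring
    rw [e]
    exact h1
  · intro h
    have h1 : -(u - v) ∈ L.lattice := neg_mem h
    have e : -u + v = -(u - v) := by ring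
    rw [e]
    exact h1

lemma out_sub_mem (u : ℂ) : (QuotientAddGroup.mk u : Qt L).out - u ∈ L.lattice := by
  rw [← mk_eq_iff]
  exact QuotientAddGroup.out_eq' _

/-- the kernel of the multiplication -/
def kerS (L : PeriodPair) (α : ℂ) : Set (Qt L) := {x | α * x.out ∈ L.lattice}

lemma mk_mem_kerS (hm : ∀ w ∈ L.lattice, α * w ∈ L.lattice) {u : ℂ} :
    (QuotientAddGroup.mk u : Qt L) ∈ kerS L α ↔ α * u ∈ L.lattice := by
  have h1 := hm _ (out_sub_mem (L := L) u)
  show α * (QuotientAddGroup.mk u : Qt L).out ∈ L.lattice ↔ _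
  have e : α * (QuotientAddGroup.mk u : Qt L).out =
      α * u + α * ((QuotientAddGroup.mk u : Qt L).out - u) := by ring
  rw [e, add_mem_lattice_iff L h1]

lemma kerS_finite (hα : α ≠ 0) (hm : ∀ w ∈ L.lattice, α * w ∈ L.lattice) : (kerS L α).Finite := by
  obtain ⟨m, hm0, h⟩ := exists_tors hα hm
  have hmC : (m : ℂ) ≠ 0 := by exact_mod_cast hm0.ne'
  apply (Set.finite_range (fun p : Fin m × Fin m =>
    (QuotientAddGroup.mk ((((p.1 : ℕ) : ℂ) * L.ω₁ + ((p.2 : ℕ) : ℂ) * L.ω₂) / m) : Qt L))).subset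
  intro x hx
  obtain ⟨a, b, hab⟩ := PeriodPair.mem_lattice.1 (h _ hx)
  have hmz : (0 : ℤ) < m := by exact_mod_cast hm0
  have ha := Int.emod_nonneg a hmz.ne'
  have ha' := Int.emod_lt_of_pos a hmz
  have hb := Int.emod_nonneg b hmz.ne'
  have hb' := Int.emod_lt_of_pos b hmz
  refine ⟨(⟨(a % m).toNat, by omega⟩, ⟨(b % m).toNat, by omega⟩), ?_⟩
  simp only
  have e1 : (((a % m).toNat : ℕ) : ℂ) = ((a % m : ℤ) : ℂ) := by
    have := Int.toNat_of_nonneg ha
    exact_mod_cast this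
  have e2 : (((b % m).toNat : ℕ) : ℂ) = ((b % m : ℤ) : ℂ) := by
    have := Int.toNat_of_nonneg hb
    exact_mod_cast this
  rw [e1, e2]
  conv_rhs => rw [← QuotientAddGroup.out_eq' x]
  rw [mk_eq_iff, PeriodPair.mem_lattice]
  refine ⟨-(a / m), -(b / m), ?_⟩
  have e3 : (a : ℂ) = ((a % m : ℤ) : ℂ) + m * ((a / m : ℤ) : ℂ) := by
    have := Int.emod_add_mul_ediv a m
    have h2 : ((a % m + m * (a / m) : ℤ) : ℂ) = (a : ℂ) := by rw [this]
    push_cast at h2
    exact h2.symm
  have e4 : (b : ℂ) = ((b % m : ℤ) : ℂ) + m * ((b / m : ℤ) : ℂ) := by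
    have := Int.emod_add_mul_ediv b m
    have h2 : ((b % m + m * (b / m) : ℤ) : ℂ) = (b : ℂ) := by rw [this]
    push_cast at h2
    exact h2.symm
  have e5 : Quotient.out x = ((a : ℂ) * L.ω₁ + b * L.ω₂) / m := by
    rw [hab]
    field_simp
  rw [e5]
  conv_rhs => rw [e3, e4]
  push_cast
  field_simp
  ring

/-- the kernel as a finite set -/
def ker (hα : α ≠ 0) (hm : ∀ w ∈ L.lattice, α * w ∈ L.lattice) : Finset (Qt L) :=
  (kerS_finite hα hm).toFinset

lemma mem_ker {hα : α ≠ 0} {hm : ∀ w ∈ L.lattice, α * w ∈ L.lattice} {x : Qt L} :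
    x ∈ ker hα hm ↔ α * x.out ∈ L.lattice := by
  rw [ker, Set.Finite.mem_toFinset]
  rfl

lemma mk_mem_ker {hα : α ≠ 0} {hm : ∀ w ∈ L.lattice, α * w ∈ L.lattice} {u : ℂ} :
    (QuotientAddGroup.mk u : Qt L) ∈ ker hα hm ↔ α * u ∈ L.lattice := by
  rw [ker, Set.Finite.mem_toFinset]
  exact mk_mem_kerS hm

lemma ker_shift (hα : α ≠ 0) (hm : ∀ w ∈ L.lattice, α * w ∈ L.lattice) (F : ℂ → ℂ)
    (hF : ∀ u, ∀ w ∈ L.lattice, F (u + w) = F u) {t : ℂ} (ht : α * t ∈ L.lattice) (z : ℂ) :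
    ∑ x ∈ ker hα hm, F (z + t - x.out) = ∑ x ∈ ker hα hm, F (z - x.out) := by
  refine Finset.sum_bij' (fun x _ => x - (QuotientAddGroup.mk t : Qt L))
    (fun x _ => x + (QuotientAddGroup.mk t : Qt L)) ?_ ?_ ?_ ?_ ?_
  · intro x hx
    rw [mem_ker] at hx
    have h1 : x - (QuotientAddGroup.mk t : Qt L) = (QuotientAddGroup.mk (x.out - t) : Qt L) := by
      rw [QuotientAddGroup.mk_sub, QuotientAddGroup.out_eq']
    rw [h1, mk_mem_ker, mul_sub]
    exact sub_mem hx ht
  · intro x hx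
    rw [mem_ker] at hx
    have h1 : x + (QuotientAddGroup.mk t : Qt L) = (QuotientAddGroup.mk (x.out + t) : Qt L) := by
      rw [QuotientAddGroup.mk_add, QuotientAddGroup.out_eq']
    rw [h1, mk_mem_ker, mul_add]
    exact add_mem hx ht
  · intro x _
    simp
  · intro x _
    simp
  · intro x hx
    have h1 : t - x.out + (x - (QuotientAddGroup.mk t : Qt L)).out ∈ L.lattice := by
      have h2 : (QuotientAddGroup.mk ((x - (QuotientAddGroup.mk t : Qt L)).out) : Qt L) =
          QuotientAddGroup.mk (x.out - t) := by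
        rw [QuotientAddGroup.out_eq', QuotientAddGroup.mk_sub, QuotientAddGroup.out_eq']
      rw [mk_eq_iff] at h2
      convert h2 using 1
      ring
    have e : z + t - x.out = (z - (x - (QuotientAddGroup.mk t : Qt L)).out) +
        (t - x.out + (x - (QuotientAddGroup.mk t : Qt L)).out) := by ring
    rw [e, hF _ _ h1]

lemma sub_out_notMem {hα : α ≠ 0} {hm : ∀ w ∈ L.lattice, α * w ∈ L.lattice} {z : ℂ}
    (hz : α * z ∉ L.lattice) {x : Qt L} (hx : x ∈ ker hα hm) : z - x.out ∉ L.lattice := by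
  intro h
  apply hz
  rw [mem_ker] at hx
  have h1 := add_mem (hm _ h) hx
  rwa [show α * (z - x.out) + α * x.out = α * z by ring] at h1

lemma zero_mem_ker (hα : α ≠ 0) (hm : ∀ w ∈ L.lattice, α * w ∈ L.lattice) :
    (0 : Qt L) ∈ ker hα hm := by
  have : (0 : Qt L) = QuotientAddGroup.mk 0 := rfl
  rw [this, mk_mem_ker, mul_zero]
  exact zero_mem _

/-- the multiplication formula for `℘`, up to a constant -/
lemma wp_mul_const (hα : α ≠ 0) (hm : ∀ w ∈ L.lattice, α * w ∈ L.lattice) :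
    ∀ z w, α * z ∉ L.lattice → α * w ∉ L.lattice →
      α ^ 2 * ℘[L] (α * z) - ∑ x ∈ ker hα hm, ℘[L] (z - x.out) =
      α ^ 2 * ℘[L] (α * w) - ∑ x ∈ ker hα hm, ℘[L] (w - x.out) := by
  classical
  have hconst := eq_of_periodic (scL L α hα)
    (fun z => α ^ 2 * ℘[L] (α * z) - ∑ x ∈ ker hα hm, ℘[L] (z - x.out)) ?_ ?_
    (fun z => α ^ 2 * ℘[L - (0 : ℂ)] (α * z) - ℘[L - (0 : ℂ)] z -
      ∑ x ∈ (ker hα hm).erase 0, ℘[L] (z - x.out)) ?_ ?_
  · intro z w hz hw
    exact hconst z w (fun h => hz (mem_scL.1 h)) (fun h => hw (mem_scL.1 h))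
  · intro z hz
    have hz' : α * z ∉ L.lattice := fun h => hz (mem_scL.2 h)
    apply DifferentiableAt.sub
    · apply DifferentiableAt.const_mul
      exact DifferentiableAt.comp z (hasDerivAt_weierstrassP L hz').differentiableAt (by fun_prop)
    · apply DifferentiableAt.fun_sum
      intro x hx
      exact DifferentiableAt.comp z (f := fun z => z - x.out)
        (hasDerivAt_weierstrassP L (sub_out_notMem hz' hx)).differentiableAt (by fun_prop)
  · intro z hz l hl
    have hl' : α * l ∈ L.lattice := mem_scL.1 hl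
    have h1 := ker_shift hα hm ℘[L] (fun u w hw => wp_add_lattice L hw) hl' z
    rw [h1, mul_add, wp_add_lattice L hl']
  · have h4 := (L.analyticAt_weierstrassPExcept 0).differentiableAt
    apply DifferentiableAt.sub
    · apply DifferentiableAt.sub
      · apply DifferentiableAt.const_mul
        have h5 : DifferentiableAt ℂ ℘[L - (0 : ℂ)] (α * 0) := by rw [mul_zero]; exact h4
        exact DifferentiableAt.comp (0 : ℂ) h5 (by fun_prop)
      · exact h4
    · apply DifferentiableAt.fun_sum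
      intro x hx
      rw [Finset.mem_erase] at hx
      have h6 : (0 : ℂ) - x.out ∉ L.lattice := by
        intro h
        apply hx.1
        rw [← QuotientAddGroup.out_eq' x]
        have : (0 : Qt L) = QuotientAddGroup.mk 0 := rfl
        rw [this, eq_comm, mk_eq_iff]
        exact h
      exact DifferentiableAt.comp (0 : ℂ) (f := fun z => z - x.out)
        (hasDerivAt_weierstrassP L h6).differentiableAt (by fun_prop)
  · have h1 : ∀ᶠ z in 𝓝[≠] (0 : ℂ), z ∉ (scL L α hα).lattice := by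
      filter_upwards [self_mem_nhdsWithin, mem_nhdsWithin_of_mem_nhds
        ((scL L α hα).compl_lattice_sdiff_singleton_mem_nhds 0)] with w hw hw'
      simp_all
    filter_upwards [h1, self_mem_nhdsWithin] with z hz hz0
    have hz0' : z ≠ 0 := hz0
    rw [← Finset.add_sum_erase _ _ (zero_mem_ker hα hm)]
    have e0 : ℘[L] (z - (0 : Qt L).out) = ℘[L] z := by
      have h2 := out_sub_mem (L := L) 0
      rw [sub_zero] at h2
      have h3 : -(0 : Qt L).out ∈ L.lattice := neg_mem h2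
      rw [sub_eq_add_neg, wp_add_lattice L h3]
    rw [e0, wpExcept_eq (mul_ne_zero hα hz0'), wpExcept_eq hz0']
    field_simp
    ring

end Pool.Agent.W245.EB
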