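import Pool.Agent.W245.EB.Poly
import Pool.Agent.H667R3.D2

set_option autoImplicit false
set_option linter.unusedVariables false
set_option linter.unusedSectionVars false

/-!
# Data for the theorem of Schneider and Lang on Cartesian products
-/

open Filter MvPolynomial NumberField
open scoped Topology PeriodPair

noncomputable section

namespace Pool.Agent.W245.EB

open H667R3

/-- data for the transcendence argument -/
structure SL (n : ℕ) where
  L : PeriodPair
  K : Type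
  [fK : Field K]
  [nK : NumberField K]
  ph : K →+* ℂ
  I : Type
  [fI : Fintype I]
  [dI : DecidableEq I]
  cardI : Fintype.card I = n + 1
  ell : I → (Fin n → ℂ) →L[ℂ] ℂ
  q : ℂ
  b : I → Fin n → K
  hb : ∀ i j, ell i (Pi.single j 1) = ph (b i j)
  g : K
  hg : ph g = L.g₂
  U : Fin n → Fin n → ℂ
  hU : LinearIndependent ℂ U
  x : I → (Fin n → ℕ) → K
  y : I → (Fin n → ℕ) → K
  hx : ∀ i s, ph (x i s) = ℘[L] (ell i (∑ k, (s k : ℂ) • U k) + q)
  hy : ∀ i s, ph (y i s) = ℘'[L] (ell i (∑ k, (s k : ℂ) • U k) + q)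
  hne : ∀ i (s : Fin n → ℕ), 2 * (ell i (∑ k, (s k : ℂ) • U k) + q) ∉ L.lattice
  indep : ∀ P : MvPolynomial I ℂ, P ≠ 0 → ∃ z, (∀ i, ell i z + q ∉ L.lattice) ∧
    MvPolynomial.eval (fun i => ℘[L] (ell i z + q)) P ≠ 0

attribute [instance] SL.fK SL.nK SL.fI SL.dI

variable {n : ℕ} (c : SL n)

namespace SL

/-- the grid points -/
def pt {S : ℕ} (s : Fin n → Fin S) : Fin n → ℂ := ∑ k, ((s k : ℕ) : ℂ) • c.U k

/-- the domain of the functions -/
def O : Set (Fin n → ℂ) := {z | ∀ i, 2 * (c.ell i z + c.q) ∉ c.L.lattice}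

lemma isOpen_O : IsOpen c.O := by
  have : c.O = ⋂ i, (fun z => 2 * (c.ell i z + c.q)) ⁻¹' (c.L.lattice : Set ℂ)ᶜ := by
    ext z
    simp [O]
  rw [this]
  apply isOpen_iInter_of_finite
  intro i
  exact (isOpen_compl c.L).preimage (by fun_prop)

lemma pt_mem {S : ℕ} (s : Fin n → Fin S) : c.pt s ∈ c.O := fun i => c.hne i (fun k => s k)

lemma O_notMem {z : Fin n → ℂ} (hz : z ∈ c.O) (i : c.I) : c.ell i z + c.q ∉ c.L.lattice :=
  two_mul_notMem_of c.L (hz i)

/-- the functions -/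
def val (d : ℤ) (p : c.I × Bool) (z : Fin n → ℂ) : ℂ :=
  if p.2 then (d : ℂ) ^ 3 * ℘'[c.L] (c.ell p.1 z + c.q) else (d : ℂ) ^ 2 * ℘[c.L] (c.ell p.1 z + c.q)

lemma hasFDerivAt_lin (i : c.I) (z : Fin n → ℂ) :
    HasFDerivAt (fun z => c.ell i z + c.q) (c.ell i) z := (c.ell i).hasFDerivAt.add_const _

lemma analytic_lin (i : c.I) (z : Fin n → ℂ) : AnalyticAt ℂ (fun z => c.ell i z + c.q) z :=
  ((c.ell i).analyticAt z).add analyticAt_const

lemma analytic_comp {f : ℂ → ℂ} (i : c.I) {z : Fin n → ℂ} (hf : AnalyticAt ℂ f (c.ell i z + c.q)) :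
    AnalyticAt ℂ (fun z => f (c.ell i z + c.q)) z :=
  AnalyticAt.comp hf (c.analytic_lin i z)

lemma analyticAt_wp {u : ℂ} (hu : u ∉ c.L.lattice) : AnalyticAt ℂ ℘[c.L] u :=
  (c.L.differentiableOn_weierstrassP.analyticOnNhd (isOpen_compl c.L)) u hu

lemma analyticAt_wp' {u : ℂ} (hu : u ∉ c.L.lattice) : AnalyticAt ℂ ℘'[c.L] u := by
  have h1 := (c.analyticAt_wp hu).deriv
  have h2 : deriv ℘[c.L] =ᶠ[𝓝 u] ℘'[c.L] := by
    filter_upwards [(isOpen_compl c.L).mem_nhds hu] with x hx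
    exact (hasDerivAt_weierstrassP c.L hx).deriv
  exact h1.congr h2

lemma analytic_val (d : ℤ) (p : c.I × Bool) : AnalyticOnNhd ℂ (c.val d p) c.O := by
  intro z hz
  have hz' := c.O_notMem hz p.1
  by_cases hp : p.2 = true
  · have : c.val d p = fun z => (d : ℂ) ^ 3 * ℘'[c.L] (c.ell p.1 z + c.q) := by
      funext z
      simp [val, hp]
    rw [this]
    exact analyticAt_const.mul (c.analytic_comp p.1 (c.analyticAt_wp' hz'))
  · have : c.val d p = fun z => (d : ℂ) ^ 2 * ℘[c.L] (c.ell p.1 z + c.q) := by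
      funext z
      simp [val, hp]
    rw [this]
    exact analyticAt_const.mul (c.analytic_comp p.1 (c.analyticAt_wp hz'))

lemma D_comp {f : ℂ → ℂ} {f' : ℂ} (i : c.I) (z v : Fin n → ℂ) (a : ℂ)
    (hf : HasDerivAt f f' (c.ell i z + c.q)) :
    D v (fun z => a * f (c.ell i z + c.q)) z = a * (f' * c.ell i v) := by
  have h1 := (hf.comp_hasFDerivAt z (c.hasFDerivAt_lin i z)).const_mul a
  simp only [D]
  have h2 : HasFDerivAt (fun z => a * f (c.ell i z + c.q)) (a • f' • c.ell i) z := h1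
  rw [h2.fderiv]
  simp

/-- clearing denominators -/
structure Den (S : ℕ) where
  d : ℤ
  hd : d ≠ 0
  X : c.I × Bool → (Fin n → Fin S) → 𝓞 c.K
  hX : ∀ p s, c.ph (X p s : c.K) = c.val d p (c.pt s)
  Bd : c.I → Fin n → 𝓞 c.K
  hBd : ∀ i j, c.ph (Bd i j : c.K) = d * c.ph (c.b i j)
  gd : 𝓞 c.K
  hgd : c.ph (gd : c.K) = d ^ 4 * (c.L.g₂ / 2)

theorem exists_den (S : ℕ) : Nonempty (c.Den S) := by
  classical
  -- the finite set of numbers
  let F1 : Finset c.K := Finset.univ.image (fun p : c.I × (Fin n → Fin S) => c.x p.1 (fun k => p.2 k))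
  let F2 : Finset c.K := Finset.univ.image (fun p : c.I × (Fin n → Fin S) => c.y p.1 (fun k => p.2 k))
  let F3 : Finset c.K := Finset.univ.image (fun p : c.I × Fin n => c.b p.1 p.2)
  obtain ⟨d, hd, hint⟩ := exists_integral_multiples ℤ ℚ (F1 ∪ F2 ∪ F3 ∪ {c.g / 2})
  have hdi : ∀ k : ℕ, IsIntegral ℤ ((d : c.K) ^ k) := fun k => (isIntegral_algebraMap (x := d)).pow k
  have hF1 : ∀ i (s : Fin n → Fin S), IsIntegral ℤ ((d : c.K) * c.x i (fun k => s k)) := by
    intro i s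
    have := hint (c.x i (fun k => s k)) (by
      simp only [Finset.mem_union]
      exact Or.inl (Or.inl (Or.inl (Finset.mem_image.2 ⟨(i, s), Finset.mem_univ _, rfl⟩))))
    rwa [zsmul_eq_mul] at this
  have hF2 : ∀ i (s : Fin n → Fin S), IsIntegral ℤ ((d : c.K) * c.y i (fun k => s k)) := by
    intro i s
    have := hint (c.y i (fun k => s k)) (by
      simp only [Finset.mem_union]
      exact Or.inl (Or.inl (Or.inr (Finset.mem_image.2 ⟨(i, s), Finset.mem_univ _, rfl⟩))))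
    rwa [zsmul_eq_mul] at this
  have hF3 : ∀ i j, IsIntegral ℤ ((d : c.K) * c.b i j) := by
    intro i j
    have := hint (c.b i j) (by
      simp only [Finset.mem_union]
      exact Or.inl (Or.inr (Finset.mem_image.2 ⟨(i, j), Finset.mem_univ _, rfl⟩)))
    rwa [zsmul_eq_mul] at this
  have hF4 : IsIntegral ℤ ((d : c.K) * (c.g / 2)) := by
    have := hint (c.g / 2) (by simp)
    rwa [zsmul_eq_mul] at this
  refine ⟨⟨d, hd, fun p s => if p.2 then ⟨(d : c.K) ^ 2 * (d * c.y p.1 (fun k => s k)), (hdi 2).mul (hF2 _ _)⟩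
    else ⟨(d : c.K) ^ 1 * (d * c.x p.1 (fun k => s k)), (hdi 1).mul (hF1 _ _)⟩, ?_,
    fun i j => ⟨d * c.b i j, hF3 i j⟩, ?_, ⟨(d : c.K) ^ 3 * (d * (c.g / 2)), (hdi 3).mul hF4⟩, ?_⟩⟩
  · intro p s
    by_cases hp : p.2 = true
    · simp only [hp, if_true, val]
      show c.ph ((d : c.K) ^ 2 * (d * c.y p.1 (fun k => s k))) = _
      rw [map_mul, map_mul, map_pow, map_intCast, c.hy]
      simp only [pt]
      ring
    · simp only [hp, val]
      show c.ph ((d : c.K) ^ 1 * (d * c.x p.1 (fun k => s k))) = _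
      rw [map_mul, map_mul, map_pow, map_intCast, c.hx]
      simp only [pt, Bool.false_eq_true, if_false]
      ring
  · intro i j
    show c.ph (d * c.b i j) = _
    rw [map_mul, map_intCast]
  · show c.ph ((d : c.K) ^ 3 * (d * (c.g / 2))) = _
    rw [map_mul, map_mul, map_pow, map_intCast, map_div₀, c.hg, map_ofNat]
    ring

end SL

end Pool.Agent.W245.EB
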