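import Pool.Agent.W245.EB.DL
import Pool.Agent.H667R3.C1

set_option autoImplicit false
set_option linter.unusedVariables false
set_option linter.unusedSectionVars false

/-!
# Schwarz lemma on a line
-/

open Filter
open scoped Topology Nat

noncomputable section

namespace Pool.Agent.W245.EB

lemma schwarz1 (h : ℂ → ℂ) (hh : Differentiable ℂ h) (M : Finset ℂ) (h0 : (0 : ℂ) ∈ M) (S q : ℕ)
    (hcard : M.card = S) (hM : ∀ r ∈ M, ‖r‖ ≤ S)
    (hz : ∀ r ∈ M, ∀ k < q, iteratedDeriv k h r = 0) (R B : ℝ) (hR : 2 * (S : ℝ) ≤ R)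
    (hB : ∀ t : ℂ, ‖t‖ = R → ‖h t‖ ≤ B) :
    ‖iteratedDeriv q h 0‖ ≤ q ! * ((S : ℝ) * (2 / R)) ^ (S * q) * B := by
  classical
  have hS1 : 1 ≤ S := by
    rw [← hcard]
    exact Finset.card_pos.2 ⟨0, h0⟩
  have hSR : (1 : ℝ) ≤ S := by exact_mod_cast hS1
  have hRpos : 0 < R := by linarith
  have hord : ∀ x ∈ M, (q : ℕ∞) ≤ analyticOrderAt h x := by
    intro x hx
    rw [natCast_le_analyticOrderAt_iff_iteratedDeriv_eq_zero (hh.analyticAt x)]
    exact hz x hx
  obtain ⟨g, hg, hgz⟩ := H667R3.entire_div_finset q M h hh hord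
  -- bound of `g` on the circle
  have hcirc : ∀ t : ℂ, ‖t‖ = R → ‖g t‖ ≤ B * (2 / R) ^ (S * q) := by
    intro t ht
    have h1 : ∀ r ∈ M, R / 2 ≤ ‖t - r‖ := by
      intro r hr
      have := norm_sub_norm_le t r
      have h2 := hM r hr
      rw [ht] at this
      linarith
    have h2 : (R / 2) ^ (S * q) ≤ ‖∏ x ∈ M, (t - x) ^ q‖ := by
      rw [norm_prod]
      calc (R / 2) ^ (S * q) = ∏ _x ∈ M, (R / 2) ^ q := by
            rw [Finset.prod_const, hcard, ← pow_mul, mul_comm]
        _ ≤ ∏ x ∈ M, ‖(t - x) ^ q‖ := by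
            apply Finset.prod_le_prod
            · intro x _
              positivity
            · intro x hx
              rw [norm_pow]
              exact pow_le_pow_left₀ (by positivity) (h1 x hx) q
    have h3 : 0 < (R / 2) ^ (S * q) := by positivity
    have h4 : ‖∏ x ∈ M, (t - x) ^ q‖ * ‖g t‖ ≤ B := by
      rw [← norm_mul, ← hgz]
      exact hB t ht
    have hgn := norm_nonneg (g t)
    have h5 : (R / 2) ^ (S * q) * ‖g t‖ ≤ B := (mul_le_mul_of_nonneg_right h2 hgn).trans h4
    have h6 : (2 / R) ^ (S * q) * (R / 2) ^ (S * q) = 1 := by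
      rw [← mul_pow]
      have : 2 / R * (R / 2) = 1 := by field_simp
      rw [this, one_pow]
    calc ‖g t‖ = (2 / R) ^ (S * q) * ((R / 2) ^ (S * q) * ‖g t‖) := by
          rw [← mul_assoc, h6, one_mul]
      _ ≤ (2 / R) ^ (S * q) * B := mul_le_mul_of_nonneg_left h5 (by positivity)
      _ = B * (2 / R) ^ (S * q) := mul_comm _ _
  have hg0 : ‖g 0‖ ≤ B * (2 / R) ^ (S * q) := by
    apply Complex.norm_le_of_forall_mem_frontier_norm_le (U := Metric.ball (0 : ℂ) R)
      Metric.isBounded_ball hg.diffContOnCl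
    · intro z hz
      rw [frontier_ball _ hRpos.ne'] at hz
      exact hcirc z (by simpa using hz)
    · apply subset_closure
      simpa using hRpos
  have hq : iteratedDeriv q h 0 = q ! * ((∏ x ∈ M.erase 0, (0 - x) ^ q) * g 0) := by
    have e : h = fun z => (z - 0) ^ q * ((∏ x ∈ M.erase 0, (z - x) ^ q) * g z) := by
      funext z
      rw [hgz z, ← Finset.mul_prod_erase M (fun x => (z - x) ^ q) h0]
      ring
    rw [e]
    apply H667R3.iteratedDeriv_pow_mul q 0 (fun z => (∏ x ∈ M.erase 0, (z - x) ^ q) * g z)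
    have hd : Differentiable ℂ (fun z => (∏ x ∈ M.erase 0, (z - x) ^ q) * g z) := by
      apply Differentiable.fun_mul _ hg
      fun_prop
    exact hd.analyticAt 0
  have hprod : ‖∏ x ∈ M.erase 0, (0 - x) ^ q‖ ≤ (S : ℝ) ^ (S * q) := by
    rw [norm_prod]
    calc ∏ x ∈ M.erase 0, ‖(0 - x) ^ q‖ ≤ ∏ _x ∈ M.erase 0, (S : ℝ) ^ q := by
          apply Finset.prod_le_prod
          · intro x _
            positivity
          · intro x hx
            rw [norm_pow, zero_sub, norm_neg]
            exact pow_le_pow_left₀ (norm_nonneg _) (hM x (Finset.mem_of_mem_erase hx)) q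
      _ = (S : ℝ) ^ (q * (S - 1)) := by
          rw [Finset.prod_const, Finset.card_erase_of_mem h0, hcard, ← pow_mul]
      _ ≤ (S : ℝ) ^ (S * q) := by
          apply pow_le_pow_right₀ hSR
          rw [mul_comm S q]
          exact Nat.mul_le_mul_left q (Nat.sub_le _ _)
  rw [hq, norm_mul, norm_mul]
  have hB0 : 0 ≤ B * (2 / R) ^ (S * q) := (norm_nonneg _).trans hg0
  calc ‖(q ! : ℂ)‖ * (‖∏ x ∈ M.erase 0, (0 - x) ^ q‖ * ‖g 0‖)
      ≤ q ! * ((S : ℝ) ^ (S * q) * (B * (2 / R) ^ (S * q))) := by
        rw [Complex.norm_natCast]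
        apply mul_le_mul_of_nonneg_left _ (by positivity)
        exact mul_le_mul hprod hg0 (norm_nonneg _) (by positivity)
    _ = q ! * ((S : ℝ) * (2 / R)) ^ (S * q) * B := by
        rw [mul_pow]
        ring

variable {E : Type*} [NormedAddCommGroup E] [NormedSpace ℂ E] {f : E → ℂ}

/-- Smallness of a mixed derivative with many derivatives in the direction `u`, for a function
vanishing to high order at the points `p + r u`. -/
lemma schwarz_dir (hf : AnalyticOnNhd ℂ f Set.univ) (p u : E) (M : Finset ℂ) (h0 : (0 : ℂ) ∈ M)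
    (S m : ℕ) (hcard : M.card = S) (hM : ∀ r ∈ M, ‖r‖ ≤ S)
    (hord : ∀ r ∈ M, Ord f (p + r • u) m) (q : ℕ) (l : List E) (hlen : l.length + q = m)
    (V R B : ℝ) (hV : 1 ≤ V) (hl : ∀ v ∈ l, ‖v‖ ≤ V) (hu : ‖u‖ ≤ V) (hR : 2 * (S : ℝ) ≤ R)
    (hB : ∀ w : E, ‖w - p‖ ≤ R * V + 1 → ‖f w‖ ≤ B) :
    ‖DL (List.replicate q u ++ l) f p‖ ≤
      q ! * ((S : ℝ) * (2 / R)) ^ (S * q) * ((V * m) ^ m * B) := by
  have hS1 : 1 ≤ S := by
    rw [← hcard]
    exact Finset.card_pos.2 ⟨0, h0⟩
  have hSR : (1 : ℝ) ≤ S := by exact_mod_cast hS1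
  have hRpos : 0 < R := by linarith
  have hB0 : 0 ≤ B := (norm_nonneg _).trans (hB p (by simp; positivity))
  have hg := analytic_DL hf l
  have h1 : DL (List.replicate q u ++ l) f p = iteratedDeriv q (fun s : ℂ => DL l f (p + s • u)) 0 := by
    rw [iteratedDeriv_line hg, zero_smul, add_zero, DL_append]
  rw [h1]
  apply schwarz1 _ (differentiable_line hg p u) M h0 S q hcard hM _ R _ hR
  · intro t ht
    by_cases hl0 : l.length = 0
    · have : l = [] := List.length_eq_zero_iff.1 hl0
      subst this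
      simp only [DL_nil]
      have h2 : ‖f (p + t • u)‖ ≤ B := by
        apply hB
        rw [add_sub_cancel_left, norm_smul, ht]
        have : R * ‖u‖ ≤ R * V := mul_le_mul_of_nonneg_left hu hRpos.le
        linarith
      refine h2.trans ?_
      have h3 : (1 : ℝ) ≤ (V * m) ^ m := by
        rcases Nat.eq_zero_or_pos m with hm | hm
        · subst hm; simp
        · apply one_le_pow₀
          have : (1 : ℝ) ≤ m := by exact_mod_cast hm
          nlinarith
      nlinarith
    · have hlpos : 0 < l.length := Nat.pos_of_ne_zero hl0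
      have hmpos : 0 < m := by omega
      have hm1 : (1 : ℝ) ≤ m := by exact_mod_cast hmpos
      have hlm : (l.length : ℝ) ≤ m := by exact_mod_cast (by omega : l.length ≤ m)
      have hVm : 0 < V * m := by positivity
      have h2 := cauchy_DL hf (V := V) (ρ := 1 / (V * m)) (M := B) (by linarith) (by positivity) l hl
        (p + t • u) (by
          intro w' hw'
          apply hB
          have h3 : 1 / (V * m) * V * l.length ≤ 1 := by
            have : 1 / (V * m) * V * l.length = l.length / m := by field_simp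
            rw [this, div_le_one (by positivity)]
            exact hlm
          calc ‖w' - p‖ = ‖(w' - (p + t • u)) + t • u‖ := by congr 1; abel
            _ ≤ ‖w' - (p + t • u)‖ + ‖t • u‖ := norm_add_le _ _
            _ ≤ 1 + R * V := by
              apply add_le_add (hw'.trans h3)
              rw [norm_smul, ht]
              exact mul_le_mul_of_nonneg_left hu hRpos.le
            _ = R * V + 1 := by ring)
      refine h2.trans ?_
      rw [one_div, inv_pow, div_inv_eq_mul, mul_comm]
      apply mul_le_mul_of_nonneg_right _ hB0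
      apply pow_le_pow_right₀ _ (by omega)
      nlinarith
  · intro r hr k hk
    rw [iteratedDeriv_line hg, ← DL_append]
    apply hord r hr
    simp only [List.length_append, List.length_replicate]
    omega

/-- Smallness of all derivatives of order `m` in the directions `U i`. -/
lemma schwarz_all (hf : AnalyticOnNhd ℂ f Set.univ) {n : ℕ} (hn : 0 < n) (p : E) (U : Fin n → E)
    (M : Fin n → Finset ℂ) (h0 : ∀ i, (0 : ℂ) ∈ M i) (S m : ℕ) (hcard : ∀ i, (M i).card = S)
    (hM : ∀ i, ∀ r ∈ M i, ‖r‖ ≤ S) (hord : ∀ i, ∀ r ∈ M i, Ord f (p + r • U i) m)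
    (V R B : ℝ) (hV : 1 ≤ V) (hU : ∀ i, ‖U i‖ ≤ V) (hR : 2 * (S : ℝ) ≤ R)
    (hB : ∀ w : E, ‖w - p‖ ≤ R * V + 1 → ‖f w‖ ≤ B) (l : List (Fin n)) (hlen : l.length = m) :
    ‖DL (l.map U) f p‖ ≤ m ! * ((S : ℝ) * (2 / R)) ^ (S * (m / n)) * ((V * m) ^ m * B) := by
  classical
  have hS1 : 1 ≤ S := by
    rw [← hcard ⟨0, hn⟩]
    exact Finset.card_pos.2 ⟨0, h0 _⟩
  have hSR : (1 : ℝ) ≤ S := by exact_mod_cast hS1
  have hRpos : 0 < R := by linarith
  have hB0 : 0 ≤ B := (norm_nonneg _).trans (hB p (by simp; positivity))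
  -- a direction which occurs often
  obtain ⟨i, hi⟩ : ∃ i : Fin n, m / n ≤ l.count i := by
    by_contra hcon
    push Not at hcon
    have h1 : ∑ i : Fin n, (l : Multiset (Fin n)).count i = Multiset.card (l : Multiset (Fin n)) :=
      Multiset.sum_count_eq_card (fun a _ => Finset.mem_univ a)
    simp only [Multiset.coe_count, Multiset.coe_card, hlen] at h1
    have h2 : ∑ i : Fin n, l.count i < ∑ _i : Fin n, m / n := by
      apply Finset.sum_lt_sum_of_nonempty
      · exact ⟨⟨0, hn⟩, Finset.mem_univ _⟩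
      · intro i _
        exact hcon i
    rw [h1, Finset.sum_const, Finset.card_univ, Fintype.card_fin, smul_eq_mul] at h2
    exact absurd (Nat.mul_div_le m n) (by omega)
  set q := l.count i with hq
  have hperm : l.Perm (List.replicate q i ++ l.filter (fun j => !(decide (j = i)))) := by
    have h1 := (List.filter_append_perm (fun j => decide (j = i)) l).symm
    have h2 : l.filter (fun j => decide (j = i)) = List.replicate q i := by
      rw [hq]
      exact List.filter_eq i
    rw [h2] at h1
    exact h1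
  set l' := l.filter (fun j => !(decide (j = i))) with hl'
  have hlen' : l'.length + q = m := by
    have := hperm.length_eq
    rw [List.length_append, List.length_replicate, hlen] at this
    omega
  have h1 : DL (l.map U) f p = DL (List.replicate q (U i) ++ l'.map U) f p := by
    have h2 := DL_perm isOpen_univ hf (hperm.map U) (Set.mem_univ p)
    rw [h2, List.map_append, List.map_replicate]
  rw [h1]
  have h3 := schwarz_dir hf p (U i) (M i) (h0 i) S m (hcard i) (hM i) (hord i) q (l'.map U)
    (by simpa using hlen') V R B hV (by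
      intro v hv
      obtain ⟨j, _, rfl⟩ := List.mem_map.1 hv
      exact hU j) (hU i) hR hB
  refine h3.trans ?_
  have hVm : 0 ≤ (V * m) ^ m * B := by positivity
  apply mul_le_mul_of_nonneg_right _ hVm
  have hqm : q ≤ m := by omega
  have hx0 : 0 ≤ (S : ℝ) * (2 / R) := by positivity
  have hx1 : (S : ℝ) * (2 / R) ≤ 1 := by
    rw [← mul_div_assoc, div_le_one hRpos]
    linarith
  apply mul_le_mul _ _ (by positivity) (by positivity)
  · exact_mod_cast Nat.factorial_le hqm
  · exact pow_le_pow_of_le_one hx0 hx1 (Nat.mul_le_mul_left S hi)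

end Pool.Agent.W245.EB
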