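import Pool.Agent.W245.EB.Core1
import Pool.Agent.W245.EB.Schwarz

set_option autoImplicit false
set_option linter.unusedVariables false
set_option linter.unusedSectionVars false
set_option linter.unusedSimpArgs false

/-!
# Derivations and the auxiliary function
-/

open Filter MvPolynomial NumberField
open scoped Topology PeriodPair

noncomputable section

namespace Pool.Agent.W245.EB

open H667R3

namespace SL

variable {n : ℕ} (c : SL n) {S : ℕ} (e : c.Den S)

/-- embedding of the integers -/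
def emb : 𝓞 c.K →+* ℂ := c.ph.comp (algebraMap (𝓞 c.K) c.K)

lemma emb_apply (x : 𝓞 c.K) : c.emb x = c.ph (x : c.K) := rfl

variable {c}

namespace Den

/-- the derivations -/
def δ (j : Fin n) (p : c.I × Bool) : MvPolynomial (c.I × Bool) (𝓞 c.K) :=
  if p.2 then C (e.Bd p.1 j) * (6 * MvPolynomial.X (p.1, false) ^ 2 - C e.gd)
  else C (e.Bd p.1 j) * MvPolynomial.X (p.1, true)

/-- the directions -/
def v (j : Fin n) : Fin n → ℂ := (e.d : ℂ) ^ 2 • Pi.single j 1

lemma ell_v (i : c.I) (j : Fin n) : c.ell i (e.v j) = (e.d : ℂ) ^ 2 * c.ph (c.b i j) := by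
  simp [v, c.hb]

lemma D_val (j : Fin n) (p : c.I × Bool) (z : Fin n → ℂ) (hz : z ∈ c.O) :
    D (e.v j) (c.val e.d p) z = ev c.emb (c.val e.d) (e.δ j p) z := by
  by_cases hp : p.2 = true
  · have h1 : c.val e.d p = fun z => (e.d : ℂ) ^ 3 * ℘'[c.L] (c.ell p.1 z + c.q) := by
      funext z
      simp [val, hp]
    rw [h1, c.D_comp p.1 z (e.v j) _ (hasDerivAt_wp' c.L (hz p.1)), e.ell_v]
    simp only [ev, δ, hp, if_true, eval₂_mul, eval₂_C, eval₂_sub, eval₂_pow, eval₂_X, val,
      Bool.false_eq_true, if_false, emb_apply, e.hBd, e.hgd]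
    have h6 : ∀ w : c.I × Bool → ℂ, eval₂ c.emb w (6 : MvPolynomial (c.I × Bool) (𝓞 c.K)) = 6 := by
      intro w
      rw [show (6 : MvPolynomial (c.I × Bool) (𝓞 c.K)) = C 6 from rfl, eval₂_C]
      exact map_ofNat c.emb 6
    rw [h6]
    ring
  · have h1 : c.val e.d p = fun z => (e.d : ℂ) ^ 2 * ℘[c.L] (c.ell p.1 z + c.q) := by
      funext z
      simp [val, hp]
    rw [h1, c.D_comp p.1 z (e.v j) _ (hasDerivAt_weierstrassP c.L (c.O_notMem hz p.1)), e.ell_v]
    simp only [ev, δ, hp, if_true, eval₂_mul, eval₂_C, eval₂_X, val,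
      Bool.false_eq_true, if_false, emb_apply, e.hBd]
    ring

/-- the function attached to a polynomial -/
def Fn (Φ : MvPolynomial (c.I × Bool) (𝓞 c.K)) : (Fin n → ℂ) → ℂ := ev c.emb (c.val e.d) Φ

lemma analytic_Fn (Φ : MvPolynomial (c.I × Bool) (𝓞 c.K)) : AnalyticOnNhd ℂ (e.Fn Φ) c.O :=
  analytic_ev c.emb (c.val e.d) (c.analytic_val e.d) Φ

/-- value of a polynomial at a grid point -/
def at' (s : Fin n → Fin S) (Φ : MvPolynomial (c.I × Bool) (𝓞 c.K)) : 𝓞 c.K :=
  MvPolynomial.eval (fun p => e.X p s) Φ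

lemma emb_at (s : Fin n → Fin S) (Φ : MvPolynomial (c.I × Bool) (𝓞 c.K)) :
    c.emb (e.at' s Φ) = e.Fn Φ (c.pt s) := by
  simp only [at', Fn, ev]
  rw [← MvPolynomial.eval₂_id, MvPolynomial.hom_eval₂]
  congr 1
  funext p
  exact e.hX p s

/-- derivatives at grid points -/
lemma DL_Fn (Φ : MvPolynomial (c.I × Bool) (𝓞 c.K)) (s : Fin n → Fin S) (l : List (Fin n)) :
    DL (l.map e.v) (e.Fn Φ) (c.pt s) = c.emb (e.at' s (PL e.δ l Φ)) := by
  rw [emb_at]
  exact DL_ev c.emb (c.val e.d) c.isOpen_O (c.analytic_val e.d) e.δ e.v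
    (fun j p z hz => e.D_val j p z hz) l Φ (c.pt_mem s)

lemma totalDegree_δ (j : Fin n) (p : c.I × Bool) : (e.δ j p).totalDegree ≤ 2 := by
  unfold δ
  split_ifs
  · refine (totalDegree_mul _ _).trans ?_
    rw [totalDegree_C, zero_add]
    refine (totalDegree_sub _ _).trans ?_
    rw [totalDegree_C]
    apply max_le _ (Nat.zero_le _)
    refine (totalDegree_mul _ _).trans ?_
    rw [show (6 : MvPolynomial (c.I × Bool) (𝓞 c.K)) = C 6 from rfl, totalDegree_C, zero_add]
    refine (totalDegree_pow _ _).trans ?_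
    rw [totalDegree_X]
  · refine (totalDegree_mul _ _).trans ?_
    rw [totalDegree_C, totalDegree_X]
    omega

lemma spans_v (w : Fin n → ℂ) : ∃ κ : Fin n → ℂ, w = ∑ j, κ j • e.v j := by
  have hd : (e.d : ℂ) ^ 2 ≠ 0 := pow_ne_zero _ (by exact_mod_cast e.hd)
  refine ⟨fun j => w j / (e.d : ℂ) ^ 2, ?_⟩
  have h1 : ∀ j, (w j / (e.d : ℂ) ^ 2) • e.v j = Pi.single j (w j) := by
    intro j
    rw [v, smul_smul, div_mul_cancel₀ _ hd]
    ext k
    by_cases hk : k = j
    · subst hk
      simp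
    · simp [hk]
  simp only [h1]
  rw [Finset.univ_sum_single]

end Den

end SL

/-- vanishing can be checked on a spanning family of directions -/
lemma DL_zero_of_spans {E : Type*} [NormedAddCommGroup E] [NormedSpace ℂ E] {O : Set E}
    {f : E → ℂ} (hO : IsOpen O) {p : E} (hp : p ∈ O) (hf : AnalyticOnNhd ℂ f O) {ι : Type*}
    [Fintype ι] (U : ι → E) (hU : ∀ w : E, ∃ κ : ι → ℂ, w = ∑ i, κ i • U i) (m : ℕ)
    (h : ∀ l : List ι, l.length = m → DL (l.map U) f p = 0) (l : List E) (hl : l.length = m) :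
    DL l f p = 0 := by
  classical
  choose κ hκ using hU
  have h1 := DL_change hO hp hf U (∑ v ∈ l.toFinset, ∑ i, ‖κ v i‖) 0
    (Finset.sum_nonneg fun v _ => Finset.sum_nonneg fun i _ => norm_nonneg _) le_rfl m
    (fun l hl => by rw [h l hl]; simp) {v | v ∈ l} (by
      intro v hv
      refine ⟨κ v, hκ v, ?_⟩
      exact Finset.single_le_sum (f := fun v => ∑ i, ‖κ v i‖)
        (fun v _ => Finset.sum_nonneg fun i _ => norm_nonneg _) (List.mem_toFinset.2 hv)) l
    (fun v hv => hv) hl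
  simpa using h1

/-- standard list of directions with given exponents -/
def lst {n : ℕ} (τ : Fin n → ℕ) : List (Fin n) := (List.ofFn fun j => List.replicate (τ j) j).flatten

lemma count_lst {n : ℕ} (τ : Fin n → ℕ) (j : Fin n) : (lst τ).count j = τ j := by
  classical
  rw [lst, List.count_flatten, List.map_ofFn, List.sum_ofFn]
  simp [List.count_replicate]

lemma length_lst {n : ℕ} (τ : Fin n → ℕ) : (lst τ).length = ∑ j, τ j := by
  rw [lst, List.length_flatten, List.map_ofFn, List.sum_ofFn]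
  simp

lemma perm_lst {n : ℕ} (l : List (Fin n)) : l.Perm (lst fun j => l.count j) := by
  classical
  rw [List.perm_iff_count]
  intro j
  rw [count_lst]

end Pool.Agent.W245.EB
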