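import Pool.Agent.W245.EB.Core2
import Pool.Agent.H297R2.Core

set_option autoImplicit false
set_option linter.unusedVariables false
set_option linter.unusedSectionVars false
set_option linter.unusedSimpArgs false

/-!
# Construction of the auxiliary function
-/

open Filter MvPolynomial NumberField
open scoped Topology PeriodPair

noncomputable section

namespace Pool.Agent.W245.EB

open H667R3

namespace SL

variable {n : ℕ} {c : SL n} {S : ℕ} (e : c.Den S)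

/-- embedding of the ring of integers attached to an embedding of the field -/
def sg (τ : c.K →+* ℂ) : 𝓞 c.K →+* ℂ := τ.comp (algebraMap (𝓞 c.K) c.K)

lemma sg_apply (τ : c.K →+* ℂ) (x : 𝓞 c.K) : sg τ x = τ (x : c.K) := rfl

lemma house_le {x : c.K} {A : ℝ} (hA : 0 ≤ A) (h : ∀ τ : c.K →+* ℂ, ‖τ x‖ ≤ A) : house x ≤ A := by
  rw [house, pi_norm_le_iff_of_nonneg hA]
  exact h

/-- exponents -/
def mu (lam : c.I → ℕ) : (c.I × Bool) →₀ ℕ :=
  Finsupp.equivFunOnFinite.symm (fun p => if p.2 then 0 else lam p.1)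

lemma degree_mu (lam : c.I → ℕ) : (mu lam).degree = ∑ i, lam i := by
  rw [Finsupp.degree_eq_sum]
  rw [Fintype.sum_prod_type]
  simp [mu]

lemma degree_mu_le {Lc : ℕ} (lam : c.I → Fin Lc) :
    (mu fun i => (lam i : ℕ)).degree ≤ (n + 1) * Lc := by
  rw [degree_mu, ← c.cardI, ← Finset.card_univ, ← smul_eq_mul, ← Finset.sum_const]
  exact Finset.sum_le_sum fun i _ => (lam i).2.le

/-- the auxiliary polynomial -/
def Phi {Lc : ℕ} (ξ : (c.I → Fin Lc) → 𝓞 c.K) : MvPolynomial (c.I × Bool) (𝓞 c.K) :=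
  ∑ lam, ξ lam • monomial (mu fun i => (lam i : ℕ)) 1

lemma totalDegree_mono {Lc : ℕ} (lam : c.I → Fin Lc) :
    (monomial (mu fun i => (lam i : ℕ)) (1 : 𝓞 c.K)).totalDegree ≤ (n + 1) * Lc :=
  (totalDegree_monomial_le _ _).trans (degree_mu_le lam)

lemma totalDegree_Phi {Lc : ℕ} (ξ : (c.I → Fin Lc) → 𝓞 c.K) :
    (Phi ξ).totalDegree ≤ (n + 1) * Lc := by
  apply MvPolynomial.totalDegree_finsetSum_le
  intro lam _
  exact (MvPolynomial.totalDegree_smul_le _ _).trans (totalDegree_mono lam)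

lemma NN_Phi {Lc : ℕ} (ξ : (c.I → Fin Lc) → 𝓞 c.K) (τ : c.K →+* ℂ) {A H : ℝ} (hA : 1 ≤ A)
    (hH : ∀ lam, ‖τ (ξ lam : c.K)‖ ≤ H) :
    NN (sg τ) A (Phi ξ) ≤ (Lc : ℝ) ^ (n + 1) * (H * A ^ ((n + 1) * Lc)) := by
  refine (NN_sum _ hA _ _).trans ?_
  have hcard : (Lc : ℝ) ^ (n + 1) = ∑ _lam : c.I → Fin Lc, (1 : ℝ) := by
    simp [c.cardI]
  rw [hcard, Finset.sum_mul]
  apply Finset.sum_le_sum
  intro lam _
  refine (NN_smul _ hA _ _).trans ?_
  have h1 := NN_monomial (sg τ) hA (mu fun i => (lam i : ℕ)) (1 : 𝓞 c.K)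
  rw [map_one (sg τ), norm_one, one_mul] at h1
  have h2 : A ^ (mu fun i => (lam i : ℕ)).degree ≤ A ^ ((n + 1) * Lc) :=
    pow_le_pow_right₀ hA (degree_mu_le lam)
  rw [one_mul]
  exact mul_le_mul (hH lam) (h1.trans h2) (NN_nonneg _ hA _) ((norm_nonneg _).trans (hH lam))

namespace Den

/-- bound for the coordinates of the grid points -/
lemma exists_A : ∃ A : ℝ, 1 ≤ A ∧ ∀ (τ : c.K →+* ℂ) (p : c.I × Bool) (s : Fin n → Fin S),
    ‖τ (e.X p s : c.K)‖ ≤ A := by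
  obtain ⟨M, hM⟩ := Finite.exists_le
    (fun z : (c.K →+* ℂ) × (c.I × Bool) × (Fin n → Fin S) => ‖z.1 (e.X z.2.1 z.2.2 : c.K)‖)
  exact ⟨max 1 M, le_max_left _ _, fun τ p s => (hM (τ, p, s)).trans (le_max_right _ _)⟩

lemma exists_C (A : ℝ) : ∃ C : ℝ, 1 ≤ C ∧ ∀ (τ : c.K →+* ℂ) (j : Fin n) (p : c.I × Bool),
    NN (sg τ) A (e.δ j p) ≤ C := by
  obtain ⟨M, hM⟩ := Finite.exists_le
    (fun z : (c.K →+* ℂ) × (Fin n) × (c.I × Bool) => NN (sg z.1) A (e.δ z.2.1 z.2.2))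
  exact ⟨max 1 M, le_max_left _ _, fun τ p s => (hM (τ, p, s)).trans (le_max_right _ _)⟩

lemma at_sum {κ : Type*} (t : Finset κ) (a : κ → 𝓞 c.K) (Φ : κ → MvPolynomial (c.I × Bool) (𝓞 c.K))
    (s : Fin n → Fin S) : e.at' s (∑ k ∈ t, a k • Φ k) = ∑ k ∈ t, a k * e.at' s (Φ k) := by
  simp [at', map_sum, MvPolynomial.smul_eval]

lemma at_PL_Phi {Lc : ℕ} (ξ : (c.I → Fin Lc) → 𝓞 c.K) (s : Fin n → Fin S) (l : List (Fin n)) :
    e.at' s (PL e.δ l (Phi ξ)) =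
      ∑ lam, ξ lam * e.at' s (PL e.δ l (monomial (mu fun i => (lam i : ℕ)) 1)) := by
  rw [Phi, PL_sum, at_sum]

/-- size of the values -/
lemma norm_at_le {A : ℝ} (hA : 1 ≤ A)
    (hX : ∀ (τ : c.K →+* ℂ) (p : c.I × Bool) (s : Fin n → Fin S), ‖τ (e.X p s : c.K)‖ ≤ A)
    {C : ℝ} (hC : 1 ≤ C) (hδ : ∀ (τ : c.K →+* ℂ) (j : Fin n) (p : c.I × Bool),
      NN (sg τ) A (e.δ j p) ≤ C) (τ : c.K →+* ℂ) (s : Fin n → Fin S) (l : List (Fin n))
    (Φ : MvPolynomial (c.I × Bool) (𝓞 c.K)) (M : ℕ) (hM : Φ.totalDegree + l.length ≤ M) :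
    ‖τ (e.at' s (PL e.δ l Φ) : c.K)‖ ≤ (C * M) ^ l.length * NN (sg τ) A Φ := by
  refine (norm_eval_le (sg τ) hA (fun p => e.X p s) (fun p => hX τ p s) _).trans ?_
  exact NN_PL e.δ (sg τ) hA (by linarith) (fun j p => e.totalDegree_δ j p) (fun j p => hδ τ j p) Φ
    Φ.totalDegree M l hM

/-- from the standard lists to all lists -/
lemma ord_of_lst (Φ : MvPolynomial (c.I × Bool) (𝓞 c.K)) (s : Fin n → Fin S) (T : ℕ)
    (h : ∀ τ : Fin n → Fin T, e.at' s (PL e.δ (lst fun j => (τ j : ℕ)) Φ) = 0) :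
    Ord (e.Fn Φ) (c.pt s) T := by
  classical
  intro l hl
  apply DL_zero_of_spans c.isOpen_O (c.pt_mem s) (e.analytic_Fn Φ) e.v e.spans_v l.length _ l rfl
  intro l' hl'
  have h1 : ∀ j, l'.count j < T := fun j => (List.count_le_length).trans_lt (by rw [hl']; exact hl)
  rw [DL_perm c.isOpen_O (e.analytic_Fn Φ) ((perm_lst l').map e.v) (c.pt_mem s), e.DL_Fn]
  have h2 := h (fun j => ⟨l'.count j, h1 j⟩)
  rw [h2, map_zero]

/-- Siegel's lemma -/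
theorem siegel_step (hn : 0 < n) (hS : 0 < S) {A : ℝ} (hA : 1 ≤ A)
    (hX : ∀ (τ : c.K →+* ℂ) (p : c.I × Bool) (s : Fin n → Fin S), ‖τ (e.X p s : c.K)‖ ≤ A)
    {C : ℝ} (hC : 1 ≤ C) (hδ : ∀ (τ : c.K →+* ℂ) (j : Fin n) (p : c.I × Bool),
      NN (sg τ) A (e.δ j p) ≤ C) :
    ∃ K₁ : ℝ, 1 ≤ K₁ ∧ ∀ t : ℕ, 0 < t → 2 * S ≤ t →
      ∃ ξ : (c.I → Fin (2 * S * t ^ n)) → 𝓞 c.K, ξ ≠ 0 ∧
        (∀ s : Fin n → Fin S, Ord (e.Fn (Phi ξ)) (c.pt s) (t ^ (n + 1))) ∧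
        ∀ m : ℕ, t ^ (n + 1) ≤ m → ∀ (τ : c.K →+* ℂ) lam,
          ‖τ (ξ lam : c.K)‖ ≤ K₁ ^ m * (m : ℝ) ^ (n * m) := by
  classical
  obtain ⟨C₀, hC₀, hsieg⟩ := H297R2.siegel c.K
  refine ⟨C₀ ^ 2 * 2 ^ (n + 1) * (C * (2 * n + 1)) ^ n * A ^ (n + 1), ?_, ?_⟩
  · have h1 : (1 : ℝ) ≤ C₀ ^ 2 := one_le_pow₀ hC₀
    have h2 : (1 : ℝ) ≤ 2 ^ (n + 1) := one_le_pow₀ (by norm_num)
    have h3 : (1 : ℝ) ≤ C * (2 * n + 1) := by
      have : (0 : ℝ) ≤ n := Nat.cast_nonneg n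
      nlinarith
    have h4 : (1 : ℝ) ≤ (C * (2 * n + 1)) ^ n := one_le_pow₀ h3
    have h5 : (1 : ℝ) ≤ A ^ (n + 1) := one_le_pow₀ hA
    calc (1 : ℝ) = 1 * 1 * 1 * 1 := by ring
      _ ≤ _ := by gcongr
  intro t ht htS
  set Lc : ℕ := 2 * S * t ^ n with hLc
  set T : ℕ := t ^ (n + 1) with hT
  have hLT : Lc ≤ T := by
    rw [hLc, hT, pow_succ, mul_comm (t ^ n) t]
    exact Nat.mul_le_mul_right _ htS
  have hTpos : 0 < T := pow_pos ht _
  have hLpos : 0 < Lc := by positivity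
  set M : ℕ := (n + 1) * Lc + n * T with hM
  have hCM : 1 ≤ C * (M : ℝ) := by
    have : (1 : ℝ) ≤ M := by
      have : 0 < M := by positivity
      exact_mod_cast this
    nlinarith
  set B : ℝ := (C * M) ^ (n * T) * A ^ ((n + 1) * Lc) with hB
  have hB1 : 1 ≤ B := by
    have h1 : 1 ≤ (C * (M : ℝ)) ^ (n * T) := one_le_pow₀ hCM
    have h2 : 1 ≤ A ^ ((n + 1) * Lc) := one_le_pow₀ hA
    nlinarith
  set a : Matrix ((Fin n → Fin S) × (Fin n → Fin T)) (c.I → Fin Lc) (𝓞 c.K) :=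
    fun st lam => e.at' st.1 (PL e.δ (lst fun j => (st.2 j : ℕ)) (monomial (mu fun i => (lam i : ℕ)) 1))
    with ha
  have habs : ∀ k l, house (a k l : c.K) ≤ B := by
    intro k l
    apply house_le (by linarith)
    intro τ
    have hlen : (lst fun j => (k.2 j : ℕ)).length ≤ n * T := by
      rw [length_lst]
      calc ∑ j, (k.2 j : ℕ) ≤ ∑ _j : Fin n, T := Finset.sum_le_sum fun j _ => (k.2 j).2.le
        _ = n * T := by simp
    refine (e.norm_at_le hA hX hC hδ τ k.1 _ _ M ?_).trans ?_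
    · have := totalDegree_mono l
      omega
    · have h1 := NN_monomial (sg τ) hA (mu fun i => (l i : ℕ)) (1 : 𝓞 c.K)
      rw [map_one (sg τ), norm_one, one_mul] at h1
      apply mul_le_mul
      · exact pow_le_pow_right₀ hCM hlen
      · exact h1.trans (pow_le_pow_right₀ hA (degree_mu_le l))
      · exact NN_nonneg _ hA _
      · positivity
  -- cardinalities
  have hcα : Fintype.card ((Fin n → Fin S) × (Fin n → Fin T)) = S ^ n * T ^ n := by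
    simp
  have hcβ : Fintype.card (c.I → Fin Lc) = Lc ^ (n + 1) := by
    simp [c.cardI]
  have hα0 : 0 < Fintype.card ((Fin n → Fin S) × (Fin n → Fin T)) := by
    rw [hcα]; positivity
  have hαβ : 2 * Fintype.card ((Fin n → Fin S) × (Fin n → Fin T)) ≤
      Fintype.card (c.I → Fin Lc) := by
    rw [hcα, hcβ, hLc, hT, mul_pow, mul_pow, ← pow_mul, ← pow_mul]
    have e1 : (n + 1) * n = n * (n + 1) := by ring
    rw [e1]
    have h1 : 2 * S ^ n ≤ 2 ^ (n + 1) * S ^ (n + 1) := by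
      have h2 : 2 ^ 1 ≤ 2 ^ (n + 1) := Nat.pow_le_pow_right (by norm_num) (by omega)
      have h3 : S ^ n ≤ S ^ (n + 1) := Nat.pow_le_pow_right hS (by omega)
      rw [pow_one] at h2
      exact Nat.mul_le_mul h2 h3
    calc 2 * (S ^ n * t ^ (n * (n + 1))) = (2 * S ^ n) * t ^ (n * (n + 1)) := by ring
      _ ≤ (2 ^ (n + 1) * S ^ (n + 1)) * t ^ (n * (n + 1)) := Nat.mul_le_mul_right _ h1
  obtain ⟨ξ, hξ0, hξa, hξb⟩ : ∃ ξ : (c.I → Fin Lc) → 𝓞 c.K, ξ ≠ 0 ∧ a.mulVec ξ = 0 ∧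
      ∀ l, house (ξ l : c.K) ≤ C₀ * (C₀ * Fintype.card (c.I → Fin Lc) * B) := by
    by_cases ha0 : a = 0
    · refine ⟨fun _ => 1, ?_, ?_, ?_⟩
      · intro h
        have := congrFun h (fun _ => ⟨0, hLpos⟩)
        simp at this
      · rw [ha0, Matrix.zero_mulVec]
      · intro l
        have h1 : house (((1 : 𝓞 c.K) : 𝓞 c.K) : c.K) ≤ 1 := by
          apply house_le zero_le_one
          intro τ
          simp
        refine h1.trans ?_
        have h2 : (1 : ℝ) ≤ (Fintype.card (c.I → Fin Lc) : ℕ) := by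
          rw [hcβ]
          have : 0 < Lc ^ (n + 1) := by positivity
          exact_mod_cast this
        calc (1 : ℝ) = 1 * (1 * 1 * 1) := by ring
          _ ≤ _ := by gcongr
    · exact hsieg _ _ a ha0 hα0 hαβ B hB1 habs
  refine ⟨ξ, hξ0, ?_, ?_⟩
  · intro s
    apply e.ord_of_lst
    intro τ
    rw [e.at_PL_Phi]
    have := congrFun hξa (s, τ)
    simp only [Matrix.mulVec, dotProduct, Pi.zero_apply] at this
    rw [← this]
    apply Finset.sum_congr rfl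
    intro lam _
    rw [mul_comm]
  · intro m hm τ lam
    have hm1 : 1 ≤ m := hTpos.trans_le hm
    have hmR : (1 : ℝ) ≤ m := by exact_mod_cast hm1
    have hLm : Lc ≤ m := hLT.trans hm
    refine (norm_embedding_le_house _ τ).trans ((hξb lam).trans ?_)
    rw [hcβ]
    have h1 : ((Lc ^ (n + 1) : ℕ) : ℝ) ≤ (2 ^ (n + 1)) ^ m := by
      have h2 : Lc < 2 ^ m := hLm.trans_lt (Nat.lt_two_pow_self)
      have h3 : Lc ^ (n + 1) ≤ (2 ^ m) ^ (n + 1) := Nat.pow_le_pow_left h2.le _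
      have h4 : (2 ^ m) ^ (n + 1) = (2 ^ (n + 1)) ^ m := by
        rw [← pow_mul, ← pow_mul, mul_comm]
      rw [h4] at h3
      exact_mod_cast h3
    have h2 : B ≤ ((C * (2 * n + 1)) ^ n * A ^ (n + 1)) ^ m * (m : ℝ) ^ (n * m) := by
      have hMm : (M : ℝ) ≤ (2 * n + 1) * m := by
        have : M ≤ (2 * n + 1) * m := by
          rw [hM]
          calc (n + 1) * Lc + n * T ≤ (n + 1) * m + n * m :=
                add_le_add (Nat.mul_le_mul_left _ hLm) (Nat.mul_le_mul_left _ hm)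
            _ = (2 * n + 1) * m := by ring
        exact_mod_cast this
      have h3 : (C * (M : ℝ)) ^ (n * T) ≤ (C * (2 * n + 1) * m) ^ (n * m) := by
        calc (C * (M : ℝ)) ^ (n * T) ≤ (C * (M : ℝ)) ^ (n * m) :=
              pow_le_pow_right₀ hCM (Nat.mul_le_mul_left _ hm)
          _ ≤ (C * (2 * n + 1) * m) ^ (n * m) := by
              apply pow_le_pow_left₀ (by linarith)
              rw [mul_assoc]
              exact mul_le_mul_of_nonneg_left hMm (by linarith)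
      have h4 : A ^ ((n + 1) * Lc) ≤ A ^ ((n + 1) * m) :=
        pow_le_pow_right₀ hA (Nat.mul_le_mul_left _ hLm)
      calc B ≤ (C * (2 * n + 1) * m) ^ (n * m) * A ^ ((n + 1) * m) := by
            rw [hB]
            gcongr
        _ = _ := by
            rw [mul_pow (C * (2 * (n : ℝ) + 1)) (m : ℝ), pow_mul (C * (2 * (n : ℝ) + 1)), pow_mul A, mul_pow]
            ring
    have h3 : C₀ ^ 2 ≤ (C₀ ^ 2) ^ m := by
      have h5 : (1 : ℝ) ≤ C₀ ^ 2 := one_le_pow₀ hC₀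
      calc C₀ ^ 2 = (C₀ ^ 2) ^ 1 := (pow_one _).symm
        _ ≤ (C₀ ^ 2) ^ m := pow_le_pow_right₀ h5 hm1
    calc C₀ * (C₀ * ((Lc ^ (n + 1) : ℕ) : ℝ) * B) = C₀ ^ 2 * ((Lc ^ (n + 1) : ℕ) : ℝ) * B := by ring
      _ ≤ (C₀ ^ 2) ^ m * (2 ^ (n + 1)) ^ m *
          (((C * (2 * n + 1)) ^ n * A ^ (n + 1)) ^ m * (m : ℝ) ^ (n * m)) := by
        gcongr
      _ = _ := by
        rw [mul_pow, mul_pow, mul_pow, mul_pow]
        ring

end Den

end SL

end Pool.Agent.W245.EB
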