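import Pool.Agent.H667R3.E1

set_option autoImplicit false
set_option linter.unusedVariables false

/-!
# The group of elliptic logarithms of points over a subfield
-/

open Module Filter
open scoped Topology Nat PeriodPair

noncomputable section

namespace Pool.Agent.W245.EB

open H667R3

variable (L : PeriodPair)

/-- elliptic logarithms of points with coordinates in `K` -/
def GK (K : Subfield ℂ) : Set ℂ := {u | u ∈ L.lattice ∨ (℘[L] u ∈ K ∧ ℘'[L] u ∈ K)}

lemma wp_add_lattice {u l : ℂ} (hl : l ∈ L.lattice) : ℘[L] (u + l) = ℘[L] u :=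
  L.weierstrassP_add_coe u ⟨l, hl⟩

lemma wp'_add_lattice {u l : ℂ} (hl : l ∈ L.lattice) : ℘'[L] (u + l) = ℘'[L] u :=
  L.derivWeierstrassP_add_coe u ⟨l, hl⟩

lemma add_mem_lattice_iff {u l : ℂ} (hl : l ∈ L.lattice) : u + l ∈ L.lattice ↔ u ∈ L.lattice :=
  ⟨fun h => by simpa using sub_mem h hl, fun h => add_mem h hl⟩

/-- the values of `℘` at the half periods belong to `K` -/
def HalfMem (K : Subfield ℂ) : Prop := ∀ w ∈ L.lattice, ℘[L] (w / 2) ∈ K

variable {L}

lemma GK_add {K : Subfield ℂ} (hg : L.g₂ ∈ K) (hh : HalfMem L K) {u v : ℂ} (hu : u ∈ GK L K)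
    (hv : v ∈ GK L K) : u + v ∈ GK L K := by
  by_cases hu0 : u ∈ L.lattice
  · rcases hv with hv | hv
    · exact Or.inl (add_mem hu0 hv)
    · right
      rw [add_comm u v, wp_add_lattice L hu0, wp'_add_lattice L hu0]
      exact hv
  by_cases hv0 : v ∈ L.lattice
  · rcases hu with hu | hu
    · exact absurd hu hu0
    · right
      rw [wp_add_lattice L hv0, wp'_add_lattice L hv0]
      exact hu
  by_cases huv : u + v ∈ L.lattice
  · exact Or.inl huv
  right
  have hu' : ℘[L] u ∈ K ∧ ℘'[L] u ∈ K := hu.resolve_left hu0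
  have hv' : ℘[L] v ∈ K ∧ ℘'[L] v ∈ K := hv.resolve_left hv0
  by_cases hd : u - v ∈ L.lattice
  · have e : u + v = 2 * v + (u - v) := by ring
    have h2 : 2 * v ∉ L.lattice := by
      intro h
      exact huv (by rw [e]; exact add_mem h hd)
    rw [e, wp_add_lattice L hd, wp'_add_lattice L hd]
    refine ⟨?_, ?_⟩
    · rw [wp_two L h2]
      exact mem_dup K hv'.1 hv'.2 hg
    · rw [wp'_two L h2]
      exact mem_dup' K hv'.1 hv'.2 hg
  have hd' : v - u ∉ L.lattice := by
    intro h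
    exact hd (by simpa using neg_mem h)
  by_cases h2u : 2 * u ∈ L.lattice
  · by_cases h2v : 2 * v ∈ L.lattice
    · have e : u + v = (2 * u + 2 * v) / 2 := by ring
      refine ⟨?_, ?_⟩
      · rw [e]
        exact hh _ (add_mem h2u h2v)
      · rw [e, wp'_half_eq_zero L (add_mem h2u h2v)]
        exact zero_mem K
    · rw [add_comm u v]
      rw [add_comm u v] at huv
      refine ⟨?_, ?_⟩
      · rw [wp_add L h2v hu0 huv hd']
        exact mem_add K hv'.1 hv'.2 hg hu'.1 hu'.2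
      · rw [wp'_add L h2v hu0 huv hd']
        exact mem_add' K hv'.1 hv'.2 hg hu'.1 hu'.2
  · refine ⟨?_, ?_⟩
    · rw [wp_add L h2u hv0 huv hd]
      exact mem_add K hu'.1 hu'.2 hg hv'.1 hv'.2
    · rw [wp'_add L h2u hv0 huv hd]
      exact mem_add' K hu'.1 hu'.2 hg hv'.1 hv'.2

lemma GK_neg {K : Subfield ℂ} {u : ℂ} (hu : u ∈ GK L K) : -u ∈ GK L K := by
  rcases hu with hu | hu
  · exact Or.inl (neg_mem hu)
  · right
    rw [L.weierstrassP_neg, L.derivWeierstrassP_neg]
    exact ⟨hu.1, neg_mem hu.2⟩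

lemma GK_zero {K : Subfield ℂ} : (0 : ℂ) ∈ GK L K := Or.inl (zero_mem _)

/-- the group of elliptic logarithms of points over `K` -/
def GKg (L : PeriodPair) (K : Subfield ℂ) (hg : L.g₂ ∈ K) (hh : HalfMem L K) : AddSubgroup ℂ where
  carrier := GK L K
  add_mem' := GK_add hg hh
  zero_mem' := GK_zero
  neg_mem' := GK_neg

/-- elliptic logarithms of algebraic points -/
def EL (L : PeriodPair) : Set ℂ := {u | u ∈ L.lattice ∨ IsAlgebraic ℚ (℘[L] u)}

/-- the algebraic numbers as a subfield -/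
def QB : Subfield ℂ := (algebraicClosure ℚ ℂ).toSubfield

lemma mem_QB {x : ℂ} : x ∈ QB ↔ IsAlgebraic ℚ x := mem_algebraicClosure_iff

lemma half_mem_QB (h2 : IsAlgebraic ℚ L.g₂) (h3 : IsAlgebraic ℚ L.g₃) : HalfMem L QB := by
  intro w hw
  by_cases hw2 : w / 2 ∈ L.lattice
  · have : ℘[L] (w / 2) = 0 := L.weierstrassP_coe ⟨w / 2, hw2⟩
    rw [this]
    exact zero_mem _
  · have h := L.derivWeierstrassP_sq (w / 2) hw2
    rw [wp'_half_eq_zero L hw] at h
    rw [mem_QB]
    set x := ℘[L] (w / 2)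
    have h2' := mem_QB.2 h2
    have h3' := mem_QB.2 h3
    -- root of the cubic over the field of algebraic numbers
    have hx : IsAlgebraic QB x := by
      refine ⟨4 * Polynomial.X ^ 3 - Polynomial.C (⟨L.g₂, h2'⟩ : QB) * Polynomial.X -
        Polynomial.C (⟨L.g₃, h3'⟩ : QB), ?_, ?_⟩
      · intro h0
        have := congrArg (fun p => Polynomial.coeff p 3) h0
        simp only [Polynomial.coeff_sub, Polynomial.coeff_C_mul, Polynomial.coeff_X,
          Polynomial.coeff_C, Polynomial.coeff_zero] at this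
        rw [show (4 : Polynomial QB) = Polynomial.C 4 from rfl, Polynomial.coeff_C_mul,
          Polynomial.coeff_X_pow] at this
        norm_num at this
      · simp only [map_sub, map_mul, map_pow, Polynomial.aeval_X, Polynomial.aeval_C, map_ofNat]
        have e1 : algebraMap QB ℂ ⟨L.g₂, h2'⟩ = L.g₂ := rfl
        have e2 : algebraMap QB ℂ ⟨L.g₃, h3'⟩ = L.g₃ := rfl
        rw [e1, e2]
        linear_combination (-1 : ℂ) * h
    have hx' : IsAlgebraic (algebraicClosure ℚ ℂ) x := hx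
    have := algebraicClosure.isAlgebraic ℚ ℂ
    exact @IsAlgebraic.restrictScalars ℚ (algebraicClosure ℚ ℂ) ℂ _ _ _
      (IntermediateField.algebra' _) _ _ _ _ this _ hx'

lemma wp'_alg {u : ℂ} (h2 : IsAlgebraic ℚ L.g₂) (h3 : IsAlgebraic ℚ L.g₃) (hu : u ∉ L.lattice)
    (h : IsAlgebraic ℚ (℘[L] u)) : IsAlgebraic ℚ (℘'[L] u) := by
  have e := L.derivWeierstrassP_sq u hu
  have : IsAlgebraic ℚ (℘'[L] u ^ 2) := by
    rw [e, ← mem_QB]
    have h' := mem_QB.2 h
    have h2' := mem_QB.2 h2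
    have h3' := mem_QB.2 h3
    (repeat (first | assumption | (exact one_mem _) | (exact ofNat_mem _ _) | (apply div_mem) | (apply mul_mem) | (apply sub_mem) | (apply add_mem) | (apply neg_mem) | (apply pow_mem)))
  exact this.of_pow two_pos

lemma EL_eq (h2 : IsAlgebraic ℚ L.g₂) (h3 : IsAlgebraic ℚ L.g₃) : EL L = GK L QB := by
  ext u
  constructor
  · rintro (h | h)
    · exact Or.inl h
    · by_cases hu : u ∈ L.lattice
      · exact Or.inl hu
      · exact Or.inr ⟨mem_QB.2 h, mem_QB.2 (wp'_alg h2 h3 hu h)⟩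
  · rintro (h | h)
    · exact Or.inl h
    · exact Or.inr (mem_QB.1 h.1)

/-- the group of elliptic logarithms of algebraic points -/
def ELg (L : PeriodPair) (h2 : IsAlgebraic ℚ L.g₂) (h3 : IsAlgebraic ℚ L.g₃) : AddSubgroup ℂ :=
  GKg L QB (mem_QB.2 h2) (half_mem_QB h2 h3)

lemma mem_ELg (h2 : IsAlgebraic ℚ L.g₂) (h3 : IsAlgebraic ℚ L.g₃) {u : ℂ} :
    u ∈ ELg L h2 h3 ↔ u ∈ EL L := by
  rw [EL_eq h2 h3]
  rfl

end Pool.Agent.W245.EB
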