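import Pool.Agent.W245.EB.Core5
import Pool.Agent.W245.EB.Ell

set_option autoImplicit false
set_option linter.unusedVariables false
set_option linter.unusedSectionVars false
set_option linter.unusedSimpArgs false

/-!
# From elliptic logarithms to the data
-/

open Filter NumberField
open scoped Topology PeriodPair

noncomputable section

namespace Pool.Agent.W245.EB

open H667R3

lemma QB_root {x : ℂ} (p : Polynomial QB) (hp : p ≠ 0) (hx : Polynomial.aeval x p = 0) :
    IsAlgebraic ℚ x := by
  have hx' : IsAlgebraic (algebraicClosure ℚ ℂ) x := ⟨p, hp, hx⟩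
  have := algebraicClosure.isAlgebraic ℚ ℂ
  exact @IsAlgebraic.restrictScalars ℚ (algebraicClosure ℚ ℂ) ℂ _ _ _
    (IntermediateField.algebra' _) _ _ _ _ this _ hx'

variable {L : PeriodPair}

/-- elliptic logarithms of algebraic points are stable under division by two -/
lemma half_EL (h2 : IsAlgebraic ℚ L.g₂) (h3 : IsAlgebraic ℚ L.g₃) {u : ℂ} (hu : 2 * u ∈ EL L) :
    u ∈ EL L := by
  by_cases h : 2 * u ∈ L.lattice
  · right
    have := half_mem_QB h2 h3 _ h
    rw [mem_QB] at this
    rwa [show 2 * u / 2 = u by ring] at this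
  · right
    have hV := hu.resolve_left h
    have h4 := wp_two L h
    have hu' := two_mul_notMem_of L h
    have h5 := wp'_ne_zero L h
    have h6 := L.derivWeierstrassP_sq u hu'
    set V := ℘[L] (2 * u)
    set X := ℘[L] u
    set Y := ℘'[L] u
    have hV' := mem_QB.2 hV
    have h2' := mem_QB.2 h2
    have h3' := mem_QB.2 h3
    have key : 4 * X ^ 4 - 16 * V * X ^ 3 + 2 * L.g₂ * X ^ 2 + (4 * V * L.g₂ + 8 * L.g₃) * X +
        (L.g₂ ^ 2 / 4 + 4 * V * L.g₃) = 0 := by
      have h7 : (V + 2 * X) * (4 * Y ^ 2) = (6 * X ^ 2 - L.g₂ / 2) ^ 2 := by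
        rw [h4]
        field_simp
        ring
      rw [h6] at h7
      linear_combination (-1 : ℂ) * h7
    refine QB_root (Polynomial.C 4 * Polynomial.X ^ 4 - Polynomial.C (16 * ⟨V, hV'⟩) * Polynomial.X ^ 3 +
      Polynomial.C (2 * ⟨L.g₂, h2'⟩) * Polynomial.X ^ 2 +
      Polynomial.C (4 * ⟨V, hV'⟩ * ⟨L.g₂, h2'⟩ + 8 * ⟨L.g₃, h3'⟩) * Polynomial.X +
      Polynomial.C (⟨L.g₂, h2'⟩ ^ 2 / 4 + 4 * ⟨V, hV'⟩ * ⟨L.g₃, h3'⟩)) ?_ ?_
    · intro h0
      have := congrArg (fun p => Polynomial.coeff p 4) h0
      simp only [Polynomial.coeff_add, Polynomial.coeff_sub, Polynomial.coeff_C_mul,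
        Polynomial.coeff_X_pow, Polynomial.coeff_X, Polynomial.coeff_C, Polynomial.coeff_zero] at this
      norm_num at this
    · simp only [map_add, map_sub, map_mul, map_pow, Polynomial.aeval_X, Polynomial.aeval_C,
        map_ofNat, map_div₀]
      have e1 : algebraMap QB ℂ ⟨L.g₂, h2'⟩ = L.g₂ := rfl
      have e2 : algebraMap QB ℂ ⟨L.g₃, h3'⟩ = L.g₃ := rfl
      have e3 : algebraMap QB ℂ ⟨V, hV'⟩ = V := rfl
      rw [e1, e2, e3]
      linear_combination key

lemma div_two_pow_EL (h2 : IsAlgebraic ℚ L.g₂) (h3 : IsAlgebraic ℚ L.g₃) {w : ℂ} (hw : w ∈ EL L)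
    (e : ℕ) : w / 2 ^ e ∈ EL L := by
  induction e with
  | zero => simpa using hw
  | succ e ih =>
    apply half_EL h2 h3
    rw [pow_succ]
    convert ih using 1
    field_simp

/-- a finitely generated group does not contain all the `ω / 2 ^ e` -/
lemma exists_notMem (G : Submodule ℤ ℂ) (hG : G.FG) {w : ℂ} (hw : w ≠ 0) : ∃ e : ℕ, w / 2 ^ e ∉ G := by
  by_contra hcon
  push Not at hcon
  have : IsNoetherian ℤ G := isNoetherian_of_fg_of_noetherian G hG
  -- the chain of submodules
  let f : ℕ →o Submodule ℤ G :=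
    { toFun := fun e => Submodule.span ℤ {(⟨w / 2 ^ e, hcon e⟩ : G)}
      monotone' := by
        apply monotone_nat_of_le_succ
        intro e
        rw [Submodule.span_le, Set.singleton_subset_iff]
        have : (⟨w / 2 ^ e, hcon e⟩ : G) = (2 : ℤ) • (⟨w / 2 ^ (e + 1), hcon (e + 1)⟩ : G) := by
          apply Subtype.ext
          show w / 2 ^ e = (2 : ℤ) • (w / 2 ^ (e + 1))
          rw [zsmul_eq_mul, pow_succ]
          push_cast
          field_simp
        rw [this]
        exact Submodule.smul_mem _ _ (Submodule.mem_span_singleton_self _) }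
  obtain ⟨e, he⟩ := monotone_stabilizes_iff_noetherian.2 this f
  have h1 : (⟨w / 2 ^ (e + 1), hcon (e + 1)⟩ : G) ∈ f e := by
    rw [he (e + 1) (Nat.le_succ e)]
    exact Submodule.mem_span_singleton_self _
  obtain ⟨a, ha⟩ := Submodule.mem_span_singleton.1 h1
  have h2 : (a : ℂ) * (w / 2 ^ e) = w / 2 ^ (e + 1) := by
    have := congrArg (fun x : G => (x : ℂ)) ha
    simpa using this
  have h3 : (2 * a - 1 : ℂ) = 0 := by
    have h4 : w / 2 ^ (e + 1) ≠ 0 := div_ne_zero hw (pow_ne_zero _ two_ne_zero)
    have h6 : w / 2 ^ e = 2 * (w / 2 ^ (e + 1)) := by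
      rw [pow_succ]
      field_simp
    have h5 : (2 * a - 1 : ℂ) * (w / 2 ^ (e + 1)) = 0 := by
      rw [h6] at h2
      linear_combination h2
    exact (mul_eq_zero.1 h5).resolve_right h4
  have h4 : (2 * a - 1 : ℤ) = 0 := by exact_mod_cast h3
  omega

/-- infinitely many values of `℘` on a translate of `b Ω` -/
lemma infinite_values {b : ℂ} (hb : ∀ m : ℕ, 0 < m → ∃ w ∈ L.lattice, (m : ℂ) * b * w ∉ L.lattice)
    (v : ℂ) : {x : ℂ | ∃ w ∈ L.lattice, v + b * w ∉ L.lattice ∧ x = ℘[L] (v + b * w)}.Infinite := by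
  intro hfin
  set Q := ℂ ⧸ L.lattice.toAddSubgroup
  -- the function on the quotient
  let h : Q → ℂ := fun x => Quotient.liftOn' x (fun u => ℘[L] (v + u)) (by
    intro a a' haa
    rw [QuotientAddGroup.leftRel_apply] at haa
    have e : v + a' = (v + a) + (-a + a') := by ring
    show ℘[L] (v + a) = ℘[L] (v + a')
    rw [e]
    exact (wp_add_lattice L haa).symm)
  have hmk : ∀ u : ℂ, h (QuotientAddGroup.mk u) = ℘[L] (v + u) := fun u => rfl
  have hfib : ∀ y : ℂ, (h ⁻¹' {y}).Finite := by
    intro y
    by_cases hex : ∃ u₀ : ℂ, v + u₀ ∉ L.lattice ∧ ℘[L] (v + u₀) = y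
    · obtain ⟨u₀, hu₀, hy⟩ := hex
      apply Set.Finite.subset (s := {QuotientAddGroup.mk (-v), QuotientAddGroup.mk u₀,
        QuotientAddGroup.mk (-(2 * v + u₀))}) (Set.toFinite _)
      intro x hx
      induction x using QuotientAddGroup.induction_on with
      | H u =>
        have hx' : ℘[L] (v + u) = y := hx
        simp only [Set.mem_insert_iff, Set.mem_singleton_iff]
        by_cases hu : v + u ∈ L.lattice
        · left
          rw [QuotientAddGroup.eq]
          have : -(v + u) ∈ L.lattice := neg_mem hu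
          have e : -u + -v = -(v + u) := by ring
          rw [e]
          exact this
        · rw [← hy, wp_eq_iff L hu hu₀] at hx'
          rcases hx' with h1 | h1
          · right; right
            rw [QuotientAddGroup.eq]
            have : -(v + u + (v + u₀)) ∈ L.lattice := neg_mem h1
            have e : -u + -(2 * v + u₀) = -(v + u + (v + u₀)) := by ring
            rw [e]
            exact this
          · right; left
            rw [QuotientAddGroup.eq]
            have : -(v + u - (v + u₀)) ∈ L.lattice := neg_mem h1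
            have e : -u + u₀ = -(v + u - (v + u₀)) := by ring
            rw [e]
            exact this
    · push Not at hex
      apply Set.Finite.subset (s := {QuotientAddGroup.mk (-v)}) (Set.toFinite _)
      intro x hx
      induction x using QuotientAddGroup.induction_on with
      | H u =>
        have hx' : ℘[L] (v + u) = y := hx
        have hu : v + u ∈ L.lattice := by
          by_contra hu
          exact hex u hu hx'
        rw [Set.mem_singleton_iff, QuotientAddGroup.eq]
        have : -(v + u) ∈ L.lattice := neg_mem hu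
        have e : -u + -v = -(v + u) := by ring
        rw [e]
        exact this
  let f : L.lattice.toAddSubgroup →+ Q :=
    (QuotientAddGroup.mk' L.lattice.toAddSubgroup).comp
      ((AddMonoidHom.mulLeft b).comp (L.lattice.toAddSubgroup.subtype))
  have hfr : (Set.range f).Finite := by
    have h1 : (insert (0 : ℂ) {x : ℂ | ∃ w ∈ L.lattice, v + b * w ∉ L.lattice ∧
        x = ℘[L] (v + b * w)}).Finite := hfin.insert 0
    refine (h1.preimage' (fun y _ => hfib y)).subset ?_
    rintro _ ⟨w, rfl⟩
    have h2 : h (f w) = ℘[L] (v + b * (w : ℂ)) := rfl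
    rw [Set.mem_preimage, h2]
    by_cases hw : v + b * (w : ℂ) ∈ L.lattice
    · left
      exact L.weierstrassP_coe ⟨_, hw⟩
    · right
      exact ⟨w, w.2, hw, rfl⟩
  have : Finite f.range := hfr.to_subtype
  have hcard : 0 < Nat.card f.range := Nat.card_pos
  obtain ⟨w, hw, hne⟩ := hb _ hcard
  apply hne
  have h1 : Nat.card f.range • (⟨f ⟨w, hw⟩, ⟨⟨w, hw⟩, rfl⟩⟩ : f.range) = 0 := card_nsmul_eq_zero'
  have h2 : Nat.card f.range • f ⟨w, hw⟩ = 0 := by
    have := congrArg (fun x : f.range => (x : Q)) h1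
    simpa using this
  have h3 : Nat.card f.range • f ⟨w, hw⟩ =
      (QuotientAddGroup.mk ((Nat.card f.range : ℂ) * b * w) : Q) := by
    rw [← map_nsmul]
    show (QuotientAddGroup.mk (b * ((Nat.card f.range • (⟨w, hw⟩ : L.lattice.toAddSubgroup) :
      L.lattice.toAddSubgroup) : ℂ)) : Q) = _
    congr 1
    have : ((Nat.card f.range • (⟨w, hw⟩ : L.lattice.toAddSubgroup) :
      L.lattice.toAddSubgroup) : ℂ) = (Nat.card f.range : ℂ) * w := by
      rw [AddSubgroup.coe_nsmul, nsmul_eq_mul]
    rw [this]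
    ring
  rw [h3, QuotientAddGroup.eq_zero_iff] at h2
  exact h2

end Pool.Agent.W245.EB
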