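import Pool.Agent.W245.EB.Core6

set_option autoImplicit false
set_option linter.unusedVariables false
set_option linter.unusedSectionVars false
set_option linter.unusedSimpArgs false

/-!
# The theorem of Schneider and Lang on Cartesian products, for elliptic logarithms
-/

open Filter NumberField
open scoped Topology PeriodPair

noncomputable section

namespace Pool.Agent.W245.EB

open H667R3

variable {L : PeriodPair}

/-- the linear forms -/
def form {n : ℕ} (b : Fin n → ℂ) : Option (Fin n) → (Fin n → ℂ) →L[ℂ] ℂ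
  | none => ∑ j, b j • ContinuousLinearMap.proj j
  | some j => ContinuousLinearMap.proj j

lemma form_none {n : ℕ} (b z : Fin n → ℂ) : form b none z = ∑ j, b j * z j := by
  simp [form]

lemma form_some {n : ℕ} (b z : Fin n → ℂ) (j : Fin n) : form b (some j) z = z j := rfl

/-- algebraic independence of the functions -/
lemma form_indep {n : ℕ} (b : Fin n → ℂ) (j0 : Fin n)
    (hj0 : ∀ m : ℕ, 0 < m → ∃ w ∈ L.lattice, (m : ℂ) * b j0 * w ∉ L.lattice) (q : ℂ)
    (P : MvPolynomial (Option (Fin n)) ℂ) (hP : P ≠ 0) :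
    ∃ z, (∀ i, form b i z + q ∉ L.lattice) ∧
      MvPolynomial.eval (fun i => ℘[L] (form b i z + q)) P ≠ 0 := by
  classical
  by_contra hcon
  push Not at hcon
  apply hP
  apply MvPolynomial.funext
  intro x
  rw [map_zero]
  choose u hu hux using fun j : Fin n => exists_wp_eq L (x (some j))
  -- the polynomial in one variable
  set p : Polynomial ℂ := MvPolynomial.aeval (fun i : Option (Fin n) =>
    (match i with
      | none => Polynomial.X
      | some j => Polynomial.C (x (some j)) : Polynomial ℂ)) P with hp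
  have heval : ∀ t : ℂ, p.eval t = MvPolynomial.eval (fun i : Option (Fin n) =>
      (match i with
        | none => t
        | some j => x (some j) : ℂ)) P := by
    intro t
    rw [hp, MvPolynomial.aeval_def, MvPolynomial.polynomial_eval_eval₂]
    rw [← MvPolynomial.eval₂_id]
    congr 1
    · ext a
      simp
    · funext i
      cases i <;> simp
  set z : Fin n → ℂ := fun j => u j - q with hz
  have hinf := infinite_values (L := L) hj0 (form b none z + q)
  have hp0 : p = 0 := by
    apply Polynomial.eq_zero_of_infinite_isRoot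
    refine hinf.mono ?_
    rintro _ ⟨w, hw, hne, rfl⟩
    show p.eval _ = 0
    rw [heval]
    set z' : Fin n → ℂ := z + Pi.single j0 w with hz'
    have e1 : form b none z' + q = form b none z + q + b j0 * w := by
      rw [form_none, form_none, hz']
      have : ∑ j, b j * (z + Pi.single j0 w : Fin n → ℂ) j = ∑ j, b j * z j + b j0 * w := by
        simp only [Pi.add_apply, mul_add, Finset.sum_add_distrib]
        congr 1
        rw [Finset.sum_eq_single j0]
        · simp
        · intro j _ hj
          simp [hj]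
        · intro h
          exact absurd (Finset.mem_univ _) h
      rw [this]
      ring
    have e2 : ∀ j, ∃ w' ∈ L.lattice, form b (some j) z' + q = u j + w' := by
      intro j
      refine ⟨(Pi.single j0 w : Fin n → ℂ) j, ?_, ?_⟩
      · by_cases hj : j = j0
        · subst hj
          simpa using hw
        · simp [hj]
      · rw [form_some, hz', hz]
        simp only [Pi.add_apply]
        ring
    have h1 := hcon z' (by
      intro i
      cases i with
      | none => rw [e1]; exact hne
      | some j =>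
        obtain ⟨w', hw', e⟩ := e2 j
        rw [e, add_mem_lattice_iff L hw']
        exact hu j)
    rw [← h1]
    have hfun : (fun i : Option (Fin n) => (match i with
        | none => ℘[L] (form b none z + q + b j0 * w)
        | some j => x (some j) : ℂ)) = fun i => ℘[L] (form b i z' + q) := by
      funext i
      cases i with
      | none =>
        simp only
        rw [e1]
      | some j =>
        obtain ⟨w', hw', e⟩ := e2 j
        simp only
        rw [e, wp_add_lattice L hw', hux]
    rw [hfun]
  have h2 := heval (x none)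
  rw [hp0, Polynomial.eval_zero] at h2
  rw [h2]
  have hfun : (fun i : Option (Fin n) => (match i with
      | none => x none
      | some j => x (some j) : ℂ)) = x := by
    funext i
    cases i <;> rfl
  rw [hfun]

/-- half-period values from a basis -/
lemma halfMem_of {K : Subfield ℂ} (h1 : ℘[L] (L.ω₁ / 2) ∈ K) (h2 : ℘[L] (L.ω₂ / 2) ∈ K)
    (h3 : ℘[L] ((L.ω₁ + L.ω₂) / 2) ∈ K) : HalfMem L K := by
  intro w hw
  obtain ⟨a, a', e⟩ := PeriodPair.mem_lattice.1 hw
  have hω₁ : L.ω₁ ∈ L.lattice := L.ω₁_mem_lattice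
  have hω₂ : L.ω₂ ∈ L.lattice := L.ω₂_mem_lattice
  have hint : ∀ (k k' : ℤ), (k : ℂ) * L.ω₁ + k' * L.ω₂ ∈ L.lattice := fun k k' =>
    PeriodPair.mem_lattice.2 ⟨k, k', rfl⟩
  rcases Int.even_or_odd' a with ⟨k, hk | hk⟩ <;> rcases Int.even_or_odd' a' with ⟨k', hk' | hk'⟩
  · have : w / 2 = 0 + ((k : ℂ) * L.ω₁ + k' * L.ω₂) := by
      rw [← e, hk, hk']
      push_cast
      ring
    rw [this, wp_add_lattice L (hint k k')]
    have h0 : ℘[L] 0 = 0 := L.weierstrassP_coe ⟨0, zero_mem _⟩
    rw [h0]
    exact zero_mem K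
  · have : w / 2 = L.ω₂ / 2 + ((k : ℂ) * L.ω₁ + k' * L.ω₂) := by
      rw [← e, hk, hk']
      push_cast
      ring
    rw [this, wp_add_lattice L (hint k k')]
    exact h2
  · have : w / 2 = L.ω₁ / 2 + ((k : ℂ) * L.ω₁ + k' * L.ω₂) := by
      rw [← e, hk, hk']
      push_cast
      ring
    rw [this, wp_add_lattice L (hint k k')]
    exact h1
  · have : w / 2 = (L.ω₁ + L.ω₂) / 2 + ((k : ℂ) * L.ω₁ + k' * L.ω₂) := by
      rw [← e, hk, hk']
      push_cast
      ring
    rw [this, wp_add_lattice L (hint k k')]
    exact h3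

theorem core (h2 : IsAlgebraic ℚ L.g₂) (h3 : IsAlgebraic ℚ L.g₃) {n : ℕ} (hn : 0 < n)
    (b : Fin n → ℂ) (hb : ∀ j, IsAlgebraic ℚ (b j)) (j0 : Fin n)
    (hj0 : ∀ m : ℕ, 0 < m → ∃ w ∈ L.lattice, (m : ℂ) * b j0 * w ∉ L.lattice)
    (U : Fin n → Fin n → ℂ) (hU : LinearIndependent ℂ U) (hUE : ∀ k j, U k j ∈ EL L)
    (hUb : ∀ k, ∑ j, b j * U k j ∈ EL L) : False := by
  classical
  have hω₁ : L.ω₁ ∈ L.lattice := L.ω₁_mem_lattice
  have hω₂ : L.ω₂ ∈ L.lattice := L.ω₂_mem_lattice
  have hω₁0 : L.ω₁ ≠ 0 := by
    intro h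
    have := L.ω₁_div_two_notMem_lattice
    rw [h, zero_div] at this
    exact this (zero_mem _)
  have hUi : ∀ i k, form b i (U k) ∈ EL L := by
    intro i k
    cases i with
    | none => rw [form_none]; exact hUb k
    | some j => exact hUE k j
  -- the translation
  set Gs : Finset ℂ := (Finset.univ.image fun z : Option (Fin n) × Fin n => 2 * form b z.1 (U z.2)) ∪
    {L.ω₁, L.ω₂} with hGs
  set G : Submodule ℤ ℂ := Submodule.span ℤ (Gs : Set ℂ) with hG
  have hGfg : G.FG := ⟨Gs, rfl⟩
  obtain ⟨e, he⟩ := exists_notMem G hGfg hω₁0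
  set q : ℂ := L.ω₁ / 2 ^ (e + 1) with hq
  have h2q : 2 * q ∉ G := by
    have : 2 * q = L.ω₁ / 2 ^ e := by
      rw [hq, pow_succ]
      field_simp
    rw [this]
    exact he
  have hlatG : ∀ w ∈ L.lattice, w ∈ G := by
    intro w hw
    obtain ⟨a, a', e⟩ := PeriodPair.mem_lattice.1 hw
    rw [← e]
    have h1 : L.ω₁ ∈ G := Submodule.subset_span (by simp [hGs])
    have h2 : L.ω₂ ∈ G := Submodule.subset_span (by simp [hGs])
    have h3 := G.add_mem (G.smul_mem a h1) (G.smul_mem a' h2)
    simpa using h3
  have hUG : ∀ i k, 2 * form b i (U k) ∈ G := by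
    intro i k
    apply Submodule.subset_span
    rw [hGs]
    simp only [Finset.coe_union, Set.mem_union, Finset.coe_image]
    left
    exact ⟨(i, k), by simp, rfl⟩
  have hne : ∀ i (s : Fin n → ℕ), 2 * (form b i (∑ k, (s k : ℂ) • U k) + q) ∉ L.lattice := by
    intro i s hmem
    apply h2q
    have h1 : 2 * form b i (∑ k, (s k : ℂ) • U k) ∈ G := by
      rw [map_sum, Finset.mul_sum]
      apply Submodule.sum_mem
      intro k _
      rw [map_smul, smul_eq_mul]
      have h4 : 2 * ((s k : ℂ) * form b i (U k)) = ((s k : ℤ)) • (2 * form b i (U k)) := by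
        rw [zsmul_eq_mul]
        push_cast
        ring
      rw [h4]
      exact G.smul_mem _ (hUG i k)
    have h4 := G.sub_mem (hlatG _ hmem) h1
    rwa [show 2 * (form b i (∑ k, (s k : ℂ) • U k) + q) - 2 * form b i (∑ k, (s k : ℂ) • U k) = 2 * q by ring] at h4
  have hqE : q ∈ EL L := div_two_pow_EL h2 h3 (Or.inl hω₁) _
  -- the field
  have hq' : q ∉ L.lattice := by
    intro h
    exact h2q (hlatG _ (by rw [two_mul]; exact add_mem h h))
  have halg : ∀ u ∈ EL L, u ∉ L.lattice → IsAlgebraic ℚ (℘[L] u) ∧ IsAlgebraic ℚ (℘'[L] u) := by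
    intro u hu hu'
    have := hu.resolve_left hu'
    exact ⟨this, wp'_alg h2 h3 hu' this⟩
  set F1 : Finset ℂ := Finset.univ.image fun z : Option (Fin n) × Fin n =>
    if form b z.1 (U z.2) ∈ L.lattice then 0 else ℘[L] (form b z.1 (U z.2)) with hF1
  set F2 : Finset ℂ := Finset.univ.image fun z : Option (Fin n) × Fin n =>
    if form b z.1 (U z.2) ∈ L.lattice then 0 else ℘'[L] (form b z.1 (U z.2)) with hF2
  set F3 : Finset ℂ := Finset.univ.image b with hF3
  set F : Finset ℂ := F1 ∪ F2 ∪ F3 ∪ {L.g₂, ℘[L] q, ℘'[L] q, ℘[L] (L.ω₁ / 2), ℘[L] (L.ω₂ / 2),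
    ℘[L] ((L.ω₁ + L.ω₂) / 2)} with hF
  have hFalg : ∀ x ∈ F, IsAlgebraic ℚ x := by
    intro x hx
    rw [hF] at hx
    simp only [Finset.mem_union, Finset.mem_insert, Finset.mem_singleton] at hx
    rcases hx with ((hx | hx) | hx) | hx | hx | hx | hx | hx | hx
    · obtain ⟨z, _, rfl⟩ := Finset.mem_image.1 hx
      split_ifs with hz
      · exact isAlgebraic_zero
      · exact (halg _ (hUi _ _) hz).1
    · obtain ⟨z, _, rfl⟩ := Finset.mem_image.1 hx
      split_ifs with hz
      · exact isAlgebraic_zero
      · exact (halg _ (hUi _ _) hz).2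
    · obtain ⟨z, _, rfl⟩ := Finset.mem_image.1 hx
      exact hb z
    · rw [hx]; exact h2
    · rw [hx]; exact (halg q hqE hq').1
    · rw [hx]; exact (halg q hqE hq').2
    · rw [hx]; exact mem_QB.1 (half_mem_QB h2 h3 _ hω₁)
    · rw [hx]; exact mem_QB.1 (half_mem_QB h2 h3 _ hω₂)
    · rw [hx]; exact mem_QB.1 (half_mem_QB h2 h3 _ (add_mem hω₁ hω₂))
  set K : IntermediateField ℚ ℂ := IntermediateField.adjoin ℚ (F : Set ℂ) with hK
  have hKfin : FiniteDimensional ℚ K :=
    IntermediateField.finiteDimensional_adjoin (fun x hx => (hFalg x hx).isIntegral)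
  have hFK : ∀ x ∈ F, x ∈ K := fun x hx => IntermediateField.subset_adjoin ℚ _ hx
  have hgK : L.g₂ ∈ K.toSubfield := hFK _ (by rw [hF]; simp)
  have hhK : HalfMem L K.toSubfield := by
    apply halfMem_of
    · exact hFK _ (by rw [hF]; simp)
    · exact hFK _ (by rw [hF]; simp)
    · exact hFK _ (by rw [hF]; simp)
  have hqK : q ∈ GK L K.toSubfield := by
    right
    exact ⟨hFK _ (by rw [hF]; simp), hFK _ (by rw [hF]; simp)⟩
  have hUK : ∀ i k, form b i (U k) ∈ GK L K.toSubfield := by
    intro i k
    by_cases hmem : form b i (U k) ∈ L.lattice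
    · exact Or.inl hmem
    · right
      constructor
      · apply hFK
        rw [hF]
        simp only [Finset.mem_union]
        left; left; left
        exact Finset.mem_image.2 ⟨(i, k), Finset.mem_univ _, by simp [hmem]⟩
      · apply hFK
        rw [hF]
        simp only [Finset.mem_union]
        left; left; right
        exact Finset.mem_image.2 ⟨(i, k), Finset.mem_univ _, by simp [hmem]⟩
  have hbK : ∀ j, b j ∈ K := by
    intro j
    apply hFK
    rw [hF]
    simp only [Finset.mem_union]
    left; right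
    exact Finset.mem_image.2 ⟨j, Finset.mem_univ _, rfl⟩
  have hptK : ∀ i (s : Fin n → ℕ), form b i (∑ k, (s k : ℂ) • U k) + q ∈ GK L K.toSubfield := by
    intro i s
    have h1 : form b i (∑ k, (s k : ℂ) • U k) + q ∈ GKg L K.toSubfield hgK hhK := by
      apply add_mem _ hqK
      rw [map_sum]
      apply sum_mem
      intro k _
      rw [map_smul, smul_eq_mul, ← nsmul_eq_mul]
      exact nsmul_mem (hUK i k) _
    exact h1
  have hval : ∀ i (s : Fin n → ℕ), ℘[L] (form b i (∑ k, (s k : ℂ) • U k) + q) ∈ K ∧
      ℘'[L] (form b i (∑ k, (s k : ℂ) • U k) + q) ∈ K := by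
    intro i s
    rcases hptK i s with h | h
    · exact absurd h (two_mul_notMem_of L (hne i s))
    · exact h
  have hnf : NumberField K := { to_charZero := inferInstance, to_finiteDimensional := hKfin }
  have hbi : ∀ i j, form b i (Pi.single j 1) ∈ K := by
    intro i j
    cases i with
    | none =>
      rw [form_none, Finset.sum_eq_single j]
      · simpa using hbK j
      · intro j' _ hj'
        simp [hj']
      · intro h
        exact absurd (Finset.mem_univ _) h
    | some j' =>
      rw [form_some]
      by_cases hj : j' = j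
      · subst hj
        simp
      · simp [hj]
  let data : SL n :=
    { L := L
      K := K
      ph := algebraMap K ℂ
      I := Option (Fin n)
      cardI := by simp
      ell := form b
      q := q
      b := fun i j => ⟨form b i (Pi.single j 1), hbi i j⟩
      hb := fun i j => rfl
      g := ⟨L.g₂, hgK⟩
      hg := rfl
      U := U
      hU := hU
      x := fun i s => ⟨_, (hval i s).1⟩
      y := fun i s => ⟨_, (hval i s).2⟩
      hx := fun i s => rfl
      hy := fun i s => rfl
      hne := hne
      indep := fun P hP => form_indep b j0 hj0 q P hP }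
  exact SL.false data hn

end Pool.Agent.W245.EB
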