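import Pool.Agent.W245.EB.Gz
import Pool.Agent.W245.EB.Zt
import Pool.Agent.W245.EB.AD2
import Pool.Agent.W245.EB.Core7

set_option autoImplicit false
set_option linter.unusedVariables false
set_option linter.unusedSectionVars false
set_option linter.unusedSimpArgs false

/-!
# The functions for the second kind
-/

open Filter MvPolynomial NumberField
open scoped Topology PeriodPair

noncomputable section

namespace Pool.Agent.W245.EB

open H667R3

variable (L : PeriodPair) {n : ℕ} (B : Fin n → ℂ) (s ρ q : ℂ)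

/-- the function of the second kind -/
def fz (z : Fin n → ℂ) : ℂ := ∑ i, B i * (s * (zeta L (z i + q) - zeta L q) + ρ * z i)

/-- the domain -/
def Oz (n : ℕ) : Set (Fin n → ℂ) := {z | ∀ j, 2 * (z j + q) ∉ L.lattice}

/-- the functions -/
def valz (d : ℤ) (p : Option (Fin n × Bool)) (z : Fin n → ℂ) : ℂ :=
  p.elim (d * fz L B s ρ q z)
    (fun jb => if jb.2 then (d : ℂ) ^ 3 * ℘'[L] (z jb.1 + q) else (d : ℂ) ^ 2 * ℘[L] (z jb.1 + q))

lemma isOpen_Oz : IsOpen (Oz L q n) := by
  have : Oz L q n = ⋂ i : Fin n, (fun z : Fin n → ℂ => 2 * (z i + q)) ⁻¹' (L.lattice : Set ℂ)ᶜ := by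
    ext z
    simp [Oz]
  rw [this]
  apply isOpen_iInter_of_finite
  intro i
  exact (isOpen_compl L).preimage (by fun_prop)

variable {L q}

lemma Oz_notMem {z : Fin n → ℂ} (hz : z ∈ Oz L q n) (i : Fin n) : z i + q ∉ L.lattice :=
  two_mul_notMem_of L (hz i)

variable (L q)

lemma hasFDerivAt_coord (i : Fin n) (z : Fin n → ℂ) :
    HasFDerivAt (fun z : Fin n → ℂ => z i + q) (ContinuousLinearMap.proj i : (Fin n → ℂ) →L[ℂ] ℂ) z :=
  ((ContinuousLinearMap.proj i : (Fin n → ℂ) →L[ℂ] ℂ).hasFDerivAt).add_const _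

lemma analyticAt_coord (i : Fin n) (z : Fin n → ℂ) : AnalyticAt ℂ (fun z : Fin n → ℂ => z i) z :=
  ((ContinuousLinearMap.proj i : (Fin n → ℂ) →L[ℂ] ℂ).analyticAt z)

lemma analyticAt_comp_coord {f : ℂ → ℂ} (i : Fin n) {z : Fin n → ℂ} (hf : AnalyticAt ℂ f (z i + q)) :
    AnalyticAt ℂ (fun z : Fin n → ℂ => f (z i + q)) z :=
  AnalyticAt.comp hf ((analyticAt_coord i z).add analyticAt_const)

lemma analyticAt_wpz {u : ℂ} (hu : u ∉ L.lattice) : AnalyticAt ℂ ℘[L] u :=
  (L.differentiableOn_weierstrassP.analyticOnNhd (isOpen_compl L)) u hu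

lemma analyticAt_wpz' {u : ℂ} (hu : u ∉ L.lattice) : AnalyticAt ℂ ℘'[L] u := by
  have h1 := (analyticAt_wpz L hu).deriv
  have h2 : deriv ℘[L] =ᶠ[𝓝 u] ℘'[L] := by
    filter_upwards [(isOpen_compl L).mem_nhds hu] with x hx
    exact (hasDerivAt_weierstrassP L hx).deriv
  exact h1.congr h2

lemma analyticAt_zetaz {u : ℂ} (hu : u ∉ L.lattice) : AnalyticAt ℂ (zeta L) u :=
  ((differentiableOn_zeta L).analyticOnNhd (isOpen_compl L)) u hu

variable {L q}

lemma analytic_fz {z : Fin n → ℂ} (hz : z ∈ Oz L q n) : AnalyticAt ℂ (fz L B s ρ q) z := by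
  unfold fz
  apply Finset.analyticAt_fun_sum
  intro i _
  apply analyticAt_const.fun_mul
  apply AnalyticAt.fun_add
  · apply analyticAt_const.fun_mul
    exact (analyticAt_comp_coord q i (analyticAt_zetaz L (Oz_notMem hz i))).fun_sub analyticAt_const
  · exact analyticAt_const.fun_mul (analyticAt_coord i z)

lemma analytic_valz (d : ℤ) (p : Option (Fin n × Bool)) :
    AnalyticOnNhd ℂ (valz L B s ρ q d p) (Oz L q n) := by
  intro z hz
  rcases p with _ | ⟨j, b⟩
  · have : valz L B s ρ q d none = fun z => (d : ℂ) * fz L B s ρ q z := rfl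
    rw [this]
    exact analyticAt_const.fun_mul (analytic_fz B s ρ hz)
  · cases b
    · have : valz L B s ρ q d (some (j, false)) = fun z => (d : ℂ) ^ 2 * ℘[L] (z j + q) := by
        funext z
        simp [valz]
      rw [this]
      exact analyticAt_const.fun_mul (analyticAt_comp_coord q j (analyticAt_wpz L (Oz_notMem hz j)))
    · have : valz L B s ρ q d (some (j, true)) = fun z => (d : ℂ) ^ 3 * ℘'[L] (z j + q) := by
        funext z
        simp [valz]
      rw [this]
      exact analyticAt_const.fun_mul (analyticAt_comp_coord q j (analyticAt_wpz' L (Oz_notMem hz j)))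

lemma D_coord {f : ℂ → ℂ} {f' : ℂ} (i : Fin n) (z v : Fin n → ℂ) (a : ℂ)
    (hf : HasDerivAt f f' (z i + q)) :
    D v (fun z => a * f (z i + q)) z = a * (f' * v i) := by
  have h1 := (hf.comp_hasFDerivAt z (hasFDerivAt_coord q i z)).const_mul a
  simp only [D]
  have h2 : HasFDerivAt (fun z => a * f (z i + q))
    (a • f' • (ContinuousLinearMap.proj i : (Fin n → ℂ) →L[ℂ] ℂ)) z := h1
  rw [h2.fderiv]
  simp

lemma hasFDerivAt_fz {z : Fin n → ℂ} (hz : z ∈ Oz L q n) :
    HasFDerivAt (fz L B s ρ q) (∑ i, (B i * (s * (-℘[L] (z i + q)) + ρ)) •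
      (ContinuousLinearMap.proj i : (Fin n → ℂ) →L[ℂ] ℂ)) z := by
  unfold fz
  apply HasFDerivAt.fun_sum
  intro i _
  have h1 : HasDerivAt (fun u : ℂ => B i * (s * (zeta L (u + q) - zeta L q) + ρ * u))
      (B i * (s * (-℘[L] (z i + q)) + ρ)) (z i) := by
    have h2 : HasDerivAt (fun u : ℂ => zeta L (u + q)) (-℘[L] (z i + q)) (z i) :=
      (hasDerivAt_zeta L (Oz_notMem hz i)).comp_add_const (z i) q
    have h3 : HasDerivAt (fun u : ℂ => ρ * u) ρ (z i) := by
      simpa using (hasDerivAt_id (z i)).const_mul ρ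
    exact (((h2.sub_const _).const_mul s).add h3).const_mul (B i)
  have h2 := h1.comp_hasFDerivAt z
    ((ContinuousLinearMap.proj i : (Fin n → ℂ) →L[ℂ] ℂ).hasFDerivAt (x := z))
  exact h2

lemma D_fz {z : Fin n → ℂ} (hz : z ∈ Oz L q n) (a c : ℂ) (j : Fin n) :
    D (c • (Pi.single j 1 : Fin n → ℂ)) (fun z => a * fz L B s ρ q z) z =
      a * ((B j * (s * (-℘[L] (z j + q)) + ρ)) * c) := by
  have h1 := (hasFDerivAt_fz B s ρ hz).const_mul a
  simp only [D]
  rw [h1.fderiv]
  simp only [_root_.smul_apply, _root_.sum_apply,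
    ContinuousLinearMap.proj_apply, Pi.smul_apply, smul_eq_mul]
  congr 1
  rw [Finset.sum_eq_single j]
  · simp
  · intro i _ hi
    simp [hi]
  · intro h
    exact absurd (Finset.mem_univ _) h

/-- the derivations -/
def δz {R : Type*} [CommRing R] (dd gd : R) (bs br : Fin n → R) (j : Fin n)
    (p : Option (Fin n × Bool)) : MvPolynomial (Option (Fin n × Bool)) R :=
  p.elim (C (br j) - C (bs j) * MvPolynomial.X (some (j, false)))
    (fun ib => if ib.1 = j then
      (if ib.2 then C dd * (6 * MvPolynomial.X (some (j, false)) ^ 2 - C gd)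
        else C dd * MvPolynomial.X (some (j, true))) else 0)

lemma totalDegree_δz {R : Type*} [CommRing R] [Nontrivial R] (dd gd : R) (bs br : Fin n → R) (j : Fin n)
    (p : Option (Fin n × Bool)) : (δz dd gd bs br j p).totalDegree ≤ 2 := by
  rcases p with _ | ⟨i, b⟩
  · unfold δz
    simp only [Option.elim]
    refine (totalDegree_sub _ _).trans ?_
    rw [totalDegree_C]
    apply max_le (Nat.zero_le _)
    refine (totalDegree_mul _ _).trans ?_
    rw [totalDegree_C, totalDegree_X]
    omega
  · unfold δz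
    simp only [Option.elim]
    split_ifs
    · refine (totalDegree_mul _ _).trans ?_
      rw [totalDegree_C, zero_add]
      refine (totalDegree_sub _ _).trans ?_
      rw [totalDegree_C]
      apply max_le _ (Nat.zero_le _)
      refine (totalDegree_mul _ _).trans ?_
      rw [show (6 : MvPolynomial (Option (Fin n × Bool)) R) = C 6 from rfl, totalDegree_C, zero_add]
      refine (totalDegree_pow _ _).trans ?_
      rw [totalDegree_X]
    · refine (totalDegree_mul _ _).trans ?_
      rw [totalDegree_C, totalDegree_X]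
      omega
    · rw [totalDegree_zero]
      omega

lemma D_valz {R : Type*} [CommRing R] (emb : R →+* ℂ) {dd gd : R} {bs br : Fin n → R} {d : ℤ}
    (hdd : emb dd = d) (hgd : emb gd = d ^ 4 * (L.g₂ / 2)) (hbs : ∀ j, emb (bs j) = d * (B j * s))
    (hbr : ∀ j, emb (br j) = d ^ 3 * (B j * ρ)) (j : Fin n) (p : Option (Fin n × Bool))
    (z : Fin n → ℂ) (hz : z ∈ Oz L q n) :
    D ((d : ℂ) ^ 2 • (Pi.single j 1 : Fin n → ℂ)) (valz L B s ρ q d p) z =
      ev emb (valz L B s ρ q d) (δz dd gd bs br j p) z := by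
  have h6 : ∀ w : Option (Fin n × Bool) → ℂ,
      eval₂ emb w (6 : MvPolynomial (Option (Fin n × Bool)) R) = 6 := by
    intro w
    rw [show (6 : MvPolynomial (Option (Fin n × Bool)) R) = C 6 from rfl, eval₂_C]
    exact map_ofNat emb 6
  rcases p with _ | ⟨i, b⟩
  · have h1 : valz L B s ρ q d none = fun z => (d : ℂ) * fz L B s ρ q z := rfl
    rw [h1, D_fz B s ρ hz]
    simp only [ev, δz, Option.elim, eval₂_sub, eval₂_mul, eval₂_C, eval₂_X, hbs, hbr, valz,
      Bool.false_eq_true, if_false]
    ring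
  · cases b
    · have h1 : valz L B s ρ q d (some (i, false)) = fun z => (d : ℂ) ^ 2 * ℘[L] (z i + q) := by
        funext z
        simp [valz]
      rw [h1, D_coord i z _ _ (hasDerivAt_weierstrassP L (Oz_notMem hz i))]
      by_cases hij : i = j
      · subst hij
        simp only [ev, δz, Option.elim, if_true, Bool.false_eq_true, if_false, eval₂_mul, eval₂_C,
          eval₂_X, hdd, valz, Pi.smul_apply, Pi.single_eq_same, smul_eq_mul]
        ring
      · simp only [ev, δz, Option.elim, if_neg hij, eval₂_zero, Pi.smul_apply, smul_eq_mul,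
          Pi.single_eq_of_ne hij, mul_zero]
    · have h1 : valz L B s ρ q d (some (i, true)) = fun z => (d : ℂ) ^ 3 * ℘'[L] (z i + q) := by
        funext z
        simp [valz]
      rw [h1, D_coord i z _ _ (hasDerivAt_wp' L (hz i))]
      by_cases hij : i = j
      · subst hij
        simp only [ev, δz, Option.elim, if_true, Bool.false_eq_true, if_false, eval₂_mul, eval₂_C,
          eval₂_X, eval₂_sub, eval₂_pow, hdd, hgd, h6, valz, Pi.smul_apply, Pi.single_eq_same,
          smul_eq_mul]
        ring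
      · simp only [ev, δz, Option.elim, if_neg hij, eval₂_zero, Pi.smul_apply, smul_eq_mul,
          Pi.single_eq_of_ne hij, mul_zero]

variable (L q)

/-- the denominators -/
def Thz (o : Option (Fin n)) (z : Fin n → ℂ) : ℂ :=
  o.elim (∏ j, sigma L (z j + q)) (fun j => sigma L (z j + q) * sigma L (z j + q))

open Classical in
/-- the numerators -/
def Az (d : ℤ) (o : Option (Fin n)) (z : Fin n → ℂ) : ℂ :=
  o.elim ((d : ℂ) * ∑ i, B i * (s * (deriv (sigma L) (z i + q) *
      (∏ j ∈ Finset.univ.erase i, sigma L (z j + q)) + (-zeta L q) * ∏ j, sigma L (z j + q)) +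
      ρ * (z i * ∏ j, sigma L (z j + q))))
    (fun j => (d : ℂ) ^ 2 * Afun L (L.ω₁ / 2) (z j + q))

/-- choice of the functions -/
def bz (o : Option (Fin n)) : Option (Fin n × Bool) := o.map (fun j => (j, false))

lemma bz_injective : Function.Injective (bz (n := n)) := by
  intro a b h
  cases a <;> cases b <;> simp_all [bz]

variable {L q}

lemma hThz (d : ℤ) (o : Option (Fin n)) (z : Fin n → ℂ) (hz : z ∈ Oz L q n) :
    Thz L q o z * valz L B s ρ q d (bz o) z = Az L B s ρ q d o z := by
  classical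
  rcases o with _ | j
  · simp only [Thz, bz, Option.map_none, Option.elim, valz, Az, fz, Finset.mul_sum]
    apply Finset.sum_congr rfl
    intro i _
    rw [deriv_sigma L (Oz_notMem hz i), ← Finset.mul_prod_erase Finset.univ (fun j => sigma L (z j + q)) (Finset.mem_univ i)]
    ring
  · simp only [Thz, bz, Option.map_some, Option.elim, valz, Az, Bool.false_eq_true, if_false]
    rw [wp_eq_Afun L (Oz_notMem hz j) L.ω₁_div_two_notMem_lattice]
    have h1 := sigma_ne_zero L (Oz_notMem hz j)
    field_simp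

lemma Thz_ne_zero (o : Option (Fin n)) {z : Fin n → ℂ} (hz : z ∈ Oz L q n) : Thz L q o z ≠ 0 := by
  rcases o with _ | j
  · simp only [Thz, Option.elim]
    rw [Finset.prod_ne_zero_iff]
    intro j _
    exact sigma_ne_zero L (Oz_notMem hz j)
  · simp only [Thz, Option.elim]
    exact mul_ne_zero (sigma_ne_zero L (Oz_notMem hz j)) (sigma_ne_zero L (Oz_notMem hz j))

lemma Gr_Afun (L : PeriodPair) (q : ℂ) : Gr (Afun L q) := by
  have h1 : Gr (fun z => ℘[L] q * (sigma L z * sigma L z)) :=
    (Gr.const _).mul ((Gr.sigma L).mul (Gr.sigma L))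
  have h2 : Gr (fun z => (sigma L q ^ 2)⁻¹ * (sigma L (z + q) * sigma L (z + -q))) :=
    (Gr.const _).mul (((Gr.sigma L).shift q).mul ((Gr.sigma L).shift (-q)))
  exact h1.sub h2

lemma gr_Thz (o : Option (Fin n)) : GrE (Thz L q o) := by
  rcases o with _ | j
  · have : Thz L q (none : Option (Fin n)) = fun z => ∏ j, sigma L (z j + q) := rfl
    rw [this]
    exact GrE.prod _ _ fun j _ => GrE.comp (Gr.sigma L) j q
  · have : Thz L q (some j) = fun z => sigma L (z j + q) * sigma L (z j + q) := rfl
    rw [this]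
    exact (GrE.comp (Gr.sigma L) j q).mul (GrE.comp (Gr.sigma L) j q)

lemma gr_Az (d : ℤ) (o : Option (Fin n)) : GrE (Az L B s ρ q d o) := by
  classical
  have hprod : GrE (fun z : Fin n → ℂ => ∏ j, sigma L (z j + q)) :=
    GrE.prod _ _ fun j _ => GrE.comp (Gr.sigma L) j q
  rcases o with _ | j
  · have : Az L B s ρ q d none = fun z => ((d : ℂ) * ∑ i, B i * (s * (deriv (sigma L) (z i + q) *
      (∏ j ∈ Finset.univ.erase i, sigma L (z j + q)) + (-zeta L q) * ∏ j, sigma L (z j + q)) +
      ρ * (z i * ∏ j, sigma L (z j + q)))) := by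
      funext z
      simp only [Az, Option.elim]
    rw [this]
    apply (GrE.const _).mul
    apply GrE.sum
    intro i _
    apply (GrE.const _).mul
    apply GrE.add
    · apply (GrE.const _).mul
      apply GrE.add
      · exact (GrE.comp (Gr_deriv (Gr.sigma L) (differentiable_sigma L)) i q).mul
          (GrE.prod _ _ fun j _ => GrE.comp (Gr.sigma L) j q)
      · exact (GrE.const _).mul hprod
    · exact (GrE.const _).mul ((GrE.coord i).mul hprod)
  · have : Az L B s ρ q d (some j) = fun z => (d : ℂ) ^ 2 * Afun L (L.ω₁ / 2) (z j + q) := rfl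
    rw [this]
    exact (GrE.const _).mul (GrE.comp (Gr_Afun L _) j q)

lemma analytic_Thz (o : Option (Fin n)) : AnalyticOnNhd ℂ (Thz L q o) Set.univ := by
  intro z _
  have hs : ∀ j : Fin n, AnalyticAt ℂ (fun z : Fin n → ℂ => sigma L (z j + q)) z := fun j =>
    analyticAt_comp_coord q j ((differentiable_sigma L).analyticAt _)
  rcases o with _ | j
  · have : Thz L q (none : Option (Fin n)) = fun z => ∏ j, sigma L (z j + q) := rfl
    rw [this]
    exact Finset.analyticAt_fun_prod _ fun j _ => hs j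
  · have : Thz L q (some j) = fun z => sigma L (z j + q) * sigma L (z j + q) := rfl
    rw [this]
    exact (hs j).fun_mul (hs j)

lemma analytic_Az (d : ℤ) (o : Option (Fin n)) : AnalyticOnNhd ℂ (Az L B s ρ q d o) Set.univ := by
  classical
  intro z _
  have hs : ∀ j : Fin n, AnalyticAt ℂ (fun z : Fin n → ℂ => sigma L (z j + q)) z := fun j =>
    analyticAt_comp_coord q j ((differentiable_sigma L).analyticAt _)
  have hs' : ∀ j : Fin n, AnalyticAt ℂ (fun z : Fin n → ℂ => deriv (sigma L) (z j + q)) z := fun j =>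
    analyticAt_comp_coord q j ((differentiable_sigma L).analyticAt _).deriv
  rcases o with _ | j
  · have : Az L B s ρ q d none = fun z => ((d : ℂ) * ∑ i, B i * (s * (deriv (sigma L) (z i + q) *
      (∏ j ∈ Finset.univ.erase i, sigma L (z j + q)) + (-zeta L q) * ∏ j, sigma L (z j + q)) +
      ρ * (z i * ∏ j, sigma L (z j + q)))) := by
      funext z
      simp only [Az, Option.elim]
    rw [this]
    apply analyticAt_const.fun_mul
    apply Finset.analyticAt_fun_sum
    intro i _
    apply analyticAt_const.fun_mul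
    apply AnalyticAt.fun_add
    · apply analyticAt_const.fun_mul
      apply AnalyticAt.fun_add
      · exact (hs' i).fun_mul (Finset.analyticAt_fun_prod _ fun j _ => hs j)
      · exact analyticAt_const.fun_mul (Finset.analyticAt_fun_prod _ fun j _ => hs j)
    · exact analyticAt_const.fun_mul ((analyticAt_coord i z).fun_mul
        (Finset.analyticAt_fun_prod _ fun j _ => hs j))
  · have : Az L B s ρ q d (some j) = fun z => (d : ℂ) ^ 2 * Afun L (L.ω₁ / 2) (z j + q) := rfl
    rw [this]
    exact analyticAt_const.fun_mul (analyticAt_comp_coord q j ((differentiable_Afun L _).analyticAt _))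

end Pool.Agent.W245.EB
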