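import Pool.Agent.W245.EB.Fz

set_option autoImplicit false
set_option linter.unusedVariables false
set_option linter.unusedSectionVars false
set_option linter.unusedSimpArgs false

/-!
# Independence of the functions
-/

open Filter MvPolynomial NumberField
open scoped Topology PeriodPair

noncomputable section

namespace Pool.Agent.W245.EB

open H667R3

/-- the values of `℘` at the half periods -/
def halfSet (L : PeriodPair) : Set ℂ :=
  {0, ℘[L] (L.ω₁ / 2), ℘[L] (L.ω₂ / 2), ℘[L] ((L.ω₁ + L.ω₂) / 2)}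

lemma half_mem_halfSet {L : PeriodPair} {w : ℂ} (hw : w ∈ L.lattice) : ℘[L] (w / 2) ∈ halfSet L := by
  obtain ⟨a, a', e⟩ := PeriodPair.mem_lattice.1 hw
  have hω₁ : L.ω₁ ∈ L.lattice := L.ω₁_mem_lattice
  have hω₂ : L.ω₂ ∈ L.lattice := L.ω₂_mem_lattice
  have hint : ∀ (k k' : ℤ), (k : ℂ) * L.ω₁ + k' * L.ω₂ ∈ L.lattice := fun k k' =>
    PeriodPair.mem_lattice.2 ⟨k, k', rfl⟩
  rcases Int.even_or_odd' a with ⟨k, hk | hk⟩ <;> rcases Int.even_or_odd' a' with ⟨k', hk' | hk'⟩
  · have : w / 2 = 0 + ((k : ℂ) * L.ω₁ + k' * L.ω₂) := by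
      rw [← e, hk, hk']
      push_cast
      ring
    rw [this, wp_add_lattice L (hint k k')]
    have h0 : ℘[L] 0 = 0 := L.weierstrassP_coe ⟨0, zero_mem _⟩
    rw [h0]
    simp [halfSet]
  · have : w / 2 = L.ω₂ / 2 + ((k : ℂ) * L.ω₁ + k' * L.ω₂) := by
      rw [← e, hk, hk']
      push_cast
      ring
    rw [this, wp_add_lattice L (hint k k')]
    simp [halfSet]
  · have : w / 2 = L.ω₁ / 2 + ((k : ℂ) * L.ω₁ + k' * L.ω₂) := by
      rw [← e, hk, hk']
      push_cast
      ring
    rw [this, wp_add_lattice L (hint k k')]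
    simp [halfSet]
  · have : w / 2 = (L.ω₁ + L.ω₂) / 2 + ((k : ℂ) * L.ω₁ + k' * L.ω₂) := by
      rw [← e, hk, hk']
      push_cast
      ring
    rw [this, wp_add_lattice L (hint k k')]
    simp [halfSet]

lemma halfSet_finite (L : PeriodPair) : (halfSet L).Finite := by
  unfold halfSet
  exact Set.toFinite _

variable {L : PeriodPair} {n : ℕ} {B : Fin n → ℂ} {s ρ q : ℂ}

lemma fz_shift {z : Fin n → ℂ} (hz : z ∈ Oz L q n) (j0 : Fin n) {w : ℂ} (hw : w ∈ L.lattice) :
    fz L B s ρ q (z + Pi.single j0 w) = fz L B s ρ q z + B j0 * (s * eta L w + ρ * w) := by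
  classical
  have h1 : B j0 * (s * eta L w + ρ * w) =
      ∑ i, (if i = j0 then B j0 * (s * eta L w + ρ * w) else 0) := by
    rw [Finset.sum_ite_eq' Finset.univ j0]
    simp
  rw [h1, fz, fz, ← Finset.sum_add_distrib]
  apply Finset.sum_congr rfl
  intro i _
  by_cases hi : i = j0
  · subst hi
    simp only [Pi.add_apply, Pi.single_eq_same, if_true]
    rw [show z i + w + q = z i + q + w by ring, zeta_add_coe L (Oz_notMem hz i) hw]
    ring
  · simp only [Pi.add_apply, Pi.single_eq_of_ne hi, add_zero, if_neg hi]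

lemma add_single_mem_Oz {z : Fin n → ℂ} (hz : z ∈ Oz L q n) (j0 : Fin n) {w : ℂ} (hw : w ∈ L.lattice) :
    z + Pi.single j0 w ∈ Oz L q n := by
  intro i
  by_cases hi : i = j0
  · subst hi
    simp only [Pi.add_apply, Pi.single_eq_same]
    intro h
    apply hz i
    have h1 : 2 * (z i + w + q) - (w + w) = 2 * (z i + q) := by ring
    rw [← h1]
    exact sub_mem h (add_mem hw hw)
  · simp only [Pi.add_apply, Pi.single_eq_of_ne hi, add_zero]
    exact hz i

lemma indep_z {d : ℤ} (hd : d ≠ 0) (hw : ∃ w ∈ L.lattice, s * eta L w + ρ * w ≠ 0) (j0 : Fin n)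
    (hB : B j0 ≠ 0) (P : MvPolynomial (Option (Fin n)) ℂ) (hP : P ≠ 0) :
    ∃ z ∈ Oz L q n, (∀ i, Thz L q i z ≠ 0) ∧
      MvPolynomial.eval (fun i => valz L B s ρ q d (bz i) z) P ≠ 0 := by
  classical
  by_contra hcon
  push Not at hcon
  apply hP
  obtain ⟨w, hwL, hw0⟩ := hw
  have hdC : (d : ℂ) ≠ 0 := by exact_mod_cast hd
  have hd2 : (d : ℂ) ^ 2 ≠ 0 := pow_ne_zero _ hdC
  set S : Option (Fin n) → Set ℂ := fun o => o.elim Set.univ (fun _ => {x | x / (d : ℂ) ^ 2 ∉ halfSet L})
    with hS
  apply MvPolynomial.funext_set S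
  · intro o
    rcases o with _ | j
    · exact Set.infinite_univ
    · have h1 : S (some j) = ((fun x : ℂ => x / (d : ℂ) ^ 2) ⁻¹' halfSet L)ᶜ := rfl
      rw [h1]
      apply Set.Finite.infinite_compl
      apply (halfSet_finite L).preimage
      intro x _ y _ hxy
      simp only at hxy
      field_simp at hxy
      exact hxy
  intro x hx
  rw [map_zero]
  choose u hu hux using fun j : Fin n => exists_wp_eq L (x (some j) / (d : ℂ) ^ 2)
  have hu2 : ∀ j, 2 * u j ∉ L.lattice := by
    intro j h
    have h1 := half_mem_halfSet h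
    rw [show 2 * u j / 2 = u j by ring, hux] at h1
    exact (hx (some j) (Set.mem_univ _)) h1
  -- the polynomial in one variable
  set p : Polynomial ℂ := MvPolynomial.aeval (fun i : Option (Fin n) =>
    (match i with
      | none => Polynomial.X
      | some j => Polynomial.C (x (some j)) : Polynomial ℂ)) P with hp
  have heval : ∀ t : ℂ, p.eval t = MvPolynomial.eval (fun i : Option (Fin n) =>
      (match i with
        | none => t
        | some j => x (some j) : ℂ)) P := by
    intro t
    rw [hp, MvPolynomial.aeval_def, MvPolynomial.polynomial_eval_eval₂]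
    rw [← MvPolynomial.eval₂_id]
    congr 1
    · ext a
      simp
    · funext i
      cases i <;> simp
  set z : Fin n → ℂ := fun j => u j - q with hz
  have hzO : z ∈ Oz L q n := by
    intro j
    rw [hz]
    simp only [sub_add_cancel]
    exact hu2 j
  set c : ℂ := B j0 * (s * eta L w + ρ * w) with hc
  have hc0 : c ≠ 0 := mul_ne_zero hB hw0
  have hroot : ∀ m : ℕ, p.eval ((d : ℂ) * (fz L B s ρ q z + m * c)) = 0 := by
    intro m
    have hmw : (m : ℂ) * w ∈ L.lattice := by
      simpa using intCast_mul_mem L hwL (m : ℤ)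
    set z' : Fin n → ℂ := z + Pi.single j0 ((m : ℂ) * w) with hz'
    have hz'O : z' ∈ Oz L q n := add_single_mem_Oz hzO j0 hmw
    have h1 := hcon z' hz'O (fun i => Thz_ne_zero i hz'O)
    rw [heval, ← h1]
    congr 2
    funext i
    rcases i with _ | j
    · simp only [bz, Option.map_none, valz, Option.elim]
      rw [hz', fz_shift hzO j0 hmw, eta_nsmul L hwL]
      rw [hc]
      ring
    · simp only [bz, Option.map_some, valz, Option.elim, Bool.false_eq_true, if_false]
      have h2 : ∃ w' ∈ L.lattice, z' j + q = u j + w' := by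
        refine ⟨(Pi.single j0 ((m : ℂ) * w) : Fin n → ℂ) j, ?_, ?_⟩
        · by_cases hj : j = j0
          · subst hj
            simpa using hmw
          · simp [hj]
        · rw [hz', hz]
          simp only [Pi.add_apply]
          ring
      obtain ⟨w', hw', e⟩ := h2
      rw [e, wp_add_lattice L hw', hux]
      field_simp
  have hp0 : p = 0 := by
    apply Polynomial.eq_zero_of_infinite_isRoot
    have hinj : Function.Injective (fun m : ℕ => (d : ℂ) * (fz L B s ρ q z + m * c)) := by
      intro m m' hmm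
      simp only at hmm
      have h1 := mul_left_cancel₀ hdC hmm
      have h2 := add_left_cancel h1
      have h3 := mul_right_cancel₀ hc0 h2
      exact_mod_cast h3
    refine (Set.infinite_range_of_injective hinj).mono ?_
    rintro _ ⟨m, rfl⟩
    exact hroot m
  have h2 := heval (x none)
  rw [hp0, Polynomial.eval_zero] at h2
  rw [h2]
  congr 2
  funext i
  cases i <;> rfl

end Pool.Agent.W245.EB
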