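import Pool.Agent.W245.EB.DL

set_option autoImplicit false
set_option linter.unusedVariables false
set_option linter.unusedSectionVars false

/-!
# Derivations on polynomials, sizes, and the chain rule
-/

open Filter MvPolynomial
open scoped Topology

noncomputable section

namespace Pool.Agent.W245.EB

variable {R : Type*} [CommRing R] {ι : Type*}

/-- weighted length of a polynomial under a ring homomorphism to `ℂ` -/
def NN (σ : R →+* ℂ) (A : ℝ) (Φ : MvPolynomial ι R) : ℝ :=
  ∑ μ ∈ Φ.support, ‖σ (Φ.coeff μ)‖ * A ^ μ.degree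

section size

variable (σ : R →+* ℂ) {A : ℝ} (hA : 1 ≤ A)
include hA

lemma NN_nonneg (Φ : MvPolynomial ι R) : 0 ≤ NN σ A Φ := by
  apply Finset.sum_nonneg
  intro μ _
  positivity

lemma NN_eq_of_subset (Φ : MvPolynomial ι R) (s : Finset (ι →₀ ℕ)) (h : Φ.support ⊆ s) :
    NN σ A Φ = ∑ μ ∈ s, ‖σ (Φ.coeff μ)‖ * A ^ μ.degree := by
  apply Finset.sum_subset h
  intro μ _ hμ
  rw [MvPolynomial.notMem_support_iff] at hμ
  simp [hμ]

lemma NN_add (Φ Ψ : MvPolynomial ι R) : NN σ A (Φ + Ψ) ≤ NN σ A Φ + NN σ A Ψ := by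
  classical
  rw [NN_eq_of_subset σ hA (Φ + Ψ) (Φ.support ∪ Ψ.support) MvPolynomial.support_add,
    NN_eq_of_subset σ hA Φ (Φ.support ∪ Ψ.support) Finset.subset_union_left,
    NN_eq_of_subset σ hA Ψ (Φ.support ∪ Ψ.support) Finset.subset_union_right,
    ← Finset.sum_add_distrib]
  apply Finset.sum_le_sum
  intro μ _
  rw [MvPolynomial.coeff_add, map_add, ← add_mul]
  exact mul_le_mul_of_nonneg_right (norm_add_le _ _) (by positivity)

lemma NN_sum {κ : Type*} (s : Finset κ) (Φ : κ → MvPolynomial ι R) :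
    NN σ A (∑ k ∈ s, Φ k) ≤ ∑ k ∈ s, NN σ A (Φ k) := by
  classical
  induction s using Finset.induction_on with
  | empty => simp [NN]
  | insert k s hk ih =>
    rw [Finset.sum_insert hk, Finset.sum_insert hk]
    exact (NN_add σ hA _ _).trans (by linarith)

lemma NN_monomial (μ : ι →₀ ℕ) (c : R) : NN σ A (monomial μ c) ≤ ‖σ c‖ * A ^ μ.degree := by
  classical
  rw [NN_eq_of_subset σ hA (monomial μ c) {μ} MvPolynomial.support_monomial_subset]
  simp

lemma NN_monomial_mul (μ : ι →₀ ℕ) (c : R) (Ψ : MvPolynomial ι R) :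
    NN σ A (monomial μ c * Ψ) ≤ ‖σ c‖ * A ^ μ.degree * NN σ A Ψ := by
  classical
  have e : monomial μ c * Ψ = ∑ ν ∈ Ψ.support, monomial (μ + ν) (c * Ψ.coeff ν) := by
    conv_lhs => rw [← Ψ.support_sum_monomial_coeff]
    rw [Finset.mul_sum]
    apply Finset.sum_congr rfl
    intro ν _
    rw [MvPolynomial.monomial_mul]
  rw [e]
  refine (NN_sum σ hA _ _).trans ?_
  unfold NN
  rw [Finset.mul_sum]
  apply Finset.sum_le_sum
  intro ν _
  refine (NN_monomial σ hA _ _).trans (le_of_eq ?_)
  rw [map_mul, norm_mul, map_add, pow_add]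
  ring

lemma NN_smul (c : R) (Ψ : MvPolynomial ι R) : NN σ A (c • Ψ) ≤ ‖σ c‖ * NN σ A Ψ := by
  have e : c • Ψ = monomial 0 c * Ψ := by
    rw [← MvPolynomial.C_apply, MvPolynomial.smul_eq_C_mul]
  rw [e]
  refine (NN_monomial_mul σ hA _ _ _).trans (le_of_eq ?_)
  simp

lemma norm_eval_le (x : ι → R) (hx : ∀ i, ‖σ (x i)‖ ≤ A) (Φ : MvPolynomial ι R) :
    ‖σ (MvPolynomial.eval x Φ)‖ ≤ NN σ A Φ := by
  rw [MvPolynomial.eval_eq, map_sum]
  refine (norm_sum_le _ _).trans ?_
  apply Finset.sum_le_sum
  intro μ _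
  rw [map_mul, norm_mul]
  apply mul_le_mul_of_nonneg_left _ (norm_nonneg _)
  rw [map_prod, norm_prod]
  calc ∏ i ∈ μ.support, ‖σ (x i ^ μ i)‖ ≤ ∏ i ∈ μ.support, A ^ μ i := by
        apply Finset.prod_le_prod
        · intro i _
          positivity
        · intro i _
          rw [map_pow, norm_pow]
          exact pow_le_pow_left₀ (norm_nonneg _) (hx i) _
    _ = A ^ μ.degree := by
        rw [Finset.prod_pow_eq_pow_sum]
        rfl

/-- size of a derivative -/
lemma NN_mkDerivation (δ : ι → MvPolynomial ι R) {C : ℝ} (hC : 0 ≤ C)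
    (hδ : ∀ i, NN σ A (δ i) ≤ C) (Φ : MvPolynomial ι R) (d : ℕ) (hd : Φ.totalDegree ≤ d) :
    NN σ A (mkDerivation R δ Φ) ≤ C * d * NN σ A Φ := by
  classical
  have h1 : ∀ (μ : ι →₀ ℕ) (c : R), NN σ A (mkDerivation R δ (monomial μ c)) ≤
      C * μ.degree * (‖σ c‖ * A ^ μ.degree) := by
    intro μ c
    rw [mkDerivation_monomial]
    refine (NN_smul σ hA _ _).trans ?_
    rw [Finsupp.sum]
    have h2 : NN σ A (∑ i ∈ μ.support, monomial (μ - Finsupp.single i 1) ((μ i : ℕ) : R) • δ i) ≤
        ∑ i ∈ μ.support, (μ i : ℝ) * (A ^ μ.degree * C) := by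
      refine (NN_sum σ hA _ _).trans ?_
      apply Finset.sum_le_sum
      intro i _
      rw [smul_eq_mul]
      refine (NN_monomial_mul σ hA _ _ _).trans ?_
      rw [map_natCast, Complex.norm_natCast, mul_assoc]
      apply mul_le_mul_of_nonneg_left _ (Nat.cast_nonneg _)
      apply mul_le_mul _ (hδ i) (NN_nonneg σ hA _) (by positivity)
      apply pow_le_pow_right₀ hA
      rw [Finsupp.degree_apply, Finsupp.degree_apply]
      have hsub : (μ - Finsupp.single i 1).support ⊆ μ.support := by
        intro j hj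
        rw [Finsupp.mem_support_iff] at hj ⊢
        intro h0
        apply hj
        rw [Finsupp.tsub_apply, h0]
        simp
      have hs1 : ∑ j ∈ (μ - Finsupp.single i 1).support, (μ - Finsupp.single i 1 : ι →₀ ℕ) j ≤
          ∑ j ∈ μ.support, (μ - Finsupp.single i 1 : ι →₀ ℕ) j :=
        Finset.sum_le_sum_of_subset (f := fun j => (μ - Finsupp.single i 1 : ι →₀ ℕ) j) hsub
      refine hs1.trans ?_
      apply Finset.sum_le_sum
      intro j _
      rw [Finsupp.tsub_apply]
      exact Nat.sub_le _ _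
    refine (mul_le_mul_of_nonneg_left h2 (norm_nonneg _)).trans (le_of_eq ?_)
    rw [← Finset.sum_mul]
    have h3 : ∑ i ∈ μ.support, (μ i : ℝ) = (μ.degree : ℝ) := by
      rw [Finsupp.degree_apply]
      push_cast
      rfl
    rw [h3]
    ring
  have e : mkDerivation R δ Φ = ∑ μ ∈ Φ.support, mkDerivation R δ (monomial μ (Φ.coeff μ)) := by
    conv_lhs => rw [← Φ.support_sum_monomial_coeff]
    rw [map_sum]
  rw [e]
  refine (NN_sum σ hA _ _).trans ?_
  unfold NN
  rw [Finset.mul_sum]
  apply Finset.sum_le_sum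
  intro μ hμ
  refine (h1 μ _).trans ?_
  apply mul_le_mul_of_nonneg_right _ (by positivity)
  apply mul_le_mul_of_nonneg_left _ hC
  have : μ.degree ≤ d := by
    refine le_trans ?_ hd
    rw [Finsupp.degree_apply]
    exact MvPolynomial.le_totalDegree hμ
  exact_mod_cast this

end size

lemma totalDegree_mkDerivation (δ : ι → MvPolynomial ι R) (hδ : ∀ i, (δ i).totalDegree ≤ 2)
    (Φ : MvPolynomial ι R) : (mkDerivation R δ Φ).totalDegree ≤ Φ.totalDegree + 1 := by
  classical
  have e : mkDerivation R δ Φ = ∑ μ ∈ Φ.support, mkDerivation R δ (monomial μ (Φ.coeff μ)) := by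
    conv_lhs => rw [← Φ.support_sum_monomial_coeff]
    rw [map_sum]
  rw [e]
  apply MvPolynomial.totalDegree_finsetSum_le
  intro μ hμ
  rw [mkDerivation_monomial]
  refine (MvPolynomial.totalDegree_smul_le _ _).trans ?_
  rw [Finsupp.sum]
  apply MvPolynomial.totalDegree_finsetSum_le
  intro i hi
  rw [smul_eq_mul]
  refine (MvPolynomial.totalDegree_mul _ _).trans ?_
  have h1 : (monomial (μ - Finsupp.single i 1) ((μ i : ℕ) : R)).totalDegree + 1 ≤ Φ.totalDegree := by
    refine le_trans ?_ (MvPolynomial.le_totalDegree hμ)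
    have h2 := MvPolynomial.totalDegree_monomial_le (μ - Finsupp.single i 1) ((μ i : ℕ) : R)
    refine (Nat.add_le_add_right h2 1).trans ?_
    have h3 : (μ - Finsupp.single i 1) + Finsupp.single i 1 = μ := by
      apply tsub_add_cancel_of_le
      rw [Finsupp.single_le_iff]
      exact Nat.one_le_iff_ne_zero.2 (Finsupp.mem_support_iff.1 hi)
    have h4 : ((μ - Finsupp.single i 1) + Finsupp.single i 1).degree = μ.degree := by rw [h3]
    rw [map_add, Finsupp.degree_single] at h4
    exact h4.le
  have h2 := hδ i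
  omega

/-- iterated derivations -/
def PL {J : Type*} (δ : J → ι → MvPolynomial ι R) : List J → MvPolynomial ι R → MvPolynomial ι R
  | [], Φ => Φ
  | j :: l, Φ => mkDerivation R (δ j) (PL δ l Φ)

section PL

variable {J : Type*} (δ : J → ι → MvPolynomial ι R)

lemma PL_add (l : List J) (Φ Ψ : MvPolynomial ι R) : PL δ l (Φ + Ψ) = PL δ l Φ + PL δ l Ψ := by
  induction l with
  | nil => rfl
  | cons j l ih => simp [PL, ih]

lemma PL_zero (l : List J) : PL δ l (0 : MvPolynomial ι R) = 0 := by
  induction l with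
  | nil => rfl
  | cons j l ih => simp [PL, ih]

lemma PL_sum {κ : Type*} (l : List J) (s : Finset κ) (c : κ → R) (Φ : κ → MvPolynomial ι R) :
    PL δ l (∑ k ∈ s, c k • Φ k) = ∑ k ∈ s, c k • PL δ l (Φ k) := by
  induction l with
  | nil => rfl
  | cons j l ih => simp only [PL, ih, map_sum, Derivation.map_smul]

lemma totalDegree_PL (hδ : ∀ j i, (δ j i).totalDegree ≤ 2) (l : List J) (Φ : MvPolynomial ι R) :
    (PL δ l Φ).totalDegree ≤ Φ.totalDegree + l.length := by
  induction l with
  | nil => simp [PL]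
  | cons j l ih =>
    refine (totalDegree_mkDerivation (δ j) (hδ j) _).trans ?_
    simp only [List.length_cons]
    omega

lemma NN_PL (σ : R →+* ℂ) {A : ℝ} (hA : 1 ≤ A) {C : ℝ} (hC : 0 ≤ C)
    (hδ : ∀ j i, (δ j i).totalDegree ≤ 2) (hδC : ∀ j i, NN σ A (δ j i) ≤ C)
    (Φ : MvPolynomial ι R) (d m : ℕ) (l : List J) (hm : Φ.totalDegree + l.length ≤ m) :
    NN σ A (PL δ l Φ) ≤ (C * m) ^ l.length * NN σ A Φ := by
  induction l with
  | nil => simp [PL]
  | cons j l ih =>
    simp only [List.length_cons] at hm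
    have h1 := NN_mkDerivation σ hA (δ j) hC (hδC j) (PL δ l Φ) m (by
      refine (totalDegree_PL δ hδ l Φ).trans ?_
      omega)
    refine h1.trans ?_
    have h2 := ih (by omega)
    have h3 : 0 ≤ C * m := by positivity
    refine (mul_le_mul_of_nonneg_left h2 h3).trans (le_of_eq ?_)
    rw [List.length_cons, pow_succ]
    ring

end PL

/-! ### chain rule -/

section chain

variable {E : Type*} [NormedAddCommGroup E] [NormedSpace ℂ E] {O : Set E}
  (ph : R →+* ℂ) (val : ι → E → ℂ)

/-- the function obtained by substitution -/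
def ev (Φ : MvPolynomial ι R) : E → ℂ := fun z => MvPolynomial.eval₂ ph (fun i => val i z) Φ

lemma analytic_ev (hval : ∀ i, AnalyticOnNhd ℂ (val i) O) (Φ : MvPolynomial ι R) :
    AnalyticOnNhd ℂ (ev ph val Φ) O := by
  induction Φ using MvPolynomial.induction_on with
  | C a =>
    intro z hz
    have : ev ph val (C a : MvPolynomial ι R) = fun _ : E => ph a := by
      funext z
      simp [ev]
    rw [this]
    exact analyticAt_const
  | add p q hp hq =>
    intro z hz
    have : ev ph val (p + q) = fun z => ev ph val p z + ev ph val q z := by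
      funext z
      simp [ev]
    rw [this]
    exact (hp z hz).fun_add (hq z hz)
  | mul_X p i hp =>
    intro z hz
    have : ev ph val (p * X i) = fun z => ev ph val p z * val i z := by
      funext z
      simp [ev]
    rw [this]
    exact (hp z hz).fun_mul (hval i z hz)

lemma D_ev (hO : IsOpen O) (hval : ∀ i, AnalyticOnNhd ℂ (val i) O) (δ : ι → MvPolynomial ι R) (v : E)
    (hv : ∀ i, ∀ z ∈ O, D v (val i) z = ev ph val (δ i) z) (Φ : MvPolynomial ι R) :
    Set.EqOn (D v (ev ph val Φ)) (ev ph val (mkDerivation R δ Φ)) O := by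
  induction Φ using MvPolynomial.induction_on with
  | C a =>
    intro z hz
    have : ev ph val (C a : MvPolynomial ι R) = fun _ : E => ph a := by
      funext z
      simp [ev]
    rw [this, MvPolynomial.derivation_C]
    simp [D, ev]
  | add p q hp hq =>
    intro z hz
    have : ev ph val (p + q) = fun z => ev ph val p z + ev ph val q z := by
      funext z
      simp [ev]
    rw [this, D_add_fun (analytic_ev ph val hval p z hz).differentiableAt
      (analytic_ev ph val hval q z hz).differentiableAt, hp hz, hq hz, map_add]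
    simp [ev]
  | mul_X p i hp =>
    intro z hz
    have : ev ph val (p * X i) = fun z => ev ph val p z * val i z := by
      funext z
      simp [ev]
    rw [this, D_mul_fun (analytic_ev ph val hval p z hz).differentiableAt
      (hval i z hz).differentiableAt, hp hz, hv i z hz, Derivation.leibniz, mkDerivation_X]
    simp [ev]

lemma DL_ev (hO : IsOpen O) (hval : ∀ i, AnalyticOnNhd ℂ (val i) O) {J : Type*}
    (δ : J → ι → MvPolynomial ι R) (v : J → E)
    (hv : ∀ j i, ∀ z ∈ O, D (v j) (val i) z = ev ph val (δ j i) z) (l : List J)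
    (Φ : MvPolynomial ι R) :
    Set.EqOn (DL (l.map v) (ev ph val Φ)) (ev ph val (PL δ l Φ)) O := by
  induction l with
  | nil => exact fun _ _ => rfl
  | cons j l ih =>
    intro z hz
    rw [List.map_cons, DL_cons, D_congr hO ih (v j) hz]
    exact D_ev ph val hO hval (δ j) (v j) (hv j) _ hz

end chain

end Pool.Agent.W245.EB
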