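import Pool.Agent.W245.EB.Core6

set_option autoImplicit false
set_option linter.unusedVariables false
set_option linter.unusedSectionVars false
set_option linter.unusedSimpArgs false

/-!
# Torsion points are algebraic, via the division functions
-/

open Filter
open scoped Topology PeriodPair

noncomputable section

namespace Pool.Agent.W245.EB

open H667R3

section three

variable (L : PeriodPair)

lemma sigma_pm {a : ℂ} (ha : a ∈ L.lattice) :
    ∃ C : ℂ, ∀ b, sigma L (a + b) * sigma L (a - b) = -(C * sigma L b ^ 2) := by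
  obtain ⟨C, hC, h⟩ := sigma_add_coe L ha
  refine ⟨C ^ 2, fun b => ?_⟩
  have h1 := h b
  have h2 := h (-b)
  rw [sigma_neg] at h2
  rw [add_comm b a] at h1
  rw [show -b + a = a - b by ring] at h2
  rw [h1, h2]
  have h3 : Complex.exp (eta L a * b) * Complex.exp (eta L a * -b) = 1 := by
    rw [← Complex.exp_add, show eta L a * b + eta L a * -b = 0 by ring, Complex.exp_zero]
  linear_combination (-(C ^ 2 * sigma L b ^ 2)) * h3

lemma sigma_three_aux {a b c : ℂ} (ha : a ∈ L.lattice) :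
    sigma L (a + b) * sigma L (a - b) * sigma L c ^ 2 +
      sigma L (b + c) * sigma L (b - c) * sigma L a ^ 2 +
      sigma L (c + a) * sigma L (c - a) * sigma L b ^ 2 = 0 := by
  obtain ⟨C, h⟩ := sigma_pm L ha
  have h1 := h b
  have h2 := h c
  have h3 : sigma L (c - a) = - sigma L (a - c) := by
    rw [← sigma_neg]; congr 1; ring
  rw [sigma_coe_eq_zero L ha, h3, add_comm c a]
  linear_combination (sigma L c ^ 2) * h1 - (sigma L b ^ 2) * h2

/-- Weierstrass's three-term identity -/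
lemma sigma_three (a b c : ℂ) :
    sigma L (a + b) * sigma L (a - b) * sigma L c ^ 2 +
      sigma L (b + c) * sigma L (b - c) * sigma L a ^ 2 +
      sigma L (c + a) * sigma L (c - a) * sigma L b ^ 2 = 0 := by
  by_cases ha : a ∈ L.lattice
  · exact sigma_three_aux L ha
  by_cases hb : b ∈ L.lattice
  · have := sigma_three_aux L (a := b) (b := c) (c := a) hb
    linear_combination this
  by_cases hc : c ∈ L.lattice
  · have := sigma_three_aux L (a := c) (b := a) (c := b) hc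
    linear_combination this
  have sa := sigma_ne_zero L ha
  have sb := sigma_ne_zero L hb
  have sc := sigma_ne_zero L hc
  have h1 := wp_sub_wp L ha hb
  have h2 := wp_sub_wp L hb hc
  have h3 := wp_sub_wp L hc ha
  have e1 : sigma L (a + b) * sigma L (a - b) =
      -((℘[L] a - ℘[L] b) * (sigma L a ^ 2 * sigma L b ^ 2)) := by
    rw [h1]; field_simp
  have e2 : sigma L (b + c) * sigma L (b - c) =
      -((℘[L] b - ℘[L] c) * (sigma L b ^ 2 * sigma L c ^ 2)) := by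
    rw [h2]; field_simp
  have e3 : sigma L (c + a) * sigma L (c - a) =
      -((℘[L] c - ℘[L] a) * (sigma L c ^ 2 * sigma L a ^ 2)) := by
    rw [h3]; field_simp
  rw [e1, e2, e3]
  ring

end three

variable (L : PeriodPair)

/-- the division functions -/
def psi (m : ℕ) (z : ℂ) : ℂ := sigma L (m * z) / sigma L z ^ (m ^ 2)

variable {L}

lemma sigma_eq_psi {z : ℂ} (hz : z ∉ L.lattice) (m : ℕ) :
    sigma L (m * z) = psi L m z * sigma L z ^ (m ^ 2) := by
  rw [psi, div_mul_cancel₀]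
  exact pow_ne_zero _ (sigma_ne_zero L hz)

lemma psi_zero (z : ℂ) : psi L 0 z = 0 := by
  simp [psi, sigma_zero]

lemma psi_one {z : ℂ} (hz : z ∉ L.lattice) : psi L 1 z = 1 := by
  have := sigma_ne_zero L hz
  simp [psi, this]

lemma psi_two {z : ℂ} (hz : z ∉ L.lattice) : psi L 2 z = -℘'[L] z := by
  rw [wp'_eq L hz, psi]
  norm_num
  ring

lemma psi_three {z : ℂ} (hz : 2 * z ∉ L.lattice) :
    psi L 3 z = -((℘[L] (2 * z) - ℘[L] z) * ℘'[L] z ^ 2) := by
  have hz' := two_mul_notMem_of L hz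
  have s1 := sigma_ne_zero L hz'
  have s2 := sigma_ne_zero L hz
  have h1 := wp_sub_wp L hz hz'
  rw [h1, wp'_eq L hz', psi]
  rw [show 2 * z + z = (3 : ℕ) * z by push_cast; ring, show 2 * z - z = z by ring]
  generalize sigma L (2 * z) = A at *
  generalize sigma L ((3 : ℕ) * z) = B
  generalize sigma L z = s at *
  field_simp
  norm_num

lemma psi_four {z : ℂ} (hz : 2 * z ∉ L.lattice) :
    psi L 4 z = -(℘'[L] (2 * z) * ℘'[L] z ^ 4) := by
  have hz' := two_mul_notMem_of L hz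
  have s1 := sigma_ne_zero L hz'
  have s2 := sigma_ne_zero L hz
  rw [wp'_eq L hz, wp'_eq L hz', psi]
  rw [show 2 * (2 * z) = (4 : ℕ) * z by push_cast; ring]
  generalize sigma L (2 * z) = A at *
  generalize sigma L ((4 : ℕ) * z) = B
  generalize sigma L z = s at *
  field_simp
  norm_num

lemma psi_odd {z : ℂ} (hz : z ∉ L.lattice) (j : ℕ) :
    psi L (2 * j + 5) z = psi L (j + 4) z * psi L (j + 2) z ^ 3 -
      psi L (j + 1) z * psi L (j + 3) z ^ 3 := by
  have s1 := sigma_ne_zero L hz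
  have h := sigma_three L ((j + 3 : ℕ) * z) ((j + 2 : ℕ) * z) z
  rw [show ((j + 3 : ℕ) : ℂ) * z + ((j + 2 : ℕ) : ℂ) * z = (2 * j + 5 : ℕ) * z by push_cast; ring,
    show ((j + 3 : ℕ) : ℂ) * z - ((j + 2 : ℕ) : ℂ) * z = z by push_cast; ring,
    show ((j + 2 : ℕ) : ℂ) * z + z = (j + 3 : ℕ) * z by push_cast; ring,
    show ((j + 2 : ℕ) : ℂ) * z - z = (j + 1 : ℕ) * z by push_cast; ring,
    show z + ((j + 3 : ℕ) : ℂ) * z = (j + 4 : ℕ) * z by push_cast; ring,
    show z - ((j + 3 : ℕ) : ℂ) * z = -((j + 2 : ℕ) * z) by push_cast; ring, sigma_neg,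
    sigma_eq_psi hz, sigma_eq_psi hz, sigma_eq_psi hz, sigma_eq_psi hz, sigma_eq_psi hz] at h
  have hs : sigma L z ^ ((2 * j + 5) ^ 2 + 3) ≠ 0 := pow_ne_zero _ s1
  apply mul_right_cancel₀ hs
  linear_combination h

lemma psi_even {z : ℂ} (hz : z ∉ L.lattice) (j : ℕ) :
    psi L (2 * j + 6) z * ℘'[L] z = psi L (j + 3) z * (psi L (j + 1) z * psi L (j + 4) z ^ 2 -
      psi L (j + 5) z * psi L (j + 2) z ^ 2) := by
  have s1 := sigma_ne_zero L hz
  have h := sigma_three L ((j + 4 : ℕ) * z) ((j + 2 : ℕ) * z) z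
  rw [show ((j + 4 : ℕ) : ℂ) * z + ((j + 2 : ℕ) : ℂ) * z = (2 * j + 6 : ℕ) * z by push_cast; ring,
    show ((j + 4 : ℕ) : ℂ) * z - ((j + 2 : ℕ) : ℂ) * z = (2 : ℕ) * z by push_cast; ring,
    show ((j + 2 : ℕ) : ℂ) * z + z = (j + 3 : ℕ) * z by push_cast; ring,
    show ((j + 2 : ℕ) : ℂ) * z - z = (j + 1 : ℕ) * z by push_cast; ring,
    show z + ((j + 4 : ℕ) : ℂ) * z = (j + 5 : ℕ) * z by push_cast; ring,
    show z - ((j + 4 : ℕ) : ℂ) * z = -((j + 3 : ℕ) * z) by push_cast; ring, sigma_neg,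
    sigma_eq_psi hz, sigma_eq_psi hz, sigma_eq_psi hz, sigma_eq_psi hz, sigma_eq_psi hz,
    sigma_eq_psi hz, sigma_eq_psi hz, psi_two hz] at h
  have hs : sigma L z ^ ((2 * j + 6) ^ 2 + 6) ≠ 0 := pow_ne_zero _ s1
  apply mul_right_cancel₀ hs
  linear_combination -h

/-- functions which are polynomials in `℘`, `℘'` up to a power of `℘'` -/
def Sm (L : PeriodPair) (f : ℂ → ℂ) : Prop :=
  ∃ (e : ℕ) (P : MvPolynomial (Fin 2) QB), ∀ z, 2 * z ∉ L.lattice →
    f z * ℘'[L] z ^ e = MvPolynomial.aeval ![℘[L] z, ℘'[L] z] P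

lemma Sm.congr {f g : ℂ → ℂ} (hf : Sm L f) (h : ∀ z, 2 * z ∉ L.lattice → g z = f z) : Sm L g := by
  obtain ⟨e, P, hP⟩ := hf
  exact ⟨e, P, fun z hz => by rw [h z hz, hP z hz]⟩

lemma Sm.const {c : ℂ} (hc : c ∈ QB) : Sm L (fun _ => c) := by
  refine ⟨0, MvPolynomial.C ⟨c, hc⟩, fun z _ => ?_⟩
  rw [pow_zero, mul_one, MvPolynomial.aeval_C]
  rfl

lemma Sm.wp : Sm L ℘[L] := ⟨0, MvPolynomial.X 0, fun z _ => by simp⟩

lemma Sm.wp' : Sm L ℘'[L] := ⟨0, MvPolynomial.X 1, fun z _ => by simp⟩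

lemma Sm.mul {f g : ℂ → ℂ} (hf : Sm L f) (hg : Sm L g) : Sm L (fun z => f z * g z) := by
  obtain ⟨e, P, hP⟩ := hf
  obtain ⟨e', P', hP'⟩ := hg
  refine ⟨e + e', P * P', fun z hz => ?_⟩
  rw [map_mul, ← hP z hz, ← hP' z hz]
  ring

lemma Sm.add {f g : ℂ → ℂ} (hf : Sm L f) (hg : Sm L g) : Sm L (fun z => f z + g z) := by
  obtain ⟨e, P, hP⟩ := hf
  obtain ⟨e', P', hP'⟩ := hg
  refine ⟨e + e', P * MvPolynomial.X 1 ^ e' + P' * MvPolynomial.X 1 ^ e, fun z hz => ?_⟩
  rw [map_add, map_mul, map_mul, ← hP z hz, ← hP' z hz]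
  simp only [map_pow, MvPolynomial.aeval_X, Matrix.cons_val_one, Matrix.cons_val_fin_one]
  ring

lemma Sm.neg {f : ℂ → ℂ} (hf : Sm L f) : Sm L (fun z => - f z) := by
  obtain ⟨e, P, hP⟩ := hf
  refine ⟨e, -P, fun z hz => ?_⟩
  rw [map_neg, ← hP z hz]
  ring

lemma Sm.sub {f g : ℂ → ℂ} (hf : Sm L f) (hg : Sm L g) : Sm L (fun z => f z - g z) := by
  have := hf.add hg.neg
  simpa [sub_eq_add_neg] using this

lemma Sm.pow {f : ℂ → ℂ} (hf : Sm L f) (k : ℕ) : Sm L (fun z => f z ^ k) := by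
  induction k with
  | zero => simpa using Sm.const (one_mem QB)
  | succ k ih =>
    have := ih.mul hf
    simpa [pow_succ] using this

lemma Sm.div_wp' {f g : ℂ → ℂ} (hg : Sm L g) (k : ℕ)
    (h : ∀ z, 2 * z ∉ L.lattice → f z * ℘'[L] z ^ k = g z) : Sm L f := by
  obtain ⟨e, P, hP⟩ := hg
  refine ⟨k + e, P, fun z hz => ?_⟩
  rw [← hP z hz, ← h z hz]
  ring

lemma Sm_sixwp (h2 : IsAlgebraic ℚ L.g₂) : Sm L (fun z => 6 * ℘[L] z ^ 2 - L.g₂ / 2) := by
  apply Sm.sub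
  · exact (Sm.const (ofNat_mem QB 6)).mul (Sm.wp.pow 2)
  · exact Sm.const (div_mem (mem_QB.2 h2) (ofNat_mem QB 2))

lemma Sm_wp_two (h2 : IsAlgebraic ℚ L.g₂) : Sm L (fun z => ℘[L] (2 * z)) := by
  have h4 : Sm L (fun z => -2 * ℘[L] z * ℘'[L] z ^ 2 + (6 * ℘[L] z ^ 2 - L.g₂ / 2) ^ 2 * (1 / 4)) := by
    apply Sm.add
    · exact ((Sm.const (neg_mem (ofNat_mem QB 2))).mul Sm.wp).mul (Sm.wp'.pow 2)
    · exact ((Sm_sixwp h2).pow 2).mul (Sm.const (div_mem (one_mem _) (ofNat_mem QB 4)))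
  refine h4.div_wp' 2 fun z hz => ?_
  have h5 := wp'_ne_zero L hz
  rw [wp_two L hz]
  field_simp

lemma Sm_wp'_two (h2 : IsAlgebraic ℚ L.g₂) : Sm L (fun z => ℘'[L] (2 * z)) := by
  have h4 : Sm L (fun z => -℘'[L] z ^ 4 + ((6 * ℘[L] z ^ 2 - L.g₂ / 2) * (12 * ℘[L] z)) *
      (1 / 4 * ℘'[L] z ^ 2) - (1 / 4) * (6 * ℘[L] z ^ 2 - L.g₂ / 2) ^ 3) := by
    apply Sm.sub
    · apply Sm.add
      · exact (Sm.wp'.pow 4).neg
      · exact ((Sm_sixwp h2).mul ((Sm.const (ofNat_mem QB 12)).mul Sm.wp)).mul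
          ((Sm.const (div_mem (one_mem _) (ofNat_mem QB 4))).mul (Sm.wp'.pow 2))
    · exact (Sm.const (div_mem (one_mem _) (ofNat_mem QB 4))).mul ((Sm_sixwp h2).pow 3)
  refine h4.div_wp' 3 fun z hz => ?_
  have h5 := wp'_ne_zero L hz
  rw [wp'_two L hz]
  field_simp
  ring

lemma Sm_psi (h2 : IsAlgebraic ℚ L.g₂) (m : ℕ) : Sm L (psi L m) := by
  induction m using Nat.strong_induction_on with
  | _ m ih =>
    have hcases : m = 0 ∨ m = 1 ∨ m = 2 ∨ m = 3 ∨ m = 4 ∨ (∃ j, m = 2 * j + 5) ∨ (∃ j, m = 2 * j + 6) := by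
      rcases Nat.even_or_odd' m with ⟨k, hk | hk⟩
      · by_cases h : k < 3
        · omega
        · right; right; right; right; right; right
          exact ⟨k - 3, by omega⟩
      · by_cases h : k < 2
        · omega
        · right; right; right; right; right; left
          exact ⟨k - 2, by omega⟩
    rcases hcases with rfl | rfl | rfl | rfl | rfl | ⟨j, rfl⟩ | ⟨j, rfl⟩
    · exact (Sm.const (zero_mem QB)).congr fun z _ => psi_zero z
    · exact (Sm.const (one_mem QB)).congr fun z hz => psi_one (two_mul_notMem_of L hz)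
    · exact Sm.wp'.neg.congr fun z hz => psi_two (two_mul_notMem_of L hz)
    · exact (((Sm_wp_two h2).sub Sm.wp).mul (Sm.wp'.pow 2)).neg.congr fun z hz => psi_three hz
    · exact ((Sm_wp'_two h2).mul (Sm.wp'.pow 4)).neg.congr fun z hz => psi_four hz
    · have h4 := (((ih (j + 4) (by omega)).mul ((ih (j + 2) (by omega)).pow 3))).sub
        ((ih (j + 1) (by omega)).mul ((ih (j + 3) (by omega)).pow 3))
      exact h4.congr fun z hz => psi_odd (two_mul_notMem_of L hz) j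
    · have h4 := (ih (j + 3) (by omega)).mul (((ih (j + 1) (by omega)).mul ((ih (j + 4) (by omega)).pow 2)).sub
        ((ih (j + 5) (by omega)).mul ((ih (j + 2) (by omega)).pow 2)))
      refine h4.div_wp' 1 fun z hz => ?_
      rw [pow_one]
      exact psi_even (two_mul_notMem_of L hz) j

/-- reduction modulo the equation of the curve -/
lemma exists_AB (h2 : IsAlgebraic ℚ L.g₂) (h3 : IsAlgebraic ℚ L.g₃) (P : MvPolynomial (Fin 2) QB) :
    ∃ A B : Polynomial QB, ∀ z, z ∉ L.lattice →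
      MvPolynomial.aeval ![℘[L] z, ℘'[L] z] P =
        Polynomial.aeval (℘[L] z) A + Polynomial.aeval (℘[L] z) B * ℘'[L] z := by
  induction P using MvPolynomial.induction_on with
  | C a => exact ⟨Polynomial.C a, 0, fun z _ => by simp⟩
  | add p q hp hq =>
    obtain ⟨A, B, h⟩ := hp
    obtain ⟨A', B', h'⟩ := hq
    refine ⟨A + A', B + B', fun z hz => ?_⟩
    rw [map_add, h z hz, h' z hz, map_add, map_add]
    ring
  | mul_X p i hp =>
    obtain ⟨A, B, h⟩ := hp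
    fin_cases i
    · refine ⟨A * Polynomial.X, B * Polynomial.X, fun z hz => ?_⟩
      rw [map_mul, h z hz]
      simp
      ring
    · refine ⟨B * (Polynomial.C 4 * Polynomial.X ^ 3 - Polynomial.C (⟨L.g₂, mem_QB.2 h2⟩ : QB) *
        Polynomial.X - Polynomial.C (⟨L.g₃, mem_QB.2 h3⟩ : QB)), A, fun z hz => ?_⟩
      rw [map_mul, h z hz]
      have e1 : algebraMap QB ℂ ⟨L.g₂, mem_QB.2 h2⟩ = L.g₂ := rfl
      have e2 : algebraMap QB ℂ ⟨L.g₃, mem_QB.2 h3⟩ = L.g₃ := rfl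
      have e3 := L.derivWeierstrassP_sq z hz
      simp only [map_mul, map_sub, map_pow, Polynomial.aeval_X, Polynomial.aeval_C, e1, e2,
        map_ofNat, MvPolynomial.aeval_X]
      simp only [Fin.mk_one, Matrix.cons_val_one, Matrix.cons_val_fin_one]
      linear_combination (Polynomial.aeval (℘[L] z) B) * e3

lemma exists_generic (L : PeriodPair) (m : ℕ) (hm : 0 < m) : ∃ z : ℂ, 2 * z ∉ L.lattice ∧
    (m : ℂ) * z ∉ L.lattice := by
  set G : Submodule ℤ ℂ := Submodule.span ℤ {L.ω₁ / 2, L.ω₂ / 2, L.ω₁ / m, L.ω₂ / m} with hG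
  have hω₁0 : L.ω₁ ≠ 0 := by
    intro h
    have := L.ω₁_div_two_notMem_lattice
    rw [h, zero_div] at this
    exact this (zero_mem _)
  have hfg : G.FG := Submodule.fg_span (Set.toFinite _)
  obtain ⟨e, he⟩ := exists_notMem G hfg hω₁0
  have hmC : (m : ℂ) ≠ 0 := by exact_mod_cast hm.ne'
  have h1 : L.ω₁ / 2 ∈ G := Submodule.subset_span (by simp)
  have h2 : L.ω₂ / 2 ∈ G := Submodule.subset_span (by simp)
  have h3 : L.ω₁ / m ∈ G := Submodule.subset_span (by simp)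
  have h4 : L.ω₂ / m ∈ G := Submodule.subset_span (by simp)
  refine ⟨L.ω₁ / 2 ^ e, fun h => he ?_, fun h => he ?_⟩
  · obtain ⟨a, a', e1⟩ := PeriodPair.mem_lattice.1 h
    have : L.ω₁ / 2 ^ e = a • (L.ω₁ / 2) + a' • (L.ω₂ / 2) := by
      rw [zsmul_eq_mul, zsmul_eq_mul]
      linear_combination (-1 / 2 : ℂ) * e1
    rw [this]
    exact G.add_mem (G.smul_mem _ h1) (G.smul_mem _ h2)
  · obtain ⟨a, a', e1⟩ := PeriodPair.mem_lattice.1 h
    have : L.ω₁ / 2 ^ e = a • (L.ω₁ / m) + a' • (L.ω₂ / m) := by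
      rw [zsmul_eq_mul, zsmul_eq_mul]
      apply mul_left_cancel₀ hmC
      rw [← e1]
      field_simp
    rw [this]
    exact G.add_mem (G.smul_mem _ h3) (G.smul_mem _ h4)

/-- torsion points are algebraic -/
theorem torsion_EL (h2 : IsAlgebraic ℚ L.g₂) (h3 : IsAlgebraic ℚ L.g₃) {t : ℂ} {m : ℕ} (hm : 0 < m)
    (ht : (m : ℂ) * t ∈ L.lattice) : t ∈ EL L := by
  by_cases h2t : 2 * t ∈ L.lattice
  · exact half_EL h2 h3 (Or.inl h2t)
  have ht0 := two_mul_notMem_of L h2t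
  right
  by_contra hcon
  obtain ⟨e, P, hP⟩ := Sm_psi h2 m
  obtain ⟨A, B, hAB⟩ := exists_AB h2 h3 P
  set cub : Polynomial QB := Polynomial.C 4 * Polynomial.X ^ 3 -
    Polynomial.C (⟨L.g₂, mem_QB.2 h2⟩ : QB) * Polynomial.X - Polynomial.C (⟨L.g₃, mem_QB.2 h3⟩ : QB)
    with hcub
  have hcubv : ∀ z, z ∉ L.lattice → Polynomial.aeval (℘[L] z) cub = ℘'[L] z ^ 2 := by
    intro z hz
    have e1 : algebraMap QB ℂ ⟨L.g₂, mem_QB.2 h2⟩ = L.g₂ := rfl
    have e2 : algebraMap QB ℂ ⟨L.g₃, mem_QB.2 h3⟩ = L.g₃ := rfl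
    rw [hcub]
    simp only [map_mul, map_sub, map_pow, Polynomial.aeval_X, Polynomial.aeval_C, e1, e2,
        map_ofNat]
    rw [L.derivWeierstrassP_sq z hz]
  set Nm : Polynomial QB := A ^ 2 - B ^ 2 * cub with hNm
  have hNv : ∀ z, z ∉ L.lattice → Polynomial.aeval (℘[L] z) Nm =
      (Polynomial.aeval (℘[L] z) A + Polynomial.aeval (℘[L] z) B * ℘'[L] z) *
      (Polynomial.aeval (℘[L] z) A - Polynomial.aeval (℘[L] z) B * ℘'[L] z) := by
    intro z hz
    rw [hNm]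
    simp only [map_sub, map_mul, map_pow]
    rw [hcubv z hz]
    ring
  have ht1 : Polynomial.aeval (℘[L] t) Nm = 0 := by
    rw [hNv t ht0, ← hAB t ht0, ← hP t h2t, psi, sigma_coe_eq_zero L ht]
    ring
  have hN0 : Nm = 0 := by
    by_contra hne
    exact hcon (QB_root Nm hne ht1)
  obtain ⟨z, hz2, hzm⟩ := exists_generic L m hm
  have hz := two_mul_notMem_of L hz2
  have h4 := hNv z hz
  rw [hN0, map_zero] at h4
  have hz2' : 2 * (-z) ∉ L.lattice := by
    intro h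
    apply hz2
    have := neg_mem h
    rwa [show -(2 * -z) = 2 * z by ring] at this
  have hz' := two_mul_notMem_of L hz2'
  have h5 : Polynomial.aeval (℘[L] z) A + Polynomial.aeval (℘[L] z) B * ℘'[L] z ≠ 0 := by
    rw [← hAB z hz, ← hP z hz2]
    apply mul_ne_zero _ (pow_ne_zero _ (wp'_ne_zero L hz2))
    rw [psi]
    exact div_ne_zero (sigma_ne_zero L hzm) (pow_ne_zero _ (sigma_ne_zero L hz))
  have h6 : Polynomial.aeval (℘[L] z) A - Polynomial.aeval (℘[L] z) B * ℘'[L] z ≠ 0 := by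
    have h7 : Polynomial.aeval (℘[L] z) A - Polynomial.aeval (℘[L] z) B * ℘'[L] z =
        Polynomial.aeval (℘[L] (-z)) A + Polynomial.aeval (℘[L] (-z)) B * ℘'[L] (-z) := by
      rw [L.weierstrassP_neg, L.derivWeierstrassP_neg]
      ring
    rw [h7, ← hAB (-z) hz', ← hP (-z) hz2']
    apply mul_ne_zero _ (pow_ne_zero _ (wp'_ne_zero L hz2'))
    rw [psi]
    refine div_ne_zero (sigma_ne_zero L ?_) (pow_ne_zero _ (sigma_ne_zero L hz'))
    intro h
    apply hzm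
    have := neg_mem h
    rwa [show -((m : ℂ) * -z) = m * z by ring] at this
  exact (mul_ne_zero h5 h6) h4.symm

end Pool.Agent.W245.EB
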